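import Mathlib
import Pool.Agent.N604.MW.Stm13
import Pool.Agent.N499.AD_AL2
import Pool.Agent.N218.AD_AL1

/-!
# Project AP (helper604), part PL1: the mean of the product over the small frequencies, primes

Adapted from `N499/AD_AL2` (helper499) and `N218/AD_AL1` (helper218).
-/

set_option autoImplicit false

namespace Pool.Agent.N152.AP

open Finset MeasureTheory Pool.Agent.N604.MW
open Pool.Agent.N277.KV (lintegral_pi_prod jensen_sq)
open Pool.Agent.N232.KW (int_rpow)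
open Pool.Agent.N499.AD (e_cont e_nrm int_e integrable_of Aa Aa_nonneg total)
open scoped ENNReal

/-- the square of the norm -/
lemma norm_sqW (A : Finset ℕ) (w : ℕ → ℝ) (k : ℕ) (t a : ℝ) :
    ((‖SW A w (nk k a) t‖ ^ 2 : ℝ) : ℂ) =
    ∑ x ∈ A, ∑ y ∈ A, ((w x * w y : ℝ) : ℂ) * e (a * (t * ((x : ℝ) ^ k - (y : ℝ) ^ k))) := by
  have h1 : ((‖SW A w (nk k a) t‖ ^ 2 : ℝ) : ℂ) =
      SW A w (nk k a) t * (starRingEnd ℂ) (SW A w (nk k a) t) := by
    rw [Complex.mul_conj, Complex.normSq_eq_norm_sq]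
  rw [h1]
  unfold SW
  rw [map_sum, sum_mul_sum]
  apply sum_congr rfl
  intro x _
  apply sum_congr rfl
  intro y _
  have h2 : e (a * (t * ((x : ℝ) ^ k - (y : ℝ) ^ k))) =
      e (t * nk k a x) * (starRingEnd ℂ) (e (t * nk k a y)) := by
    unfold e nk
    rw [← Complex.exp_conj, ← Complex.exp_add]
    congr 1
    simp only [map_mul, Complex.conj_I, Complex.conj_ofReal, map_ofNat]
    push_cast
    ring
  rw [h2, map_mul, Complex.conj_ofReal]
  push_cast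
  ring

lemma mom2W (A : Finset ℕ) (w : ℕ → ℝ) (k : ℕ) (t : ℝ) :
    ∫ a, ‖SW A w (nk k a) t‖ ^ 2 ∂G1 = ∑ x ∈ A, ∑ y ∈ A, (w x * w y) * Aa k t x y := by
  have hint : ∀ x y : ℕ, Integrable (fun a : ℝ => ((w x * w y : ℝ) : ℂ) *
      e (a * (t * ((x : ℝ) ^ k - (y : ℝ) ^ k)))) G1 :=
    fun x y => (integrable_of (e_cont.comp (by fun_prop)) 1 fun a => (e_nrm _).le).const_mul _
  have h1 : ((∫ a, ‖SW A w (nk k a) t‖ ^ 2 ∂G1 : ℝ) : ℂ) =
      ((∑ x ∈ A, ∑ y ∈ A, (w x * w y) * Aa k t x y : ℝ) : ℂ) := by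
    rw [← integral_complex_ofReal]
    simp only [norm_sqW]
    rw [integral_finsetSum _ fun x _ => integrable_finsetSum _ fun y _ => hint x y]
    push_cast
    apply sum_congr rfl
    intro x _
    rw [integral_finsetSum _ fun y _ => by simpa using hint x y]
    apply sum_congr rfl
    intro y _
    rw [integral_const_mul, int_e]
    unfold Aa
    rfl
  exact_mod_cast h1

lemma SW_contW (A : Finset ℕ) (w : ℕ → ℝ) (k : ℕ) (t : ℝ) :
    Continuous fun a : ℝ => SW A w (nk k a) t := by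
  unfold SW nk
  exact continuous_finsetSum _ fun x _ => continuous_const.mul (e_cont.comp (by fun_prop))

lemma SW_norm (A : Finset ℕ) (w : ℕ → ℝ) (f : ℕ → ℝ) (t : ℝ) :
    ‖SW A w f t‖ ≤ ∑ x ∈ A, |w x| := by
  unfold SW
  refine (norm_sum_le _ _).trans (sum_le_sum fun x _ => ?_)
  rw [norm_mul, e_nrm, mul_one, Complex.norm_real, Real.norm_eq_abs]

/-- second moment of one exponential sum -/
theorem l2W (k : ℕ) (hk : 3 ≤ k) (ν : ℕ) (w : ℕ → ℝ) (M : ℝ) (hM : 0 ≤ M)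
    (hw : ∀ x, x < 2 ^ ν → 0 ≤ w x ∧ w x ≤ M) (t : ℝ) (ht : 0 < |t|) :
    ∫⁻ a, ENNReal.ofReal (‖SW (range (2 ^ ν)) w (nk k a) t‖ ^ 2) ∂G1 ≤
      ENNReal.ofReal (M ^ 2 * ((2 : ℝ) ^ ν + 16 * |t| ^ (-(2 / (k : ℝ))))) := by
  obtain ⟨m, rfl⟩ : ∃ m, k = m + 3 := ⟨k - 3, by omega⟩
  set x0 : ℝ := |t| ^ (-(1 / ((m + 3 : ℕ) : ℝ))) with hx0def
  have hx0 : 0 < x0 := Real.rpow_pos_of_pos ht _
  have hk0 : ((m + 3 : ℕ) : ℝ) ≠ 0 := by positivity
  have h1 : |t| * x0 ^ (m + 3) = 1 := by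
    rw [hx0def, ← Real.rpow_natCast, ← Real.rpow_mul ht.le]
    have : -(1 / ((m + 3 : ℕ) : ℝ)) * ((m + 3 : ℕ) : ℝ) = -1 := by
      field_simp
    rw [this, Real.rpow_neg_one, mul_inv_cancel₀ ht.ne']
  have h2 : x0 ^ 2 = |t| ^ (-(2 / ((m + 3 : ℕ) : ℝ))) := by
    rw [hx0def, ← Real.rpow_natCast, ← Real.rpow_mul ht.le]
    congr 1
    push_cast
    ring
  have hI : Integrable (fun a => ‖SW (range (2 ^ ν)) w (nk (m + 3) a) t‖ ^ 2) G1 :=
    integrable_of ((SW_contW _ w _ t).norm.pow 2) ((∑ x ∈ range (2 ^ ν), |w x|) ^ 2) fun a => by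
      rw [norm_pow, norm_norm]
      exact pow_le_pow_left₀ (norm_nonneg _) (SW_norm _ w _ t) 2
  rw [← ofReal_integral_eq_lintegral_ofReal hI (Filter.Eventually.of_forall fun a => by positivity)]
  apply ENNReal.ofReal_le_ofReal
  rw [mom2W, ← h2]
  have h4 := total m t x0 ht hx0 h1 (2 ^ ν)
  push_cast at h4
  calc ∑ x ∈ range (2 ^ ν), ∑ y ∈ range (2 ^ ν), (w x * w y) * Aa (m + 3) t x y
      ≤ ∑ x ∈ range (2 ^ ν), ∑ y ∈ range (2 ^ ν), M ^ 2 * Aa (m + 3) t x y := by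
        apply sum_le_sum
        intro x hx
        apply sum_le_sum
        intro y hy
        rw [mem_range] at hx hy
        obtain ⟨hx1, hx2⟩ := hw x hx
        obtain ⟨hy1, hy2⟩ := hw y hy
        refine mul_le_mul_of_nonneg_right ?_ (Aa_nonneg _ _ _ _)
        rw [pow_two]
        exact mul_le_mul hx2 hy2 hy1 hM
    _ = M ^ 2 * ∑ x ∈ range (2 ^ ν), ∑ y ∈ range (2 ^ ν), Aa (m + 3) t x y := by
        rw [mul_sum]
        apply sum_congr rfl
        intro x _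
        rw [mul_sum]
    _ ≤ M ^ 2 * ((2 : ℝ) ^ ν + 16 * x0 ^ 2) := mul_le_mul_of_nonneg_left h4 (by positivity)

/-- the absolute value -/
noncomputable def fw (w : ℕ → ℝ) (k ν : ℕ) (t a : ℝ) : ℝ≥0∞ :=
  ENNReal.ofReal ‖SW (range (2 ^ ν)) w (nk k a) t‖

lemma SW_measurable (w : ℕ → ℝ) (k ν : ℕ) :
    Measurable fun p : ℝ × ℝ => SW (range (2 ^ ν)) w (nk k p.1) p.2 := by
  refine Continuous.measurable ?_
  unfold SW nk e
  fun_prop

lemma fw_meas2 (w : ℕ → ℝ) (k ν : ℕ) : Measurable fun p : ℝ × ℝ => fw w k ν p.2 p.1 :=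
  (SW_measurable w k ν).norm.ennreal_ofReal

lemma fw_meas (w : ℕ → ℝ) (k ν : ℕ) (t : ℝ) : Measurable (fw w k ν t) :=
  Measurable.comp (g := fun p : ℝ × ℝ => fw w k ν p.2 p.1) (f := fun a => (a, t))
    (fw_meas2 w k ν) (by fun_prop)

/-- the mean of the absolute value -/
noncomputable def hw' (w : ℕ → ℝ) (k ν : ℕ) (t : ℝ) : ℝ≥0∞ := ∫⁻ a, fw w k ν t a ∂G1

theorem swap_eqW (w : ℕ → ℝ) (s k ν : ℕ) (I : Set ℝ) :
    ∫⁻ α, (∫⁻ t in I, ENNReal.ofReal (∏ i, ‖SW (range (2 ^ ν)) w (nk k (α i)) t‖)) ∂(GM s) =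
    ∫⁻ t in I, ∏ _i : Fin s, hw' w k ν t := by
  have h1 : ∀ (α : Fin s → ℝ) (t : ℝ),
      ENNReal.ofReal (∏ i, ‖SW (range (2 ^ ν)) w (nk k (α i)) t‖) = ∏ i, fw w k ν t (α i) := by
    intro α t
    rw [ENNReal.ofReal_prod_of_nonneg fun i _ => norm_nonneg _]
    rfl
  simp only [h1]
  rw [lintegral_lintegral_swap]
  · refine lintegral_congr fun t => ?_
    unfold GM hw'
    exact lintegral_pi_prod (fun _ : Fin s => G1) (fun _ => fw w k ν t) fun _ => fw_meas w k ν t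
  · refine Measurable.aemeasurable ?_
    refine Finset.measurable_prod _ fun i _ => ?_
    exact Measurable.comp (g := fun p : ℝ × ℝ => fw w k ν p.2 p.1)
      (f := fun p : (Fin s → ℝ) × ℝ => (p.1 i, p.2)) (fw_meas2 w k ν) (by fun_prop)

lemma hw_le_sqrt (w : ℕ → ℝ) (k ν : ℕ) (t : ℝ) (M : ℝ) (hM0 : 0 ≤ M)
    (hM : ∫⁻ a, ENNReal.ofReal (‖SW (range (2 ^ ν)) w (nk k a) t‖ ^ 2) ∂G1 ≤
      ENNReal.ofReal (M ^ 2)) : hw' w k ν t ≤ ENNReal.ofReal M := by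
  have h1 : hw' w k ν t ^ 2 ≤ ENNReal.ofReal M ^ 2 := by
    refine (jensen_sq _ _ (fw_meas w k ν t)).trans ?_
    rw [← ENNReal.ofReal_pow hM0]
    refine le_trans (lintegral_mono fun a => ?_) hM
    rw [ENNReal.ofReal_pow (norm_nonneg _)]
    exact le_rfl
  exact (ENNReal.pow_le_pow_left_iff two_ne_zero).1 h1

lemma lam_bd (ν x : ℕ) (hx : x < 2 ^ ν) : 0 ≤ lam x ∧ lam x ≤ (ν : ℝ) + 1 := by
  unfold lam
  split_ifs with hp
  · have hx1 : 1 ≤ x := hp.one_le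
    have hx1' : (1 : ℝ) ≤ x := by exact_mod_cast hx1
    refine ⟨Real.log_nonneg hx1', ?_⟩
    have h1 : Real.log x ≤ Real.log ((2 : ℝ) ^ ν) := by
      apply Real.log_le_log (by linarith)
      exact_mod_cast hx.le
    rw [Real.log_pow] at h1
    have h2 : Real.log 2 ≤ 1 := by
      have := Real.log_two_lt_d9
      linarith
    have h3 : (ν : ℝ) * Real.log 2 ≤ ν * 1 := mul_le_mul_of_nonneg_left h2 (Nat.cast_nonneg ν)
    linarith
  · exact ⟨le_rfl, by positivity⟩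

/-- PL1: the mean of the product over the small frequencies -/
theorem pl1 : S_PL1 := by
  intro k s hk hks
  have hkr : (3 : ℝ) ≤ k := by exact_mod_cast hk
  have hk0 : (0 : ℝ) < k := by linarith
  have hksr : (k : ℝ) < s := by exact_mod_cast hks
  set r : ℝ := (s : ℝ) / k with hr
  have hr1 : 1 < r := by
    rw [hr, lt_div_iff₀ hk0]
    linarith
  have hr1' : 0 < r - 1 := by linarith
  refine ⟨2 * ((5 : ℝ) ^ s * (1 / (r - 1))), by positivity, ?_⟩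
  intro ν A0 hA0
  rw [swap_eqW lam s k ν]
  set ηm : ℝ := (2 : ℝ) ^ (-((k : ℝ) * ν / 2)) with hηm
  set B : ℝ := (5 : ℝ) ^ s * ((ν : ℝ) + 1) ^ s with hB
  have hB0 : 0 < B := by positivity
  have hpt : ∀ t ∈ Arc A0 ηm, ∏ _i : Fin s, hw' lam k ν t ≤ ENNReal.ofReal (B * |t| ^ (-r)) := by
    intro t ht
    have ht0 : 0 < |t| := hA0.trans_le ht.1
    set D : ℝ := |t| ^ (-(1 / (k : ℝ))) with hD
    have hD0 : 0 < D := Real.rpow_pos_of_pos ht0 _
    have hD2 : D ^ 2 = |t| ^ (-(2 / (k : ℝ))) := by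
      rw [hD, ← Real.rpow_natCast, ← Real.rpow_mul ht0.le]
      congr 1
      push_cast
      ring
    have hν : (2 : ℝ) ^ ν ≤ |t| ^ (-(2 / (k : ℝ))) := by
      have e1 : ηm ^ (-(2 / (k : ℝ))) ≤ |t| ^ (-(2 / (k : ℝ))) := by
        refine Real.rpow_le_rpow_of_nonpos ht0 ht.2 ?_
        have : 0 < 2 / (k : ℝ) := by positivity
        linarith
      have e2 : ηm ^ (-(2 / (k : ℝ))) = (2 : ℝ) ^ ν := by
        rw [hηm, ← Real.rpow_mul zero_le_two, ← Real.rpow_natCast]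
        congr 1
        field_simp
      rwa [e2] at e1
    have h1 : hw' lam k ν t ≤ ENNReal.ofReal (5 * ((ν : ℝ) + 1) * D) := by
      refine hw_le_sqrt lam k ν t _ (by positivity) ?_
      refine (l2W k hk ν lam ((ν : ℝ) + 1) (by positivity) (fun x hx => lam_bd ν x hx) t ht0).trans
        (ENNReal.ofReal_le_ofReal ?_)
      rw [mul_pow, mul_pow, hD2]
      have h3 : 0 ≤ |t| ^ (-(2 / (k : ℝ))) := Real.rpow_nonneg ht0.le _
      calc ((ν : ℝ) + 1) ^ 2 * ((2 : ℝ) ^ ν + 16 * |t| ^ (-(2 / (k : ℝ))))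
          ≤ ((ν : ℝ) + 1) ^ 2 * (25 * |t| ^ (-(2 / (k : ℝ)))) := by
            refine mul_le_mul_of_nonneg_left ?_ (by positivity)
            linarith
        _ = 5 ^ 2 * ((ν : ℝ) + 1) ^ 2 * |t| ^ (-(2 / (k : ℝ))) := by ring
    have h2 : ∏ _i : Fin s, hw' lam k ν t ≤ ENNReal.ofReal ((5 * ((ν : ℝ) + 1) * D) ^ s) := by
      rw [Finset.prod_const, Finset.card_univ, Fintype.card_fin, ENNReal.ofReal_pow (by positivity)]
      exact pow_le_pow_left' h1 s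
    refine h2.trans (ENNReal.ofReal_le_ofReal (le_of_eq ?_))
    rw [mul_pow, mul_pow, hB]
    congr 1
    rw [hD, ← Real.rpow_natCast, ← Real.rpow_mul ht0.le]
    congr 1
    rw [hr]
    ring
  refine ((setLIntegral_mono' ?_ hpt).trans (int_rpow A0 ηm r B hA0 hr1 hB0.le)).trans
    (ENNReal.ofReal_le_ofReal (le_of_eq ?_))
  · exact measurableSet_Arc _ _
  · rw [hB]
    ring

end Pool.Agent.N152.AP
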