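import Pool.Agent.N152.Maps3

/-! The projection `X → ℂ` is a `ℤ`-homology fibre bundle. -/

set_option autoImplicit false

open scoped LinearAlgebra.Projectivization

namespace Pool.Agent.N152

open Pool.Agent.Helper922.HB Pool.Agent.Helper10.Dupin Topology TData

section

variable {N : Type} [TopologicalSpace N] (A : Flow N) {X : Type} [TopologicalSpace X]
  (R : Cs × N → X)
  (hR : ∀ p p' : Cs × N, R p = R p' ↔ ∃ m : ℤ, p'.1.1 = qq ^ m * p.1.1 ∧ p'.2 = A.act m p.2)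

/-- swapping two conditions -/
def swapSub {X : Type} [TopologicalSpace X] (F U : Set X) :
    ↥((sub F) ⁻¹' U) ≃ₜ {y : U // y.1 ∈ F} where
  toFun x := ⟨⟨x.1.1, x.2⟩, x.1.2⟩
  invFun y := ⟨⟨y.1.1, y.2⟩, y.1.2⟩
  left_inv _ := rfl
  right_inv _ := rfl
  continuous_toFun := by
    apply Continuous.subtype_mk
    apply Continuous.subtype_mk
    fun_prop
  continuous_invFun := by
    apply Continuous.subtype_mk
    apply Continuous.subtype_mk
    fun_prop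

include hR in
theorem chart_HE (hc : Continuous R) (ho : IsOpenMap R) (pr : X → ℂ) (s0 : ℂ)
    (σ : S1 × S1 × N → ℂ) (hσ : ∀ b x n, pr (R (cu b x, A.act x n)) = σ (b, Ex x, n))
    (h : HE (sub {m | σ m = s0})) : HE (rp (sub (pr ⁻¹' {s0})) (Set.range R)) := by
  obtain ⟨e, he⟩ := exists_chart A R hR hc ho
  have key : ∀ y : Set.range R, pr y.1 = σ (e y) := by
    intro y
    have h1 := he y (ang (e y).2.1) (Ex_ang _)
    rw [h1, hσ, Ex_ang]
  let e1 : ↥((sub (pr ⁻¹' {s0})) ⁻¹' Set.range R) ≃ₜ ↥({m | σ m = s0} : Set (S1 × S1 × N)) :=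
    (swapSub (pr ⁻¹' {s0}) (Set.range R)).trans (e.subtype fun y => by
      change pr y.1 = s0 ↔ σ (e y) = s0
      rw [key])
  exact HE_conj e1 e _ (sub {m | σ m = s0}) (fun _ => rfl) h

end

variable (T : TData)

/-- the projection -/
def prX (y : T.XX) : ℂ := y.1.1

theorem HE_aff3 (s0 : ℂ) : HE (sub {m : S1 × S1 × (ℂ × ℂ) | sg m.2 = s0}) :=
  HE_sub_prod prHE_S1 {m | sg m = s0} (he_aff s0)

theorem HE_DD3 (s0 : ℂ) : HE (sub {m : S1 × S1 × DD | m.2.2.1.2 = s0}) :=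
  HE_sub_prod prHE_S1 {m : S1 × DD | m.2.1.2 = s0}
    (HE_sub_prod prHE_S1 {d : DD | d.1.2 = s0} (he_DD s0))

theorem HE_DP3 (s0 : ℂ) : HE (sub {m : S1 × S1 × DP | m.2.2.1.2 = s0}) :=
  HE_sub_prod prHE_S1 {m : S1 × DP | m.2.1.2 = s0}
    (HE_sub_prod prHE_S1 {d : DP | d.1.2 = s0} (he_DP s0))

theorem HE_fibre (s0 : ℂ) : HE (sub (prX T ⁻¹' {s0})) := by
  refine HE_of_cover _ (Set.range (Raff T)) (Set.range (Rinf T)) (isOpenMap_Raff T).isOpen_range
    (isOpenMap_Rinf T).isOpen_range (cover T) ?_ ?_ ?_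
  · refine chart_HE Aaff (Raff T) (Raff_eq_iff T) (continuous_Raff T) (isOpenMap_Raff T) (prX T) s0
      (fun m => sg m.2) ?_ (HE_aff3 s0)
    rintro b x ⟨z, t⟩
    change (ph (1 / 2) x * z) ^ 2 + (ph (1 / 3) x * t) ^ 3 = (Ex x).1 * (z ^ 2 + t ^ 3)
    rw [mul_pow, mul_pow, ph_pow, ph_pow, ← ph_one]
    norm_num
    ring
  · exact chart_HE Ainf (Rinf T) (Rinf_eq_iff T) (continuous_Rinf T) (isOpenMap_Rinf T) (prX T) s0
      (fun m => m.2.2.1.2) (fun _ _ _ => rfl) (HE_DD3 s0)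
  · have h := chart_HE Adp (Rdp T) (Rdp_eq_iff T) (continuous_Rdp T) (isOpenMap_Rdp T) (prX T) s0
      (fun m => m.2.2.1.2) (fun _ _ _ => rfl) (HE_DP3 s0)
    have hr := range_Rdp T
    let e1 : ↥((sub (prX T ⁻¹' {s0})) ⁻¹' Set.range (Raff T) ∩
        (sub (prX T ⁻¹' {s0})) ⁻¹' Set.range (Rinf T)) ≃ₜ
        ↥((sub (prX T ⁻¹' {s0})) ⁻¹' Set.range (Rdp T)) :=
      Homeomorph.setCongr (by rw [hr, Set.preimage_inter])
    let e2 : ↥(Set.range (Raff T) ∩ Set.range (Rinf T)) ≃ₜ ↥(Set.range (Rdp T)) :=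
      Homeomorph.setCongr hr.symm
    exact HE_conj e1 e2 _ _ (fun _ => rfl) h

theorem isZHFB : IsZHomologyFiberBundle (prX T) := by
  refine ⟨{Set.univ}, ?_, ?_, ?_⟩
  · rintro U hU
    rw [Set.mem_singleton_iff] at hU
    rw [hU]
    exact isOpen_univ
  · intro y
    exact ⟨Set.univ, rfl, Set.mem_univ y⟩
  · rintro U hU y hy
    rw [Set.mem_singleton_iff] at hU
    subst hU
    rw [← HE_iff_bijective]
    have h1 : HE (sub (prX T ⁻¹' Set.univ)) :=
      HE_of_homeo (Homeomorph.Set.univ T.XX) _ fun _ => rfl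
    exact HE.of_comp_left h1 (HE_fibre T y)

end Pool.Agent.N152
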