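import Pool.Agent.N152.Model

/-! Homology equivalences for the affine model. -/

set_option autoImplicit false

namespace Pool.Agent.N152

open Pool.Agent.Helper922.HB Pool.Agent.Helper10.Dupin

/-- radial projection -/
noncomputable def nrm : C(Cs, S1) :=
  ⟨fun z => ⟨z.1 / (‖z.1‖ : ℂ), by
    have := norm_pos_iff.2 z.2
    rw [norm_div, Complex.norm_real, norm_norm, div_self this.ne']⟩, by
    apply Continuous.subtype_mk
    refine Continuous.div (by fun_prop) (by fun_prop) fun z => ?_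
    have := norm_pos_iff.2 z.2
    exact_mod_cast this.ne'⟩

theorem he_nrm : HE nrm := by
  have hpos : ∀ (z : Cs) (l : unitInterval), 0 < (1 - (l : ℝ)) + (l : ℝ) * ‖z.1‖⁻¹ := by
    intro z l
    have h0 := l.2.1
    have h1 := l.2.2
    have hz := norm_pos_iff.2 z.2
    rcases eq_or_lt_of_le h0 with h | h
    · rw [← h]; simp
    · have : 0 < (l : ℝ) * ‖z.1‖⁻¹ := by positivity
      linarith
  refine HE_of_homotopyEquiv nrm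
    ⟨fun b => ⟨b.1, by
      intro h
      have := b.2
      rw [h] at this
      simp at this⟩, by apply Continuous.subtype_mk; fun_prop⟩
    ⟨fun q => ⟨(((1 - (q.2 : ℝ)) + (q.2 : ℝ) * ‖q.1.1‖⁻¹ : ℝ) : ℂ) * q.1.1,
      mul_ne_zero (by exact_mod_cast (hpos q.1 q.2).ne') q.1.2⟩, ?_⟩
    ⟨fun q => q.1, by fun_prop⟩ ?_ ?_ ?_ ?_
  · apply Continuous.subtype_mk
    refine Continuous.mul (Complex.continuous_ofReal.comp ?_) (by fun_prop)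
    refine Continuous.add (by fun_prop) (Continuous.mul (by fun_prop) ?_)
    refine Continuous.inv₀ (by fun_prop) fun q => ?_
    exact (norm_pos_iff.2 q.1.2).ne'
  · intro x
    apply Subtype.ext
    simp
  · intro x
    apply Subtype.ext
    show (((1 - ((1 : unitInterval) : ℝ)) + ((1 : unitInterval) : ℝ) * ‖x.1‖⁻¹ : ℝ) : ℂ) * x.1 =
      x.1 / (‖x.1‖ : ℂ)
    simp [div_eq_mul_inv, mul_comm]
  · intro b; rfl
  · intro b
    apply Subtype.ext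
    show b.1 = b.1 / (‖b.1‖ : ℂ)
    rw [b.2]
    simp

/-- the part of the affine model over `s0` -/
abbrev BB0 (s0 : ℂ) : Type := ↥({m | sg m = s0} : Set (S1 × (ℂ × ℂ)))

theorem S1_ne (b : S1) : b.1 ≠ 0 := by
  intro h
  have := b.2
  rw [h] at this
  simp at this

/-- forget the angle -/
noncomputable def fk (s0 : ℂ) (hs : s0 ≠ 0) : C(BB0 s0, KK) :=
  ⟨fun p => ⟨p.1.2, by
    intro h
    apply hs
    have h1 : p.1.1.1 * (p.1.2.1 ^ 2 + p.1.2.2 ^ 3) = s0 := p.2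
    rw [← h1, h, mul_zero]⟩, by
    apply Continuous.subtype_mk; fun_prop⟩

/-- scaling exponent -/
noncomputable def mu0 (s0 : ℂ) (l : ℝ) (y : ℂ) : ℝ := (‖s0‖ / ‖y‖) ^ (l / 6)

theorem mu0_pos {s0 y : ℂ} (hs : s0 ≠ 0) (hy : y ≠ 0) (l : ℝ) : 0 < mu0 s0 l y := by
  have := norm_pos_iff.2 hs
  have := norm_pos_iff.2 hy
  unfold mu0
  positivity

theorem mu0_pow {s0 y : ℂ} (hs : s0 ≠ 0) (hy : y ≠ 0) : mu0 s0 1 y ^ 6 = ‖s0‖ / ‖y‖ := by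
  have := norm_pos_iff.2 hs
  have := norm_pos_iff.2 hy
  unfold mu0
  rw [← Real.rpow_natCast, ← Real.rpow_mul (by positivity)]
  norm_num

theorem mu0_cont {X : Type} [TopologicalSpace X] {s0 : ℂ} (hs : s0 ≠ 0) {l : X → ℝ} {y : X → ℂ}
    (hl : Continuous l) (hy : Continuous y) (h0 : ∀ x, y x ≠ 0) :
    Continuous fun x => ((mu0 s0 (l x) (y x) : ℝ) : ℂ) := by
  apply Complex.continuous_ofReal.comp
  unfold mu0
  have hsn := norm_pos_iff.2 hs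
  refine Continuous.rpow ?_ (by fun_prop) ?_
  · exact Continuous.div (by fun_prop) (by fun_prop) fun x => (norm_pos_iff.2 (h0 x)).ne'
  · intro x
    left
    have := norm_pos_iff.2 (h0 x)
    positivity

theorem he_fk (s0 : ℂ) (hs : s0 ≠ 0) : HE (fk s0 hs) := by
  have hsn := norm_pos_iff.2 hs
  have e6 : ∀ p : KK, (((mu0 s0 1 (p.1.1 ^ 2 + p.1.2 ^ 3) : ℝ) : ℂ) ^ 3 * p.1.1) ^ 2 +
      (((mu0 s0 1 (p.1.1 ^ 2 + p.1.2 ^ 3) : ℝ) : ℂ) ^ 2 * p.1.2) ^ 3 =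
      ((‖s0‖ : ℂ) / (‖p.1.1 ^ 2 + p.1.2 ^ 3‖ : ℂ)) * (p.1.1 ^ 2 + p.1.2 ^ 3) := by
    intro p
    have h := mu0_pow hs p.2
    have h' : ((mu0 s0 1 (p.1.1 ^ 2 + p.1.2 ^ 3) : ℝ) : ℂ) ^ 6 =
        (‖s0‖ : ℂ) / (‖p.1.1 ^ 2 + p.1.2 ^ 3‖ : ℂ) := by exact_mod_cast h
    rw [← h']
    ring
  refine HE_of_homotopyEquiv (fk s0 hs)
    ⟨fun p => ⟨(⟨(s0 / (‖s0‖ : ℂ)) * ((‖p.1.1 ^ 2 + p.1.2 ^ 3‖ : ℂ) / (p.1.1 ^ 2 + p.1.2 ^ 3)), ?_⟩,
      (((mu0 s0 1 (p.1.1 ^ 2 + p.1.2 ^ 3) : ℝ) : ℂ) ^ 3 * p.1.1,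
        ((mu0 s0 1 (p.1.1 ^ 2 + p.1.2 ^ 3) : ℝ) : ℂ) ^ 2 * p.1.2)), ?_⟩, ?_⟩
    ⟨fun q => q.1, by fun_prop⟩
    ⟨fun q => ⟨(((mu0 s0 (q.2 : ℝ) (q.1.1.1 ^ 2 + q.1.1.2 ^ 3) : ℝ) : ℂ) ^ 3 * q.1.1.1,
        ((mu0 s0 (q.2 : ℝ) (q.1.1.1 ^ 2 + q.1.1.2 ^ 3) : ℝ) : ℂ) ^ 2 * q.1.1.2), ?_⟩, ?_⟩
    ?_ ?_ ?_ ?_
  · have hp := norm_pos_iff.2 p.2
    rw [norm_mul, norm_div, norm_div, Complex.norm_real, Complex.norm_real, norm_norm, norm_norm,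
      div_self hsn.ne', div_self hp.ne', one_mul]
  · have hp := p.2
    have hp' : (‖p.1.1 ^ 2 + p.1.2 ^ 3‖ : ℂ) ≠ 0 := by exact_mod_cast (norm_pos_iff.2 p.2).ne'
    have hs' : (‖s0‖ : ℂ) ≠ 0 := by exact_mod_cast hsn.ne'
    show (s0 / (‖s0‖ : ℂ)) * ((‖p.1.1 ^ 2 + p.1.2 ^ 3‖ : ℂ) / (p.1.1 ^ 2 + p.1.2 ^ 3)) *
      ((((mu0 s0 1 (p.1.1 ^ 2 + p.1.2 ^ 3) : ℝ) : ℂ) ^ 3 * p.1.1) ^ 2 +
      (((mu0 s0 1 (p.1.1 ^ 2 + p.1.2 ^ 3) : ℝ) : ℂ) ^ 2 * p.1.2) ^ 3) = s0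
    rw [e6]
    field_simp
  · apply Continuous.subtype_mk
    have hm : Continuous fun p : KK => ((mu0 s0 1 (p.1.1 ^ 2 + p.1.2 ^ 3) : ℝ) : ℂ) :=
      mu0_cont hs (by fun_prop) (by fun_prop) fun p => p.2
    refine Continuous.prodMk ?_ (by fun_prop)
    apply Continuous.subtype_mk
    refine Continuous.mul (by fun_prop) (Continuous.div (by fun_prop) (by fun_prop) fun p => p.2)
  · have hq := q.1.2
    have hm := mu0_pos hs hq (q.2 : ℝ)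
    have e : (((mu0 s0 (q.2 : ℝ) (q.1.1.1 ^ 2 + q.1.1.2 ^ 3) : ℝ) : ℂ) ^ 3 * q.1.1.1) ^ 2 +
        (((mu0 s0 (q.2 : ℝ) (q.1.1.1 ^ 2 + q.1.1.2 ^ 3) : ℝ) : ℂ) ^ 2 * q.1.1.2) ^ 3 =
        ((mu0 s0 (q.2 : ℝ) (q.1.1.1 ^ 2 + q.1.1.2 ^ 3) : ℝ) : ℂ) ^ 6 *
          (q.1.1.1 ^ 2 + q.1.1.2 ^ 3) := by ring
    rw [e]
    exact mul_ne_zero (pow_ne_zero 6 (by exact_mod_cast hm.ne')) hq
  · apply Continuous.subtype_mk
    have hm : Continuous fun q : KK × unitInterval =>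
        ((mu0 s0 (q.2 : ℝ) (q.1.1.1 ^ 2 + q.1.1.2 ^ 3) : ℝ) : ℂ) :=
      mu0_cont hs (by fun_prop) (by fun_prop) fun q => q.1.2
    fun_prop
  · intro x; rfl
  · intro x
    have hx : x.1.1.1 * (x.1.2.1 ^ 2 + x.1.2.2 ^ 3) = s0 := x.2
    have hne : x.1.2.1 ^ 2 + x.1.2.2 ^ 3 ≠ 0 := by
      intro h; apply hs; rw [← hx, h, mul_zero]
    have hn : ‖x.1.2.1 ^ 2 + x.1.2.2 ^ 3‖ = ‖s0‖ := by
      have h := congrArg norm hx
      rwa [norm_mul, x.1.1.2, one_mul] at h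
    have hs' : (‖s0‖ : ℂ) ≠ 0 := by exact_mod_cast hsn.ne'
    have hm : mu0 s0 1 (x.1.2.1 ^ 2 + x.1.2.2 ^ 3) = 1 := by
      unfold mu0
      rw [hn, div_self hsn.ne', Real.one_rpow]
    apply Subtype.ext
    apply Prod.ext
    · apply Subtype.ext
      show x.1.1.1 = (s0 / (‖s0‖ : ℂ)) * ((‖x.1.2.1 ^ 2 + x.1.2.2 ^ 3‖ : ℂ) /
        (x.1.2.1 ^ 2 + x.1.2.2 ^ 3))
      rw [hn]
      field_simp
      exact hx
    · show x.1.2 = (((mu0 s0 1 (x.1.2.1 ^ 2 + x.1.2.2 ^ 3) : ℝ) : ℂ) ^ 3 * x.1.2.1,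
        ((mu0 s0 1 (x.1.2.1 ^ 2 + x.1.2.2 ^ 3) : ℝ) : ℂ) ^ 2 * x.1.2.2)
      rw [hm]
      simp
  · intro y
    apply Subtype.ext
    simp [mu0]
  · intro y; rfl

/-- the reflection of the circle -/
noncomputable def rfl0 (s0 : ℂ) (hs : s0 ≠ 0) : S1 ≃ₜ S1 where
  toFun b := ⟨(s0 / (‖s0‖ : ℂ)) / b.1, by
    have hsn := norm_pos_iff.2 hs
    rw [norm_div, norm_div, Complex.norm_real, norm_norm, div_self hsn.ne', b.2, div_one]⟩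
  invFun b := ⟨(s0 / (‖s0‖ : ℂ)) / b.1, by
    have hsn := norm_pos_iff.2 hs
    rw [norm_div, norm_div, Complex.norm_real, norm_norm, div_self hsn.ne', b.2, div_one]⟩
  left_inv b := by
    apply Subtype.ext
    have hs' : (‖s0‖ : ℂ) ≠ 0 := by exact_mod_cast (norm_pos_iff.2 hs).ne'
    have := S1_ne b
    show (s0 / (‖s0‖ : ℂ)) / ((s0 / (‖s0‖ : ℂ)) / b.1) = b.1
    field_simp
  right_inv b := by
    apply Subtype.ext
    have hs' : (‖s0‖ : ℂ) ≠ 0 := by exact_mod_cast (norm_pos_iff.2 hs).ne'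
    have := S1_ne b
    show (s0 / (‖s0‖ : ℂ)) / ((s0 / (‖s0‖ : ℂ)) / b.1) = b.1
    field_simp
  continuous_toFun := by
    apply Continuous.subtype_mk
    exact Continuous.div (by fun_prop) (by fun_prop) S1_ne
  continuous_invFun := by
    apply Continuous.subtype_mk
    exact Continuous.div (by fun_prop) (by fun_prop) S1_ne

theorem he_fa (s0 : ℂ) : HE (fa s0) := by
  by_cases hs : s0 = 0
  · subst hs
    exact he_fa_zero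
  · have h1 : HE (⟨rfl0 s0 hs, (rfl0 s0 hs).continuous⟩ : C(S1, S1)) :=
      HE_of_homeo (rfl0 s0 hs) _ fun _ => rfl
    apply HE.of_comp_left h1
    have e : (⟨rfl0 s0 hs, (rfl0 s0 hs).continuous⟩ : C(S1, S1)).comp (fa s0) =
        (nrm.comp phi).comp (fk s0 hs) := by
      apply ContinuousMap.ext
      intro x
      apply Subtype.ext
      have hx : x.1.1.1 * (x.1.2.1 ^ 2 + x.1.2.2 ^ 3) = s0 := x.2
      have hn : ‖x.1.2.1 ^ 2 + x.1.2.2 ^ 3‖ = ‖s0‖ := by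
        have h := congrArg norm hx
        rwa [norm_mul, x.1.1.2, one_mul] at h
      have h2 := S1_ne x.1.1
      have hs' : (‖s0‖ : ℂ) ≠ 0 := by exact_mod_cast (norm_pos_iff.2 hs).ne'
      show (s0 / (‖s0‖ : ℂ)) / x.1.1.1 = (x.1.2.1 ^ 2 + x.1.2.2 ^ 3) /
        (‖x.1.2.1 ^ 2 + x.1.2.2 ^ 3‖ : ℂ)
      rw [hn]
      field_simp
      exact hx.symm
    rw [e]
    exact HE.comp (HE.comp he_nrm he_phi) (he_fk s0 hs)

theorem he_aff (s0 : ℂ) : HE (sub {m : S1 × (ℂ × ℂ) | sg m = s0}) :=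
  HE.of_comp_left he_fst_aff (he_fa s0)

end Pool.Agent.N152
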