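import Pool.Agent.N152.Geo2
import Pool.Agent.N152.Model2

/-! Trivialisation over the torus `ℂˣ / q^ℤ`. -/

set_option autoImplicit false

open scoped LinearAlgebra.Projectivization

namespace Pool.Agent.N152

open Pool.Agent.Helper922.HB Pool.Agent.Helper10.Dupin Topology

/-- the exponential -/
noncomputable def Ex (x : ℝ) : S1 := ⟨Complex.exp ((2 * Real.pi * x : ℝ) * Complex.I),
  Complex.norm_exp_ofReal_mul_I _⟩

theorem continuous_Ex : Continuous Ex := by
  apply Continuous.subtype_mk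
  fun_prop

/-- the angle -/
noncomputable def ang (b : S1) : ℝ := Complex.arg b.1 / (2 * Real.pi)

theorem Ex_ang (b : S1) : Ex (ang b) = b := by
  apply Subtype.ext
  change Complex.exp ((2 * Real.pi * (Complex.arg b.1 / (2 * Real.pi)) : ℝ) * Complex.I) = b.1
  have h : 2 * Real.pi * (Complex.arg b.1 / (2 * Real.pi)) = Complex.arg b.1 := by
    have := Real.pi_pos
    field_simp
  rw [h]
  have := Complex.norm_mul_exp_arg_mul_I b.1
  rwa [b.2, Complex.ofReal_one, one_mul] at this

theorem Ex_eq_iff (x y : ℝ) : Ex x = Ex y ↔ ∃ m : ℤ, y = x + m := by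
  rw [Subtype.ext_iff]
  change Complex.exp _ = Complex.exp _ ↔ _
  rw [Complex.exp_eq_exp_iff_exists_int]
  have hpi : (Real.pi : ℂ) ≠ 0 := by exact_mod_cast Real.pi_pos.ne'
  constructor
  · rintro ⟨n, hn⟩
    refine ⟨-n, ?_⟩
    have h1 : (2 * Real.pi * Complex.I) * ((x : ℂ) - y - n) = 0 := by
      push_cast at hn
      linear_combination hn
    have h2 : (2 * Real.pi * Complex.I : ℂ) ≠ 0 := by simp [hpi]
    have h3 := (mul_eq_zero.1 h1).resolve_left h2
    have h4 : (((x : ℝ) - y - n : ℝ) : ℂ) = 0 := by push_cast; exact h3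
    have h5 : x - y - n = 0 := by exact_mod_cast h4
    push_cast
    linarith
  · rintro ⟨m, rfl⟩
    refine ⟨-m, ?_⟩
    push_cast
    ring

/-- the powers of `1 / 2` -/
noncomputable def hp (x : ℝ) : ℝ := Real.exp (-(Real.log 2) * x)

theorem hp_pos (x : ℝ) : 0 < hp x := Real.exp_pos _

theorem hp_add (x y : ℝ) : hp (x + y) = hp x * hp y := by
  unfold hp
  rw [mul_add, Real.exp_add]

theorem hp_int (m : ℤ) : ((hp m : ℝ) : ℂ) = qq ^ m := by
  unfold hp qq
  have h : Real.exp (-(Real.log 2) * m) = (1 / 2 : ℝ) ^ m := by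
    rw [← Real.rpow_intCast, Real.rpow_def_of_pos (by norm_num)]
    congr 2
    rw [one_div, Real.log_inv]
  rw [h]
  push_cast
  rfl

/-- the logarithm -/
noncomputable def lp (r : ℝ) : ℝ := -(Real.log r / Real.log 2)

theorem lp_hp (x : ℝ) : lp (hp x) = x := by
  unfold lp hp
  rw [Real.log_exp]
  have : Real.log 2 ≠ 0 := (Real.log_pos one_lt_two).ne'
  field_simp

theorem hp_lp {r : ℝ} (hr : 0 < r) : hp (lp r) = r := by
  unfold lp hp
  have : Real.log 2 ≠ 0 := (Real.log_pos one_lt_two).ne'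
  have e : -Real.log 2 * -(Real.log r / Real.log 2) = Real.log r := by field_simp
  rw [e, Real.exp_log hr]

/-- `(b, x) ↦ b 2^{-x}` -/
noncomputable def cu (b : S1) (x : ℝ) : Cs :=
  ⟨b.1 * (hp x : ℂ), mul_ne_zero (S1_ne b) (by exact_mod_cast (hp_pos x).ne')⟩

theorem norm_cu (b : S1) (x : ℝ) : ‖(cu b x).1‖ = hp x := by
  change ‖b.1 * (hp x : ℂ)‖ = _
  rw [norm_mul, b.2, one_mul, Complex.norm_real, Real.norm_of_nonneg (hp_pos x).le]

/-- actions of the additive group of real numbers -/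
structure Flow (N : Type) [TopologicalSpace N] where
  /-- the action -/
  act : ℝ → N → N
  cont : Continuous fun p : ℝ × N => act p.1 p.2
  zero : ∀ n, act 0 n = n
  add : ∀ x y n, act (x + y) n = act x (act y n)

section

variable {N : Type} [TopologicalSpace N] (A : Flow N)

theorem Flow.neg_act (x : ℝ) (n : N) : A.act (-x) (A.act x n) = n := by
  rw [← A.add, neg_add_cancel, A.zero]

theorem Flow.act_neg (x : ℝ) (n : N) : A.act x (A.act (-x) n) = n := by
  rw [← A.add, add_neg_cancel, A.zero]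

/-- the homeomorphism `S1 × ℝ × N ≃ ℂˣ × N` -/
noncomputable def Th : S1 × ℝ × N ≃ₜ Cs × N where
  toFun p := (cu p.1 p.2.1, A.act p.2.1 p.2.2)
  invFun p := (⟨p.1.1 / (‖p.1.1‖ : ℂ), by
      have := norm_pos_iff.2 p.1.2
      rw [norm_div, Complex.norm_real, norm_norm, div_self this.ne']⟩,
    lp ‖p.1.1‖, A.act (-lp ‖p.1.1‖) p.2)
  left_inv p := by
    obtain ⟨b, x, n⟩ := p
    have h := norm_cu b x
    refine Prod.ext (Subtype.ext ?_) (Prod.ext ?_ ?_)
    · change (cu b x).1 / (‖(cu b x).1‖ : ℂ) = b.1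
      rw [h]
      change b.1 * (hp x : ℂ) / (hp x : ℂ) = b.1
      have : (hp x : ℂ) ≠ 0 := by exact_mod_cast (hp_pos x).ne'
      field_simp
    · change lp ‖(cu b x).1‖ = x
      rw [h, lp_hp]
    · change A.act (-lp ‖(cu b x).1‖) (A.act x n) = n
      rw [h, lp_hp, A.neg_act]
  right_inv p := by
    obtain ⟨u, n⟩ := p
    have hu := norm_pos_iff.2 u.2
    refine Prod.ext (Subtype.ext ?_) ?_
    · change u.1 / (‖u.1‖ : ℂ) * (hp (lp ‖u.1‖) : ℂ) = u.1
      rw [hp_lp hu]
      have : (‖u.1‖ : ℂ) ≠ 0 := by exact_mod_cast hu.ne'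
      field_simp
    · exact A.act_neg _ _
  continuous_toFun := by
    refine Continuous.prodMk ?_ (A.cont.comp (by fun_prop : Continuous fun p : S1 × ℝ × N =>
      (p.2.1, p.2.2)))
    apply Continuous.subtype_mk
    unfold hp
    fun_prop
  continuous_invFun := by
    have h1 : Continuous fun p : Cs × N => lp ‖p.1.1‖ := by
      unfold lp
      refine Continuous.neg (Continuous.div_const (Continuous.log (by fun_prop) fun p => ?_) _)
      exact (norm_pos_iff.2 p.1.2).ne'
    refine Continuous.prodMk ?_ (Continuous.prodMk h1 ?_)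
    · apply Continuous.subtype_mk
      refine Continuous.div (by fun_prop) (by fun_prop) fun p => ?_
      exact_mod_cast (norm_pos_iff.2 p.1.2).ne'
    · exact A.cont.comp (h1.neg.prodMk continuous_snd)

variable {X : Type} [TopologicalSpace X] (R : Cs × N → X)

/-- the chart before the identification -/
noncomputable def JJ (p : S1 × ℝ × N) : X := R (Th A p)

/-- the chart -/
noncomputable def jj (p : S1 × S1 × N) : X := JJ A R (p.1, ang p.2.1, p.2.2)

variable (hR : ∀ p p' : Cs × N, R p = R p' ↔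
  ∃ m : ℤ, p'.1.1 = qq ^ m * p.1.1 ∧ p'.2 = A.act m p.2)

include hR in
theorem JJ_eq_iff (p p' : S1 × ℝ × N) : JJ A R p = JJ A R p' ↔
    p.1 = p'.1 ∧ Ex p.2.1 = Ex p'.2.1 ∧ p.2.2 = p'.2.2 := by
  obtain ⟨b, x, n⟩ := p
  obtain ⟨b', x', n'⟩ := p'
  change R (cu b x, A.act x n) = R (cu b' x', A.act x' n') ↔ b = b' ∧ Ex x = Ex x' ∧ n = n'
  rw [hR, Ex_eq_iff]
  constructor
  · rintro ⟨m, h1, h2⟩
    change (cu b' x').1 = qq ^ m * (cu b x).1 at h1
    change A.act x' n' = A.act m (A.act x n) at h2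
    have h3 : x' = x + m := by
      have h4 := congrArg norm h1
      rw [norm_mul, norm_cu, norm_cu, ← hp_int, Complex.norm_real,
        Real.norm_of_nonneg (hp_pos _).le, ← hp_add] at h4
      have h5 := congrArg lp h4
      rw [lp_hp, lp_hp] at h5
      rw [h5]; ring
    refine ⟨?_, ⟨m, h3⟩, ?_⟩
    · apply Subtype.ext
      change b'.1 * (hp x' : ℂ) = qq ^ m * (b.1 * (hp x : ℂ)) at h1
      rw [h3, hp_add, ← hp_int] at h1
      have e1 : (hp x : ℂ) ≠ 0 := by exact_mod_cast (hp_pos x).ne'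
      have e2 : (hp m : ℂ) ≠ 0 := by exact_mod_cast (hp_pos m).ne'
      push_cast at h1
      have e3 : (b.1 - b'.1) * ((hp x : ℂ) * (hp m : ℂ)) = 0 := by linear_combination -h1
      have e4 := (mul_eq_zero.1 e3).resolve_right (mul_ne_zero e1 e2)
      exact sub_eq_zero.1 e4
    · rw [h3, add_comm, A.add] at h2
      have h4 := congrArg (A.act (-(m : ℝ))) h2
      rw [A.neg_act, A.neg_act] at h4
      have h5 := congrArg (A.act (-x)) h4
      rw [A.neg_act, A.neg_act] at h5
      exact h5.symm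
  · rintro ⟨rfl, ⟨m, rfl⟩, rfl⟩
    refine ⟨m, ?_, ?_⟩
    · change b.1 * (hp (x + m) : ℂ) = qq ^ m * (b.1 * (hp x : ℂ))
      rw [hp_add, ← hp_int]
      push_cast
      ring
    · change A.act (x + m) n = A.act m (A.act x n)
      rw [add_comm, A.add]

include hR in
theorem jj_Ex (b : S1) (x : ℝ) (n : N) : jj A R (b, Ex x, n) = JJ A R (b, x, n) := by
  unfold jj
  rw [JJ_eq_iff A R hR]
  exact ⟨rfl, Ex_ang _, rfl⟩

include hR in
theorem jj_inj : Function.Injective (jj A R) := by
  rintro ⟨b, c, n⟩ ⟨b', c', n'⟩ h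
  unfold jj at h
  rw [JJ_eq_iff A R hR] at h
  obtain ⟨h1, h2, h3⟩ := h
  change b = b' at h1
  change Ex (ang c) = Ex (ang c') at h2
  change n = n' at h3
  rw [Ex_ang, Ex_ang] at h2
  rw [h1, h2, h3]

include hR in
theorem jj_cont (hc : Continuous R) : Continuous (jj A R) := by
  have hJ : Continuous (JJ A R) := hc.comp (Th A).continuous
  rw [continuous_iff_continuousAt]
  rintro ⟨b0, c0, n0⟩
  -- a local logarithm
  let l : S1 → ℝ := fun c => ang c0 + Complex.arg (c.1 / c0.1) / (2 * Real.pi)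
  have hl : ∀ c, Ex (l c) = c := by
    intro c
    apply Subtype.ext
    have h0 := congrArg Subtype.val (Ex_ang c0)
    change Complex.exp ((2 * Real.pi * (ang c0) : ℝ) * Complex.I) = c0.1 at h0
    change Complex.exp ((2 * Real.pi * (ang c0 + Complex.arg (c.1 / c0.1) / (2 * Real.pi)) : ℝ) *
      Complex.I) = c.1
    have e : 2 * Real.pi * (ang c0 + Complex.arg (c.1 / c0.1) / (2 * Real.pi)) =
        2 * Real.pi * (ang c0) + Complex.arg (c.1 / c0.1) := by
      have := Real.pi_pos
      field_simp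
    rw [e, Complex.ofReal_add, add_mul, Complex.exp_add, h0]
    have h1 := Complex.norm_mul_exp_arg_mul_I (c.1 / c0.1)
    rw [norm_div, c.2, c0.2, div_one, Complex.ofReal_one, one_mul] at h1
    rw [h1]
    have := S1_ne c0
    field_simp
  have hlc : ContinuousAt l c0 := by
    have h1 : ContinuousAt (fun c : S1 => Complex.arg (c.1 / c0.1)) c0 := by
      have h2 : ContinuousAt Complex.arg (c0.1 / c0.1) := by
        rw [div_self (S1_ne c0)]
        exact Complex.continuousAt_arg Complex.one_mem_slitPlane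
      exact ContinuousAt.comp (f := fun c : S1 => c.1 / c0.1) h2
        (by fun_prop : Continuous fun c : S1 => c.1 / c0.1).continuousAt
    exact continuousAt_const.add (h1.div_const _)
  have hjl : jj A R = fun p : S1 × S1 × N => JJ A R (p.1, l p.2.1, p.2.2) := by
    funext p
    obtain ⟨b, c, n⟩ := p
    change jj A R (b, c, n) = JJ A R (b, l c, n)
    rw [← jj_Ex A R hR, hl]
  rw [hjl]
  refine hJ.continuousAt.comp ?_
  refine ContinuousAt.prodMk continuousAt_fst (ContinuousAt.prodMk ?_ ?_)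
  · exact ContinuousAt.comp (x := ((b0, c0, n0) : S1 × S1 × N)) (g := l)
      (f := fun p : S1 × S1 × N => p.2.1) hlc (by fun_prop)
  · fun_prop

include hR in
theorem jj_open (ho : IsOpenMap R) : IsOpenMap (jj A R) := by
  intro O hO
  have hJ : IsOpenMap (JJ A R) := ho.comp (Th A).isOpenMap
  have h1 : jj A R '' O = JJ A R '' ((fun p : S1 × ℝ × N => (p.1, Ex p.2.1, p.2.2)) ⁻¹' O) := by
    ext y
    constructor
    · rintro ⟨p, hp, rfl⟩
      refine ⟨(p.1, ang p.2.1, p.2.2), ?_, rfl⟩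
      change (p.1, Ex (ang p.2.1), p.2.2) ∈ O
      rw [Ex_ang]
      exact hp
    · rintro ⟨p, hp, rfl⟩
      exact ⟨_, hp, jj_Ex A R hR p.1 p.2.1 p.2.2⟩
  rw [h1]
  apply hJ
  apply hO.preimage
  have := continuous_Ex
  fun_prop

include hR in
theorem jj_range : Set.range (jj A R) = Set.range R := by
  apply Set.Subset.antisymm
  · rintro _ ⟨p, rfl⟩
    exact ⟨_, rfl⟩
  · rintro _ ⟨p, rfl⟩
    refine ⟨(((Th A).symm p).1, Ex ((Th A).symm p).2.1, ((Th A).symm p).2.2), ?_⟩
    rw [jj_Ex A R hR]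
    unfold JJ
    rw [(Th A).apply_symm_apply]

include hR in
theorem jj_emb (hc : Continuous R) (ho : IsOpenMap R) : IsOpenEmbedding (jj A R) :=
  IsOpenEmbedding.of_continuous_injective_isOpenMap (jj_cont A R hR hc) (jj_inj A R hR)
    (jj_open A R hR ho)

include hR in
/-- the chart as a homeomorphism -/
theorem exists_chart (hc : Continuous R) (ho : IsOpenMap R) :
    ∃ e : Set.range R ≃ₜ S1 × S1 × N, ∀ p, ∀ x : ℝ, Ex x = (e p).2.1 →
      p.1 = R (cu (e p).1 x, A.act x (e p).2.2) := by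
  let e1 : Set.range R ≃ₜ Set.range (jj A R) := Homeomorph.setCongr (jj_range A R hR).symm
  refine ⟨e1.trans (jj_emb A R hR hc ho).isEmbedding.toHomeomorph.symm, ?_⟩
  intro p x hx
  set q := (e1.trans (jj_emb A R hR hc ho).isEmbedding.toHomeomorph.symm) p with hq
  have h1 : p.1 = jj A R q := by
    have h2 : (jj_emb A R hR hc ho).isEmbedding.toHomeomorph q = e1 p := by
      rw [hq]
      simp
    have h3 := congrArg Subtype.val h2
    exact h3.symm
  rw [h1]
  obtain ⟨b, c, n⟩ := q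
  change Ex x = c at hx
  subst hx
  exact jj_Ex A R hR b x n

end

end Pool.Agent.N152
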