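import Pool.Agent.N152.FL
import Pool.Agent.Helper10.Dupin.J_circle_H

/-! Products with a circle preserve homology equivalences. -/

set_option autoImplicit false

namespace Pool.Agent.N152

open Pool.Agent.Helper922.HB Pool.Agent.Helper10.Dupin

/-- conjugation by homeomorphisms -/
theorem HE_conj {A B A' B' : Type} [TopologicalSpace A] [TopologicalSpace B]
    [TopologicalSpace A'] [TopologicalSpace B'] (e1 : A ≃ₜ A') (e2 : B ≃ₜ B') (g : C(A, B))
    (g' : C(A', B')) (h : ∀ a, e2 (g a) = g' (e1 a)) (hg' : HE g') : HE g := by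
  have h1 : HE (⟨e1, e1.continuous⟩ : C(A, A')) := HE_of_homeo e1 _ fun _ => rfl
  have h2 : HE (⟨e2, e2.continuous⟩ : C(B, B')) := HE_of_homeo e2 _ fun _ => rfl
  apply HE.of_comp_left h2
  have e : (⟨e2, e2.continuous⟩ : C(B, B')).comp g = g'.comp ⟨e1, e1.continuous⟩ :=
    ContinuousMap.ext h
  rw [e]
  exact HE.comp hg' h1

theorem HE_empty {A B : Type} [TopologicalSpace A] [TopologicalSpace B] [IsEmpty A] [IsEmpty B]
    (g : C(A, B)) : HE g := by
  haveI : ∀ n, IsEmpty (Sing A n) := fun n => ⟨fun σ => IsEmpty.false (σ (Classical.arbitrary _))⟩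
  haveI : ∀ n, IsEmpty (Sing B n) := fun n => ⟨fun σ => IsEmpty.false (σ (Classical.arbitrary _))⟩
  intro n
  constructor
  · intro z _ _
    have : z = 0 := Subsingleton.elim _ _
    rw [this]; exact Submodule.zero_mem _
  · intro b _
    refine ⟨0, Submodule.zero_mem _, ?_⟩
    have : b - push g n 0 = 0 := Subsingleton.elim _ _
    rw [this]; exact Submodule.zero_mem _

/-- multiplication by `C` preserves homology equivalences -/
def PrHE (C : Type) [TopologicalSpace C] : Prop :=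
  ∀ (X Y : Type) [TopologicalSpace X] [TopologicalSpace Y] (f : C(X, Y)), HE f →
    HE ((ContinuousMap.id C).prodMap f)

theorem HE_snd {C X : Type} [TopologicalSpace C] [TopologicalSpace X] (hC : Contr C) :
    HE (ContinuousMap.snd : C(C × X, X)) := by
  obtain ⟨c, H, h0, h1⟩ := hC
  refine HE_of_homotopyEquiv _ ⟨fun x => (c, x), by fun_prop⟩
    ⟨fun p => (H (p.1.1, p.2), p.1.2), by fun_prop⟩ ⟨fun p => p.1, by fun_prop⟩ ?_ ?_ ?_ ?_
  · rintro ⟨a, x⟩; exact Prod.ext (h0 a) rfl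
  · rintro ⟨a, x⟩; exact Prod.ext (h1 a) rfl
  · intro y; rfl
  · intro y; rfl

theorem prHE_contr {C : Type} [TopologicalSpace C] (hC : Contr C) : PrHE C := by
  intro X Y _ _ f hf
  apply HE.of_comp_left (HE_snd hC)
  have e : (ContinuousMap.snd : C(C × Y, Y)).comp ((ContinuousMap.id C).prodMap f) =
      f.comp ContinuousMap.snd := rfl
  rw [e]
  exact HE.comp hf (HE_snd hC)

theorem prHE_empty {C : Type} [TopologicalSpace C] [IsEmpty C] : PrHE C := by
  intro X Y _ _ f _
  exact HE_empty _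

/-- the part of a product over a subset of the first factor -/
def prodSub {C X : Type} [TopologicalSpace C] [TopologicalSpace X] (U : Set C) :
    {p : C × X // p.1 ∈ U} ≃ₜ U × X where
  toFun p := (⟨p.1.1, p.2⟩, p.1.2)
  invFun p := ⟨(p.1.1, p.2), p.1.2⟩
  left_inv _ := rfl
  right_inv _ := rfl
  continuous_toFun := by fun_prop
  continuous_invFun := by fun_prop

theorem prHE_cover {C : Type} [TopologicalSpace C] (U V : Set C) (hU : IsOpen U) (hV : IsOpen V)
    (hUV : ∀ c, c ∈ U ∨ c ∈ V) (h1 : PrHE U) (h2 : PrHE V) (h3 : PrHE ↥(U ∩ V)) : PrHE C := by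
  intro X Y _ _ f hf
  refine HE_of_cover _ (Prod.fst ⁻¹' U) (Prod.fst ⁻¹' V) (hU.preimage continuous_fst)
    (hV.preimage continuous_fst) (fun p => hUV p.1) ?_ ?_ ?_
  · exact HE_conj (prodSub U) (prodSub U) _ _ (fun _ => rfl) (h1 X Y f hf)
  · exact HE_conj (prodSub V) (prodSub V) _ _ (fun _ => rfl) (h2 X Y f hf)
  · exact HE_conj (prodSub (U ∩ V)) (prodSub (U ∩ V)) _ _ (fun _ => rfl) (h3 X Y f hf)

theorem prHE_homeo {C D : Type} [TopologicalSpace C] [TopologicalSpace D] (e : C ≃ₜ D)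
    (h : PrHE D) : PrHE C := by
  intro X Y _ _ f hf
  exact HE_conj (e.prodCongr (Homeomorph.refl X)) (e.prodCongr (Homeomorph.refl Y)) _ _
    (fun _ => rfl) (h X Y f hf)

theorem prHE_S1 : PrHE S1 := by
  have hval : Continuous (fun z : S1 => z.1) := continuous_subtype_val
  have him : Continuous (fun z : S1 => z.1.im) := Complex.continuous_im.comp hval
  have oU : IsOpen ({z : S1 | z.1 ≠ 1} : Set S1) := isOpen_ne_fun hval continuous_const
  have oV : IsOpen ({z : S1 | z.1 ≠ -1} : Set S1) := isOpen_ne_fun hval continuous_const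
  have hUV : ∀ x : S1, x ∈ ({z : S1 | z.1 ≠ 1} : Set S1) ∨ x ∈ ({z : S1 | z.1 ≠ -1} : Set S1) := by
    intro x
    by_cases h : x.1 = 1
    · right
      show x.1 ≠ -1
      rw [h]; norm_num
    · left; exact h
  refine prHE_cover _ _ oU oV hUV (prHE_contr J_circle_H.contr_U) (prHE_contr J_circle_H.contr_V) ?_
  have him' : Continuous (fun x : ↥(({z : S1 | z.1 ≠ 1} : Set S1) ∩ {z : S1 | z.1 ≠ -1}) =>
      x.1.1.im) := him.comp continuous_subtype_val
  have o1 : IsOpen ({x | 0 < x.1.1.im} :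
      Set ↥(({z : S1 | z.1 ≠ 1} : Set S1) ∩ {z : S1 | z.1 ≠ -1})) :=
    isOpen_lt continuous_const him'
  have o2 : IsOpen ({x | x.1.1.im < 0} :
      Set ↥(({z : S1 | z.1 ≠ 1} : Set S1) ∩ {z : S1 | z.1 ≠ -1})) :=
    isOpen_lt him' continuous_const
  refine prHE_cover _ _ o1 o2 (fun x => (J_circle_H.cap_iff x.1).1 x.2) ?_ ?_ ?_
  · refine prHE_contr (J_circle_H.contr_retract J_circle_H.contr_A
        ⟨fun a => ⟨⟨a.1, (J_circle_H.cap_iff a.1).2 (Or.inl a.2)⟩, a.2⟩,
          (continuous_subtype_val.subtype_mk _).subtype_mk _⟩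
        ⟨fun x => ⟨x.1.1, x.2⟩,
          (continuous_subtype_val.comp continuous_subtype_val).subtype_mk _⟩ (fun y => rfl))
  · refine prHE_contr (J_circle_H.contr_retract J_circle_H.contr_B
        ⟨fun a => ⟨⟨a.1, (J_circle_H.cap_iff a.1).2 (Or.inr a.2)⟩, a.2⟩,
          (continuous_subtype_val.subtype_mk _).subtype_mk _⟩
        ⟨fun x => ⟨x.1.1, x.2⟩,
          (continuous_subtype_val.comp continuous_subtype_val).subtype_mk _⟩ (fun y => rfl))
  · haveI : IsEmpty ↥(({x | 0 < x.1.1.im} :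
      Set ↥(({z : S1 | z.1 ≠ 1} : Set S1) ∩ {z : S1 | z.1 ≠ -1})) ∩ {x | x.1.1.im < 0}) := by
      refine ⟨?_⟩
      rintro ⟨x, h1, h2⟩
      have h1' : 0 < x.1.1.im := h1
      have h2' : x.1.1.im < 0 := h2
      exact absurd h1' (not_lt.2 h2'.le)
    exact prHE_empty

end Pool.Agent.N152
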