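import Pool.Agent.N152.Param

/-! Local parametrisations of `X` at infinity; `X` is a closed submanifold. -/

set_option autoImplicit false

open scoped LinearAlgebra.Projectivization

namespace Pool.Agent.N152

open Pool.Agent.Helper922.HB Pool.Agent.Helper10.Dupin Topology TData

variable (T : TData)

/-- domain at infinity -/
def Vinf (u0 : ℂ) : Set (Fin 3 → ℂ) := {v | v 0 ∈ dsc u0 ∧ ‖v 2 * v 1 ^ 6‖ < 1}

theorem isOpen_Vinf (u0 : ℂ) : IsOpen (Vinf u0) := by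
  have h1 : IsOpen {v : Fin 3 → ℂ | v 0 ∈ dsc u0} := (isOpen_dsc u0).preimage (continuous_apply 0)
  have h2 : IsOpen {v : Fin 3 → ℂ | ‖v 2 * v 1 ^ 6‖ < 1} := isOpen_lt (by fun_prop) (by fun_prop)
  exact h1.inter h2

/-- the coordinates as a point -/
def ginf {u0 : ℂ} (hu0 : u0 ≠ 0) (v : Vinf u0) : Cs × DD :=
  (⟨v.1 0, dsc_ne hu0 v.2.1⟩, ⟨(v.1 1, v.1 2), v.2.2⟩)

theorem continuous_ginf {u0 : ℂ} (hu0 : u0 ≠ 0) : Continuous (ginf hu0) := by
  unfold ginf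
  refine Continuous.prodMk (Continuous.subtype_mk ?_ _) (Continuous.subtype_mk
    (Continuous.prodMk ?_ ?_) _)
  · exact (continuous_apply 0).comp continuous_subtype_val
  · exact (continuous_apply 1).comp continuous_subtype_val
  · exact (continuous_apply 2).comp continuous_subtype_val

theorem isOpenMap_ginf {u0 : ℂ} (hu0 : u0 ≠ 0) : IsOpenMap (ginf hu0) := by
  intro O hO
  obtain ⟨O', hO', rfl⟩ := isOpen_induced_iff.1 hO
  have h1 : ginf hu0 '' (Subtype.val ⁻¹' O') = (fun p : Cs × DD =>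
      (![p.1.1, p.2.1.1, p.2.1.2] : Fin 3 → ℂ)) ⁻¹' (Vinf u0 ∩ O') := by
    ext p
    constructor
    · rintro ⟨v, hv, rfl⟩
      change ![v.1 0, v.1 1, v.1 2] ∈ Vinf u0 ∩ O'
      rw [vec3_eta]
      exact ⟨v.2, hv⟩
    · rintro ⟨h2, h3⟩
      exact ⟨⟨_, h2⟩, h3, rfl⟩
  rw [h1]
  refine ((isOpen_Vinf u0).inter hO').preimage ?_
  refine continuous_pi fun i => ?_
  fin_cases i
  · change Continuous fun p : Cs × DD => p.1.1
    fun_prop
  · change Continuous fun p : Cs × DD => p.2.1.1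
    fun_prop
  · change Continuous fun p : Cs × DD => p.2.1.2
    fun_prop

theorem differentiableAt_rt {y : ℂ} (h : y ∈ Complex.slitPlane) : DifferentiableAt ℂ rt y := by
  unfold rt
  exact DifferentiableAt.cpow_const differentiableAt_id h

theorem exists_dinf (v : Fin 3 → ℂ) (hv : ‖v 2 * v 1 ^ 6‖ < 1) :
    ∃ r' : (Fin 3 → ℂ) →L[ℂ] ℂ, HasFDerivAt (fun v : Fin 3 → ℂ => xinf (v 1) (v 2))
      (ContinuousLinearMap.pi ![0, -(v 1 • r' + rt (1 - v 2 * v 1 ^ 6) •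
        (ContinuousLinearMap.proj 1 : (Fin 3 → ℂ) →L[ℂ] ℂ)),
        ((3 : ℕ) * v 1 ^ 2) • (ContinuousLinearMap.proj 1 : (Fin 3 → ℂ) →L[ℂ] ℂ)]) v := by
  have hp1 : HasFDerivAt (fun v : Fin 3 → ℂ => v 1)
      (ContinuousLinearMap.proj 1 : (Fin 3 → ℂ) →L[ℂ] ℂ) v :=
    (ContinuousLinearMap.proj (R := ℂ) (φ := fun _ : Fin 3 => ℂ) 1).hasFDerivAt
  have hd : DifferentiableAt ℂ (fun v : Fin 3 → ℂ => rt (1 - v 2 * v 1 ^ 6)) v := by
    have h1 : DifferentiableAt ℂ (fun v : Fin 3 → ℂ => 1 - v 2 * v 1 ^ 6) v := by fun_prop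
    exact DifferentiableAt.comp v (g := rt) (f := fun v : Fin 3 → ℂ => 1 - v 2 * v 1 ^ 6)
      (differentiableAt_rt (slit_of_lt hv)) h1
  refine ⟨fderiv ℂ (fun v : Fin 3 → ℂ => rt (1 - v 2 * v 1 ^ 6)) v, ?_⟩
  rw [hasFDerivAt_pi']
  intro i
  fin_cases i
  · exact hasFDerivAt_const (1 : ℂ) v
  · exact (hp1.mul hd.hasFDerivAt).neg
  · change HasFDerivAt (fun v : Fin 3 → ℂ => v 1 ^ 3) (((3 : ℕ) * v 1 ^ 2) •
      (ContinuousLinearMap.proj 1 : (Fin 3 → ℂ) →L[ℂ] ℂ)) v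
    have := hp1.pow 3
    simpa using this

/-- parametrisation at infinity -/
noncomputable def Pinf {u0 : ℂ} (hu0 : u0 ≠ 0) : LocalParam 3 T.XX where
  V := Vinf u0
  a v := v 2
  φ v := T.Ph (v 0) (xinf (v 1) (v 2))
  isOpen_V := isOpen_Vinf u0
  holo_a := by
    apply Differentiable.differentiableOn
    fun_prop
  holo_φ := fun v hv => by
    obtain ⟨r', h⟩ := exists_dinf v hv.2
    exact (hasFDerivAt_Ph T _ _ v (dsc_ne hu0 hv.1) h).differentiableAt.differentiableWithinAt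
  φ_ne v hv := T.Ph_ne (dsc_ne hu0 hv.1) (xinf_ne _ _)
  mem v hv := ⟨linf (ginf hu0 ⟨v, hv⟩), rfl⟩
  openEmbedding := by
    have h1 : (fun v : Vinf u0 => (⟨(v.1 2, Projectivization.mk ℂ
        (T.Ph (v.1 0) (xinf (v.1 1) (v.1 2))) (T.Ph_ne (dsc_ne hu0 v.2.1) (xinf_ne _ _))),
        ⟨linf (ginf hu0 ⟨v.1, v.2⟩), rfl⟩⟩ : T.XX)) = Rinf T ∘ ginf hu0 := rfl
    rw [h1]
    refine IsOpenEmbedding.of_continuous_injective_isOpenMap
      ((continuous_Rinf T).comp (continuous_ginf hu0)) ?_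
      ((isOpenMap_Rinf T).comp (isOpenMap_ginf hu0))
    intro v w hvw
    obtain ⟨m, h2, h3⟩ := (Rinf_eq_iff T _ _).1 hvw
    have hm := dsc_int hu0 v.2.1 w.2.1 h2
    subst hm
    have h3' := congrArg Subtype.val h3
    rw [Ainf_int] at h3'
    simp only [zpow_zero, one_mul] at h2 h3'
    have h4 := congrArg Prod.fst h3'
    have h5 := congrArg Prod.snd h3'
    change w.1 0 = v.1 0 at h2
    change w.1 1 = v.1 1 at h4
    change w.1 2 = v.1 2 at h5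
    apply Subtype.ext
    rw [← vec3_eta v.1, ← vec3_eta w.1, h2, h4, h5]
  immersion := by
    intro v hv h ha hc
    obtain ⟨c, hc⟩ := hc
    obtain ⟨r', hr'⟩ := exists_dinf v hv.2
    have key := Ph_immersion T _ _ v (dsc_ne hu0 hv.1) hr' h c hc
    obtain ⟨e1, e2⟩ := key 0
    have e3 := (key 1).2
    have e4 := (key 2).2
    have f0 : xinf (v 1) (v 2) 0 = 1 := rfl
    rw [f0, one_mul] at e1
    rw [f0, mul_one] at e2
    change (0 : ℂ) = c at e2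
    rw [← e2, zero_mul] at e3 e4
    change -(v 1 * r' h + rt (1 - v 2 * v 1 ^ 6) * h 1) = 0 at e3
    change (((3 : ℕ) : ℂ) * v 1 ^ 2) * h 1 = 0 at e4
    have e5 : h 1 = 0 := by
      by_cases h1 : v 1 = 0
      · rw [h1] at e3
        have : rt (1 - v 2 * 0 ^ 6) = 1 := by
          have : (1 - v 2 * 0 ^ 6 : ℂ) = 1 := by ring
          rw [this, rt_one]
        rw [this] at e3
        linear_combination -e3
      · refine (mul_eq_zero.1 e4).resolve_left (mul_ne_zero (by norm_num) (pow_ne_zero 2 h1))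
    have e6 : h 2 = 0 := by
      have h2 : HasFDerivAt (fun v : Fin 3 → ℂ => v 2)
        (ContinuousLinearMap.proj 2 : (Fin 3 → ℂ) →L[ℂ] ℂ) v :=
        (ContinuousLinearMap.proj (R := ℂ) (φ := fun _ : Fin 3 => ℂ) 2).hasFDerivAt
      have h3 : fderiv ℂ (fun v : Fin 3 → ℂ => v 2) v h = 0 := ha
      rw [h2.fderiv] at h3
      exact h3
    rw [← vec3_eta h, e1, e5, e6]
    funext i
    fin_cases i <;> rfl

theorem mem_dsc {u0 : ℂ} (hu0 : u0 ≠ 0) : u0 ∈ dsc u0 := by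
  change ‖u0 - u0‖ < ‖u0‖ / 4
  rw [sub_self, norm_zero]
  have := norm_pos_iff.2 hu0
  positivity

theorem isClosedSubmanifold_XX : IsClosedSubmanifold 3 T.XX := by
  refine ⟨T.isClosed_XX, ?_⟩
  intro p hp
  rcases cover T ⟨p, hp⟩ with h | h
  · obtain ⟨⟨u, z, t⟩, hq⟩ := h
    have h1 := congrArg Subtype.val hq
    refine ⟨Paff T u.2, ![u.1, z, t], mem_dsc u.2, ?_⟩
    exact h1
  · obtain ⟨⟨u, ⟨⟨ρ, s⟩, hd⟩⟩, hq⟩ := h
    have h1 := congrArg Subtype.val hq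
    refine ⟨Pinf T u.2, ![u.1, ρ, s], ⟨mem_dsc u.2, hd⟩, ?_⟩
    exact h1

end Pool.Agent.N152
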