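import Pool.Agent.N152.Asm
import Pool.Agent.N152.Param2
import Pool.Agent.Helper10.Dupin.J_aug

/-! Connectedness of `X` and of the fibres. -/

set_option autoImplicit false

open scoped LinearAlgebra.Projectivization

namespace Pool.Agent.N152

open Pool.Agent.Helper922.HB Pool.Agent.Helper10.Dupin Topology TData

variable (T : TData)

instance pc_DD : PathConnectedSpace DD := J_circle_H.contr_pc contr_DD

theorem pc_XX : PathConnectedSpace T.XX := by
  have h1 : IsPathConnected (Set.range (Raff T)) := by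
    rw [← Set.image_univ]
    exact isPathConnected_univ.image (continuous_Raff T)
  have h2 : IsPathConnected (Set.range (Rinf T)) := by
    rw [← Set.image_univ]
    exact isPathConnected_univ.image (continuous_Rinf T)
  have h3 : (Set.range (Raff T) ∩ Set.range (Rinf T)).Nonempty := by
    rw [← range_Rdp]
    exact ⟨Rdp T (⟨1, one_ne_zero⟩, ⟨(1, 0), one_ne_zero, by simp⟩), _, rfl⟩
  have h4 := h1.union h2 h3
  have h5 : Set.range (Raff T) ∪ Set.range (Rinf T) = Set.univ := by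
    ext y
    simpa using cover T y
  rw [h5] at h4
  exact pathConnectedSpace_iff_univ.2 h4

theorem fibre_ne (s : ℂ) : (prX T ⁻¹' {s}).Nonempty :=
  ⟨Rinf T (⟨1, one_ne_zero⟩, ⟨(0, s), by simp⟩), rfl⟩

theorem fibre_conn (s : ℂ) : IsConnected (prX T ⁻¹' {s}) := by
  have hX := pc_XX T
  refine ⟨fibre_ne T s, ?_⟩
  rw [isPreconnected_iff_preconnectedSpace, preconnectedSpace_iff_clopen]
  intro U hU
  by_contra hcon
  push Not at hcon
  obtain ⟨h1, h2⟩ := hcon
  obtain ⟨p, hp⟩ := h1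
  obtain ⟨p', hp'⟩ := (Set.ne_univ_iff_exists_notMem U).1 h2
  let z : Sing ↥(prX T ⁻¹' {s}) 0 →₀ ℤ :=
    Finsupp.single (ContinuousMap.const _ p) 1 - Finsupp.single (ContinuousMap.const _ p') 1
  have hz0 : ag z = 0 := by
    change ag (Finsupp.single (ContinuousMap.const _ p) 1 -
      Finsupp.single (ContinuousMap.const _ p') 1) = 0
    rw [map_sub, ag_single, ag_single, sub_self]
  have hz1 : push (sub (prX T ⁻¹' {s})) 0 z ∈ Bdy T.XX 0 := by
    apply bdy_of_ag
    rw [ag_push, hz0]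
  have hz2 : z ∈ Bdy _ 0 := (HE_fibre T s 0).1 z Submodule.mem_top hz1
  have hz3 := aug U hU z hz2
  have hlin : ∀ w : Sing ↥(prX T ⁻¹' {s}) 0 →₀ ℤ,
      (w.sum fun σ a => a * U.indicator (fun _ => (1 : ℤ)) (σ (stdSimplex.vertex 0))) =
      Finsupp.linearCombination ℤ (fun σ : Sing ↥(prX T ⁻¹' {s}) 0 =>
        U.indicator (fun _ => (1 : ℤ)) (σ (stdSimplex.vertex 0))) w := by
    intro w
    rw [Finsupp.linearCombination_apply]
    rfl
  rw [hlin, map_sub, Finsupp.linearCombination_single, Finsupp.linearCombination_single] at hz3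
  simp only [ContinuousMap.const_apply, Set.indicator_of_mem hp, Set.indicator_of_notMem hp',
    smul_eq_mul] at hz3
  norm_num at hz3

theorem XX_conn : IsConnected T.XX := by
  have := pc_XX T
  exact isConnected_iff_connectedSpace.2 inferInstance

theorem fibre_conn' (s : ℂ) : IsConnected {p | p ∈ T.XX ∧ p.1 = s} := by
  have h := (fibre_conn T s).image Subtype.val continuous_subtype_val.continuousOn
  convert h using 1
  ext p
  constructor
  · rintro ⟨h1, h2⟩
    exact ⟨⟨p, h1⟩, h2, rfl⟩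
  · rintro ⟨q, hq, rfl⟩
    exact ⟨q.2, hq⟩

/-- at the cuspidal points the projection is not a submersion -/
theorem not_submersive : ∃ p ∈ T.XX, p.1 = 0 ∧ ¬ ProjSubmersiveAt 3 T.XX p := by
  refine ⟨(Raff T (⟨1, one_ne_zero⟩, (0, 0))).1, (Raff T (⟨1, one_ne_zero⟩, (0, 0))).2, ?_, ?_⟩
  · change (0 : ℂ) ^ 2 + 0 ^ 3 = 0
    norm_num
  · intro h
    obtain ⟨k, hk⟩ := h (Paff T (u0 := 1) one_ne_zero) ![1, 0, 0] (mem_dsc one_ne_zero) rfl
    apply hk
    have hp1 : HasFDerivAt (fun v : Fin 3 → ℂ => v 1)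
        (ContinuousLinearMap.proj 1 : (Fin 3 → ℂ) →L[ℂ] ℂ) ![1, 0, 0] :=
      (ContinuousLinearMap.proj (R := ℂ) (φ := fun _ : Fin 3 => ℂ) 1).hasFDerivAt
    have hp2 : HasFDerivAt (fun v : Fin 3 → ℂ => v 2)
        (ContinuousLinearMap.proj 2 : (Fin 3 → ℂ) →L[ℂ] ℂ) ![1, 0, 0] :=
      (ContinuousLinearMap.proj (R := ℂ) (φ := fun _ : Fin 3 => ℂ) 2).hasFDerivAt
    have h1 := (hp1.pow 2).add (hp2.pow 3)
    have h2 : fderiv ℂ (Paff T (u0 := 1) one_ne_zero).a ![1, 0, 0] = _ := h1.fderiv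
    rw [h2]
    simp

end Pool.Agent.N152
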