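import Pool.Agent.N152.CircP
import Pool.Agent.H904R2.Degree

/-! The homology of the punctured plane. -/

set_option autoImplicit false

namespace Pool.Agent.N152

open Pool.Agent.Helper922.HB Pool.Agent.Helper10.Dupin

/-- the punctured plane -/
abbrev Cs : Type := {z : ℂ // z ≠ 0}

/-- power maps of the punctured plane -/
def pw (k : ℕ) : C(Cs, Cs) :=
  ⟨fun z => ⟨z.1 ^ k, pow_ne_zero k z.2⟩, (continuous_subtype_val.pow k).subtype_mk _⟩

/-- augmentation of `0`-chains -/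
noncomputable def ag {X : Type} [TopologicalSpace X] : (Sing X 0 →₀ ℤ) →ₗ[ℤ] ℤ :=
  Finsupp.linearCombination ℤ (fun _ => (1 : ℤ))

theorem ag_eq {X : Type} [TopologicalSpace X] (z : Sing X 0 →₀ ℤ) :
    ag z = Pool.Agent.H904R2.Sph.aug X 0 z := rfl

theorem ag_bdy {X : Type} [TopologicalSpace X] {z : Sing X 0 →₀ ℤ} (hz : z ∈ Bdy X 0) :
    ag z = 0 := by
  obtain ⟨w, rfl⟩ := hz
  rw [ag_eq]
  exact Pool.Agent.H904R2.Sph.aug_sbd w

theorem ag_push {X Y : Type} [TopologicalSpace X] [TopologicalSpace Y] (f : C(X, Y))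
    (z : Sing X 0 →₀ ℤ) : ag (push f 0 z) = ag z := by
  rw [ag_eq, ag_eq]
  exact Pool.Agent.H904R2.Sph.aug_psh f 0 z

theorem ag_single {X : Type} [TopologicalSpace X] (σ : Sing X 0) (a : ℤ) :
    ag (Finsupp.single σ a) = a := by
  rw [ag_eq]
  exact Pool.Agent.H904R2.Sph.aug_single 0 σ a

/-- in a path connected space, chains of augmentation zero are boundaries -/
theorem bdy_of_ag {X : Type} [TopologicalSpace X] [PathConnectedSpace X] {z : Sing X 0 →₀ ℤ}
    (hz : ag z = 0) : z ∈ Bdy X 0 := by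
  obtain ⟨c, -, hgen, -⟩ := pc_zero (X := X)
  obtain ⟨k, hk⟩ := hgen z Submodule.mem_top
  obtain ⟨l, hl⟩ := hgen (Finsupp.single (ContinuousMap.const _ (Classical.arbitrary X)) 1)
    Submodule.mem_top
  have h1 := ag_bdy hk
  have h2 := ag_bdy hl
  rw [map_sub, map_smul, smul_eq_mul] at h1 h2
  rw [ag_single] at h2
  rw [hz, zero_sub, neg_eq_zero, mul_eq_zero] at h1
  rcases h1 with h1 | h1
  · rw [h1, zero_smul, sub_zero] at hk
    exact hk
  · rw [h1, mul_zero, sub_zero] at h2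
    exact absurd h2 one_ne_zero

instance : PathConnectedSpace Cs := by
  have h : IsPathConnected ({0}ᶜ : Set ℂ) :=
    isPathConnected_compl_singleton_of_one_lt_rank (by simp) 0
  exact isPathConnected_iff_pathConnectedSpace.mp h

open Pool.Agent.H904R2 in
/-- the punctured plane in real coordinates -/
noncomputable def pcCs : Pc 2 ≃ₜ Cs where
  toFun v := ⟨Deg.c2 v.1, Deg.c2_ne_zero v⟩
  invFun z := ⟨Deg.put z.1 0, by
    intro h
    have := Deg.c2_put (N := 0) z.1 0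
    rw [h] at this
    apply z.2
    rw [← this]
    simp [Deg.c2]⟩
  left_inv v := by
    apply Deg.pc2_ext
    exact Deg.c2_put _ _
  right_inv z := by
    apply Subtype.ext
    exact Deg.c2_put (N := 0) z.1 0
  continuous_toFun := ((Deg.continuous_c2 0).comp continuous_subtype_val).subtype_mk _
  continuous_invFun := by
    apply Continuous.subtype_mk
    exact (Deg.continuous_put 0).comp (continuous_subtype_val.prodMk continuous_const)

/-- the map to the punctured plane -/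
noncomputable def pcm : C(Pool.Agent.H904R2.Pc 2, Cs) := ⟨pcCs, pcCs.continuous⟩

theorem he_pcm : HE pcm := HE_of_homeo pcCs _ fun _ => rfl

theorem cs_gen : ∃ g ∈ Cyc Cs 1, (∀ z ∈ Cyc Cs 1, ∃ a : ℤ, z - a • g ∈ Bdy Cs 1) ∧
    (∀ a : ℤ, a • g ∈ Bdy Cs 1 → a = 0) ∧
    ∀ k : ℕ, 0 < k → push (pw k) 1 g - (k : ℤ) • g ∈ Bdy Cs 1 := by
  have hf : Pool.Agent.H904R2.fund 1 ∈ Cyc (Pool.Agent.H904R2.Pc 2) 1 :=
    Pool.Agent.H904R2.fund_cyc 1
  refine ⟨push pcm 1 (Pool.Agent.H904R2.fund 1), push_mem_Cyc _ _ _ hf, ?_, ?_, ?_⟩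
  · intro z hz
    obtain ⟨y, hy, hzy⟩ := (he_pcm 1).2 z hz
    obtain ⟨a, ha⟩ := Pool.Agent.H904R2.pc_gen 1 y hy
    have ha' : y - a • Pool.Agent.H904R2.fund 1 ∈ Bdy _ 1 := ha
    refine ⟨a, ?_⟩
    have h1 := push_mem_Bdy pcm 1 _ ha'
    rw [map_sub, map_smul] at h1
    have h2 := (Bdy Cs 1).add_mem hzy h1
    rwa [sub_add_sub_cancel] at h2
  · intro a ha
    rw [← map_smul] at ha
    have h1 := (he_pcm 1).1 _ ((Cyc _ 1).smul_mem a hf) ha
    obtain ⟨ω, hω, h2⟩ := Pool.Agent.H904R2.pc_coc 1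
    have h3 := Pool.Agent.H904R2.Deg.evm_bdy hω (z := a • Pool.Agent.H904R2.fund 1) h1
    rw [map_smul, h2, smul_eq_mul, mul_one] at h3
    exact h3
  · intro k hk
    have h1 : push (Pool.Agent.H904R2.Deg.pf 0 k hk) 1 (Pool.Agent.H904R2.fund 1) -
        (k : ℤ) • Pool.Agent.H904R2.fund 1 ∈ Bdy _ 1 := Pool.Agent.H904R2.Deg.pf_zero_deg k hk
    have h2 := push_mem_Bdy pcm 1 _ h1
    rw [map_sub, map_smul, push_push] at h2
    rw [push_push]
    have e : (pw k).comp pcm = pcm.comp (Pool.Agent.H904R2.Deg.pf 0 k hk) := by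
      apply ContinuousMap.ext
      intro v
      apply Subtype.ext
      exact (Pool.Agent.H904R2.Deg.c2_put (N := 0) _ v.1).symm
    rw [e]
    exact h2

theorem cs_high (n : ℕ) : Cyc Cs (n + 2) ≤ Bdy Cs (n + 2) := by
  intro z hz
  obtain ⟨y, hy, hzy⟩ := (he_pcm (n + 2)).2 z hz
  have h1 : y ∈ Bdy _ (n + 2) := Pool.Agent.H904R2.pc_acyc 1 (n + 2) (by omega) y hy
  have h2 := (Bdy Cs (n + 2)).add_mem hzy (push_mem_Bdy pcm _ _ h1)
  rwa [sub_add_cancel] at h2

end Pool.Agent.N152
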