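import Pool.Agent.N988.EA.Stm4
import Pool.Agent.N46.EA_UN

/-!
# Project EA (helper988), part SEG (helper152): exactly two pure states, deterministic part
-/

set_option autoImplicit false

open Filter Set
open scoped Topology

namespace Pool.Agent.N152.EA

open Pool.Agent.N988.EA Pool.Agent.N46.EA

theorem sg_mul (s : Bool) : sg s * sg s = 1 := by cases s <;> norm_num [sg]

theorem sg_not (s : Bool) : sg (!s) = -sg s := by cases s <;> norm_num [sg]

/-- first coefficient -/
noncomputable def al (k k' : ℝ) : ℝ := (Real.tanh (k + k') + Real.tanh (k - k')) / 2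

/-- second coefficient -/
noncomputable def ga (k k' : ℝ) : ℝ := (Real.tanh (k + k') - Real.tanh (k - k')) / 2

theorem tanh_lin (k k' : ℝ) (s t : Bool) :
    Real.tanh (k * sg s + k' * sg t) = al k k' * sg s + ga k k' * sg t := by
  unfold al ga
  rcases s with _ | _ <;> rcases t with _ | _
  · have e : k * sg false + k' * sg false = -(k + k') := by norm_num [sg]; ring
    rw [e, Real.tanh_neg]
    norm_num [sg]; ring
  · have e : k * sg false + k' * sg true = -(k - k') := by norm_num [sg]; ring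
    rw [e, Real.tanh_neg]
    norm_num [sg]; ring
  · have e : k * sg true + k' * sg false = (k - k') := by norm_num [sg]; ring
    rw [e]
    norm_num [sg]; ring
  · have e : k * sg true + k' * sg true = (k + k') := by norm_num [sg]
    rw [e]
    norm_num [sg]; ring

theorem al_ga_le (k k' : ℝ) : |al k k'| + |ga k k'| ≤ 1 := by
  unfold al ga
  have h1 := abs_le.1 (Real.abs_tanh_lt_one (k + k')).le
  have h2 := abs_le.1 (Real.abs_tanh_lt_one (k - k')).le
  rcases abs_cases ((Real.tanh (k + k') + Real.tanh (k - k')) / 2) with ⟨e1, _⟩ | ⟨e1, _⟩ <;>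
  rcases abs_cases ((Real.tanh (k + k') - Real.tanh (k - k')) / 2) with ⟨e2, _⟩ | ⟨e2, _⟩ <;>
  rw [e1, e2] <;> linarith [h1.1, h1.2, h2.1, h2.2]

theorem ga_le_one (k k' : ℝ) : |ga k k'| ≤ 1 := by
  have := al_ga_le k k'
  linarith [abs_nonneg (al k k')]

theorem good_bounds {k k' : ℝ} (h : |k'| ≤ |k|) :
    (0 ≤ k ∧ Real.tanh (|(|k| - |k'|)|) ≤ Real.tanh (k + k') ∧
      Real.tanh (|(|k| - |k'|)|) ≤ Real.tanh (k - k')) ∨
    (k ≤ 0 ∧ Real.tanh (|(|k| - |k'|)|) ≤ -Real.tanh (k + k') ∧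
      Real.tanh (|(|k| - |k'|)|) ≤ -Real.tanh (k - k')) := by
  have h0 : |(|k| - |k'|)| = |k| - |k'| := abs_of_nonneg (by linarith)
  rw [h0]
  have h1 := le_abs_self k'
  have h2 := neg_le_abs k'
  rcases le_total 0 k with hk | hk
  · left
    rw [abs_of_nonneg hk]
    exact ⟨hk, Pool.Agent.N91.EA.tanh_mono (by linarith), Pool.Agent.N91.EA.tanh_mono (by linarith)⟩
  · right
    rw [abs_of_nonpos hk, ← Real.tanh_neg, ← Real.tanh_neg]
    exact ⟨hk, Pool.Agent.N91.EA.tanh_mono (by linarith), Pool.Agent.N91.EA.tanh_mono (by linarith)⟩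

theorem ga_le_half {k k' : ℝ} (h : |k'| ≤ |k|) : |ga k k'| ≤ 1 / 2 := by
  have h0 : 0 ≤ Real.tanh (|(|k| - |k'|)|) := Pool.Agent.N91.EA.tanh_nonneg (abs_nonneg _)
  have h1 := abs_le.1 (Real.abs_tanh_lt_one (k + k')).le
  have h2 := abs_le.1 (Real.abs_tanh_lt_one (k - k')).le
  unfold ga
  rw [abs_le]
  rcases good_bounds h with ⟨_, h3, h4⟩ | ⟨_, h3, h4⟩
  · constructor <;> linarith [h1.1, h1.2, h2.1, h2.2]
  · constructor <;> linarith [h1.1, h1.2, h2.1, h2.2]

theorem good_w {k k' : ℝ} (h : |k'| ≤ |k|) {w : ℝ} (hw : |w| ≤ 1) :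
    1 - |al k k' + ga k k' * w| ≤ gp k k' := by
  have hw' := abs_le.1 hw
  have e : al k k' + ga k k' * w = Real.tanh (k + k') * ((1 + w) / 2) + Real.tanh (k - k') * ((1 - w) / 2) := by
    unfold al ga
    ring
  rw [e]
  unfold gp
  have p1 : 0 ≤ (1 + w) / 2 := by linarith [hw'.1]
  have p2 : 0 ≤ (1 - w) / 2 := by linarith [hw'.2]
  rcases good_bounds h with ⟨_, h3, h4⟩ | ⟨_, h3, h4⟩
  · have h5 := mul_le_mul_of_nonneg_right h3 p1
    have h6 := mul_le_mul_of_nonneg_right h4 p2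
    have h7 := le_abs_self (Real.tanh (k + k') * ((1 + w) / 2) + Real.tanh (k - k') * ((1 - w) / 2))
    linarith
  · have h5 := mul_le_mul_of_nonneg_right h3 p1
    have h6 := mul_le_mul_of_nonneg_right h4 p2
    have h7 := neg_le_abs (Real.tanh (k + k') * ((1 + w) / 2) + Real.tanh (k - k') * ((1 - w) / 2))
    linarith

section

variable {b : ℕ} {p : ℕ → Fin b × Bool} {J : EdgeInf b p → ℝ} {γ : (n : ℕ) → (Pt b n → Bool) → ℝ}

/-- mean of the left end -/
noncomputable def U (γ : (n : ℕ) → (Pt b n → Bool) → ℝ) (n : ℕ) : ℝ := W γ n (fn 0 1 0 0)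

/-- mean of the right end -/
noncomputable def V (γ : (n : ℕ) → (Pt b n → Bool) → ℝ) (n : ℕ) : ℝ := W γ n (fn 0 0 1 0)

/-- mean of the product of the ends -/
noncomputable def C (γ : (n : ℕ) → (Pt b n → Bool) → ℝ) (n : ℕ) : ℝ := W γ n (fn 0 0 0 1)

theorem W_fn (h : IsGibbs p J γ) (n : ℕ) (c a d e : ℝ) :
    W γ n (fn c a d e) = c + a * U γ n + d * V γ n + e * C γ n := by
  unfold U V C W
  have e1 : ∀ s : Pt b n → Bool, γ n s * fn c a d e (fun t => s (.inl t)) =
      c * γ n s + a * (γ n s * fn 0 1 0 0 (fun t => s (.inl t))) +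
        d * (γ n s * fn 0 0 1 0 (fun t => s (.inl t))) +
        e * (γ n s * fn 0 0 0 1 (fun t => s (.inl t))) := by
    intro s
    simp only [fn]
    ring
  rw [Finset.sum_congr rfl fun s _ => e1 s, Finset.sum_add_distrib, Finset.sum_add_distrib,
    Finset.sum_add_distrib, ← Finset.mul_sum, ← Finset.mul_sum, ← Finset.mul_sum, ← Finset.mul_sum,
    h.total n, mul_one]

theorem W_nonneg (h : IsGibbs p J γ) (n : ℕ) (f : (Bool → Bool) → ℝ) (hf : ∀ τ, 0 ≤ f τ) :
    0 ≤ W γ n f := by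
  unfold W
  exact Finset.sum_nonneg fun s _ => mul_nonneg (h.nonneg n s) (hf _)

theorem pos_ends (h : IsGibbs p J γ) (n : ℕ) (s t : Bool) :
    0 ≤ 1 + sg s * U γ n + sg t * V γ n + sg s * sg t * C γ n := by
  rw [← W_fn h]
  apply W_nonneg h
  intro τ
  simp only [fn]
  rcases s with _ | _ <;> rcases t with _ | _ <;> rcases τ false with _ | _ <;>
    rcases τ true with _ | _ <;> norm_num [sg]

theorem U_le (h : IsGibbs p J γ) (n : ℕ) : |U γ n| ≤ 1 := by
  have := W_lin h n 0 1 0 0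
  simpa [U] using this

theorem V_le (h : IsGibbs p J γ) (n : ℕ) : |V γ n| ≤ 1 := by
  have := W_lin h n 0 0 1 0
  simpa [V] using this

theorem C_le (h : IsGibbs p J γ) (n : ℕ) : |C γ n| ≤ 1 := by
  have := W_lin h n 0 0 0 1
  simpa [C] using this

theorem own_eq (p : ℕ → Fin b × Bool) (J : EdgeInf b p → ℝ) (n : ℕ) :
    (fun e : Edge b n => cpl p J (n + 1) ((p n).1, (p n).2, e)) = cpl p J n := by
  funext e
  exact dif_pos rfl

theorem rec_false (hG : S_G) (h : IsGibbs p J γ) (n : ℕ) (hb : (p n).2 = false) :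
    U γ n = U γ (n + 1) ∧
    V γ n = al (own p J n) (sib p J n) * U γ (n + 1) + ga (own p J n) (sib p J n) * V γ (n + 1) ∧
    C γ n = al (own p J n) (sib p J n) + ga (own p J n) (sib p J n) * C γ (n + 1) := by
  have e1 : (fun e : Edge b n => cpl p J (n + 1) ((p n).1, false, e)) = cpl p J n := by
    have e0 := own_eq p J n
    rw [hb] at e0
    exact e0
  have e2 : sib p J n = K n fun e => cpl p J (n + 1) ((p n).1, true, e) := by
    unfold sib
    rw [hb]
    rfl
  have hm : ∀ τ : Bool → Bool, mag (cpl p J (n + 1)) τ (Sum.inl (p n).1 : Vert b (n + 1)) =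
      al (own p J n) (sib p J n) * sg (τ false) + ga (own p J n) (sib p J n) * sg (τ true) := by
    intro τ
    rw [(hG b).2.1 n (cpl p J (n + 1)) τ (p n).1, ← tanh_lin, e1, e2]
    rfl
  refine ⟨?_, ?_, ?_⟩
  · refine W_succ h n _ _ (fun τ => sg (τ false)) (fun _ => 0) ?_ ?_
    · intro τ s
      simp only [fn, hb, if_true, reduceCtorEq, if_false]
      ring
    · intro τ
      simp only [fn]
      ring
  · have h1 : V γ n = W γ (n + 1) (fn 0 (al (own p J n) (sib p J n)) (ga (own p J n) (sib p J n)) 0) := by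
      refine W_succ h n _ _ (fun _ => 0) (fun _ => 1) ?_ ?_
      · intro τ s
        simp only [fn, hb, if_true, reduceCtorEq, if_false]
        ring
      · intro τ
        rw [hm]
        simp only [fn]
        ring
    rw [h1, W_fn h]
    ring
  · have h1 : C γ n = W γ (n + 1) (fn (al (own p J n) (sib p J n)) 0 0 (ga (own p J n) (sib p J n))) := by
      refine W_succ h n _ _ (fun _ => 0) (fun τ => sg (τ false)) ?_ ?_
      · intro τ s
        simp only [fn, hb, if_true, reduceCtorEq, if_false]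
        ring
      · intro τ
        rw [hm]
        simp only [fn]
        linear_combination (-(al (own p J n) (sib p J n))) * sg_mul (τ false)
    rw [h1, W_fn h]
    ring

theorem rec_true (hG : S_G) (h : IsGibbs p J γ) (n : ℕ) (hb : (p n).2 = true) :
    V γ n = V γ (n + 1) ∧
    U γ n = al (own p J n) (sib p J n) * V γ (n + 1) + ga (own p J n) (sib p J n) * U γ (n + 1) ∧
    C γ n = al (own p J n) (sib p J n) + ga (own p J n) (sib p J n) * C γ (n + 1) := by
  have e1 : (fun e : Edge b n => cpl p J (n + 1) ((p n).1, true, e)) = cpl p J n := by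
    have e0 := own_eq p J n
    rw [hb] at e0
    exact e0
  have e2 : sib p J n = K n fun e => cpl p J (n + 1) ((p n).1, false, e) := by
    unfold sib
    rw [hb]
    rfl
  have hm : ∀ τ : Bool → Bool, mag (cpl p J (n + 1)) τ (Sum.inl (p n).1 : Vert b (n + 1)) =
      al (own p J n) (sib p J n) * sg (τ true) + ga (own p J n) (sib p J n) * sg (τ false) := by
    intro τ
    rw [(hG b).2.1 n (cpl p J (n + 1)) τ (p n).1, ← tanh_lin, e1, e2, add_comm]
    rfl
  refine ⟨?_, ?_, ?_⟩
  · refine W_succ h n _ _ (fun τ => sg (τ true)) (fun _ => 0) ?_ ?_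
    · intro τ s
      simp only [fn, hb, if_true, reduceCtorEq, if_false]
      ring
    · intro τ
      simp only [fn]
      ring
  · have h1 : U γ n = W γ (n + 1) (fn 0 (ga (own p J n) (sib p J n)) (al (own p J n) (sib p J n)) 0) := by
      refine W_succ h n _ _ (fun _ => 0) (fun _ => 1) ?_ ?_
      · intro τ s
        simp only [fn, hb, if_true, reduceCtorEq, if_false]
        ring
      · intro τ
        rw [hm]
        simp only [fn]
        ring
    rw [h1, W_fn h]
    ring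
  · have h1 : C γ n = W γ (n + 1) (fn (al (own p J n) (sib p J n)) 0 0 (ga (own p J n) (sib p J n))) := by
      refine W_succ h n _ _ (fun _ => 0) (fun τ => sg (τ true)) ?_ ?_
      · intro τ s
        simp only [fn, hb, if_true, reduceCtorEq, if_false]
        ring
      · intro τ
        rw [hm]
        simp only [fn]
        linear_combination (-(al (own p J n) (sib p J n))) * sg_mul (τ true)
    rw [h1, W_fn h]
    ring

theorem rec_C (hG : S_G) (h : IsGibbs p J γ) (n : ℕ) :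
    C γ n = al (own p J n) (sib p J n) + ga (own p J n) (sib p J n) * C γ (n + 1) := by
  rcases hb : (p n).2 with _ | _
  · exact (rec_false hG h n hb).2.2
  · exact (rec_true hG h n hb).2.2

/-- the even parts agree -/
theorem C_eq (hG : S_G) (hgood : ∀ k : ℕ, ∃ n, k ≤ n ∧ |sib p J n| ≤ |own p J n|)
    {γ' : (n : ℕ) → (Pt b n → Bool) → ℝ} (h : IsGibbs p J γ) (h' : IsGibbs p J γ') (n : ℕ) :
    C γ n = C γ' n := by
  have step : ∀ n, |C γ n - C γ' n| ≤ |ga (own p J n) (sib p J n)| * |C γ (n + 1) - C γ' (n + 1)| := by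
    intro n
    rw [rec_C hG h n, rec_C hG h' n, ← abs_mul]
    apply le_of_eq
    congr 1
    ring
  have mono : ∀ n m, |C γ n - C γ' n| ≤ |C γ (n + m) - C γ' (n + m)| := by
    intro n m
    induction m with
    | zero => exact le_rfl
    | succ m ih =>
      refine ih.trans ((step (n + m)).trans ?_)
      have := ga_le_one (own p J (n + m)) (sib p J (n + m))
      have h2 := abs_nonneg (C γ (n + m + 1) - C γ' (n + m + 1))
      show _ ≤ |C γ (n + m + 1) - C γ' (n + m + 1)|
      nlinarith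
  have key : ∀ j : ℕ, ∀ n, |C γ n - C γ' n| ≤ 2 / 2 ^ j := by
    intro j
    induction j with
    | zero =>
      intro n
      have h1 := abs_le.1 (C_le h n)
      have h2 := abs_le.1 (C_le h' n)
      rw [abs_le]
      constructor <;> linarith [h1.1, h1.2, h2.1, h2.2]
    | succ j ih =>
      intro n
      obtain ⟨n', hn', hg⟩ := hgood n
      obtain ⟨m, rfl⟩ := Nat.exists_eq_add_of_le hn'
      have h1 := ga_le_half hg
      have h2 := ih (n + m + 1)
      have h3 := abs_nonneg (C γ (n + m + 1) - C γ' (n + m + 1))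
      have h4 : |ga (own p J (n + m)) (sib p J (n + m))| * |C γ (n + m + 1) - C γ' (n + m + 1)| ≤
          1 / 2 * (2 / 2 ^ j) := mul_le_mul h1 h2 h3 (by norm_num)
      refine (mono n m).trans ((step (n + m)).trans (h4.trans (le_of_eq ?_)))
      rw [pow_succ]
      field_simp
  by_contra hne
  have hpos : 0 < |C γ n - C γ' n| := abs_pos.2 (sub_ne_zero.2 hne)
  obtain ⟨j, hj⟩ := exists_pow_lt_of_lt_one (by positivity : 0 < |C γ n - C γ' n| / 2)
    (by norm_num : (1 / 2 : ℝ) < 1)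
  have h1 := key j n
  rw [one_div, inv_pow] at hj
  rw [div_eq_mul_inv] at h1
  linarith

/-- coefficients of a mean in terms of the ends of a larger cell -/
theorem coef (hG : S_G) (m : ℕ) (a₀ d₀ : ℝ) (h₀ : |a₀| + |d₀| ≤ 1) (k : ℕ) : ∃ a d : ℝ, |a| + |d| ≤ 1 ∧
    ∀ γ, IsGibbs p J γ → a₀ * U γ m + d₀ * V γ m = a * U γ (m + k) + d * V γ (m + k) := by
  induction k with
  | zero => exact ⟨a₀, d₀, h₀, fun γ _ => rfl⟩
  | succ k ih =>
    obtain ⟨a, d, h1, h2⟩ := ih
    have h3 := al_ga_le (own p J (m + k)) (sib p J (m + k))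
    obtain ⟨A, hA⟩ : ∃ A, A = al (own p J (m + k)) (sib p J (m + k)) := ⟨_, rfl⟩
    obtain ⟨B, hB⟩ : ∃ B, B = ga (own p J (m + k)) (sib p J (m + k)) := ⟨_, rfl⟩
    rw [← hA, ← hB] at h3
    rcases hb : (p (m + k)).2 with _ | _
    · refine ⟨a + d * A, d * B, ?_, ?_⟩
      · calc |a + d * A| + |d * B| ≤ |a| + |d * A| + |d * B| := by
              linarith [abs_add_le a (d * A)]
          _ = |a| + |d| * (|A| + |B|) := by rw [abs_mul, abs_mul]; ring
          _ ≤ |a| + |d| * 1 := by gcongr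
          _ ≤ 1 := by linarith
      · intro γ hγ
        obtain ⟨r1, r2, -⟩ := rec_false hG hγ (m + k) hb
        rw [← hA, ← hB] at r2
        rw [h2 γ hγ, r1, r2]
        show _ = (a + d * A) * U γ (m + k + 1) + (d * B) * V γ (m + k + 1)
        ring
    · refine ⟨a * B, d + a * A, ?_, ?_⟩
      · calc |a * B| + |d + a * A| ≤ |a * B| + (|d| + |a * A|) := by
              linarith [abs_add_le d (a * A)]
          _ = |d| + |a| * (|A| + |B|) := by rw [abs_mul, abs_mul]; ring
          _ ≤ |d| + |a| * 1 := by gcongr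
          _ ≤ 1 := by linarith
      · intro γ hγ
        obtain ⟨r1, r2, -⟩ := rec_true hG hγ (m + k) hb
        rw [← hA, ← hB] at r2
        rw [h2 γ hγ, r1, r2]
        show _ = (a * B) * U γ (m + k + 1) + (d + a * A) * V γ (m + k + 1)
        ring

/-- the sign of the correlation -/
noncomputable def sn (γ : (n : ℕ) → (Pt b n → Bool) → ℝ) (n : ℕ) : ℝ := if 0 ≤ C γ n then 1 else -1

theorem sn_abs (γ : (n : ℕ) → (Pt b n → Bool) → ℝ) (n : ℕ) : |sn γ n| = 1 := by
  unfold sn
  split_ifs <;> norm_num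

theorem near {γ' : (n : ℕ) → (Pt b n → Bool) → ℝ} (h' : IsGibbs p J γ')
    (n : ℕ) (hC : C γ n = C γ' n) : |V γ' n - sn γ n * U γ' n| ≤ 1 - |C γ n| := by
  have h1 := pos_ends h' n true true
  have h2 := pos_ends h' n true false
  have h3 := pos_ends h' n false true
  have h4 := pos_ends h' n false false
  simp only [Pool.Agent.N91.EA.sg_true, Pool.Agent.N91.EA.sg_false] at h1 h2 h3 h4
  rw [hC]
  unfold sn
  rw [hC]
  split_ifs with h
  · rw [abs_of_nonneg h, abs_le]
    constructor <;> linarith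
  · push Not at h
    rw [abs_of_neg h, abs_le]
    constructor <;> linarith

theorem ratio (hG : S_G) (hgood : ∀ k : ℕ, ∃ n, k ≤ n ∧ |sib p J n| ≤ |own p J n|)
    (hgp : Tendsto (fun n => gp (own p J n) (sib p J n)) atTop (𝓝 0))
    {γ' : (n : ℕ) → (Pt b n → Bool) → ℝ} (h : IsGibbs p J γ) (h' : IsGibbs p J γ')
    (hns : ∃ m, U γ m ≠ 0 ∨ V γ m ≠ 0) :
    ∃ c : ℝ, ∀ m, U γ' m = c * U γ m ∧ V γ' m = c * V γ m := by
  have hne : NeBot (atTop ⊓ 𝓟 {n : ℕ | |sib p J n| ≤ |own p J n|}) := by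
    rw [← frequently_mem_iff_neBot, frequently_atTop]
    intro k
    obtain ⟨n, hn, hg⟩ := hgood k
    exact ⟨n, hn, hg⟩
  obtain ⟨F, hF⟩ : ∃ F : Ultrafilter ℕ, (F : Filter ℕ) ≤ atTop ⊓ 𝓟 {n : ℕ | |sib p J n| ≤ |own p J n|} :=
    ⟨Ultrafilter.of _, Ultrafilter.of_le _⟩
  have hF1 : (F : Filter ℕ) ≤ atTop := hF.trans inf_le_left
  have hF2 : ∀ᶠ n in (F : Filter ℕ), |sib p J n| ≤ |own p J n| :=
    hF.trans inf_le_right (mem_principal_self _)
  have lim : ∀ x : ℕ → ℝ, (∀ n, |x n| ≤ 1) → ∃ L, Tendsto x F (𝓝 L) := by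
    intro x hx
    obtain ⟨L, -, hL⟩ := (isCompact_Icc (a := (-1 : ℝ)) (b := 1)).ultrafilter_le_nhds' (F.map x)
      (by
        rw [Ultrafilter.mem_map]
        exact univ_mem' fun n => abs_le.1 (hx n))
    exact ⟨L, hL⟩
  obtain ⟨L, hL⟩ := lim (U γ) (U_le h)
  obtain ⟨L', hL'⟩ := lim (U γ') (U_le h')
  have hgpF : Tendsto (fun n => gp (own p J n) (sib p J n)) F (𝓝 0) := hgp.mono_left hF1
  have hdel : ∀ γ₁, IsGibbs p J γ₁ → Tendsto (fun n => V γ₁ n - sn γ n * U γ₁ n) F (𝓝 0) := by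
    intro γ₁ h₁
    refine squeeze_zero_norm' ?_ hgpF
    filter_upwards [hF2] with n hn
    rw [Real.norm_eq_abs]
    refine (near h₁ n (C_eq hG hgood h h₁ n)).trans ?_
    rw [rec_C hG h n]
    exact good_w hn (C_le h _)
  have val : ∀ m (a₀ d₀ : ℝ), |a₀| + |d₀| ≤ 1 → ∃ g : ℝ, a₀ * U γ m + d₀ * V γ m = g * L ∧
      a₀ * U γ' m + d₀ * V γ' m = g * L' := by
    intro m a₀ d₀ h₀
    have hc : ∀ n, ∃ a d : ℝ, |a| + |d| ≤ 1 ∧ (m ≤ n →
        ∀ γ, IsGibbs p J γ → a₀ * U γ m + d₀ * V γ m = a * U γ n + d * V γ n) := by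
      intro n
      by_cases hmn : m ≤ n
      · obtain ⟨k, rfl⟩ := Nat.exists_eq_add_of_le hmn
        obtain ⟨a, d, h1, h2⟩ := coef (p := p) (J := J) hG m a₀ d₀ h₀ k
        exact ⟨a, d, h1, fun _ => h2⟩
      · exact ⟨0, 0, by norm_num, fun h => absurd h hmn⟩
    choose a d h1 h2 using hc
    obtain ⟨g, hg⟩ := lim (fun n => a n + sn γ n * d n) (fun n => by
      refine (abs_add_le _ _).trans ?_
      rw [abs_mul, sn_abs, one_mul]
      exact h1 n)
    have hd : ∀ n, |d n| ≤ 1 := fun n => by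
      have := h1 n
      have := abs_nonneg (a n)
      linarith
    have gen : ∀ γ₁, IsGibbs p J γ₁ → ∀ L₁, Tendsto (U γ₁) F (𝓝 L₁) →
        a₀ * U γ₁ m + d₀ * V γ₁ m = g * L₁ := by
      intro γ₁ h₁ L₁ hL₁
      have t1 : Tendsto (fun n => (a n + sn γ n * d n) * U γ₁ n + d n * (V γ₁ n - sn γ n * U γ₁ n)) F
          (𝓝 (g * L₁ + 0)) := by
        refine (hg.mul hL₁).add ?_
        have t2 := (hdel γ₁ h₁).abs
        rw [abs_zero] at t2
        refine squeeze_zero_norm (fun n => ?_) t2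
        rw [Real.norm_eq_abs, abs_mul]
        calc |d n| * |V γ₁ n - sn γ n * U γ₁ n| ≤ 1 * |V γ₁ n - sn γ n * U γ₁ n| := by
              gcongr
              exact hd n
          _ = _ := one_mul _
      have t3 : Tendsto (fun n => (a n + sn γ n * d n) * U γ₁ n + d n * (V γ₁ n - sn γ n * U γ₁ n)) F
          (𝓝 (a₀ * U γ₁ m + d₀ * V γ₁ m)) := by
        refine Tendsto.congr' ?_ tendsto_const_nhds
        filter_upwards [hF1 (eventually_ge_atTop m)] with n hn
        rw [h2 n hn γ₁ h₁]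
        ring
      have := tendsto_nhds_unique t3 t1
      rw [this, add_zero]
    exact ⟨g, gen γ h L hL, gen γ' h' L' hL'⟩
  have hL0 : L ≠ 0 := by
    intro hL0
    obtain ⟨m, hm⟩ := hns
    rcases hm with hm | hm
    · obtain ⟨g, hg, -⟩ := val m 1 0 (by norm_num)
      rw [hL0] at hg
      apply hm
      linarith
    · obtain ⟨g, hg, -⟩ := val m 0 1 (by norm_num)
      rw [hL0] at hg
      apply hm
      linarith
  refine ⟨L' / L, fun m => ⟨?_, ?_⟩⟩
  · obtain ⟨g, hg, hg'⟩ := val m 1 0 (by norm_num)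
    have e1 : U γ m = g * L := by linarith
    have e2 : U γ' m = g * L' := by linarith
    rw [e1, e2]
    field_simp
  · obtain ⟨g, hg, hg'⟩ := val m 0 1 (by norm_num)
    have e1 : V γ m = g * L := by linarith
    have e2 : V γ' m = g * L' := by linarith
    rw [e1, e2]
    field_simp

/-- the weights in terms of the means -/
theorem formula (h : IsGibbs p J γ) (n : ℕ) (τ : Bool → Bool) (σ : Vert b n → Bool) :
    γ n (Sum.elim τ σ) = (1 + sg (τ false) * U γ n + sg (τ true) * V γ n +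
      sg (τ false) * sg (τ true) * C γ n) / 4 * (Real.exp (act (cpl p J n) τ σ) / Z (cpl p J n) τ) := by
  rw [h.dlr n τ σ]
  congr 1
  set f : (Bool → Bool) → ℝ := fn (1 / 4) (sg (τ false) / 4) (sg (τ true) / 4)
    (sg (τ false) * sg (τ true) / 4) with hf
  have hfe : ∀ τ' : Bool → Bool, f τ' = if τ' = τ then 1 else 0 := by
    intro τ'
    have h1 : (τ' = τ) ↔ (τ' false = τ false ∧ τ' true = τ true) := by
      constructor
      · rintro rfl; exact ⟨rfl, rfl⟩
      · rintro ⟨h1, h2⟩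
        funext t
        cases t
        · exact h1
        · exact h2
    simp only [h1, hf, fn]
    rcases τ false with _ | _ <;> rcases τ true with _ | _ <;>
      rcases τ' false with _ | _ <;> rcases τ' true with _ | _ <;> norm_num [sg]
  have e1 : W γ n f = ∑ σ : Vert b n → Bool, γ n (Sum.elim τ σ) := by
    rw [W_eq]
    simp only [hfe, mul_ite, mul_one, mul_zero]
    rw [Finset.sum_ite_eq' Finset.univ τ]
    simp
  rw [← e1, hf, W_fn h]
  ring

theorem elim_eta {n : ℕ} (s : Pt b n → Bool) : s = Sum.elim (fun t => s (.inl t)) (fun x => s (.inr x)) := by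
  funext x
  rcases x with x | x <;> rfl

/-- negation of the configurations -/
def ng (A : Type) : (A → Bool) ≃ (A → Bool) where
  toFun s := fun x => !(s x)
  invFun s := fun x => !(s x)
  left_inv s := by funext x; simp
  right_inv s := by funext x; simp

theorem act_neg {n : ℕ} (J : Edge b n → ℝ) (τ : Bool → Bool) (σ : Vert b n → Bool) :
    act J (fun t => !(τ t)) (fun x => !(σ x)) = act J τ σ := by
  unfold act
  refine Finset.sum_congr rfl fun e _ => ?_
  have h1 : ∀ x : Pt b n, sg (Sum.elim (fun t => !(τ t)) (fun x => !(σ x)) x) =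
      -sg (Sum.elim τ σ x) := by
    intro x
    rcases x with x | x
    · exact sg_not _
    · exact sg_not _
  rw [h1, h1]
  ring

theorem Z_neg {n : ℕ} (J : Edge b n → ℝ) (τ : Bool → Bool) : Z J (fun t => !(τ t)) = Z J τ := by
  unfold Z
  rw [← Equiv.sum_comp (ng (Vert b n))]
  refine Finset.sum_congr rfl fun σ _ => ?_
  show Real.exp (act J (fun t => !(τ t)) (fun x => !(σ x))) = _
  rw [act_neg]

theorem fl_elim (γ : (n : ℕ) → (Pt b n → Bool) → ℝ) (n : ℕ) (τ : Bool → Bool) (σ : Vert b n → Bool) :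
    fl γ n (Sum.elim τ σ) = γ n (Sum.elim (fun t => !(τ t)) (fun x => !(σ x))) := by
  unfold fl
  congr 1
  funext x
  rcases x with x | x <;> rfl

theorem fl_fl (γ : (n : ℕ) → (Pt b n → Bool) → ℝ) : fl (fl γ) = γ := by
  funext n s
  unfold fl
  congr 1
  funext x
  simp

/-- the flipped state -/
theorem fl_gibbs (h : IsGibbs p J γ) : IsGibbs p J (fl γ) where
  nonneg n s := h.nonneg n _
  total n := by
    rw [← h.total n]
    exact Equiv.sum_comp (ng (Pt b n)) (γ n)
  consistent n s := by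
    show γ n (fun x => !(s x)) = _
    rw [h.consistent n, ← Equiv.sum_comp (ng (Pt b (n + 1)))]
    refine Finset.sum_congr rfl fun s' _ => ?_
    have h1 : ((ng (Pt b (n + 1))) s' ∘ emb (p n).1 (p n).2 = fun x => !(s x)) ↔
        (s' ∘ emb (p n).1 (p n).2 = s) := by
      constructor
      · intro hh
        funext x
        have := congrFun hh x
        have h2 : (!(s' (emb (p n).1 (p n).2 x))) = !(s x) := this
        have h3 := congrArg (fun b => !b) h2
        simpa using h3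
      · intro hh
        funext x
        have := congrFun hh x
        show (!(s' (emb (p n).1 (p n).2 x))) = !(s x)
        rw [← this]
        rfl
    by_cases h2 : s' ∘ emb (p n).1 (p n).2 = s
    · rw [if_pos h2, if_pos (h1.2 h2)]
      rfl
    · rw [if_neg h2, if_neg fun h3 => h2 (h1.1 h3)]
  dlr n τ σ := by
    rw [fl_elim, h.dlr, act_neg, Z_neg]
    congr 1
    rw [← Equiv.sum_comp (ng (Vert b n))]
    refine Finset.sum_congr rfl fun σ' _ => ?_
    rw [fl_elim]
    rfl

theorem U_fl (_h : IsGibbs p J γ) (n : ℕ) : U (fl γ) n = -U γ n := by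
  unfold U W
  rw [← Equiv.sum_comp (ng (Pt b n)), ← Finset.sum_neg_distrib]
  refine Finset.sum_congr rfl fun s _ => ?_
  have h1 : fl γ n (ng (Pt b n) s) = γ n s := by
    have := congrFun (congrFun (fl_fl γ) n) s
    exact this
  rw [h1]
  simp only [fn]
  have h2 : ∀ t, sg ((ng (Pt b n)) s (.inl t)) = -sg (s (.inl t)) := fun t => sg_not _
  rw [h2, h2]
  ring

theorem V_fl (_h : IsGibbs p J γ) (n : ℕ) : V (fl γ) n = -V γ n := by
  unfold V W
  rw [← Equiv.sum_comp (ng (Pt b n)), ← Finset.sum_neg_distrib]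
  refine Finset.sum_congr rfl fun s _ => ?_
  have h1 : fl γ n (ng (Pt b n) s) = γ n s := by
    have := congrFun (congrFun (fl_fl γ) n) s
    exact this
  rw [h1]
  simp only [fn]
  have h2 : ∀ t, sg ((ng (Pt b n)) s (.inl t)) = -sg (s (.inl t)) := fun t => sg_not _
  rw [h2, h2]
  ring

/-- affine combinations -/
theorem aff {γ' : (n : ℕ) → (Pt b n → Bool) → ℝ} (h : IsGibbs p J γ) (h' : IsGibbs p J γ')
    (t : ℝ) (δ : (n : ℕ) → (Pt b n → Bool) → ℝ)
    (hδ : ∀ n s, δ n s = t * γ n s + (1 - t) * γ' n s) (h0 : ∀ n s, 0 ≤ δ n s) : IsGibbs p J δ where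
  nonneg := h0
  total n := by
    rw [Finset.sum_congr rfl fun s _ => hδ n s, Finset.sum_add_distrib, ← Finset.mul_sum,
      ← Finset.mul_sum, h.total, h'.total]
    ring
  consistent n s := by
    rw [hδ, h.consistent, h'.consistent, Finset.mul_sum, Finset.mul_sum, ← Finset.sum_add_distrib]
    refine Finset.sum_congr rfl fun s' _ => ?_
    split_ifs
    · rw [hδ]
    · ring
  dlr n τ σ := by
    rw [hδ, h.dlr, h'.dlr, Finset.sum_congr rfl fun s _ => hδ n (Sum.elim τ s),
      Finset.sum_add_distrib, ← Finset.mul_sum, ← Finset.mul_sum]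
    ring

end

/-- **SEG** -/
theorem t_SEG (hG : S_G) : S_SEG := by
  intro b p J hgood hgp hex
  -- a state which is not symmetric
  obtain ⟨γ₀, h₀, hns⟩ : ∃ γ, IsGibbs p J γ ∧ ∃ m, U γ m ≠ 0 ∨ V γ m ≠ 0 := by
    by_contra hno
    push Not at hno
    obtain ⟨γ, γ', hne, h, h'⟩ := hex
    apply hne
    funext n s
    rw [elim_eta s, formula h, formula h', (hno γ h n).1, (hno γ h n).2, (hno γ' h' n).1,
      (hno γ' h' n).2, C_eq hG hgood h h' n]
  have h₀f := fl_gibbs h₀
  -- the line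
  obtain ⟨Γ, hΓ⟩ : ∃ Γ : ℝ → (n : ℕ) → (Pt b n → Bool) → ℝ, Γ = fun c n s =>
    (1 + c) / 2 * γ₀ n s + (1 - (1 + c) / 2) * fl γ₀ n s := ⟨_, rfl⟩
  have hΓe : ∀ c n s, Γ c n s = (1 + c) / 2 * γ₀ n s + (1 - (1 + c) / 2) * fl γ₀ n s := by
    intro c n s
    rw [hΓ]
  have hΓfl : ∀ c, fl (Γ c) = Γ (-c) := by
    intro c
    funext n s
    have e1 : fl (Γ c) n s = (1 + c) / 2 * fl γ₀ n s + (1 - (1 + c) / 2) * fl (fl γ₀) n s := by
      show Γ c n _ = _
      rw [hΓe]
      rfl
    rw [e1, fl_fl, hΓe]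
    ring
  -- all the states are on the line
  have hline : ∀ γ', IsGibbs p J γ' → ∃ c, γ' = Γ c := by
    intro γ' h'
    obtain ⟨c, hc⟩ := ratio hG hgood hgp h₀ h' hns
    refine ⟨c, ?_⟩
    funext n s
    rw [elim_eta s, hΓe, formula h', formula h₀, formula h₀f, U_fl h₀, V_fl h₀, (hc n).1, (hc n).2,
      C_eq hG hgood h' h₀ n, C_eq hG hgood h₀f h₀ n]
    ring
  -- the interval
  obtain ⟨S, hS⟩ : ∃ S : Set ℝ, S = {c | ∀ n s, 0 ≤ Γ c n s} := ⟨_, rfl⟩
  have hSm : ∀ c, c ∈ S ↔ ∀ n s, 0 ≤ Γ c n s := fun c => by rw [hS]; rfl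
  have hSg : ∀ c, c ∈ S → IsGibbs p J (Γ c) := fun c hc =>
    aff h₀ h₀f ((1 + c) / 2) (Γ c) (hΓe c) ((hSm c).1 hc)
  have hSneg : ∀ c, c ∈ S → -c ∈ S := by
    intro c hc
    rw [hSm, ← hΓfl]
    intro n s
    exact (hSm c).1 hc n _
  have h1S : (1 : ℝ) ∈ S := by
    rw [hSm]
    intro n s
    rw [hΓe]
    have := h₀.nonneg n s
    linarith
  have hSc : IsClosed S := by
    rw [hS]
    have : {c : ℝ | ∀ (n : ℕ) (s : Pt b n → Bool), 0 ≤ Γ c n s} =
        ⋂ (n : ℕ), ⋂ (s : Pt b n → Bool), {c : ℝ | 0 ≤ Γ c n s} := by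
      ext c
      simp only [mem_ofPred_eq, mem_iInter]
    rw [this]
    refine isClosed_iInter fun n => isClosed_iInter fun s => ?_
    refine isClosed_le continuous_const ?_
    have : (fun c => Γ c n s) = fun c => (1 + c) / 2 * γ₀ n s + (1 - (1 + c) / 2) * fl γ₀ n s := by
      funext c
      exact hΓe c n s
    rw [this]
    fun_prop
  have hflne : ∃ n s, γ₀ n s ≠ fl γ₀ n s := by
    by_contra hno
    push Not at hno
    have heq : γ₀ = fl γ₀ := by
      funext n s
      exact hno n s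
    obtain ⟨m, hm⟩ := hns
    rcases hm with hm | hm
    · have := U_fl h₀ m
      rw [← heq] at this
      apply hm
      linarith
    · have := V_fl h₀ m
      rw [← heq] at this
      apply hm
      linarith
  obtain ⟨n₀, s₀, hne₀⟩ := hflne
  have hle1 : ∀ γ, IsGibbs p J γ → ∀ n s, γ n s ≤ 1 := by
    intro γ h n s
    rw [← h.total n]
    exact Finset.single_le_sum (f := γ n) (fun s' _ => h.nonneg n s') (Finset.mem_univ s)
  have hSb : BddAbove S := by
    refine ⟨2 / |γ₀ n₀ s₀ - fl γ₀ n₀ s₀|, ?_⟩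
    intro c hc
    have hD : 0 < |γ₀ n₀ s₀ - fl γ₀ n₀ s₀| := abs_pos.2 (sub_ne_zero.2 hne₀)
    rw [le_div_iff₀ hD]
    have h1 := (hSm c).1 hc n₀ s₀
    have h2 := (hSm _).1 (hSneg c hc) n₀ s₀
    rw [hΓe] at h1 h2
    have h3 := hle1 _ h₀ n₀ s₀
    have h4 := hle1 _ h₀f n₀ s₀
    rcases abs_cases (γ₀ n₀ s₀ - fl γ₀ n₀ s₀) with ⟨e, _⟩ | ⟨e, _⟩ <;> rw [e] <;> nlinarith
  obtain ⟨T, hT⟩ : ∃ T, T = sSup S := ⟨_, rfl⟩
  have hTS : T ∈ S := by
    rw [hT]
    exact hSc.csSup_mem ⟨1, h1S⟩ hSb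
  have hT1 : 1 ≤ T := by
    rw [hT]
    exact le_csSup hSb h1S
  have hTmax : ∀ c ∈ S, |c| ≤ T := by
    intro c hc
    rw [abs_le]
    constructor
    · have := le_csSup hSb (hSneg c hc)
      rw [← hT] at this
      linarith
    · rw [hT]
      exact le_csSup hSb hc
  refine ⟨Γ T, hSg T hTS, ?_, ?_⟩
  · intro heq
    rw [hΓfl] at heq
    have h1 := congrFun (congrFun heq n₀) s₀
    rw [hΓe, hΓe] at h1
    have h2 : T * (γ₀ n₀ s₀ - fl γ₀ n₀ s₀) = 0 := by linarith
    rcases mul_eq_zero.1 h2 with h3 | h3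
    · linarith
    · exact hne₀ (sub_eq_zero.1 h3)
  · intro γ'
    constructor
    · intro h'
      obtain ⟨c, rfl⟩ := hline γ' h'
      have hcS : c ∈ S := by
        rw [hSm]
        exact h'.nonneg
      have hcT := abs_le.1 (hTmax c hcS)
      have hT0 : 0 < T := by linarith
      refine ⟨(1 + c / T) / 2, ⟨?_, ?_⟩, ?_⟩
      · have : -1 ≤ c / T := by
          rw [le_div_iff₀ hT0]
          linarith [hcT.1]
        linarith
      · have : c / T ≤ 1 := by
          rw [div_le_iff₀ hT0]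
          linarith [hcT.2]
        linarith
      · intro n s
        rw [hΓfl, hΓe, hΓe, hΓe]
        field_simp
        ring
    · rintro ⟨t, ht, hγ'⟩
      have hTg := hSg T hTS
      have hTf := fl_gibbs hTg
      refine aff hTg hTf t γ' hγ' ?_
      intro n s
      rw [hγ']
      have h1 := hTg.nonneg n s
      have h2 := hTf.nonneg n s
      have h3 : 0 ≤ t := ht.1
      have h4 : 0 ≤ 1 - t := by linarith [ht.2]
      positivity

end Pool.Agent.N152.EA
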