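import Pool.Agent.N988.ET.Stm

/-!
# Project ET (helper988), parts FR and FAC (helper152)
-/

open MeasureTheory Set Filter
open scoped Topology
open Pool.Agent.N988.EA Pool.Agent.N988.EC Pool.Agent.N988.EP Pool.Agent.N988.ES
open Pool.Agent.N988.ET

namespace Pool.Agent.N152.ET

theorem cross_one {b n : ℕ} (hb : 1 ≤ b) (w : Edge b n → Bool) : cross w = 1 ↔ Y n w = 0 := by
  unfold cross
  rw [(k_LOW b hb).1 n w]
  constructor
  · intro h
    by_contra h2
    rw [if_neg h2] at h
    norm_num at h
  · intro h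
    rw [if_pos h]

theorem t_FR (h0 : S_PIV) (h : S_PROD) : S_FR := by
  intro b p hc n
  have hb : 1 ≤ b := by
    have := hc.two
    omega
  have hq0 : (0 : ℝ) ≤ 1 - p := by linarith [hc.lt]
  have hq1 : 1 - p ≤ 1 := by linarith [hc.pos]
  haveI := coin_prob hq0 hq1
  have hfit : ∀ (n : ℕ) (w : Edge b n → Bool), Fits (fresh b n) w := by
    intro n w e x hx
    exact absurd hx (by simp [fresh])
  have hpf : ∀ n, pf p (fresh b n) = 1 := by
    intro n
    have e1 : {w | Fits (fresh b n) w} = Set.univ := by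
      ext w
      simp only [Set.mem_setOf_eq, Set.mem_univ, iff_true]
      exact hfit n w
    unfold pf
    rw [e1]
    exact probReal_univ
  have hcs : ∀ (n : ℕ) (i : Fin b) (s : Bool), cs (fresh b (n + 1)) i s = fresh b n :=
    fun _ _ _ => rfl
  have hpx : ∀ n, px p (fresh b n) = p := by
    intro n
    induction n with
    | zero =>
      have e1 : {w : Edge b 0 → Bool | Fits (fresh b 0) w ∧ cross w = 1} = {w | Y 0 w = 0} := by
        ext w
        simp only [Set.mem_setOf_eq]
        rw [cross_one hb w]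
        exact and_iff_right (hfit 0 w)
      unfold px
      rw [e1]
      exact (k_LAW b hb p hc.pos.le hc.lt.le).1
    | succ n ih =>
      rw [(h b n hb p hc.pos hc.lt (fresh b (n + 1))).2.1]
      simp only [hcs, hpf, ih, Finset.prod_const, Finset.card_univ, Fintype.card_fin, one_mul,
        one_pow]
      rw [← sq]
      exact hc.fix
  refine ⟨hpf n, hpx n, ?_⟩
  induction n with
  | zero =>
    intro e
    have e1 : {w : Edge b 0 → Bool | Fits (fresh b 0) w ∧ e ∈ piv w} = Set.univ := by
      ext w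
      simp only [Set.mem_setOf_eq, Set.mem_univ, iff_true]
      exact ⟨hfit 0 w, (h0 b hb).1 w e⟩
    unfold pp
    rw [e1, pow_zero]
    exact probReal_univ
  | succ n ih =>
    rintro ⟨i, s, e⟩
    rw [(h b n hb p hc.pos hc.lt (fresh b (n + 1))).2.2 i s e]
    simp only [hcs, hpf, hpx, ih, Finset.prod_const, Finset.card_erase_of_mem (Finset.mem_univ _),
      Finset.card_univ, Fintype.card_fin, one_mul]
    unfold rho
    rw [← sq, pow_succ (p * (1 - p ^ 2) ^ (b - 1)) n, mul_assoc]

section split

variable {b : ℕ} (F : Finset (Fin b)) (i : Fin b) (hi : i ∉ F) (g : Fin b → ℝ)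

include hi

theorem split_erase : ∏ j ∈ Finset.univ.erase i, g j =
    (∏ j ∈ F, g j) * ∏ j ∈ (Finset.univ \ F).erase i, g j := by
  rw [← Finset.prod_union]
  · congr 1
    ext j
    simp only [Finset.mem_erase, Finset.mem_univ, and_true, Finset.mem_union, Finset.mem_sdiff,
      true_and]
    constructor
    · intro h
      by_cases h2 : j ∈ F
      · exact Or.inl h2
      · exact Or.inr ⟨h, h2⟩
    · rintro (h | h)
      · rintro rfl
        exact hi h
      · exact h.1
  · rw [Finset.disjoint_left]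
    intro j h1 h2
    rw [Finset.mem_erase, Finset.mem_sdiff] at h2
    exact h2.2.2 h1

theorem split_all : ∏ j, g j =
    g i * ((∏ j ∈ F, g j) * ∏ j ∈ (Finset.univ \ F).erase i, g j) := by
  rw [← split_erase F i hi g, Finset.mul_prod_erase _ _ (Finset.mem_univ i)]

theorem split_erase' (j : Fin b) (hj : j ∈ F) : ∏ k ∈ Finset.univ.erase j, g k =
    g i * ((∏ k ∈ F.erase j, g k) * ∏ k ∈ (Finset.univ \ F).erase i, g k) := by
  have hij : i ≠ j := by
    rintro rfl
    exact hi hj
  have h1 := split_erase (insert i (F.erase j)) j (by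
    rw [Finset.mem_insert, Finset.mem_erase]
    rintro (h | h)
    · exact hij h.symm
    · exact h.1 rfl) g
  rw [Finset.prod_insert (fun h => hi (Finset.mem_of_mem_erase h))] at h1
  rw [h1, mul_assoc]
  congr 3
  ext k
  simp only [Finset.mem_erase, Finset.mem_univ, Finset.mem_insert, Finset.mem_sdiff, true_and]
  constructor
  · rintro ⟨h2, h3⟩
    push Not at h3
    exact ⟨h3.1, fun h4 => h3.2 h2 h4⟩
  · rintro ⟨h2, h3⟩
    refine ⟨fun h4 => h3 (h4 ▸ hj), ?_⟩
    push Not
    exact ⟨h2, fun _ => h3⟩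

end split

theorem t_FAC (h1 : S_B1) (h2 : S_PROD) (h3 : S_FR) : S_FAC := by
  intro b p hc n F i a hctx
  obtain ⟨hi, hF, hR⟩ := hctx
  have hb : 1 ≤ b := by
    have := hc.two
    omega
  obtain ⟨b1, b2, b3, b4, b5⟩ := h1 b n hb p hc.pos hc.lt
  obtain ⟨p1, p2, p3⟩ := h2 b n hb p hc.pos hc.lt a
  obtain ⟨f1, f2, f3⟩ := h3 b p hc n
  have hPpos : ∀ j, 0 < pf p (cs a j false) * pf p (cs a j true) := fun j =>
    mul_pos (b1 _).1 (b1 _).1
  obtain ⟨P, hP⟩ : ∃ P : Fin b → ℝ, ∀ j, P j = pf p (cs a j false) * pf p (cs a j true) :=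
    ⟨_, fun _ => rfl⟩
  obtain ⟨D, hD⟩ : ∃ D : Fin b → ℝ, ∀ j, D j = pf p (cs a j false) * pf p (cs a j true) -
      px p (cs a j false) * px p (cs a j true) := ⟨_, fun _ => rfl⟩
  have hPF : ∀ j ∈ F, P j = 1 := by
    intro j hj
    rw [hP, hF j hj, hF j hj, f1, one_mul]
  have hDF : ∀ j ∈ F, D j = 1 - p ^ 2 := by
    intro j hj
    rw [hD, hF j hj, hF j hj, f1, f2, one_mul, sq]
  have hDR : ∀ j ∈ (Finset.univ \ F).erase i, D j = P j := by
    intro j hj
    rw [Finset.mem_erase, Finset.mem_sdiff] at hj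
    rw [hD, hP]
    rcases hR j hj.2.2 hj.1 with h | h
    · rw [h, zero_mul, sub_zero]
    · rw [h, mul_zero, sub_zero]
  have p1' : pf p a = ∏ j, P j := by
    rw [p1]
    exact Finset.prod_congr rfl fun j _ => (hP j).symm
  have p2' : pf p a - px p a = ∏ j, D j := by
    rw [p1, p2]
    rw [sub_sub_cancel]
    exact Finset.prod_congr rfl fun j _ => (hD j).symm
  have p3' : ∀ (j : Fin b) (s : Bool) (e : Edge b n), pp p a ((j, s, e) : Edge b (n + 1)) =
      pp p (cs a j s) e * px p (cs a j (!s)) * ∏ k ∈ Finset.univ.erase j, D k := by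
    intro j s e
    rw [p3]
    congr 1
    exact Finset.prod_congr rfl fun k _ => (hD k).symm
  refine ⟨∏ j ∈ (Finset.univ \ F).erase i, P j, Finset.prod_pos fun j _ => ?_, ?_, ?_, ?_, ?_, ?_⟩
  · rw [hP]
    exact hPpos j
  · rw [p1', split_all F i hi, Finset.prod_eq_one hPF, one_mul, hP, mul_comm]
  · rw [p2', split_all F i hi, Finset.prod_congr rfl hDR, Finset.prod_congr rfl hDF,
      Finset.prod_const, hD]
    ring
  · intro s e
    rw [p3', split_erase F i hi, Finset.prod_congr rfl hDR, Finset.prod_congr rfl hDF,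
      Finset.prod_const]
    ring
  · intro j hj s e
    rw [p3', split_erase' F i hi _ j hj, Finset.prod_congr rfl hDR,
      Finset.prod_congr rfl fun k hk => hDF k (Finset.mem_of_mem_erase hk), Finset.prod_const,
      Finset.card_erase_of_mem hj, hF j hj, hF j hj, f2, f3, hD]
    ring
  · intro j hj hji s e he
    rw [p3']
    have key : pp p (cs a j s) e * px p (cs a j (!s)) = 0 := by
      by_cases hx : px p (cs a j (!s)) = 0
      · rw [hx, mul_zero]
      · have hs : px p (cs a j s) = 0 := by
          rcases hR j hj hji with h | h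
          · cases s
            · exact h
            · exact absurd h hx
          · cases s
            · exact absurd h hx
            · exact h
        have hk : Known (cs a j s) := (b3 _).2 (Or.inl hs)
        rw [(b4 (cs a j s) e).2 he hk, zero_mul]
    rw [key, zero_mul]

end Pool.Agent.N152.ET
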