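import Pool.Agent.Helper922.HB.MV

/-! Five lemma for Mayer-Vietoris: homology equivalences are local on open covers. -/

set_option autoImplicit false

namespace Pool.Agent.N152

open Pool.Agent.Helper922.HB

universe u v w

variable {X : Type u} [TopologicalSpace X] {Y : Type v} [TopologicalSpace Y]

/-- restriction of a map to the preimage of a subset -/
def rp (f : C(X, Y)) (U : Set Y) : C(↥(f ⁻¹' U), U) :=
  ⟨fun x => ⟨f x.1, x.2⟩, (f.continuous.comp continuous_subtype_val).subtype_mk _⟩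

/-- restriction of a map to the intersection of the preimages of two subsets -/
def rpi (f : C(X, Y)) (U V : Set Y) : C(↥(f ⁻¹' U ∩ f ⁻¹' V), ↥(U ∩ V)) :=
  ⟨fun x => ⟨f x.1, x.2⟩, (f.continuous.comp continuous_subtype_val).subtype_mk _⟩

section

variable (f : C(X, Y)) (U V : Set Y)

theorem rp_sub (n : ℕ) (x : Sing ↥(f ⁻¹' U) n →₀ ℤ) :
    push (sub U) n (push (rp f U) n x) = push f n (push (sub (f ⁻¹' U)) n x) := by
  rw [push_push, push_push]; rfl

theorem rp_inl (n : ℕ) (x : Sing ↥(f ⁻¹' U ∩ f ⁻¹' V) n →₀ ℤ) :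
    push (inl U V) n (push (rpi f U V) n x) =
      push (rp f U) n (push (inl (f ⁻¹' U) (f ⁻¹' V)) n x) := by
  rw [push_push, push_push]; rfl

theorem rp_inr (n : ℕ) (x : Sing ↥(f ⁻¹' U ∩ f ⁻¹' V) n →₀ ℤ) :
    push (inr U V) n (push (rpi f U V) n x) =
      push (rp f V) n (push (inr (f ⁻¹' U) (f ⁻¹' V)) n x) := by
  rw [push_push, push_push]; rfl

theorem cyc_of_bdry_zero {Z : Type w} [TopologicalSpace Z] (n : ℕ) (x : Sing Z (n + 1) →₀ ℤ)
    (h : bdry Z n x = 0) : x ∈ Cyc Z (n + 1) := h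

theorem sub_inl_inr (n : ℕ) (d : Sing ↥(U ∩ V) n →₀ ℤ) :
    push (sub U) n (push (inl U V) n d) = push (sub V) n (push (inr U V) n d) := by
  rw [mvx_push_inl, mvx_push_inr]

/-- injectivity, for sums of cycles -/
theorem fl_inj_aux (hU : IsOpen U) (hV : IsOpen V) (hUV : ∀ y, y ∈ U ∨ y ∈ V)
    (h1 : HE (rp f U)) (h2 : HE (rp f V)) (h3 : HE (rpi f U V)) (n : ℕ)
    (u : Sing ↥(f ⁻¹' U) n →₀ ℤ) (v : Sing ↥(f ⁻¹' V) n →₀ ℤ) (hu : u ∈ Cyc _ n)
    (hv : v ∈ Cyc _ n)
    (h : push f n (push (sub (f ⁻¹' U)) n u + push (sub (f ⁻¹' V)) n v) ∈ Bdy Y n) :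
    push (sub (f ⁻¹' U)) n u + push (sub (f ⁻¹' V)) n v ∈ Bdy X n := by
  rw [map_add, ← rp_sub, ← rp_sub] at h
  obtain ⟨d1, hd1, ha, hb⟩ := mv_inj U V hU hV hUV n _ _ (push_mem_Cyc _ n u hu)
    (push_mem_Cyc _ n v hv) h
  obtain ⟨d2, hd2, hd12⟩ := (h3 n).2 d1 hd1
  have ha' : push (rp f U) n (u - push (inl (f ⁻¹' U) (f ⁻¹' V)) n d2) ∈ Bdy U n := by
    rw [map_sub, ← rp_inl]
    have := push_mem_Bdy (inl U V) n _ hd12
    rw [map_sub] at this
    have h5 := (Bdy U n).add_mem ha this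
    rwa [sub_add_sub_cancel] at h5
  have hb' : push (rp f V) n (v + push (inr (f ⁻¹' U) (f ⁻¹' V)) n d2) ∈ Bdy V n := by
    rw [map_add, ← rp_inr]
    have := push_mem_Bdy (inr U V) n _ hd12
    rw [map_sub] at this
    have h5 := (Bdy V n).sub_mem hb this
    rwa [add_sub_assoc, sub_sub_cancel] at h5
  have ha'' := (h1 n).1 _ ((Cyc _ n).sub_mem hu (push_mem_Cyc _ n d2 hd2)) ha'
  have hb'' := (h2 n).1 _ ((Cyc _ n).add_mem hv (push_mem_Cyc _ n d2 hd2)) hb'
  have e1 := push_mem_Bdy (sub (f ⁻¹' U)) n _ ha''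
  have e2 := push_mem_Bdy (sub (f ⁻¹' V)) n _ hb''
  have e3 := (Bdy X n).add_mem e1 e2
  rw [map_sub, map_add, sub_inl_inr] at e3
  have e4 : push (sub (f ⁻¹' U)) n u - push (sub (f ⁻¹' V)) n (push (inr (f ⁻¹' U) (f ⁻¹' V)) n d2)
      + (push (sub (f ⁻¹' V)) n v +
        push (sub (f ⁻¹' V)) n (push (inr (f ⁻¹' U) (f ⁻¹' V)) n d2)) =
      push (sub (f ⁻¹' U)) n u + push (sub (f ⁻¹' V)) n v := by abel
  rwa [e4] at e3

theorem fl_surj_aux (h1 : HE (rp f U)) (h2 : HE (rp f V)) (n : ℕ)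
    (u : Sing U n →₀ ℤ) (v : Sing V n →₀ ℤ) (hu : u ∈ Cyc _ n) (hv : v ∈ Cyc _ n) :
    ∃ z ∈ Cyc X n, push (sub U) n u + push (sub V) n v - push f n z ∈ Bdy Y n := by
  obtain ⟨u', hu', hu2⟩ := (h1 n).2 u hu
  obtain ⟨v', hv', hv2⟩ := (h2 n).2 v hv
  refine ⟨push (sub (f ⁻¹' U)) n u' + push (sub (f ⁻¹' V)) n v',
    (Cyc X n).add_mem (push_mem_Cyc _ n u' hu') (push_mem_Cyc _ n v' hv'), ?_⟩
  have e1 := push_mem_Bdy (sub U) n _ hu2
  have e2 := push_mem_Bdy (sub V) n _ hv2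
  rw [map_sub, rp_sub] at e1
  rw [map_sub, rp_sub] at e2
  have e3 := (Bdy Y n).add_mem e1 e2
  rw [map_add]
  convert e3 using 1
  abel

/-- **Five lemma**: a map which is a homology equivalence over two open sets covering the target and
over their intersection is a homology equivalence. -/
theorem HE_of_cover (hU : IsOpen U) (hV : IsOpen V) (hUV : ∀ y, y ∈ U ∨ y ∈ V)
    (h1 : HE (rp f U)) (h2 : HE (rp f V)) (h3 : HE (rpi f U V)) : HE f := by
  have hU' : IsOpen (f ⁻¹' U) := hU.preimage f.continuous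
  have hV' : IsOpen (f ⁻¹' V) := hV.preimage f.continuous
  have hUV' : ∀ x, x ∈ f ⁻¹' U ∨ x ∈ f ⁻¹' V := fun x => hUV (f x)
  intro n
  cases n with
  | zero =>
    constructor
    · intro z _ hb
      obtain ⟨u, v, rfl⟩ := mv_zero (f ⁻¹' U) (f ⁻¹' V) hUV' z
      exact fl_inj_aux f U V hU hV hUV h1 h2 h3 0 u v Submodule.mem_top Submodule.mem_top hb
    · intro b _
      obtain ⟨u, v, rfl⟩ := mv_zero U V hUV b
      exact fl_surj_aux f U V h1 h2 0 u v Submodule.mem_top Submodule.mem_top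
  | succ n =>
    constructor
    · intro z hz hb
      obtain ⟨u, v, d, hd, hs, hu, hv⟩ := mv_split (f ⁻¹' U) (f ⁻¹' V) hU' hV' hUV' n z hz
      -- `f d` is a boundary
      have hb2 : push (sub U) (n + 1) (push (rp f U) (n + 1) u) +
          push (sub V) (n + 1) (push (rp f V) (n + 1) v) ∈ Bdy Y (n + 1) := by
        rw [rp_sub, rp_sub, ← map_add]
        have := push_mem_Bdy f (n + 1) _ hs
        rw [map_sub] at this
        have h5 := (Bdy Y (n + 1)).sub_mem hb this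
        rwa [sub_sub_cancel] at h5
      have hfd : push (rpi f U V) n d ∈ Bdy ↥(U ∩ V) n := by
        refine mv_conn U V hU hV hUV n _ _ _ ?_ ?_ hb2
        · rw [bdry_push, hu, rp_inl]
        · rw [bdry_push, hv, map_neg, rp_inr]
      obtain ⟨e, he⟩ := (h3 n).1 d hd hfd
      have hu1 : u - push (inl (f ⁻¹' U) (f ⁻¹' V)) (n + 1) e ∈ Cyc _ (n + 1) := by
        apply cyc_of_bdry_zero
        rw [map_sub, bdry_push, he, hu, sub_self]
      have hv1 : v + push (inr (f ⁻¹' U) (f ⁻¹' V)) (n + 1) e ∈ Cyc _ (n + 1) := by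
        apply cyc_of_bdry_zero
        rw [map_add, bdry_push, he, hv, neg_add_cancel]
      have key : push (sub (f ⁻¹' U)) (n + 1) (u - push (inl (f ⁻¹' U) (f ⁻¹' V)) (n + 1) e) +
          push (sub (f ⁻¹' V)) (n + 1) (v + push (inr (f ⁻¹' U) (f ⁻¹' V)) (n + 1) e) =
          push (sub (f ⁻¹' U)) (n + 1) u + push (sub (f ⁻¹' V)) (n + 1) v := by
        rw [map_sub, map_add, sub_inl_inr]
        abel
      have h6 := fl_inj_aux f U V hU hV hUV h1 h2 h3 (n + 1) _ _ hu1 hv1 (by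
        rw [key, map_add, ← rp_sub, ← rp_sub]
        exact hb2)
      rw [key] at h6
      have h7 := (Bdy X (n + 1)).add_mem hs h6
      rwa [sub_add_cancel] at h7
    · intro b hb
      obtain ⟨u, v, d, hd, hs, hu, hv⟩ := mv_split U V hU hV hUV n b hb
      obtain ⟨d', hd', e, he⟩ := (h3 n).2 d hd
      -- `inl d'` is a boundary
      have hin : push (inl (f ⁻¹' U) (f ⁻¹' V)) n d' ∈ Bdy _ n := by
        apply (h1 n).1 _ (push_mem_Cyc _ n d' hd')
        rw [← rp_inl]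
        refine ⟨u - push (inl U V) (n + 1) e, ?_⟩
        rw [map_sub, bdry_push, he, hu, map_sub, sub_sub_cancel]
      have hin2 : push (inr (f ⁻¹' U) (f ⁻¹' V)) n d' ∈ Bdy _ n := by
        apply (h2 n).1 _ (push_mem_Cyc _ n d' hd')
        rw [← rp_inr]
        refine ⟨-(v + push (inr U V) (n + 1) e), ?_⟩
        rw [map_neg, map_add, bdry_push, he, hv, map_sub]
        abel
      obtain ⟨u', hu'⟩ := hin
      obtain ⟨v', hv'⟩ := hin2
      -- the cycles in `U`, `V`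
      have c1 : u - push (inl U V) (n + 1) e - push (rp f U) (n + 1) u' ∈ Cyc _ (n + 1) := by
        apply cyc_of_bdry_zero
        rw [map_sub, map_sub, bdry_push, bdry_push, he, hu, hu', ← rp_inl, map_sub]
        abel
      have c2 : v + push (inr U V) (n + 1) e + push (rp f V) (n + 1) v' ∈ Cyc _ (n + 1) := by
        apply cyc_of_bdry_zero
        rw [map_add, map_add, bdry_push, bdry_push, he, hv, hv', ← rp_inr, map_sub]
        abel
      obtain ⟨z, hz, hzb⟩ := fl_surj_aux f U V h1 h2 (n + 1) _ _ c1 c2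
      refine ⟨z + push (sub (f ⁻¹' U)) (n + 1) u' - push (sub (f ⁻¹' V)) (n + 1) v', ?_, ?_⟩
      · apply cyc_of_bdry_zero
        have hz0 : bdry X n z = 0 := hz
        rw [map_sub, map_add, bdry_push, bdry_push, hu', hv', sub_inl_inr, hz0]
        abel
      · have h8 := (Bdy Y (n + 1)).add_mem hs hzb
        convert h8 using 1
        simp only [map_sub, map_add, rp_sub]
        rw [sub_inl_inr U V (n + 1) e]
        abel

end

end Pool.Agent.N152
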