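import Pool.Agent.N152.Theta2

/-! Existence of theta data. -/

set_option autoImplicit false

open Filter Topology

namespace Pool.Agent.N152

/-- proportionality of the derivatives is invariant -/
theorem tan_step {c : ℂ} (hc : c ≠ 0) (S : Set Pm) {u : ℂ} (hu : u ≠ 0) :
    (∃ s : ℂ, ∀ a ∈ S, deriv (GG c a) u = s * GG c a u) ↔
    (∃ s : ℂ, ∀ a ∈ S, deriv (GG c a) (qq * u) = s * GG c a (qq * u)) := by
  have hq := qq_ne
  have key : ∀ a : Pm, qq * deriv (GG c a) (qq * u) =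
      3 * c * (u⁻¹) ^ 4 * GG c a u + (-c * (u⁻¹) ^ 3) * deriv (GG c a) u := by
    intro a
    have h1 : HasDerivAt (fun w => GG c a (qq * w)) (deriv (GG c a) (qq * u) * qq) u := by
      have e1 : HasDerivAt (fun w : ℂ => qq * w) qq u := by
        simpa using (hasDerivAt_id u).const_mul qq
      exact HasDerivAt.comp (h₂ := GG c a) (h := fun w : ℂ => qq * w) u
        (GG_diffAt hc a (mul_ne_zero hq hu)).hasDerivAt e1
    have h2 : HasDerivAt (fun w : ℂ => (-c * (w⁻¹) ^ 3) * GG c a w)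
        ((3 * c * (u⁻¹) ^ 4) * GG c a u + (-c * (u⁻¹) ^ 3) * deriv (GG c a) u) u := by
      have e1 : HasDerivAt (fun w : ℂ => -c * (w⁻¹) ^ 3) (3 * c * (u⁻¹) ^ 4) u := by
        have e2 := ((hasDerivAt_inv hu).pow 3).const_mul (-c)
        have e3 : -c * (((3 : ℕ) : ℂ) * u⁻¹ ^ (3 - 1) * -(u ^ 2)⁻¹) = 3 * c * (u⁻¹) ^ 4 := by
          push_cast
          field_simp
        rw [e3] at e2
        exact e2
      exact e1.mul (GG_diffAt hc a hu).hasDerivAt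
    have h3 : (fun w => GG c a (qq * w)) =ᶠ[𝓝 u] fun w : ℂ => (-c * (w⁻¹) ^ 3) * GG c a w := by
      filter_upwards [isOpen_ne.mem_nhds hu] with w hw
      exact GG_quasi hc a hw
    have h4 := h1.unique (h2.congr_of_eventuallyEq h3)
    linear_combination h4
  have hf : (-c * (u⁻¹) ^ 3) ≠ 0 := mul_ne_zero (neg_ne_zero.2 hc) (pow_ne_zero 3 (inv_ne_zero hu))
  constructor
  · rintro ⟨s, hs⟩
    refine ⟨(-3 * u⁻¹ + s) / qq, fun a ha => ?_⟩
    have h1 := key a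
    rw [hs a ha] at h1
    rw [GG_quasi hc a hu]
    have h2 : deriv (GG c a) (qq * u) = (3 * c * (u⁻¹) ^ 4 * GG c a u +
        (-c * (u⁻¹) ^ 3) * (s * GG c a u)) / qq := by
      rw [← h1]; field_simp
    rw [h2]
    ring
  · rintro ⟨s, hs⟩
    refine ⟨qq * s + 3 * u⁻¹, fun a ha => ?_⟩
    have h1 := key a
    rw [hs a ha, GG_quasi hc a hu] at h1
    have h2 : (-c * (u⁻¹) ^ 3) * (deriv (GG c a) u - (qq * s + 3 * u⁻¹) * GG c a u) = 0 := by
      linear_combination -h1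
    have h3 := (mul_eq_zero.1 h2).resolve_left hf
    exact sub_eq_zero.1 h3

theorem tan_zpow {c : ℂ} (hc : c ≠ 0) (S : Set Pm) {u : ℂ} (hu : u ≠ 0) (m : ℤ) :
    (∃ s : ℂ, ∀ a ∈ S, deriv (GG c a) u = s * GG c a u) ↔
    (∃ s : ℂ, ∀ a ∈ S, deriv (GG c a) (qq ^ m * u) = s * GG c a (qq ^ m * u)) := by
  have hq := qq_ne
  induction m using Int.induction_on with
  | zero => simp
  | succ m ih =>
    have hv : qq ^ (m : ℤ) * u ≠ 0 := mul_ne_zero (zpow_ne_zero _ hq) hu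
    have e1 : qq ^ ((m : ℤ) + 1) * u = qq * (qq ^ (m : ℤ) * u) := by
      rw [zpow_add_one₀ hq]; ring
    refine Iff.trans ih ?_
    rw [e1]
    exact tan_step hc S hv
  | pred m ih =>
    have hv : qq ^ (-(m : ℤ) - 1) * u ≠ 0 := mul_ne_zero (zpow_ne_zero _ hq) hu
    have e1 : qq ^ (-(m : ℤ)) * u = qq * (qq ^ (-(m : ℤ) - 1) * u) := by
      rw [zpow_sub_one₀ hq]
      field_simp
    refine Iff.trans ih ?_
    rw [e1]
    exact (tan_step hc S hv).symm

theorem exists_theta {c : ℂ} (hc : c ≠ 0) :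
    ∃ (n : ℕ) (F : ℂ → (Fin n → ℂ)),
      DifferentiableOn ℂ F {u | u ≠ 0} ∧
      (∀ u : ℂ, u ≠ 0 → F u ≠ 0) ∧
      (∀ u : ℂ, u ≠ 0 → F (qq * u) = (-c * (u⁻¹) ^ 3) • F u) ∧
      (∀ u v : ℂ, u ≠ 0 → v ≠ 0 → ∀ a : ℂ, F u = a • F v → ∃ m : ℤ, v = qq ^ m * u) ∧
      (∀ u : ℂ, u ≠ 0 → ∀ a : ℂ, deriv F u ≠ a • F u) := by
  obtain ⟨S, hS, h1, h2⟩ := exists_S hc
  have hq := qq_ne
  obtain ⟨n, e, he⟩ : ∃ (n : ℕ) (e : Fin n → Pm), Set.range e = S := by
    have := hS.fintype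
    obtain ⟨n, ⟨f⟩⟩ := Finite.exists_equiv_fin S
    refine ⟨n, fun i => (f.symm i).1, ?_⟩
    ext a
    constructor
    · rintro ⟨i, rfl⟩
      exact (f.symm i).2
    · intro ha
      exact ⟨f ⟨a, ha⟩, by simp⟩
  have hmem : ∀ a ∈ S, ∃ i, e i = a := fun a ha => by rw [← he] at ha; exact ha
  have hmem' : ∀ i, e i ∈ S := fun i => by rw [← he]; exact ⟨i, rfl⟩
  -- nonvanishing on the fundamental domain
  have hne : ∀ u ∈ Kd, ∃ a ∈ S, GG c a u ≠ 0 := by
    intro u hu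
    obtain ⟨a, ha, b, hb, hw⟩ := h2 u hu
    by_contra hcon
    push Not at hcon
    apply hw
    unfold Wr
    rw [hcon a ha, hcon b hb]
    ring
  have hdiff : DifferentiableOn ℂ (fun u => fun i : Fin n => GG c (e i) u) {u | u ≠ 0} := by
    rw [differentiableOn_pi]
    exact fun i => GG_diff hc (e i)
  refine ⟨n, fun u i => GG c (e i) u, hdiff, ?_, ?_, ?_, ?_⟩
  · intro u hu h0
    obtain ⟨m, hm⟩ := exists_Kd hu
    obtain ⟨a, ha, hau⟩ := hne _ hm
    obtain ⟨i, rfl⟩ := hmem a ha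
    obtain ⟨ε, -, hε⟩ := GG_quasi_zpow hc m hu
    apply hau
    rw [hε]
    have : GG c (e i) u = 0 := congrFun h0 i
    rw [this, mul_zero]
  · intro u hu
    funext i
    simp only [Pi.smul_apply, smul_eq_mul]
    exact GG_quasi hc (e i) hu
  · intro u v hu hv a ha
    obtain ⟨m, hm⟩ := exists_Kd hu
    obtain ⟨k, hk⟩ := exists_Kd hv
    obtain ⟨ε, h3, hε⟩ := GG_quasi_zpow hc m hu
    obtain ⟨δ, h4, hδ⟩ := GG_quasi_zpow hc k hv
    obtain ⟨l, hl⟩ := h1 _ hm _ hk (ε * a * δ⁻¹) (fun b hb => by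
      obtain ⟨i, rfl⟩ := hmem b hb
      have h5 : GG c (e i) u = a * GG c (e i) v := congrFun ha i
      rw [hε, hδ, h5]
      field_simp)
    refine ⟨-k + l + m, ?_⟩
    have hk0 := zpow_ne_zero k hq
    have h6 : v = qq ^ (-k) * (qq ^ k * v) := by
      rw [zpow_neg]; field_simp
    rw [h6, hl, zpow_add₀ hq, zpow_add₀ hq]
    ring
  · intro u hu a ha
    have h3 : ∀ b ∈ S, deriv (GG c b) u = a * GG c b u := by
      intro b hb
      obtain ⟨i, rfl⟩ := hmem b hb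
      have h4 : HasDerivAt (fun u => fun i : Fin n => GG c (e i) u)
          (deriv (fun u => fun i : Fin n => GG c (e i) u) u) u :=
        (hdiff.differentiableAt (isOpen_ne.mem_nhds hu)).hasDerivAt
      have h5 := (hasDerivAt_pi.1 h4) i
      rw [h5.deriv, ha]
      rfl
    obtain ⟨m, hm⟩ := exists_Kd hu
    obtain ⟨s, hs⟩ := (tan_zpow hc S hu m).1 ⟨a, h3⟩
    obtain ⟨x, hx, y, hy, hw⟩ := h2 _ hm
    apply hw
    unfold Wr
    rw [hs x hx, hs y hy]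
    ring

theorem exists_TData : Nonempty TData := by
  choose n F h1 h2 h3 h4 h5 using fun k : Fin 3 =>
    exists_theta (c := (chi k)⁻¹) (inv_ne_zero (chi_ne k))
  exact ⟨⟨n, F, h1, h2, h3, h4, h5⟩⟩

end Pool.Agent.N152
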