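import Pool.Agent.Helper922.HB.Defs
import Pool.Agent.Helper540.Holo

/-! Submersivity of the projection does not depend on the parametrisation. -/

set_option autoImplicit false

open scoped LinearAlgebra.Projectivization
open Filter Topology

namespace Pool.Agent.N152

open Pool.Agent.Helper922.HB

variable {ι : Type} [Fintype ι] {d : ℕ} {X : Set (ℂ × ℙ ℂ (ι → ℂ))}

/-- a local holomorphic left inverse -/
theorem exists_Lam (R : LocalParam d X) (w : Fin d → ℂ) (hw : w ∈ R.V) :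
    ∃ (j : ι) (Λ : ℂ × (ι → ℂ) → (Fin d → ℂ)), R.φ w j ≠ 0 ∧
      (∀ a y, ∀ c : ℂ, c ≠ 0 → Λ (a, c • y) = Λ (a, y)) ∧
      (∀ c : ℂ, c ≠ 0 → DifferentiableAt ℂ Λ (R.a w, c • R.φ w)) ∧
      ∀ᶠ x in 𝓝 w, Λ (R.a x, R.φ x) = x := by
  obtain ⟨j, hj⟩ := Function.ne_iff.1 (R.φ_ne w hw)
  change R.φ w j ≠ 0 at hj
  -- the affine form of the parametrisation
  let ψ : (Fin d → ℂ) → ℂ × (ι → ℂ) := fun x => (R.a x, (R.φ x j)⁻¹ • R.φ x)
  have hφd : DifferentiableAt ℂ R.φ w := R.holo_φ.differentiableAt (R.isOpen_V.mem_nhds hw)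
  have had : DifferentiableAt ℂ R.a w := R.holo_a.differentiableAt (R.isOpen_V.mem_nhds hw)
  let V' : Set (Fin d → ℂ) := R.V ∩ {x | R.φ x j ≠ 0}
  have hV' : IsOpen V' := by
    have h1 : ContinuousOn (fun x => R.φ x j) R.V :=
      (continuous_apply j).comp_continuousOn R.holo_φ.continuousOn
    exact h1.isOpen_inter_preimage R.isOpen_V isOpen_ne
  have hwV' : w ∈ V' := ⟨hw, hj⟩
  have hψd : DifferentiableOn ℂ ψ V' := by
    have h1 : DifferentiableOn ℂ R.φ V' := R.holo_φ.mono Set.inter_subset_left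
    have h2 : DifferentiableOn ℂ (fun x => R.φ x j) V' := by
      rw [differentiableOn_pi] at h1
      exact h1 j
    refine (R.holo_a.mono Set.inter_subset_left).prodMk ((h2.inv fun x hx => hx.2).smul h1)
  have hψc : ContDiffAt ℂ 1 ψ w :=
    ((Pool.Agent.Helper540.contDiffOn_of_differentiableOn hV' hψd 1) w hwV').contDiffAt
      (hV'.mem_nhds hwV')
  have hψs : HasStrictFDerivAt ψ (fderiv ℂ ψ w) w := hψc.hasStrictFDerivAt (by norm_num)
  -- the derivative is injective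
  have hinj : ∀ h : Fin d → ℂ, fderiv ℂ ψ w h = 0 → h = 0 := by
    intro h hh
    have h1 : DifferentiableAt ℂ (fun x => (R.φ x j)⁻¹) w := by
      have : DifferentiableAt ℂ (fun x => R.φ x j) w := by
        rw [differentiableAt_pi] at hφd
        exact hφd j
      exact this.inv hj
    have h2 : HasFDerivAt ψ ((fderiv ℂ R.a w).prod ((R.φ w j)⁻¹ • fderiv ℂ R.φ w +
        (fderiv ℂ (fun x => (R.φ x j)⁻¹) w).smulRight (R.φ w))) w :=
      had.hasFDerivAt.prodMk (h1.hasFDerivAt.smul hφd.hasFDerivAt)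
    rw [h2.fderiv] at hh
    have h3 := congrArg Prod.fst hh
    have h4 := congrArg Prod.snd hh
    change fderiv ℂ R.a w h = 0 at h3
    change (R.φ w j)⁻¹ • fderiv ℂ R.φ w h +
        (fderiv ℂ (fun x => (R.φ x j)⁻¹) w h) • (R.φ w) = 0 at h4
    apply R.immersion w hw h h3
    refine ⟨-(R.φ w j) * fderiv ℂ (fun x => (R.φ x j)⁻¹) w h, ?_⟩
    have h5 := congrArg (fun z => R.φ w j • z) h4
    simp only [smul_add, smul_smul, mul_inv_cancel₀ hj, one_smul, smul_zero] at h5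
    rw [eq_neg_of_add_eq_zero_left h5, neg_mul, neg_smul]
  obtain ⟨L0, hL0⟩ := (fderiv ℂ ψ w).toLinearMap.exists_leftInverse_of_injective
    (LinearMap.ker_eq_bot'.2 fun h hh => hinj h hh)
  let L : ℂ × (ι → ℂ) →L[ℂ] (Fin d → ℂ) := L0.toContinuousLinearMap
  have hL : ∀ h, L (fderiv ℂ ψ w h) = h := fun h => LinearMap.congr_fun hL0 h
  have hg : HasStrictFDerivAt (fun x => L (ψ x))
      ((ContinuousLinearEquiv.refl ℂ (Fin d → ℂ) : (Fin d → ℂ) →L[ℂ] (Fin d → ℂ))) w := by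
    have h1 := L.hasStrictFDerivAt.comp w hψs
    have h2 : L.comp (fderiv ℂ ψ w) =
        ((ContinuousLinearEquiv.refl ℂ (Fin d → ℂ) : (Fin d → ℂ) →L[ℂ] (Fin d → ℂ))) := by
      ext1 h
      exact hL h
    rw [← h2]
    exact h1
  let Li := hg.localInverse _ _ _
  refine ⟨j, fun p => Li (L (p.1, (p.2 j)⁻¹ • p.2)), hj, ?_, ?_, ?_⟩
  · intro a y c hc
    have : (((c • y) j)⁻¹ • (c • y)) = (y j)⁻¹ • y := by
      funext i
      simp only [Pi.smul_apply, smul_eq_mul]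
      rw [mul_inv]
      field_simp
    change Li (L (a, ((c • y) j)⁻¹ • (c • y))) = Li (L (a, (y j)⁻¹ • y))
    rw [this]
  · intro c hc
    have h1 : DifferentiableAt ℂ (fun p : ℂ × (ι → ℂ) => L (p.1, (p.2 j)⁻¹ • p.2))
        (R.a w, c • R.φ w) := by
      have h2 : DifferentiableAt ℂ (fun p : ℂ × (ι → ℂ) => p.2) (R.a w, c • R.φ w) :=
        differentiableAt_snd
      have h2j : DifferentiableAt ℂ (fun p : ℂ × (ι → ℂ) => p.2 j) (R.a w, c • R.φ w) := by
        rw [differentiableAt_pi] at h2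
        exact h2 j
      have h3 : DifferentiableAt ℂ (fun p : ℂ × (ι → ℂ) => (p.2 j)⁻¹) (R.a w, c • R.φ w) :=
        h2j.inv (mul_ne_zero hc hj)
      have h4 : DifferentiableAt ℂ (fun p : ℂ × (ι → ℂ) => (p.2 j)⁻¹ • p.2) (R.a w, c • R.φ w) :=
        h3.smul h2
      have h5 : DifferentiableAt ℂ (fun p : ℂ × (ι → ℂ) => (p.1, (p.2 j)⁻¹ • p.2))
          (R.a w, c • R.φ w) := differentiableAt_fst.prodMk h4
      exact L.differentiableAt.comp _ h5
    have h2 : (fun p : ℂ × (ι → ℂ) => L (p.1, (p.2 j)⁻¹ • p.2)) (R.a w, c • R.φ w) = L (ψ w) := by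
      have : (((c • R.φ w) j)⁻¹ • (c • R.φ w)) = (R.φ w j)⁻¹ • R.φ w := by
        funext i
        simp only [Pi.smul_apply, smul_eq_mul]
        rw [mul_inv]
        field_simp
      change L (R.a w, ((c • R.φ w) j)⁻¹ • (c • R.φ w)) = L (R.a w, (R.φ w j)⁻¹ • R.φ w)
      rw [this]
    have h3 : DifferentiableAt ℂ Li (L (ψ w)) := hg.to_localInverse.hasFDerivAt.differentiableAt
    rw [← h2] at h3
    exact DifferentiableAt.comp (𝕜 := ℂ) (R.a w, c • R.φ w) h3 h1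
  · exact hg.eventually_left_inverse

theorem submersive_transfer (P R : LocalParam d X) (v w : Fin d → ℂ) (hv : v ∈ P.V) (hw : w ∈ R.V)
    (h : P.pt v hv = R.pt w hw) (hR : ∃ k : Fin d → ℂ, fderiv ℂ R.a w k ≠ 0) :
    ∃ k : Fin d → ℂ, fderiv ℂ P.a v k ≠ 0 := by
  obtain ⟨j, Λ, hj, hΛc, hΛd, hΛ⟩ := exists_Lam R w hw
  -- points of `X` near `R.pt w`
  let eR : R.V → X := fun v => ⟨(R.a v, Projectivization.mk ℂ (R.φ v) (R.φ_ne v v.2)), R.mem v v.2⟩
  let eP : P.V → X := fun v => ⟨(P.a v, Projectivization.mk ℂ (P.φ v) (P.φ_ne v v.2)), P.mem v v.2⟩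
  have heR : IsOpenEmbedding eR := R.openEmbedding
  have heP : IsOpenEmbedding eP := P.openEmbedding
  have hpt : eP ⟨v, hv⟩ = eR ⟨w, hw⟩ := Subtype.ext h
  have hcomp : ∀ (x : Fin d → ℂ) (hx : x ∈ P.V) (y : R.V), eR y = eP ⟨x, hx⟩ →
      P.a x = R.a y ∧ ∃ c : ℂ, c ≠ 0 ∧ P.φ x = c • R.φ y := by
    intro x hx y hxy
    have h1 := congrArg Subtype.val hxy
    have h2 := congrArg Prod.fst h1
    have h3 := congrArg Prod.snd h1
    refine ⟨h2.symm, ?_⟩
    change Projectivization.mk ℂ (R.φ y) _ = Projectivization.mk ℂ (P.φ x) _ at h3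
    rw [Projectivization.mk_eq_mk_iff'] at h3
    obtain ⟨a, ha⟩ := h3
    have ha0 : a ≠ 0 := by
      rintro rfl
      rw [zero_smul] at ha
      exact R.φ_ne y y.2 ha.symm
    refine ⟨a⁻¹, inv_ne_zero ha0, ?_⟩
    rw [← ha, smul_smul, inv_mul_cancel₀ ha0, one_smul]
  obtain ⟨hav, c0, hc0, hφv⟩ := hcomp v hv ⟨w, hw⟩ hpt.symm
  change P.a v = R.a w at hav
  change P.φ v = c0 • R.φ w at hφv
  -- the neighbourhood
  have hN : ∀ᶠ x in 𝓝 w, R.φ x j ≠ 0 ∧ Λ (R.a x, R.φ x) = x := by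
    have h1 : ContinuousAt (fun x => R.φ x j) w :=
      ((continuous_apply j).continuousAt).comp
        (R.holo_φ.differentiableAt (R.isOpen_V.mem_nhds hw)).continuousAt
    filter_upwards [h1.eventually_ne hj, hΛ] with x h2 h3
    exact ⟨h2, h3⟩
  have hN' : ∀ᶠ y : R.V in 𝓝 ⟨w, hw⟩, R.φ y j ≠ 0 ∧ Λ (R.a y, R.φ y) = y :=
    (continuousAt_subtype_val (x := (⟨w, hw⟩ : R.V))).eventually hN
  have hN2 : ∀ᶠ p : X in 𝓝 (eR ⟨w, hw⟩), ∃ y : R.V, eR y = p ∧ R.φ y j ≠ 0 ∧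
      Λ (R.a y, R.φ y) = y := by
    rw [← heR.map_nhds_eq]
    rw [eventually_map]
    filter_upwards [hN'] with y hy
    exact ⟨y, rfl, hy⟩
  have hN3 : ∀ᶠ x : P.V in 𝓝 ⟨v, hv⟩, ∃ y : R.V, eR y = eP x ∧ R.φ y j ≠ 0 ∧
      Λ (R.a y, R.φ y) = y := by
    have h1 : ContinuousAt eP ⟨v, hv⟩ := heP.continuous.continuousAt
    rw [← hpt] at hN2
    exact h1.eventually hN2
  have hN4 : ∀ᶠ x in 𝓝 v, ∃ hx : x ∈ P.V, ∃ y : R.V, eR y = eP ⟨x, hx⟩ ∧ R.φ y j ≠ 0 ∧
      Λ (R.a y, R.φ y) = y := by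
    have h1 : 𝓝 v = map (Subtype.val : P.V → (Fin d → ℂ)) (𝓝 ⟨v, hv⟩) :=
      (map_nhds_subtype_coe_eq_nhds hv (P.isOpen_V.mem_nhds hv)).symm
    rw [h1, eventually_map]
    filter_upwards [hN3] with x hx
    exact ⟨x.2, hx⟩
  -- the transition map
  let τ : (Fin d → ℂ) → (Fin d → ℂ) := fun x => Λ (P.a x, P.φ x)
  have hPa : DifferentiableAt ℂ P.a v := P.holo_a.differentiableAt (P.isOpen_V.mem_nhds hv)
  have hPφ : DifferentiableAt ℂ P.φ v := P.holo_φ.differentiableAt (P.isOpen_V.mem_nhds hv)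
  have hτd : DifferentiableAt ℂ τ v := by
    have h1 := hΛd c0 hc0
    rw [← hav, ← hφv] at h1
    exact DifferentiableAt.comp (𝕜 := ℂ) (g := Λ) (f := fun x => (P.a x, P.φ x)) v h1
      (hPa.prodMk hPφ)
  have hτ : ∀ᶠ x in 𝓝 v, τ x ∈ R.V ∧ P.a x = R.a (τ x) ∧ R.φ (τ x) j ≠ 0 ∧
      P.φ x = (P.φ x j / R.φ (τ x) j) • R.φ (τ x) := by
    filter_upwards [hN4] with x hx
    obtain ⟨hxP, y, h1, h2, h3⟩ := hx
    obtain ⟨h4, c, hc, h5⟩ := hcomp x hxP y h1
    have h6 : τ x = y := by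
      change Λ (P.a x, P.φ x) = y
      rw [h4, h5, hΛc _ _ _ hc, h3]
    rw [h6]
    refine ⟨y.2, h4, h2, ?_⟩
    have h7 : P.φ x j / R.φ y j = c := by
      rw [h5]
      simp only [Pi.smul_apply, smul_eq_mul]
      field_simp
    rw [h7]
    exact h5
  have hτv : τ v = w := by
    change Λ (P.a v, P.φ v) = w
    rw [hav, hφv, hΛc _ _ _ hc0]
    exact hΛ.self_of_nhds
  have hRa : DifferentiableAt ℂ R.a (τ v) := by
    rw [hτv]; exact R.holo_a.differentiableAt (R.isOpen_V.mem_nhds hw)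
  have hRφ : DifferentiableAt ℂ R.φ (τ v) := by
    rw [hτv]; exact R.holo_φ.differentiableAt (R.isOpen_V.mem_nhds hw)
  have hda : fderiv ℂ P.a v = (fderiv ℂ R.a w).comp (fderiv ℂ τ v) := by
    have h1 : P.a =ᶠ[𝓝 v] R.a ∘ τ := by
      filter_upwards [hτ] with x hx
      exact hx.2.1
    rw [h1.fderiv_eq, fderiv_comp v hRa hτd, hτv]
  -- injectivity of the derivative of the transition
  have hinj : ∀ k, fderiv ℂ τ v k = 0 → k = 0 := by
    intro k hk
    apply P.immersion v hv k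
    · rw [hda, ContinuousLinearMap.comp_apply, hk, map_zero]
    · have h1 : P.φ =ᶠ[𝓝 v] fun x => (P.φ x j / R.φ (τ x) j) • (R.φ ∘ τ) x := by
        filter_upwards [hτ] with x hx
        exact hx.2.2.2
      have hcd : DifferentiableAt ℂ (fun x => P.φ x j / R.φ (τ x) j) v := by
        have h2 : DifferentiableAt ℂ (fun x => P.φ x j) v := by
          have h2 := hPφ
          rw [differentiableAt_pi] at h2
          exact h2 j
        have h3 : DifferentiableAt ℂ (fun x => R.φ (τ x) j) v := by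
          have h2 := hRφ.comp v hτd
          rw [differentiableAt_pi] at h2
          exact h2 j
        have h4 : R.φ (τ v) j ≠ 0 := by rw [hτv]; exact hj
        have h5 : DifferentiableAt ℂ (fun x => (R.φ (τ x) j)⁻¹) v := h3.inv h4
        have h6 : DifferentiableAt ℂ (fun x => P.φ x j * (R.φ (τ x) j)⁻¹) v := h2.mul h5
        have h7 : (fun x => P.φ x j / R.φ (τ x) j) = fun x => P.φ x j * (R.φ (τ x) j)⁻¹ := by
          funext x; rw [div_eq_mul_inv]
        rw [h7]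
        exact h6
      have h2 := (hcd.hasFDerivAt.smul (hRφ.comp v hτd).hasFDerivAt).congr_of_eventuallyEq h1
      have h3 := congrArg (fun T : (Fin d → ℂ) →L[ℂ] (ι → ℂ) => T k) h2.fderiv
      have h4 : fderiv ℂ (R.φ ∘ τ) v k = 0 := by
        rw [fderiv_comp v hRφ hτd, ContinuousLinearMap.comp_apply, hk, map_zero]
      have h5 : fderiv ℂ P.φ v k = (P.φ v j / R.φ (τ v) j) • fderiv ℂ (R.φ ∘ τ) v k +
          (fderiv ℂ (fun x => P.φ x j / R.φ (τ x) j) v k) • (R.φ ∘ τ) v := h3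
      rw [h4, smul_zero, zero_add] at h5
      change fderiv ℂ P.φ v k = (fderiv ℂ (fun x => P.φ x j / R.φ (τ x) j) v k) • R.φ (τ v) at h5
      rw [hτv] at h5
      refine ⟨(fderiv ℂ (fun x => P.φ x j / R.φ (τ x) j) v k) * c0⁻¹, ?_⟩
      rw [h5, hφv, smul_smul, mul_assoc, inv_mul_cancel₀ hc0, mul_one]
  have hsurj : Function.Surjective (fderiv ℂ τ v) := by
    have h1 : Function.Injective (fderiv ℂ τ v).toLinearMap :=
      (injective_iff_map_eq_zero _).2 hinj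
    exact LinearMap.injective_iff_surjective.1 h1
  obtain ⟨k, hk⟩ := hR
  obtain ⟨k', hk'⟩ := hsurj k
  refine ⟨k', ?_⟩
  rw [hda, ContinuousLinearMap.comp_apply, hk']
  exact hk

end Pool.Agent.N152
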