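import Pool.Agent.N152.Conn
import Pool.Agent.N152.Trans
import Pool.Agent.N152.Theta3

/-! Submersivity away from the central fibre. -/

set_option autoImplicit false

open scoped LinearAlgebra.Projectivization

namespace Pool.Agent.N152

open Pool.Agent.Helper922.HB Pool.Agent.Helper10.Dupin Topology TData

variable (T : TData)

theorem fderiv_aff {u0 : ℂ} (hu0 : u0 ≠ 0) (v k : Fin 3 → ℂ) :
    fderiv ℂ (Paff T hu0).a v k = 2 * v 1 * k 1 + 3 * v 2 ^ 2 * k 2 := by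
  have hp1 : HasFDerivAt (fun v : Fin 3 → ℂ => v 1)
      (ContinuousLinearMap.proj 1 : (Fin 3 → ℂ) →L[ℂ] ℂ) v :=
    (ContinuousLinearMap.proj (R := ℂ) (φ := fun _ : Fin 3 => ℂ) 1).hasFDerivAt
  have hp2 : HasFDerivAt (fun v : Fin 3 → ℂ => v 2)
      (ContinuousLinearMap.proj 2 : (Fin 3 → ℂ) →L[ℂ] ℂ) v :=
    (ContinuousLinearMap.proj (R := ℂ) (φ := fun _ : Fin 3 => ℂ) 2).hasFDerivAt
  have h1 := (hp1.pow 2).add (hp2.pow 3)
  have h2 : fderiv ℂ (Paff T hu0).a v = _ := h1.fderiv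
  rw [h2]
  simp

theorem submersive_off_zero (p : ℂ × ℙ ℂ (T.Idx → ℂ)) (hp : p ∈ T.XX) (h0 : p.1 ≠ 0) :
    ProjSubmersiveAt 3 T.XX p := by
  intro P v hv hpt
  rcases cover T ⟨p, hp⟩ with h | h
  · obtain ⟨⟨u, z, t⟩, hq⟩ := h
    have h1 : (Paff T u.2).pt ![u.1, z, t] (mem_dsc u.2) = p := congrArg Subtype.val hq
    refine submersive_transfer P (Paff T u.2) v ![u.1, z, t] hv (mem_dsc u.2)
      (hpt.trans h1.symm) ?_
    have h2 : z ^ 2 + t ^ 3 ≠ 0 := by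
      intro h3
      apply h0
      rw [← h1]
      exact h3
    by_cases hz : z = 0
    · have ht : t ≠ 0 := by
        intro ht
        apply h2
        rw [hz, ht]; ring
      refine ⟨![0, 0, 1], ?_⟩
      rw [fderiv_aff]
      simpa using ht
    · refine ⟨![0, 1, 0], ?_⟩
      rw [fderiv_aff]
      simpa using hz
  · obtain ⟨⟨u, ⟨⟨ρ, s⟩, hd⟩⟩, hq⟩ := h
    have h1 : (Pinf T u.2).pt ![u.1, ρ, s] ⟨mem_dsc u.2, hd⟩ = p := congrArg Subtype.val hq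
    refine submersive_transfer P (Pinf T u.2) v ![u.1, ρ, s] hv ⟨mem_dsc u.2, hd⟩
      (hpt.trans h1.symm) ?_
    refine ⟨![0, 0, 1], ?_⟩
    have hp2 : HasFDerivAt (fun v : Fin 3 → ℂ => v 2)
        (ContinuousLinearMap.proj 2 : (Fin 3 → ℂ) →L[ℂ] ℂ) ![u.1, ρ, s] :=
      (ContinuousLinearMap.proj (R := ℂ) (φ := fun _ : Fin 3 => ℂ) 2).hasFDerivAt
    have h2 : fderiv ℂ (Pinf T u.2).a ![u.1, ρ, s] = _ := hp2.fderiv
    rw [h2]
    simp

theorem main : ∃ (ι : Type) (_ : Fintype ι) (X : Set (ℂ × ℙ ℂ (ι → ℂ))),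
    IsClosedSubmanifold 3 X ∧ IsConnected X ∧
    (∀ s : ℂ, IsConnected {p | p ∈ X ∧ p.1 = s}) ∧
    (∀ p ∈ X, p.1 ≠ 0 → ProjSubmersiveAt 3 X p) ∧
    IsZHomologyFiberBundle (fun p : X => p.1.1) ∧
    ∃ p ∈ X, p.1 = 0 ∧ ¬ ProjSubmersiveAt 3 X p := by
  obtain ⟨T⟩ := exists_TData
  exact ⟨T.Idx, inferInstance, T.XX, isClosedSubmanifold_XX T, XX_conn T, fibre_conn' T,
    submersive_off_zero T, isZHFB T, not_submersive T⟩

end Pool.Agent.N152
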