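import Pool.Agent.Helper922.HB.Defs

/-! The variety `X ⊆ ℂ × ℙ(ℂ^ι)`. -/

set_option autoImplicit false

open scoped LinearAlgebra.Projectivization

namespace Pool.Agent.N152

open Pool.Agent.Helper922.HB

/-- the modulus of the elliptic curve `ℂˣ / q^ℤ` -/
noncomputable def qq : ℂ := 1 / 2

theorem qq_ne : qq ≠ 0 := by unfold qq; norm_num

theorem norm_qq : ‖qq‖ = 1 / 2 := by unfold qq; simp

/-- the primitive cube root of unity -/
noncomputable def om : ℂ := Complex.exp (2 * Real.pi * Complex.I / 3)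

theorem om_pow : om ^ 3 = 1 := by
  unfold om
  rw [← Complex.exp_nat_mul, ← Complex.exp_two_pi_mul_I]
  congr 1
  push_cast
  ring

theorem om_ne : om ≠ 0 := Complex.exp_ne_zero _

/-- the characters -/
noncomputable def chi (k : Fin 3) : ℂ := if k = 0 then -1 else if k = 1 then om else 1

theorem chi_zero : chi 0 = -1 := rfl
theorem chi_one : chi 1 = om := by simp [chi]
theorem chi_two : chi 2 = 1 := by simp [chi]

theorem chi_ne (k : Fin 3) : chi k ≠ 0 := by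
  unfold chi
  split_ifs
  · norm_num
  · exact om_ne
  · norm_num

/-- theta functions of degree three with the characters `chi k` -/
structure TData where
  /-- number of functions -/
  n : Fin 3 → ℕ
  /-- the functions -/
  F : (k : Fin 3) → ℂ → (Fin (n k) → ℂ)
  diff : ∀ k, DifferentiableOn ℂ (F k) {u | u ≠ 0}
  ne : ∀ k u, u ≠ 0 → F k u ≠ 0
  quasi : ∀ k u, u ≠ 0 → F k (qq * u) = (-(chi k)⁻¹ * (u⁻¹) ^ 3) • F k u
  sep : ∀ k u v, u ≠ 0 → v ≠ 0 → ∀ a : ℂ, F k u = a • F k v → ∃ m : ℤ, v = qq ^ m * u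
  imm : ∀ k u, u ≠ 0 → ∀ a : ℂ, deriv (F k) u ≠ a • F k u

namespace TData

variable (T : TData)

/-- index of the homogeneous coordinates -/
abbrev Idx : Type := Σ k : Fin 3, Fin (T.n k)

/-- the homogeneous coordinates -/
def Ph (u : ℂ) (x : Fin 3 → ℂ) : T.Idx → ℂ := fun i => T.F i.1 u i.2 * x i.1

theorem Ph_smul (u : ℂ) (c : ℂ) (x : Fin 3 → ℂ) : T.Ph u (c • x) = c • T.Ph u x := by
  funext i
  simp only [Ph, Pi.smul_apply, smul_eq_mul]
  ring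

theorem Ph_ne {u : ℂ} (hu : u ≠ 0) {x : Fin 3 → ℂ} (hx : x ≠ 0) : T.Ph u x ≠ 0 := by
  intro h
  obtain ⟨k, hk⟩ := Function.ne_iff.1 hx
  obtain ⟨j, hj⟩ := Function.ne_iff.1 (T.ne k u hu)
  have := congrFun h ⟨k, j⟩
  exact mul_ne_zero hj hk this

theorem quasi_zpow {u : ℂ} (hu : u ≠ 0) (m : ℤ) :
    ∃ ε : ℂ, ε ≠ 0 ∧ ∀ k, T.F k (qq ^ m * u) = (ε * (chi k)⁻¹ ^ m) • T.F k u := by
  have hq := qq_ne
  induction m using Int.induction_on with
  | zero => exact ⟨1, one_ne_zero, fun k => by simp⟩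
  | succ m ih =>
    obtain ⟨ε, h0, h⟩ := ih
    have hv : qq ^ (m : ℤ) * u ≠ 0 := mul_ne_zero (zpow_ne_zero _ hq) hu
    refine ⟨-((qq ^ (m : ℤ) * u)⁻¹) ^ 3 * ε, ?_, fun k => ?_⟩
    · exact mul_ne_zero (neg_ne_zero.2 (pow_ne_zero 3 (inv_ne_zero hv))) h0
    · have e : qq ^ ((m : ℤ) + 1) * u = qq * (qq ^ (m : ℤ) * u) := by
        rw [zpow_add_one₀ hq]; ring
      rw [e, T.quasi k _ hv, h k, smul_smul, zpow_add_one₀ (inv_ne_zero (chi_ne k))]
      congr 1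
      ring
  | pred m ih =>
    obtain ⟨ε, h0, h⟩ := ih
    have hv : qq ^ (-(m : ℤ) - 1) * u ≠ 0 := mul_ne_zero (zpow_ne_zero _ hq) hu
    refine ⟨-((qq ^ (-(m : ℤ) - 1) * u)) ^ 3 * ε, ?_, fun k => ?_⟩
    · exact mul_ne_zero (neg_ne_zero.2 (pow_ne_zero 3 hv)) h0
    · have e : qq ^ (-(m : ℤ)) * u = qq * (qq ^ (-(m : ℤ) - 1) * u) := by
        rw [zpow_sub_one₀ hq]
        field_simp
      have h1 := h k
      rw [e, T.quasi k _ hv] at h1
      have hc := chi_ne k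
      have h2 : -(chi k)⁻¹ * ((qq ^ (-(m : ℤ) - 1) * u)⁻¹) ^ 3 ≠ 0 :=
        mul_ne_zero (neg_ne_zero.2 (inv_ne_zero hc)) (pow_ne_zero 3 (inv_ne_zero hv))
      have h3 := congrArg (fun z => (-(chi k)⁻¹ * ((qq ^ (-(m : ℤ) - 1) * u)⁻¹) ^ 3)⁻¹ • z) h1
      simp only [smul_smul] at h3
      rw [inv_mul_cancel₀ h2, one_smul] at h3
      rw [h3, zpow_sub_one₀ (inv_ne_zero hc)]
      congr 1
      field_simp

/-- the equation of the cone over the cuspidal pencil -/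
def Eqn (x : Fin 3 → ℂ) (s : ℂ) : Prop := x 0 ^ 2 * x 2 + x 1 ^ 3 = s * x 2 ^ 3

/-- twist of a vector -/
noncomputable def tw (m : ℤ) (x : Fin 3 → ℂ) : Fin 3 → ℂ := fun k => chi k ^ m * x k

end TData

open TData

theorem tw_eqn (m : ℤ) {x : Fin 3 → ℂ} {s : ℂ} (h : Eqn x s) : Eqn (tw m x) s := by
  unfold Eqn tw at *
  rw [chi_zero, chi_one, chi_two, one_zpow, one_mul]
  have e1 : (((-1 : ℂ) ^ m)) ^ 2 = 1 := by
    rw [← zpow_natCast, ← zpow_mul, mul_comm, zpow_mul]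
    norm_num
  have e2 : ((om ^ m)) ^ 3 = 1 := by
    rw [← zpow_natCast, ← zpow_mul, mul_comm, zpow_mul]
    have : om ^ ((3 : ℕ) : ℤ) = 1 := by rw [zpow_natCast]; exact om_pow
    rw [this, one_zpow]
  rw [mul_pow, mul_pow, e1, e2, one_mul, one_mul]
  exact h

theorem smul_eqn {c : ℂ} {x : Fin 3 → ℂ} {s : ℂ} (h : Eqn x s) : Eqn (c • x) s := by
  unfold Eqn at *
  simp only [Pi.smul_apply, smul_eq_mul]
  linear_combination c ^ 3 * h

theorem tw_ne {m : ℤ} {x : Fin 3 → ℂ} (h : x ≠ 0) : tw m x ≠ 0 := by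
  obtain ⟨k, hk⟩ := Function.ne_iff.1 h
  intro h0
  exact mul_ne_zero (zpow_ne_zero m (chi_ne k)) hk (congrFun h0 k)

/-- the cone over the covering space of `X` -/
abbrev XH : Type := {p : ℂ × (Fin 3 → ℂ) × ℂ // p.1 ≠ 0 ∧ p.2.1 ≠ 0 ∧ Eqn p.2.1 p.2.2}

namespace TData

variable (T : TData)

/-- the projection from the cone -/
noncomputable def Qm (p : XH) : ℂ × ℙ ℂ (T.Idx → ℂ) :=
  (p.1.2.2, Projectivization.mk ℂ (T.Ph p.1.1 p.1.2.1) (T.Ph_ne p.2.1 p.2.2.1))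

/-- the variety -/
def XX : Set (ℂ × ℙ ℂ (T.Idx → ℂ)) := Set.range T.Qm

/-- the projection from the cone, to the variety -/
noncomputable def Qx (p : XH) : T.XX := ⟨T.Qm p, p, rfl⟩

theorem Ph_tw {u : ℂ} (hu : u ≠ 0) (m : ℤ) :
    ∃ ε : ℂ, ε ≠ 0 ∧ ∀ x : Fin 3 → ℂ, T.Ph (qq ^ m * u) (tw m x) = ε • T.Ph u x := by
  obtain ⟨ε, h0, h⟩ := T.quasi_zpow hu m
  refine ⟨ε, h0, fun x => ?_⟩
  funext i
  have hc := chi_ne i.1
  simp only [Ph, tw, Pi.smul_apply, smul_eq_mul]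
  rw [h i.1]
  simp only [Pi.smul_apply, smul_eq_mul, inv_zpow]
  have := zpow_ne_zero m hc
  field_simp

/-- the fibres of the projection -/
theorem Qm_eq_iff (p p' : XH) : T.Qm p = T.Qm p' ↔ p.1.2.2 = p'.1.2.2 ∧
    ∃ (m : ℤ) (c : ℂ), c ≠ 0 ∧ p'.1.1 = qq ^ m * p.1.1 ∧ p'.1.2.1 = c • tw m p.1.2.1 := by
  obtain ⟨⟨u, x, s⟩, hu, hx, he⟩ := p
  obtain ⟨⟨u', x', s'⟩, hu', hx', he'⟩ := p'
  change u ≠ 0 at hu
  change x ≠ 0 at hx
  change u' ≠ 0 at hu'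
  change x' ≠ 0 at hx'
  have hmk : (Projectivization.mk ℂ (T.Ph u x) (T.Ph_ne hu hx) =
      Projectivization.mk ℂ (T.Ph u' x') (T.Ph_ne hu' hx')) ↔
      ∃ (m : ℤ) (c : ℂ), c ≠ 0 ∧ u' = qq ^ m * u ∧ x' = c • tw m x := by
    rw [Projectivization.mk_eq_mk_iff']
    constructor
    · rintro ⟨a, ha⟩
      have ha0 : a ≠ 0 := by
        rintro rfl
        rw [zero_smul] at ha
        exact T.Ph_ne hu hx ha.symm
      obtain ⟨k, hk⟩ := Function.ne_iff.1 hx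
      change x k ≠ 0 at hk
      have h1 : T.F k u = (a * x' k / x k) • T.F k u' := by
        funext j
        have h2 := congrFun ha ⟨k, j⟩
        simp only [Ph, Pi.smul_apply, smul_eq_mul] at h2 ⊢
        field_simp
        linear_combination -h2
      obtain ⟨m, hm⟩ := T.sep k u u' hu hu' _ h1
      obtain ⟨ε, h0, h⟩ := T.Ph_tw hu m
      refine ⟨m, (a * ε)⁻¹, inv_ne_zero (mul_ne_zero ha0 h0), hm, ?_⟩
      -- compare coordinates
      have h3 : T.Ph u' ((a * ε) • x') = T.Ph u' (tw m x) := by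
        rw [Ph_smul, hm, h x, ← ha, hm, smul_smul, mul_comm a ε]
      have h4 : (a * ε) • x' = tw m x := by
        funext l
        obtain ⟨j, hj⟩ := Function.ne_iff.1 (T.ne l u' hu')
        change T.F l u' j ≠ 0 at hj
        have h5 := congrFun h3 ⟨l, j⟩
        simp only [Ph] at h5
        exact mul_left_cancel₀ hj h5
      rw [← h4, smul_smul, inv_mul_cancel₀ (mul_ne_zero ha0 h0), one_smul]
    · rintro ⟨m, c, hc, hm, hx2⟩
      obtain ⟨ε, h0, h⟩ := T.Ph_tw hu m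
      refine ⟨(c * ε)⁻¹, ?_⟩
      rw [hm, hx2, Ph_smul, h x, smul_smul, smul_smul, mul_assoc,
        inv_mul_cancel₀ (mul_ne_zero hc h0), one_smul]
  constructor
  · intro h
    have h1 := Prod.ext_iff.1 h
    exact ⟨h1.1, hmk.1 h1.2⟩
  · rintro ⟨h1, h2⟩
    exact Prod.ext h1 (hmk.2 h2)

end TData

end Pool.Agent.N152
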