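import Pool.Agent.N152.Geo

/-! The variety `X` is closed, and a quotient of its cone. -/

set_option autoImplicit false

open scoped LinearAlgebra.Projectivization

namespace Pool.Agent.N152

open Pool.Agent.Helper922.HB TData

theorem continuous_mk {ι : Type} [Fintype ι] :
    Continuous (fun z : {z : ι → ℂ // z ≠ 0} => (Projectivization.mk ℂ z.1 z.2 : ℙ ℂ (ι → ℂ))) := by
  have h : (fun z : {z : ι → ℂ // z ≠ 0} => (Projectivization.mk ℂ z.1 z.2 : ℙ ℂ (ι → ℂ)))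
      = Projectivization.mk' ℂ := by
    funext z
    exact (Projectivization.mk'_eq_mk ℂ z).symm
  rw [h]
  exact continuous_coinduced_rng

theorem isOpen_proj_iff {ι : Type} [Fintype ι] (W : Set (ℙ ℂ (ι → ℂ))) :
    IsOpen W ↔ IsOpen {z : {z : ι → ℂ // z ≠ 0} | Projectivization.mk ℂ z.1 z.2 ∈ W} := by
  have h1 : IsOpen W ↔ IsOpen ((Projectivization.mk' ℂ : {v : ι → ℂ // v ≠ 0} → _) ⁻¹' W) :=
    isOpen_coinduced
  rw [h1]
  have h2 : ((Projectivization.mk' ℂ : {v : ι → ℂ // v ≠ 0} → _) ⁻¹' W)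
      = {z : {z : ι → ℂ // z ≠ 0} | Projectivization.mk ℂ z.1 z.2 ∈ W} := by
    ext z
    rw [Set.mem_preimage, Projectivization.mk'_eq_mk]
    rfl
  rw [h2]

theorem t2Space_proj {ι : Type} [Fintype ι] : T2Space (ℙ ℂ (ι → ℂ)) := by
  have hq : IsOpenQuotientMap
      (fun z : {z : ι → ℂ // z ≠ 0} => (Projectivization.mk ℂ z.1 z.2 : ℙ ℂ (ι → ℂ))) := by
    refine ⟨?_, continuous_mk, ?_⟩
    · intro p
      induction p with
      | h z hz => exact ⟨⟨z, hz⟩, rfl⟩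
    · intro U hU
      rw [isOpen_proj_iff]
      have h1 : {z : {z : ι → ℂ // z ≠ 0} | Projectivization.mk ℂ z.1 z.2 ∈
          (fun z : {z : ι → ℂ // z ≠ 0} => (Projectivization.mk ℂ z.1 z.2 : ℙ ℂ (ι → ℂ))) '' U}
          = ⋃ c : ℂˣ, (fun z : {z : ι → ℂ // z ≠ 0} =>
            (⟨(c : ℂ) • z.1, smul_ne_zero c.ne_zero z.2⟩ : {z : ι → ℂ // z ≠ 0})) ⁻¹' U := by
        ext z
        simp only [Set.mem_ofPred_eq, Set.mem_image, Set.mem_iUnion, Set.mem_preimage]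
        constructor
        · rintro ⟨w, hw, he⟩
          rw [Projectivization.mk_eq_mk_iff'] at he
          obtain ⟨a, ha⟩ := he
          have ha0 : a ≠ 0 := by
            rintro rfl
            rw [zero_smul] at ha
            exact w.2 ha.symm
          refine ⟨Units.mk0 a ha0, ?_⟩
          have : (⟨((Units.mk0 a ha0 : ℂˣ) : ℂ) • z.1, smul_ne_zero (Units.ne_zero _) z.2⟩ :
            {z : ι → ℂ // z ≠ 0}) = w := Subtype.ext ha
          rw [this]
          exact hw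
        · rintro ⟨c, hc⟩
          refine ⟨_, hc, ?_⟩
          rw [Projectivization.mk_eq_mk_iff']
          exact ⟨(c : ℂ), rfl⟩
      rw [h1]
      apply isOpen_iUnion
      intro c
      apply hU.preimage
      apply Continuous.subtype_mk
      fun_prop
  rw [t2Space_iff_of_isOpenQuotientMap hq]
  have h2 : {q : {z : ι → ℂ // z ≠ 0} × {z : ι → ℂ // z ≠ 0} |
      Projectivization.mk ℂ q.1.1 q.1.2 = Projectivization.mk ℂ q.2.1 q.2.2}
      = ⋂ i, ⋂ j, {q | q.1.1 i * q.2.1 j = q.1.1 j * q.2.1 i} := by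
    ext q
    simp only [Set.mem_ofPred_eq, Set.mem_iInter]
    rw [Projectivization.mk_eq_mk_iff']
    constructor
    · rintro ⟨a, ha⟩ i j
      rw [← ha]
      simp only [Pi.smul_apply, smul_eq_mul]
      ring
    · intro h
      obtain ⟨k, hk⟩ : ∃ k, q.2.1 k ≠ 0 := by
        by_contra hcon
        push Not at hcon
        exact q.2.2 (funext hcon)
      refine ⟨q.1.1 k / q.2.1 k, ?_⟩
      funext i
      simp only [Pi.smul_apply, smul_eq_mul]
      have := h i k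
      field_simp
      rw [← this]
      ring
  have h3 := isClosed_iInter (fun i : ι => isClosed_iInter (fun j : ι =>
    isClosed_eq
      (f := fun q : {z : ι → ℂ // z ≠ 0} × {z : ι → ℂ // z ≠ 0} => q.1.1 i * q.2.1 j)
      (g := fun q => q.1.1 j * q.2.1 i)
      (((continuous_apply i).comp (continuous_subtype_val.comp continuous_fst)).mul
        ((continuous_apply j).comp (continuous_subtype_val.comp continuous_snd)))
      (((continuous_apply j).comp (continuous_subtype_val.comp continuous_fst)).mul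
        ((continuous_apply i).comp (continuous_subtype_val.comp continuous_snd)))))
  rw [← h2] at h3
  exact h3

namespace TData

variable (T : TData)

theorem continuous_F {X : Type} [TopologicalSpace X] (k : Fin 3) {f : X → ℂ} (hf : Continuous f)
    (h0 : ∀ x, f x ≠ 0) : Continuous fun x => T.F k (f x) := by
  have h1 : ContinuousOn (T.F k) {u | u ≠ 0} := (T.diff k).continuousOn
  exact h1.comp_continuous hf h0

theorem continuous_Ph {X : Type} [TopologicalSpace X] {f : X → ℂ} {g : X → Fin 3 → ℂ}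
    (hf : Continuous f) (hg : Continuous g) (h0 : ∀ x, f x ≠ 0) :
    Continuous fun x => T.Ph (f x) (g x) := by
  refine continuous_pi fun i => ?_
  exact ((continuous_apply i.2).comp (T.continuous_F i.1 hf h0)).mul
    ((continuous_apply i.1).comp hg)

theorem continuous_Qm : Continuous T.Qm := by
  refine Continuous.prodMk (by fun_prop) ?_
  have h1 : Continuous fun p : XH => T.Ph p.1.1 p.1.2.1 :=
    T.continuous_Ph (by fun_prop) (by fun_prop) fun p => p.2.1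
  have h2 : Continuous fun p : XH =>
      (⟨T.Ph p.1.1 p.1.2.1, T.Ph_ne p.2.1 p.2.2.1⟩ : {z : T.Idx → ℂ // z ≠ 0}) := h1.subtype_mk _
  exact continuous_mk.comp h2

theorem continuous_Qx : Continuous T.Qx := T.continuous_Qm.subtype_mk _

/-- a fundamental domain, proper over the base -/
abbrev KH : Type := {p : ℂ × (Fin 3 → ℂ) × ℂ //
  (1 / 2 ≤ ‖p.1‖ ∧ ‖p.1‖ ≤ 1) ∧ ‖p.2.1‖ = 1 ∧ Eqn p.2.1 p.2.2}

/-- inclusion -/
def kh (p : KH) : XH := ⟨p.1, by
  obtain ⟨⟨h1, h2⟩, h3, h4⟩ := p.2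
  refine ⟨?_, ?_, h4⟩
  · intro h
    rw [h] at h1
    norm_num at h1
  · intro h
    rw [h] at h3
    simp at h3⟩

theorem continuous_kh : Continuous kh := by
  apply Continuous.subtype_mk
  fun_prop

theorem isClosed_KH : IsClosed {p : ℂ × (Fin 3 → ℂ) × ℂ |
    (1 / 2 ≤ ‖p.1‖ ∧ ‖p.1‖ ≤ 1) ∧ ‖p.2.1‖ = 1 ∧ Eqn p.2.1 p.2.2} := by
  have h1 : IsClosed {p : ℂ × (Fin 3 → ℂ) × ℂ | 1 / 2 ≤ ‖p.1‖} :=
    isClosed_le (by fun_prop) (by fun_prop)
  have h2 : IsClosed {p : ℂ × (Fin 3 → ℂ) × ℂ | ‖p.1‖ ≤ 1} :=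
    isClosed_le (by fun_prop) (by fun_prop)
  have h3 : IsClosed {p : ℂ × (Fin 3 → ℂ) × ℂ | ‖p.2.1‖ = 1} :=
    isClosed_eq (by fun_prop) (by fun_prop)
  have h4 : IsClosed {p : ℂ × (Fin 3 → ℂ) × ℂ | Eqn p.2.1 p.2.2} :=
    isClosed_eq (by fun_prop) (by fun_prop)
  exact (h1.inter h2).inter (h3.inter h4)

theorem proper_KH : IsProperMap (fun p : KH => p.1.2.2) := by
  rw [isProperMap_iff_isCompact_preimage]
  refine ⟨by fun_prop, fun K hK => ?_⟩
  rw [Subtype.isCompact_iff]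
  have h1 : Subtype.val '' ((fun p : KH => p.1.2.2) ⁻¹' K) =
      {p : ℂ × (Fin 3 → ℂ) × ℂ |
        (1 / 2 ≤ ‖p.1‖ ∧ ‖p.1‖ ≤ 1) ∧ ‖p.2.1‖ = 1 ∧ Eqn p.2.1 p.2.2} ∩
      (fun p : ℂ × (Fin 3 → ℂ) × ℂ => p.2.2) ⁻¹' K := by
    ext p
    constructor
    · rintro ⟨p', hp', rfl⟩
      exact ⟨p'.2, hp'⟩
    · rintro ⟨h1, h2⟩
      exact ⟨⟨p, h1⟩, h2, rfl⟩
  rw [h1]
  have h2 : IsCompact (Metric.closedBall (0 : ℂ) 1 ×ˢ (Metric.closedBall (0 : Fin 3 → ℂ) 1 ×ˢ K)) :=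
    (isCompact_closedBall _ _).prod ((isCompact_closedBall _ _).prod hK)
  refine h2.of_isClosed_subset (isClosed_KH.inter (hK.isClosed.preimage (by fun_prop))) ?_
  rintro p ⟨⟨h3, h4, h5⟩, h6⟩
  refine ⟨?_, ?_, h6⟩
  · simpa using h3.2
  · simp [h4]

theorem proper_Qk : IsProperMap (T.Qm ∘ kh) := by
  have hT : T2Space (ℙ ℂ (T.Idx → ℂ)) := t2Space_proj
  refine isProperMap_of_comp_of_t2 (T.continuous_Qm.comp continuous_kh) continuous_fst ?_
  exact proper_KH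

/-- every point of the cone is equivalent to a point of the fundamental domain -/
theorem exists_KH (p : XH) : ∃ p' : KH, T.Qm (kh p') = T.Qm p := by
  obtain ⟨⟨u, x, s⟩, hu, hx, he⟩ := p
  change u ≠ 0 at hu
  change x ≠ 0 at hx
  obtain ⟨m, hm1, hm2⟩ := exists_mem_Ico_zpow (norm_pos_iff.2 hu) (one_lt_two (α := ℝ))
  -- `2 ^ m ≤ ‖u‖ < 2 ^ (m + 1)`
  have hq := qq_ne
  have hn : ‖qq ^ (m + 1) * u‖ = ‖u‖ / 2 ^ (m + 1) := by
    rw [norm_mul, norm_zpow, norm_qq, one_div, inv_zpow]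
    field_simp
  have h2 : (0 : ℝ) < 2 ^ (m + 1) := by positivity
  have hx1 : tw (m + 1) x ≠ 0 := tw_ne hx
  have hxn : (‖tw (m + 1) x‖ : ℂ) ≠ 0 := by exact_mod_cast (norm_pos_iff.2 hx1).ne'
  refine ⟨⟨(qq ^ (m + 1) * u, (‖tw (m + 1) x‖ : ℂ)⁻¹ • tw (m + 1) x, s), ⟨?_, ?_⟩, ?_, ?_⟩, ?_⟩
  · change 1 / 2 ≤ ‖qq ^ (m + 1) * u‖
    rw [hn, le_div_iff₀ h2, zpow_add_one₀ (by norm_num)]
    linarith
  · change ‖qq ^ (m + 1) * u‖ ≤ 1
    rw [hn, div_le_one h2]
    exact hm2.le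
  · change ‖(‖tw (m + 1) x‖ : ℂ)⁻¹ • tw (m + 1) x‖ = 1
    rw [norm_smul, norm_inv, Complex.norm_real, norm_norm,
      inv_mul_cancel₀ (norm_pos_iff.2 hx1).ne']
  · exact smul_eqn (tw_eqn _ he)
  · symm
    rw [Qm_eq_iff]
    exact ⟨rfl, m + 1, _, inv_ne_zero hxn, rfl, rfl⟩

theorem isClosed_XX : IsClosed T.XX := by
  have h : T.XX = Set.range (T.Qm ∘ kh) := by
    apply Set.Subset.antisymm
    · rintro _ ⟨p, rfl⟩
      obtain ⟨p', hp'⟩ := T.exists_KH p
      exact ⟨p', hp'⟩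
    · rintro _ ⟨p, rfl⟩
      exact ⟨kh p, rfl⟩
  rw [h]
  exact T.proper_Qk.isClosedMap.isClosed_range

theorem proper_Qkx : IsProperMap (T.Qx ∘ kh) := by
  have hT : T2Space (ℙ ℂ (T.Idx → ℂ)) := t2Space_proj
  exact isProperMap_of_comp_of_t2 (T.continuous_Qx.comp continuous_kh) continuous_subtype_val
    T.proper_Qk

/-- the topology of `X` is the quotient topology -/
theorem isOpen_of_preimage {S : Set T.XX} (hS : IsOpen (T.Qx ⁻¹' S)) : IsOpen S := by
  have h1 : IsClosed ((T.Qx ∘ kh) '' ((T.Qx ∘ kh) ⁻¹' Sᶜ)) := by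
    apply T.proper_Qkx.isClosedMap
    rw [Set.preimage_comp]
    exact hS.isClosed_compl.preimage continuous_kh
  have h2 : (T.Qx ∘ kh) '' ((T.Qx ∘ kh) ⁻¹' Sᶜ) = Sᶜ := by
    apply Set.image_preimage_eq
    rintro ⟨_, p, rfl⟩
    obtain ⟨p', hp'⟩ := T.exists_KH p
    exact ⟨p', Subtype.ext hp'⟩
  rw [h2] at h1
  exact isClosed_compl_iff.1 h1

end TData

end Pool.Agent.N152
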