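import Pool.Agent.N906.KG.Def
import Pool.Agent.N906.NT.Lim
import Pool.Agent.N906.RS.Asy

/-!
# Project KG (helper906), part FINN (helper152): the final theorem for `n`-term sums
-/

set_option autoImplicit false

namespace Pool.Agent.N152.KG

open NumberField IsDedekindDomain Finset Filter Topology Pool.Agent.H691R3 Pool.Agent.W223.AK
open Pool.Agent.N906.KG
open Pool.Agent.N906.NT (cst Gs Gs_pos Gs_tendsto squeeze)

/-! ### Limits -/

theorem Gs_ratio {ρ d : ℝ} (hd : 0 < d) :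
    Tendsto (fun L : ℝ => Gs ρ (d * L) / Gs ρ L) atTop (𝓝 (d ^ ρ)) := by
  have h1 := Pool.Agent.N906.RS.log_ratio 0 hd
  have h2 : Tendsto (fun b : ℝ => d * (Real.log (d * b - 0) / Real.log b)⁻¹) atTop (𝓝 (d * (1 : ℝ)⁻¹)) :=
    (h1.inv₀ one_ne_zero).const_mul d
  rw [inv_one, mul_one] at h2
  have h3 := (Real.continuousAt_rpow_const d ρ (Or.inl hd.ne')).tendsto.comp h2
  refine h3.congr' ?_
  filter_upwards [eventually_gt_atTop (1 : ℝ), (Pool.Agent.N906.RS.lin_atTop 0 hd).eventually_gt_atTop 1]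
    with b hb hb2
  rw [sub_zero] at hb2
  have hb0 : 0 < b := by linarith
  have hl : 0 < Real.log b := Real.log_pos hb
  have hl2 : 0 < Real.log (d * b) := Real.log_pos hb2
  rw [Function.comp_apply, sub_zero]
  unfold Gs
  rw [← Real.div_rpow (by positivity) (by positivity)]
  congr 1
  field_simp

theorem transfer {ρ c e d : ℝ} (hd : 0 < d) (N : ℝ → ℝ)
    (h : Tendsto (fun X : ℝ => (Real.log (N X) - e * X) / Gs ρ X) atTop (𝓝 c)) :
    Tendsto (fun B : ℝ => (Real.log (N (d * Real.log B)) - d * e * Real.log B) /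
      (Real.log B / Real.log (Real.log B)) ^ ρ) atTop (𝓝 (c * d ^ ρ)) := by
  have hlin : Tendsto (fun L : ℝ => d * L) atTop atTop := tendsto_id.const_mul_atTop hd
  have h1 := (h.comp hlin).mul (Gs_ratio (ρ := ρ) hd)
  have h2 : Tendsto (fun L : ℝ => (Real.log (N (d * L)) - d * e * L) / Gs ρ L) atTop
      (𝓝 (c * d ^ ρ)) := by
    refine h1.congr' ?_
    filter_upwards [hlin.eventually_gt_atTop 1] with L hL
    have hG := Gs_pos (ρ := ρ) hL
    rw [Function.comp_apply, div_mul_div_comm, mul_comm (Gs ρ (d * L)) (Gs ρ L)]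
    rw [mul_div_mul_right _ _ hG.ne']
    congr 2
    ring
  exact h2.comp Real.tendsto_log_atTop

section

variable {K : Type} [Field K] [NumberField K] {n : ℕ}

/-! ### The radical -/

theorem isQ_unique {z : Fin n → K} (hz : ∀ i, z i ≠ 0) {D D' : Fin n → Idl K} (h : IsQ z D)
    (h' : IsQ z D') : D = D' := by
  funext i
  ext v
  have h1 := h i v
  have h2 := h' i v
  rw [h1] at h2
  have hpos : 0 < fv v (z i) := (fv v).pos (hz i)
  have hsup : 0 < ⨆ j, fv v (z j) :=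
    hpos.trans_le (le_ciSup (f := fun j => fv v (z j)) (Set.finite_range _).bddAbove i)
  have h3 := mul_left_cancel₀ hsup.ne' h2
  have hN : 1 < Nv v := by linarith [two_le_Nv v]
  have h4 := zpow_right_injective₀ (by linarith) hN.ne' h3
  omega

theorem rad_eq (h1 : S_BASN K) (hn : 1 ≤ n) (P : Projectivization K (Fin n → K))
    (hP : ∀ i, P.rep i ≠ 0) {D : Fin n → Idl K} (hD : IsQ P.rep D) :
    (Module.finrank ℚ K : ℝ) * radP P = tr D := by
  have hd : (0 : ℝ) < Module.finrank ℚ K := by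
    exact_mod_cast (Module.finrank_pos (R := ℚ) (M := K))
  obtain ⟨D', hD', -, -, hsp⟩ := h1 n P.rep hn hP
  have hDD := isQ_unique hP hD hD'
  subst hDD
  unfold radP tr
  rw [mul_div_cancel₀ _ hd.ne', ← finsum_mem_coe_finset]
  refine finsum_congr fun v => ?_
  have e : (∃ i j, FinitePlace.mk v (P.rep i) ≠ FinitePlace.mk v (P.rep j)) =
      (v ∈ ((sp D : Finset (Pr K)) : Set (Pr K))) := by
    apply propext
    rw [Finset.mem_coe]
    exact (hsp v).symm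
  rw [e]
  rfl

/-! ### The counting sets -/

/-- the points in terms of `X` -/
def SA (G : MvPolynomial (Fin n) K) (κ c : ℝ) (Q : (Fin n → K) → Prop) (X : ℝ) :
    Set (Projectivization K (Fin n → K)) :=
  {P | ∑ i, P.rep i = 0 ∧ (∀ i, P.rep i ≠ 0) ∧ MvPolynomial.eval P.rep G ≠ 0 ∧
    Height.logHeight P.rep ≤ X ∧ radP P ≤ ((n : ℝ) - κ) * hh P + c ∧ Q P.rep}

theorem SA_mono (G : MvPolynomial (Fin n) K) (κ c : ℝ) (Q : (Fin n → K) → Prop) {X Y : ℝ}
    (h : X ≤ Y) : SA G κ c Q X ⊆ SA G κ c Q Y := by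
  rintro P ⟨h1, h2, h3, h4, h5, h6⟩
  exact ⟨h1, h2, h3, h4.trans h, h5, h6⟩

theorem card_up (h1 : S_BASN K) (h2 : S_UPNK K) (hn : 3 ≤ n) (G : MvPolynomial (Fin n) K) {κ : ℝ}
    (c : ℝ) (Q : (Fin n → K) → Prop) (h0 : 0 < κ) (h13 : κ < 1 / 3) {ε : ℝ} (hε : 0 < ε) :
    ∃ X₀ : ℝ, 1 < X₀ ∧ ∀ X : ℝ, X₀ ≤ X → (SA G κ c Q X).Finite ∧
      ((SA G κ c Q X).ncard : ℝ) ≤ Real.exp (((n : ℝ) - 1 - κ) * X +
        (1 + ε) * cst (n - 2) (n.choose (n - 2)) *
          (κ * X / Real.log X) ^ (((n : ℝ) - 2) / (n - 1))) := by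
  have hd : (0 : ℝ) < Module.finrank ℚ K := by
    exact_mod_cast (Module.finrank_pos (R := ℚ) (M := K))
  obtain ⟨X₀, hX₀, hU⟩ := h2 n κ ε (Module.finrank ℚ K * |c|) hn h0 h13 hε (by positivity)
  refine ⟨X₀, hX₀, fun X hX => ?_⟩
  obtain ⟨R, hR⟩ : ∃ R : ℝ, R = Real.exp (((n : ℝ) - 1 - κ) * X +
        (1 + ε) * cst (n - 2) (n.choose (n - 2)) *
          (κ * X / Real.log X) ^ (((n : ℝ) - 2) / (n - 1))) := ⟨_, rfl⟩
  rw [← hR]
  have hF : ∀ F : Finset (Projectivization K (Fin n → K)),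
      (F : Set (Projectivization K (Fin n → K))) ⊆ SA G κ c Q X → (F.card : ℝ) ≤ R := by
    intro F hF
    rw [hR]
    refine hU X F hX fun p hp => ?_
    obtain ⟨g1, g2, g3, g4, g5, g6⟩ := hF (Finset.mem_coe.2 hp)
    obtain ⟨D, hD, -⟩ := h1 n p.rep (by omega) g2
    refine ⟨g1, g2, g4, D, hD, ?_⟩
    rw [← rad_eq h1 (by omega) p g2 hD]
    have e1 : (Module.finrank ℚ K : ℝ) * hh p = Height.logHeight p.rep := by
      unfold hh
      rw [mul_div_cancel₀ _ hd.ne']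
    rw [← e1]
    have e2 := mul_le_mul_of_nonneg_left g5 hd.le
    have e3 : (Module.finrank ℚ K : ℝ) * c ≤ Module.finrank ℚ K * |c| :=
      mul_le_mul_of_nonneg_left (le_abs_self c) hd.le
    nlinarith
  have hfin : (SA G κ c Q X).Finite := by
    by_contra hinf
    obtain ⟨F, hF1, hF2⟩ := Set.Infinite.exists_subset_card_eq hinf (⌊R⌋₊ + 1)
    have h3 := hF F hF1
    rw [hF2] at h3
    push_cast at h3
    linarith [Nat.lt_floor_add_one R]
  refine ⟨hfin, ?_⟩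
  rw [Set.ncard_eq_toFinset_card _ hfin]
  exact hF _ (by rw [Set.Finite.coe_toFinset])

theorem SA_finite (h1 : S_BASN K) (h2 : S_UPNK K) (hn : 3 ≤ n) (G : MvPolynomial (Fin n) K) {κ : ℝ}
    (c : ℝ) (Q : (Fin n → K) → Prop) (h0 : 0 < κ) (h13 : κ < 1 / 3) (X : ℝ) :
    (SA G κ c Q X).Finite := by
  obtain ⟨X₀, -, h⟩ := card_up h1 h2 hn G c Q h0 h13 one_pos
  exact (h (max X X₀) (le_max_right _ _)).1.subset (SA_mono G κ c Q (le_max_left _ _))

theorem card_lo (h1 : S_BASN K) (h2 : S_UPNK K) (h3 : S_LONK K) (h4 : S_ZARN K) (hn : 3 ≤ n) {D : ℕ}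
    (G : MvPolynomial (Fin n) K) (hG : G.IsHomogeneous D)
    (hz : ∃ z : Fin n → K, ∑ i, z i = 0 ∧ MvPolynomial.eval z G ≠ 0) {κ : ℝ}
    (c : ℝ) (Q : (Fin n → K) → Prop) (hQ : ∀ z, NVK z → Q z) (h0 : 0 < κ) (h13 : κ < 1 / 3) :
    ∃ C : ℝ, 0 < C ∧ ∀ ε : ℝ, 0 < ε → ε < 1 → ∃ X₀ : ℝ, 1 < X₀ ∧ ∀ X : ℝ, X₀ ≤ X →
      Real.exp (((n : ℝ) - 1 - κ) * X +
        (1 - ε) * cst (n - 2) (n.choose (n - 2)) *
          (κ * X / Real.log X) ^ (((n : ℝ) - 2) / (n - 1))) - C * Real.exp (((n : ℝ) - 2) * X) ≤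
        ((SA G κ c Q X).ncard : ℝ) := by
  have hd : (0 : ℝ) < Module.finrank ℚ K := by
    exact_mod_cast (Module.finrank_pos (R := ℚ) (M := K))
  obtain ⟨C, hC, hZ⟩ := h4 n D G hn hG hz
  refine ⟨C, hC, fun ε hε hε1 => ?_⟩
  obtain ⟨X₀, hX₀, hL⟩ := h3 n κ ε (Module.finrank ℚ K * |c|) hn h0 h13 hε hε1 (by positivity)
  refine ⟨X₀, hX₀, fun X hX => ?_⟩
  obtain ⟨F, hF, hc⟩ := hL X hX
  obtain ⟨hZ1, hZ2⟩ := hZ X (by linarith)
  have hfin := SA_finite h1 h2 hn G c Q h0 h13 X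
  have hsub : (F : Set (Projectivization K (Fin n → K))) ⊆ SA G κ c Q X ∪
      {P : Projectivization K (Fin n → K) | ∑ i, P.rep i = 0 ∧ Height.logHeight P.rep ≤ X ∧
        MvPolynomial.eval P.rep G = 0} := by
    intro p hp
    obtain ⟨g1, g2, g3, g4, D', hD', g5⟩ := hF p (Finset.mem_coe.1 hp)
    by_cases hGp : MvPolynomial.eval p.rep G = 0
    · exact Or.inr ⟨g1, g4, hGp⟩
    · refine Or.inl ⟨g1, g2, hGp, g4, ?_, hQ _ g3⟩
      rw [← rad_eq h1 (by omega) p g2 hD'] at g5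
      have e1 : (Module.finrank ℚ K : ℝ) * hh p = Height.logHeight p.rep := by
        unfold hh
        rw [mul_div_cancel₀ _ hd.ne']
      rw [← e1] at g5
      have e2 : (Module.finrank ℚ K : ℝ) * (radP p + |c|) ≤
          Module.finrank ℚ K * (((n : ℝ) - κ) * hh p) := by
        calc (Module.finrank ℚ K : ℝ) * (radP p + |c|) =
            Module.finrank ℚ K * radP p + Module.finrank ℚ K * |c| := by ring
          _ ≤ ((n : ℝ) - κ) * (Module.finrank ℚ K * hh p) := g5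
          _ = _ := by ring
      have e3 := le_of_mul_le_mul_left e2 hd
      have e4 := neg_abs_le c
      linarith
  have h5 := Set.ncard_le_ncard hsub (hfin.union hZ1)
  have h6 := Set.ncard_union_le (SA G κ c Q X)
    {P : Projectivization K (Fin n → K) | ∑ i, P.rep i = 0 ∧ Height.logHeight P.rep ≤ X ∧
        MvPolynomial.eval P.rep G = 0}
  rw [Set.ncard_coe_finset] at h5
  have h7 : (F.card : ℝ) ≤ ((SA G κ c Q X).ncard : ℝ) +
      ({P : Projectivization K (Fin n → K) | ∑ i, P.rep i = 0 ∧ Height.logHeight P.rep ≤ X ∧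
        MvPolynomial.eval P.rep G = 0}.ncard : ℝ) := by exact_mod_cast h5.trans h6
  linarith

/-- the limit in terms of `X` -/
theorem limX (h1 : S_BASN K) (h2 : S_UPNK K) (h3 : S_LONK K) (h4 : S_ZARN K) (hn : 3 ≤ n) {D : ℕ}
    (G : MvPolynomial (Fin n) K) (hG : G.IsHomogeneous D)
    (hz : ∃ z : Fin n → K, ∑ i, z i = 0 ∧ MvPolynomial.eval z G ≠ 0) {κ : ℝ}
    (c : ℝ) (Q : (Fin n → K) → Prop) (hQ : ∀ z, NVK z → Q z) (h0 : 0 < κ) (h13 : κ < 1 / 3) :
    Tendsto (fun X : ℝ => (Real.log ((SA G κ c Q X).ncard : ℝ) - ((n : ℝ) - 1 - κ) * X) /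
      Gs (((n : ℝ) - 2) / (n - 1)) X) atTop
      (𝓝 (cst (n - 2) (n.choose (n - 2)) * κ ^ (((n : ℝ) - 2) / (n - 1)))) := by
  have hn3 : (3 : ℝ) ≤ n := by exact_mod_cast hn
  obtain ⟨ρ, hρ⟩ : ∃ ρ : ℝ, ρ = ((n : ℝ) - 2) / (n - 1) := ⟨_, rfl⟩
  have hρ0 : 0 < ρ := by
    rw [hρ]
    exact div_pos (by linarith) (by linarith)
  obtain ⟨e, he⟩ : ∃ e : ℝ, e = (n : ℝ) - 1 - κ := ⟨_, rfl⟩
  obtain ⟨c0, hc0⟩ : ∃ c0 : ℝ, c0 = cst (n - 2) (n.choose (n - 2)) * κ ^ ρ := ⟨_, rfl⟩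
  have hc00 : 0 ≤ c0 := by
    rw [hc0]
    unfold cst
    positivity
  have hpow : ∀ X : ℝ, 1 < X → (κ * X / Real.log X) ^ ρ = κ ^ ρ * Gs ρ X := by
    intro X hX
    unfold Gs
    rw [mul_div_assoc, Real.mul_rpow h0.le]
    exact div_nonneg (by linarith) (Real.log_nonneg hX.le)
  rw [← hρ, ← hc0, ← he]
  refine squeeze hρ0 (fun X => ((SA G κ c Q X).ncard : ℝ)) ?_ ?_
  · intro ε hε
    obtain ⟨ε', hε'⟩ : ∃ ε' : ℝ, ε' = ε / (c0 + 1) := ⟨_, rfl⟩
    have hε'0 : 0 < ε' := by rw [hε']; positivity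
    have hε'c : ε' * c0 ≤ ε := by
      rw [hε', div_mul_eq_mul_div, div_le_iff₀ (by positivity)]
      nlinarith
    obtain ⟨X₀, hX₀, h⟩ := card_up h1 h2 hn G c Q h0 h13 hε'0
    filter_upwards [eventually_ge_atTop X₀] with X hX
    have hX1 : 1 < X := by linarith
    refine (h X hX).2.trans (Real.exp_le_exp.2 ?_)
    rw [← hρ, hpow X hX1, ← he]
    have hG := Gs_pos (ρ := ρ) hX1
    have e1 : (1 + ε') * cst (n - 2) (n.choose (n - 2)) * (κ ^ ρ * Gs ρ X) =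
        (1 + ε') * c0 * Gs ρ X := by
      rw [hc0]
      ring
    rw [e1]
    have e2 : (1 + ε') * c0 * Gs ρ X ≤ (c0 + ε) * Gs ρ X := by
      apply mul_le_mul_of_nonneg_right _ hG.le
      linarith
    linarith
  · intro ε hε
    obtain ⟨C, hC, hlo⟩ := card_lo h1 h2 h3 h4 hn G hG hz c Q hQ h0 h13
    obtain ⟨ε', hε'⟩ : ∃ ε' : ℝ, ε' = min (1 / 2) (ε / (2 * (c0 + 1))) := ⟨_, rfl⟩
    have hε'0 : 0 < ε' := by rw [hε']; exact lt_min (by norm_num) (by positivity)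
    have hε'1 : ε' < 1 := by rw [hε']; exact lt_of_le_of_lt (min_le_left _ _) (by norm_num)
    have hε'c : ε' * c0 ≤ ε / 2 := by
      have g1 : ε' ≤ ε / (2 * (c0 + 1)) := by rw [hε']; exact min_le_right _ _
      have g2 : ε' * c0 ≤ ε / (2 * (c0 + 1)) * c0 := mul_le_mul_of_nonneg_right g1 hc00
      refine g2.trans ?_
      rw [div_mul_eq_mul_div, div_le_div_iff₀ (by positivity) (by norm_num)]
      nlinarith
    obtain ⟨X₀, hX₀, h⟩ := hlo ε' hε'0 hε'1
    have hGt : ∀ᶠ L : ℝ in atTop, 2 * Real.log 2 / ε ≤ Gs ρ L :=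
      (Gs_tendsto hρ0).eventually_ge_atTop _
    have hlin : ∀ᶠ X : ℝ in atTop, Real.log (2 * C) ≤ (1 - κ) * X := by
      have : Tendsto (fun X : ℝ => (1 - κ) * X) atTop atTop :=
        tendsto_id.const_mul_atTop (by linarith)
      exact this.eventually_ge_atTop _
    filter_upwards [eventually_ge_atTop X₀, hGt, hlin] with X hX g1 g2
    have hX1 : 1 < X := by linarith
    have hGp := Gs_pos (ρ := ρ) hX1
    refine le_trans ?_ (h X hX)
    rw [← hρ, hpow X hX1, ← he]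
    have e1 : (1 - ε') * cst (n - 2) (n.choose (n - 2)) * (κ ^ ρ * Gs ρ X) =
        (1 - ε') * c0 * Gs ρ X := by
      rw [hc0]
      ring
    rw [e1]
    obtain ⟨T, hT⟩ : ∃ T : ℝ, T = Real.exp (e * X + (1 - ε') * c0 * Gs ρ X) := ⟨_, rfl⟩
    rw [← hT]
    -- the points on the hypersurface
    have e2 : C * Real.exp (((n : ℝ) - 2) * X) ≤ T / 2 := by
      have h5 : 2 * C ≤ Real.exp ((1 - κ) * X) := by
        rw [← Real.log_le_iff_le_exp (by positivity)]
        exact g2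
      have h6 : Real.exp ((1 - κ) * X) * Real.exp (((n : ℝ) - 2) * X) ≤ T := by
        rw [hT, ← Real.exp_add]
        apply Real.exp_le_exp.2
        have h7 : 0 ≤ (1 - ε') * c0 * Gs ρ X := by
          have : 0 ≤ 1 - ε' := by linarith
          positivity
        rw [he]
        nlinarith
      have h8 := mul_le_mul_of_nonneg_right h5 (Real.exp_pos (((n : ℝ) - 2) * X)).le
      linarith
    have e3 : 2 * Real.exp (e * X + (c0 - ε) * Gs ρ X) ≤ T := by
      rw [hT]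
      have h5 : (2 : ℝ) * Real.exp (e * X + (c0 - ε) * Gs ρ X) =
          Real.exp (Real.log 2 + (e * X + (c0 - ε) * Gs ρ X)) := by
        rw [Real.exp_add (Real.log 2), Real.exp_log (by norm_num)]
      rw [h5]
      apply Real.exp_le_exp.2
      have h6 : Real.log 2 ≤ ε / 2 * Gs ρ X := by
        rw [div_le_iff₀ hε] at g1
        linarith
      have h7 : (c0 - ε / 2) * Gs ρ X ≤ (1 - ε') * c0 * Gs ρ X := by
        apply mul_le_mul_of_nonneg_right _ hGp.le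
        linarith
      linarith
    linarith

theorem NVall_eq (G : MvPolynomial (Fin n) K) (κ c : ℝ) {B : ℝ} (hB : 0 < B) :
    NVall G κ c B = SA G κ c (fun _ => True) (Module.finrank ℚ K * Real.log B) := by
  have hd : (0 : ℝ) < Module.finrank ℚ K := by
    exact_mod_cast (Module.finrank_pos (R := ℚ) (M := K))
  have key : ∀ P : Projectivization K (Fin n → K),
      Real.exp (hh P) ≤ B ↔ Height.logHeight P.rep ≤ Module.finrank ℚ K * Real.log B := by
    intro P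
    rw [← Real.le_log_iff_exp_le hB]
    unfold hh
    rw [div_le_iff₀ hd, mul_comm]
  ext P
  constructor
  · rintro ⟨g1, g2, g3, g4, g5⟩
    exact ⟨g1, g2, g3, (key P).1 g4, g5, trivial⟩
  · rintro ⟨g1, g2, g3, g4, g5, -⟩
    exact ⟨g1, g2, g3, (key P).2 g4, g5⟩

theorem NVns_eq (G : MvPolynomial (Fin n) K) (κ c : ℝ) {B : ℝ} (hB : 0 < B) :
    NVns G κ c B = SA G κ c NVK (Module.finrank ℚ K * Real.log B) := by
  ext P
  have h := NVall_eq G κ c hB
  constructor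
  · rintro ⟨g1, g2⟩
    rw [h] at g1
    obtain ⟨k1, k2, k3, k4, k5, -⟩ := g1
    exact ⟨k1, k2, k3, k4, k5, g2⟩
  · rintro ⟨k1, k2, k3, k4, k5, k6⟩
    refine ⟨?_, k6⟩
    rw [h]
    exact ⟨k1, k2, k3, k4, k5, trivial⟩

end

/-- **FINN** -/
theorem finn (K : Type) [Field K] [NumberField K] (h1 : S_BASN K) (h2 : S_UPNK K) (h3 : S_LONK K)
    (h4 : S_ZARN K) : S_FINN K := by
  intro n D G κ c hn hG hz h0 h13
  have hd : (0 : ℝ) < Module.finrank ℚ K := by
    exact_mod_cast (Module.finrank_pos (R := ℚ) (M := K))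
  have hn3 : (3 : ℝ) ≤ n := by exact_mod_cast hn
  have hcst : cst (n - 2) (n.choose (n - 2)) =
      (((n : ℝ) - 1) / (n - 2)) ^ ((2 * (n : ℝ) - 3) / (n - 1)) *
        (n.choose 2 : ℝ) ^ (1 / ((n : ℝ) - 1)) := by
    unfold cst
    have e1 : n.choose (n - 2) = n.choose 2 := Nat.choose_symm (by omega)
    have e2 : ((n - 2 : ℕ) : ℝ) = (n : ℝ) - 2 := by
      rw [Nat.cast_sub (by omega)]
      norm_num
    rw [e1, e2]
    have e3 : (n : ℝ) - 2 + 1 = n - 1 := by ring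
    have e4 : 2 * ((n : ℝ) - 2) + 1 = 2 * n - 3 := by ring
    rw [e3, e4]
  have hlim : ∀ Q : (Fin n → K) → Prop, (∀ z, NVK z → Q z) →
      Tendsto (fun B : ℝ => (Real.log ((SA G κ c Q (Module.finrank ℚ K * Real.log B)).ncard : ℝ) -
        Module.finrank ℚ K * ((n : ℝ) - 1 - κ) * Real.log B) /
      (Real.log B / Real.log (Real.log B)) ^ (((n : ℝ) - 2) / (n - 1))) atTop
      (𝓝 ((((n : ℝ) - 1) / (n - 2)) ^ ((2 * (n : ℝ) - 3) / (n - 1)) *
        (n.choose 2 : ℝ) ^ (1 / ((n : ℝ) - 1)) *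
        (κ * Module.finrank ℚ K) ^ (((n : ℝ) - 2) / (n - 1)))) := by
    intro Q hQ
    have h := transfer hd (fun X => ((SA G κ c Q X).ncard : ℝ))
      (limX h1 h2 h3 h4 hn G hG hz c Q hQ h0 h13)
    rw [hcst, mul_assoc, ← Real.mul_rpow h0.le hd.le] at h
    exact h
  refine ⟨fun B => ?_, ?_, ?_⟩
  · rcases le_or_gt B 0 with hB | hB
    · have : NVall G κ c B = ∅ := by
        rw [Set.eq_empty_iff_forall_notMem]
        rintro P ⟨-, -, -, g4, -⟩
        exact absurd (Real.exp_pos (hh P)) (not_lt.2 (g4.trans hB))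
      rw [this]
      exact Set.finite_empty
    · rw [NVall_eq G κ c hB]
      exact SA_finite h1 h2 hn G c _ h0 h13 _
  · refine (hlim (fun _ => True) (fun _ _ => trivial)).congr' ?_
    filter_upwards [eventually_gt_atTop (0 : ℝ)] with B hB
    rw [NVall_eq G κ c hB]
  · refine (hlim NVK (fun _ h => h)).congr' ?_
    filter_upwards [eventually_gt_atTop (0 : ℝ)] with B hB
    rw [NVns_eq G κ c hB]

end Pool.Agent.N152.KG
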