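import Pool.Agent.N906.KG.Def

/-!
# Project KG (helper906), part ZARN (helper152): rational points on a hypersurface section
-/

set_option autoImplicit false

namespace Pool.Agent.N152.KG

open NumberField IsDedekindDomain Finset Filter Topology Pool.Agent.H691R3 Pool.Agent.W223.AK
open Pool.Agent.N906.KG

theorem eval_subst {K : Type} [Field K] {m n : ℕ} (σ : Fin n → MvPolynomial (Fin m) K) (y : Fin m → K)
    (G : MvPolynomial (Fin n) K) : MvPolynomial.eval y (MvPolynomial.aeval σ G) =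
      MvPolynomial.eval (fun i => MvPolynomial.eval y (σ i)) G := by
  induction G using MvPolynomial.induction_on with
  | C a => simp
  | add p q hp hq => rw [map_add, map_add, map_add, hp, hq]
  | mul_X p i hp => rw [map_mul, map_mul, map_mul, hp, MvPolynomial.aeval_X, MvPolynomial.eval_X]

theorem hom_eval {K : Type} [Field K] {n D : ℕ} {G : MvPolynomial (Fin n) K}
    (hG : G.IsHomogeneous D) (t : K) (v : Fin n → K) :
    MvPolynomial.eval (t • v) G = t ^ D * MvPolynomial.eval v G := by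
  rw [MvPolynomial.eval_eq', MvPolynomial.eval_eq', Finset.mul_sum]
  refine Finset.sum_congr rfl fun d hd => ?_
  have h := hG (MvPolynomial.mem_support_iff.1 hd)
  have h2 : ∑ i, d i = D := by
    rw [← h, Finsupp.weight_apply, Finsupp.sum_fintype]
    · simp
    · simp
  simp only [Pi.smul_apply, smul_eq_mul, mul_pow, Finset.prod_mul_distrib, Finset.prod_pow_eq_pow_sum, h2]
  ring

section

variable {K : Type} [Field K] [NumberField K]

/-- integers of bounded size -/
theorem card_int (h2 : S_DISC K) : ∃ C : ℝ, 0 < C ∧ ∀ R : ℝ, 1 ≤ R →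
    {s : 𝓞 K | ∀ w : InfinitePlace K, w (s : K) ≤ R}.Finite ∧
    ∀ F : Finset (𝓞 K), (∀ s ∈ F, ∀ w : InfinitePlace K, w (s : K) ≤ R) →
      (F.card : ℝ) ≤ C * R ^ Module.finrank ℚ K := by
  obtain ⟨C, hC, h⟩ := h2
  have key : ∀ R : ℝ, 1 ≤ R → ∀ F : Finset (𝓞 K),
      (∀ s ∈ F, ∀ w : InfinitePlace K, w (s : K) ≤ R) →
      (F.card : ℝ) ≤ 2 * C * R ^ Module.finrank ℚ K := by
    intro R hR F hF
    have hR0 : 0 < R := by linarith
    have h1 := h (fun _ => 0) (fun _ => R) 0 F (fun _ => hR0) ?_ ?_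
    · have e1 : bn (fun _ : InfinitePlace K => R) = R ^ Module.finrank ℚ K := by
        unfold bn
        rw [Finset.prod_pow_eq_pow_sum, InfinitePlace.sum_mult_eq]
      have e2 : len (0 : Idl K) = 0 := by simp [len]
      rw [e1, e2, neg_zero, Real.exp_zero, mul_one] at h1
      have h3 : 1 ≤ R ^ Module.finrank ℚ K := one_le_pow₀ hR
      nlinarith
    · intro x hx w
      rw [sub_zero, InfinitePlace.norm_embedding_eq]
      exact hF x hx w
    · intro x _ y _ v
      have h3 := fv_int_le_one v (x - y)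
      simpa using h3
  refine ⟨2 * C, by positivity, fun R hR => ⟨?_, key R hR⟩⟩
  by_contra hinf
  obtain ⟨F, hF1, hF2⟩ := Set.Infinite.exists_subset_card_eq hinf (⌊2 * C * R ^ Module.finrank ℚ K⌋₊ + 1)
  have h3 := key R hR F (fun s hs => hF1 (Finset.mem_coe.2 hs))
  rw [hF2] at h3
  push_cast at h3
  linarith [Nat.lt_floor_add_one (2 * C * R ^ Module.finrank ℚ K)]

end

/-- **ZARN** -/
theorem zarn (K : Type) [Field K] [NumberField K] (h1 : S_REPK K) (h2 : S_DISC K) : S_ZARN K := by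
  classical
  intro n D G hn hG hz
  obtain ⟨N, rfl⟩ : ∃ N, n = N + 1 := ⟨n - 1, by omega⟩
  have hd : (0 : ℝ) < Module.finrank ℚ K := by
    exact_mod_cast (Module.finrank_pos (R := ℚ) (M := K))
  obtain ⟨C₁, hC₁, hrep⟩ := h1 (N + 1) (by omega)
  obtain ⟨C₂, hC₂, hint⟩ := card_int h2
  -- the substitution
  obtain ⟨σ, hσ⟩ : ∃ σ : Fin (N + 1) → MvPolynomial (Fin N) K,
    σ = Fin.snoc (fun i => MvPolynomial.X i) (-∑ i, MvPolynomial.X i) := ⟨_, rfl⟩
  obtain ⟨G', hG'⟩ : ∃ G' : MvPolynomial (Fin N) K, G' = MvPolynomial.aeval σ G := ⟨_, rfl⟩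
  have hev : ∀ z : Fin (N + 1) → K, ∑ i, z i = 0 →
      MvPolynomial.eval (fun i : Fin N => z i.castSucc) G' = MvPolynomial.eval z G := by
    intro z hz
    rw [hG', eval_subst]
    congr 1
    congr 1
    funext i
    rw [hσ]
    refine Fin.lastCases ?_ (fun j => ?_) i
    · rw [Fin.snoc_last, map_neg, map_sum]
      simp only [MvPolynomial.eval_X]
      rw [Fin.sum_univ_castSucc] at hz
      linear_combination -hz
    · rw [Fin.snoc_castSucc, MvPolynomial.eval_X]
  have hG'0 : G' ≠ 0 := by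
    rintro h0
    obtain ⟨z, hz1, hz2⟩ := hz
    apply hz2
    rw [← hev z hz1, h0, map_zero]
  refine ⟨(G'.totalDegree + 1) * (C₂ * C₁ ^ Module.finrank ℚ K) ^ (N - 1), by positivity, fun X hX => ?_⟩
  -- the set of the coordinates
  obtain ⟨R, hR⟩ : ∃ R : ℝ, R = C₁ * Real.exp (X / Module.finrank ℚ K) := ⟨_, rfl⟩
  have hR1 : 1 ≤ R := by
    rw [hR]
    have h3 : 1 ≤ Real.exp (X / Module.finrank ℚ K) := Real.one_le_exp (div_nonneg hX hd.le)
    nlinarith
  have hRd : R ^ Module.finrank ℚ K = C₁ ^ Module.finrank ℚ K * Real.exp X := by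
    rw [hR, mul_pow, ← Real.exp_nat_mul]
    congr 2
    field_simp
  obtain ⟨hfin, hcard⟩ := hint R hR1
  obtain ⟨S, hS⟩ : ∃ S : Finset (𝓞 K), ∀ s, s ∈ S ↔ ∀ w : InfinitePlace K, w (s : K) ≤ R :=
    ⟨hfin.toFinset, fun s => by rw [Set.Finite.mem_toFinset]; rfl⟩
  obtain ⟨T, hT⟩ : ∃ T : Finset K, T = S.image (fun s : 𝓞 K => (s : K)) := ⟨_, rfl⟩
  have hTcard : (T.card : ℝ) ≤ C₂ * C₁ ^ Module.finrank ℚ K * Real.exp X := by
    have h3 : (T.card : ℝ) ≤ S.card := by
      rw [hT]
      exact_mod_cast Finset.card_image_le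
    have h4 := hcard S fun s hs => (hS s).1 hs
    rw [hRd] at h4
    linarith
  have hT0 : 0 < T.card := by
    rw [Finset.card_pos]
    refine ⟨0, ?_⟩
    rw [hT, Finset.mem_image]
    refine ⟨0, ?_, by simp⟩
    rw [hS]
    intro w
    simp only [map_zero]
    linarith
  obtain ⟨Z, hZ⟩ : ∃ Z : Finset (Fin N → K),
    Z = (Fintype.piFinset fun _ : Fin N => T).filter fun f => MvPolynomial.eval f G' = 0 := ⟨_, rfl⟩
  have hZcard : (Z.card : ℝ) ≤ G'.totalDegree * (T.card : ℝ) ^ (N - 1) := by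
    have h3 := MvPolynomial.schwartz_zippel_totalDegree hG'0 T
    rw [← hZ] at h3
    have h4 : ((Z.card : ℝ)) / (T.card : ℝ) ^ N ≤ G'.totalDegree / T.card := by
      have h5 := (NNRat.cast_le (K := ℝ)).2 h3
      rw [NNRat.cast_div, NNRat.cast_div, NNRat.cast_pow, NNRat.cast_natCast, NNRat.cast_natCast,
        NNRat.cast_natCast] at h5
      exact h5
    have hT0' : (0 : ℝ) < T.card := by exact_mod_cast hT0
    rw [div_le_div_iff₀ (by positivity) hT0'] at h4
    have e1 : (T.card : ℝ) ^ N = (T.card : ℝ) ^ (N - 1) * T.card := by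
      rw [← pow_succ]
      congr 1
      omega
    rw [e1, ← mul_assoc] at h4
    exact le_of_mul_le_mul_right h4 hT0'
  -- the map
  choose t x ht hx hw using fun P : Projectivization K (Fin (N + 1) → K) => hrep P.rep P.rep_nonzero
  have hmaps : ∀ P ∈ {P : Projectivization K (Fin (N + 1) → K) | ∑ i, P.rep i = 0 ∧
      Height.logHeight P.rep ≤ X ∧ MvPolynomial.eval P.rep G = 0},
      (fun i : Fin N => (x P i.castSucc : K)) ∈ (Z : Set (Fin N → K)) := by
    rintro P ⟨g1, g2, g3⟩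
    rw [Finset.mem_coe, hZ, Finset.mem_filter, Fintype.mem_piFinset]
    have hsum : ∑ i, (x P i : K) = 0 := by
      simp only [hx]
      rw [← Finset.mul_sum, g1, mul_zero]
    constructor
    · intro i
      rw [hT, Finset.mem_image]
      refine ⟨x P i.castSucc, (hS _).2 fun w => ?_, rfl⟩
      have g4 := (hw P w).2
      have g5 : w (x P i.castSucc : K) ≤ ⨆ i, w (x P i : K) :=
        le_ciSup (f := fun i => w (x P i : K)) (Set.finite_range _).bddAbove _
      refine g5.trans (g4.trans ?_)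
      rw [hR]
      have g6 : Height.logHeight P.rep / (Module.finrank ℚ K : ℝ) ≤ X / Module.finrank ℚ K :=
        div_le_div_of_nonneg_right g2 hd.le
      have g7 := Real.exp_le_exp.2 g6
      exact mul_le_mul_of_nonneg_left g7 (by linarith)
    · have g4 := hev (fun i => (x P i : K)) hsum
      rw [g4]
      have g5 : (fun i => (x P i : K)) = t P • P.rep := by
        funext i
        rw [hx, Pi.smul_apply, smul_eq_mul]
      rw [g5, hom_eval hG, g3, mul_zero]
  have hinj : Set.InjOn (fun (P : Projectivization K (Fin (N + 1) → K)) (i : Fin N) => (x P i.castSucc : K))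
      {P : Projectivization K (Fin (N + 1) → K) | ∑ i, P.rep i = 0 ∧
        Height.logHeight P.rep ≤ X ∧ MvPolynomial.eval P.rep G = 0} := by
    rintro P ⟨g1, -, -⟩ P' ⟨g1', -, -⟩ heq
    have hsum : ∑ i, (x P i : K) = 0 := by
      simp only [hx]
      rw [← Finset.mul_sum, g1, mul_zero]
    have hsum' : ∑ i, (x P' i : K) = 0 := by
      simp only [hx]
      rw [← Finset.mul_sum, g1', mul_zero]
    have hall : ∀ i, (x P i : K) = x P' i := by
      intro i
      refine Fin.lastCases ?_ (fun j => congrFun heq j) i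
      rw [Fin.sum_univ_castSucc] at hsum hsum'
      have h5 : ∑ i : Fin N, (x P i.castSucc : K) = ∑ i : Fin N, (x P' i.castSucc : K) :=
        Finset.sum_congr rfl fun j _ => congrFun heq j
      linear_combination hsum - hsum' - h5
    rw [← P.mk_rep, ← P'.mk_rep, Projectivization.mk_eq_mk_iff']
    refine ⟨(t P)⁻¹ * t P', ?_⟩
    funext i
    have h6 := hall i
    rw [hx, hx] at h6
    rw [Pi.smul_apply, smul_eq_mul, mul_assoc, ← h6, ← mul_assoc, inv_mul_cancel₀ (ht P), one_mul]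
  refine ⟨Set.Finite.of_injOn hmaps hinj Z.finite_toSet, ?_⟩
  have h5 := Set.ncard_le_ncard_of_injOn _ hmaps hinj Z.finite_toSet
  rw [Set.ncard_coe_finset] at h5
  have h6 : ({P : Projectivization K (Fin (N + 1) → K) | ∑ i, P.rep i = 0 ∧
      Height.logHeight P.rep ≤ X ∧ MvPolynomial.eval P.rep G = 0}.ncard : ℝ) ≤ Z.card := by
    exact_mod_cast h5
  refine h6.trans (hZcard.trans ?_)
  have h7 : (T.card : ℝ) ^ (N - 1) ≤ (C₂ * C₁ ^ Module.finrank ℚ K * Real.exp X) ^ (N - 1) :=
    pow_le_pow_left₀ (Nat.cast_nonneg _) hTcard _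
  rw [mul_pow, ← Real.exp_nat_mul] at h7
  have e1 : ((N - 1 : ℕ) : ℝ) = ((N + 1 : ℕ) : ℝ) - 2 := by
    rw [Nat.cast_sub (by omega)]
    push_cast
    ring
  rw [e1] at h7
  have h8 : (0 : ℝ) ≤ G'.totalDegree := Nat.cast_nonneg _
  have h9 : 0 ≤ (C₂ * C₁ ^ Module.finrank ℚ K) ^ (N - 1) * Real.exp ((((N + 1 : ℕ) : ℝ) - 2) * X) := by
    positivity
  calc (G'.totalDegree : ℝ) * (T.card : ℝ) ^ (N - 1)
      ≤ G'.totalDegree * ((C₂ * C₁ ^ Module.finrank ℚ K) ^ (N - 1) *
          Real.exp ((((N + 1 : ℕ) : ℝ) - 2) * X)) := mul_le_mul_of_nonneg_left h7 h8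
    _ ≤ (G'.totalDegree + 1) * ((C₂ * C₁ ^ Module.finrank ℚ K) ^ (N - 1) *
          Real.exp ((((N + 1 : ℕ) : ℝ) - 2) * X)) := by nlinarith
    _ = _ := by ring

end Pool.Agent.N152.KG
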