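import Mathlib
import Pool.Agent.N604.MW.Stm4
import Pool.Agent.N624.MW_Circ

/-! Project KV (helper604), task MSQ (helper152): the mean square of the exponential sum over short arcs. -/

set_option autoImplicit false

open Finset MeasureTheory

namespace Pool.Agent.N152.KVMsq

open Pool.Agent.N604.MW Pool.Agent.N624.MWCirc

/-! ### Spacing of the values -/

lemma pow_low (n : ℕ) {M x y : ℝ} (hM : 0 ≤ M) (hy : M ≤ y) (hx : y ≤ x) :
    ((n : ℝ) + 1) * M ^ n * (x - y) ≤ x ^ (n + 1) - y ^ (n + 1) := by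
  rw [← geom_sum₂_mul x y (n + 1)]
  refine mul_le_mul_of_nonneg_right ?_ (by linarith)
  have h : ∀ i ∈ range (n + 1), M ^ n ≤ x ^ i * y ^ (n + 1 - 1 - i) := by
    intro i hi
    have hi' : i ≤ n := Nat.lt_succ_iff.mp (Finset.mem_range.mp hi)
    have e1 : M ^ n = M ^ i * M ^ (n - i) := by
      rw [← pow_add]
      congr 1
      omega
    rw [e1, Nat.add_sub_cancel]
    have hMx : M ≤ x := hy.trans hx
    have hx0 : 0 ≤ x := hM.trans hMx
    gcongr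
  have h2 := Finset.sum_le_sum h
  rw [Finset.sum_const, Finset.card_range, nsmul_eq_mul] at h2
  push_cast at h2
  exact h2

lemma pow_up (n : ℕ) {M x y : ℝ} (hy : 0 ≤ y) (hx : y ≤ x) (hM : x ≤ M) :
    x ^ (n + 1) - y ^ (n + 1) ≤ ((n : ℝ) + 1) * M ^ n * (x - y) := by
  rw [← geom_sum₂_mul x y (n + 1)]
  refine mul_le_mul_of_nonneg_right ?_ (by linarith)
  have h : ∀ i ∈ range (n + 1), x ^ i * y ^ (n + 1 - 1 - i) ≤ M ^ n := by
    intro i hi
    have hi' : i ≤ n := Nat.lt_succ_iff.mp (Finset.mem_range.mp hi)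
    have e1 : M ^ n = M ^ i * M ^ (n - i) := by
      rw [← pow_add]
      congr 1
      omega
    rw [e1, Nat.add_sub_cancel]
    have hMy : y ≤ M := hx.trans hM
    have hx0 : 0 ≤ x := hy.trans hx
    have hM0 : 0 ≤ M := hy.trans hMy
    gcongr
  have h2 := Finset.sum_le_sum h
  rw [Finset.sum_const, Finset.card_range, nsmul_eq_mul] at h2
  push_cast at h2
  exact h2

lemma Q_gap {d : ℕ} {c b : ℝ} (hd : 1 ≤ d) (hc : 0 < c) {X : ℕ} {θ : Fin d → ℝ} (hX1 : 1 ≤ X)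
    (hX2 : (d : ℝ) ^ 2 * 2 ^ (d - 1) ≤ c * Real.sqrt X) (hθ : ∀ l, |θ l| ≤ Real.sqrt X) {x y : ℕ}
    (hy : X ≤ y) (hxy : y ≤ x) (hx : x ≤ 2 * X) :
    c * (X : ℝ) ^ d * ((x : ℝ) - y) ≤ QQ d (FF d c b) θ x - QQ d (FF d c b) θ y := by
  have hX0 : (0 : ℝ) ≤ X := Nat.cast_nonneg X
  have hyR : (X : ℝ) ≤ y := by exact_mod_cast hy
  have hxyR : (y : ℝ) ≤ x := by exact_mod_cast hxy
  have hxR : (x : ℝ) ≤ 2 * X := by exact_mod_cast hx
  have hs0 : 0 ≤ Real.sqrt X := Real.sqrt_nonneg _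
  have hss : Real.sqrt X * Real.sqrt X = X := Real.mul_self_sqrt hX0
  have h1 := pow_low d hX0 hyR hxyR
  have h2 : ∀ l : Fin d, -(Real.sqrt X * ((d : ℝ) * (2 * X) ^ (d - 1) * ((x : ℝ) - y))) ≤
      θ l * (x : ℝ) ^ ((l : ℕ) + 1) - θ l * (y : ℝ) ^ ((l : ℕ) + 1) := by
    intro l
    have h3 := pow_up (l : ℕ) (hX0.trans hyR) hxyR hxR
    have h4 : 0 ≤ (x : ℝ) ^ ((l : ℕ) + 1) - (y : ℝ) ^ ((l : ℕ) + 1) := by
      have : (y : ℝ) ^ ((l : ℕ) + 1) ≤ (x : ℝ) ^ ((l : ℕ) + 1) := by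
        have := hX0.trans hyR
        gcongr
      linarith
    have hl : (l : ℕ) + 1 ≤ d := l.2
    have hlR : ((l : ℕ) : ℝ) + 1 ≤ d := by exact_mod_cast hl
    have h5 : ((2 : ℝ) * X) ^ (l : ℕ) ≤ (2 * X) ^ (d - 1) := by
      refine pow_le_pow_right₀ ?_ (by omega)
      have : (1 : ℝ) ≤ X := by exact_mod_cast hX1
      linarith
    have h6 : (((l : ℕ) : ℝ) + 1) * (2 * X) ^ (l : ℕ) * ((x : ℝ) - y) ≤
        (d : ℝ) * (2 * X) ^ (d - 1) * ((x : ℝ) - y) := by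
      have : 0 ≤ (x : ℝ) - y := by linarith
      gcongr
    have h7 : |θ l * ((x : ℝ) ^ ((l : ℕ) + 1) - (y : ℝ) ^ ((l : ℕ) + 1))| ≤
        Real.sqrt X * ((d : ℝ) * (2 * X) ^ (d - 1) * ((x : ℝ) - y)) := by
      rw [abs_mul, abs_of_nonneg h4]
      exact mul_le_mul (hθ l) (h3.trans h6) h4 hs0
    have h8 := (abs_le.mp h7).1
    linarith
  have h9 := Finset.sum_le_sum fun (l : Fin d) (_ : l ∈ Finset.univ) => h2 l
  rw [Finset.sum_const, Finset.card_univ, Fintype.card_fin, nsmul_eq_mul, Finset.sum_sub_distrib] at h9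
  have h10 : (d : ℝ) * (Real.sqrt X * ((d : ℝ) * (2 * X) ^ (d - 1) * ((x : ℝ) - y))) ≤
      c * (X : ℝ) ^ d * ((x : ℝ) - y) := by
    have e1 : (d : ℝ) * (Real.sqrt X * ((d : ℝ) * (2 * X) ^ (d - 1) * ((x : ℝ) - y))) =
        ((d : ℝ) ^ 2 * 2 ^ (d - 1)) * (Real.sqrt X * (X : ℝ) ^ (d - 1) * ((x : ℝ) - y)) := by
      rw [mul_pow]
      ring
    have e2 : c * (X : ℝ) ^ d * ((x : ℝ) - y) =
        (c * Real.sqrt X) * (Real.sqrt X * (X : ℝ) ^ (d - 1) * ((x : ℝ) - y)) := by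
      have e3 : (X : ℝ) ^ d = X * (X : ℝ) ^ (d - 1) := by
        rw [← pow_succ']
        congr 1
        omega
      rw [e3]
      nth_rewrite 1 [← hss]
      ring
    rw [e1, e2]
    refine mul_le_mul_of_nonneg_right hX2 ?_
    have : 0 ≤ (x : ℝ) - y := by linarith
    positivity
  have hdR : (1 : ℝ) ≤ d := by exact_mod_cast hd
  have h11 : 2 * (c * (X : ℝ) ^ d * ((x : ℝ) - y)) ≤ c * (((d : ℝ) + 1) * (X : ℝ) ^ d * ((x : ℝ) - y)) := by
    have : 0 ≤ c * (X : ℝ) ^ d * ((x : ℝ) - y) := by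
      have : 0 ≤ (x : ℝ) - y := by linarith
      positivity
    nlinarith
  have h12 := mul_le_mul_of_nonneg_left h1 hc.le
  unfold QQ FF
  linarith

lemma v_gap {d : ℕ} {c b : ℝ} (hd : 1 ≤ d) (hc : 0 < c) {X : ℕ} {θ : Fin d → ℝ} (hX1 : 1 ≤ X)
    (hX2 : (d : ℝ) ^ 2 * 2 ^ (d - 1) ≤ c * Real.sqrt X) (hX3 : 2 ≤ c * (X : ℝ) ^ d)
    (hθ : ∀ l, |θ l| ≤ Real.sqrt X) {x y : ℕ} (hy : X ≤ y) (hxy : y < x) (hx : x ≤ 2 * X) :
    c / 2 * (X : ℝ) ^ d * ((x : ℝ) - y) ≤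
      ((⌊QQ d (FF d c b) θ x⌋ - ⌊QQ d (FF d c b) θ y⌋ : ℤ) : ℝ) := by
  have h1 := Q_gap (b := b) hd hc hX1 hX2 hθ hy hxy.le hx
  have h2 := Int.lt_floor_add_one (QQ d (FF d c b) θ x)
  have h3 := Int.floor_le (QQ d (FF d c b) θ y)
  have h4 : (1 : ℝ) ≤ (x : ℝ) - y := by
    have : (y : ℝ) + 1 ≤ x := by exact_mod_cast hxy
    linarith
  push_cast
  nlinarith

lemma v_near {d : ℕ} {c b : ℝ} (hd : 1 ≤ d) (hc : 0 < c) {X : ℕ} {θ : Fin d → ℝ} (hX1 : 1 ≤ X)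
    (hX2 : (d : ℝ) ^ 2 * 2 ^ (d - 1) ≤ c * Real.sqrt X) (hX3 : 2 ≤ c * (X : ℝ) ^ d)
    (hθ : ∀ l, |θ l| ≤ Real.sqrt X) {H : ℕ} {x y : ℕ} (hx : x ∈ Icc X (2 * X)) (hy : y ∈ Icc X (2 * X))
    (h : |⌊QQ d (FF d c b) θ x⌋ - ⌊QQ d (FF d c b) θ y⌋| ≤ (H : ℤ)) :
    |(x : ℝ) - y| ≤ 2 * H / (c * (X : ℝ) ^ d) := by
  obtain ⟨hx1, hx2⟩ := Finset.mem_Icc.mp hx
  obtain ⟨hy1, hy2⟩ := Finset.mem_Icc.mp hy
  have hX0 : (0 : ℝ) < X := by exact_mod_cast hX1
  have hpos : 0 < c * (X : ℝ) ^ d := by positivity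
  rw [le_div_iff₀ hpos]
  have h' : |((⌊QQ d (FF d c b) θ x⌋ - ⌊QQ d (FF d c b) θ y⌋ : ℤ) : ℝ)| ≤ (H : ℝ) := by
    exact_mod_cast h
  rcases lt_trichotomy x y with hlt | heq | hgt
  · have h1 := v_gap (b := b) hd hc hX1 hX2 hX3 hθ hx1 hlt hy2
    have h2 := (abs_le.mp h').1
    have h3 : (x : ℝ) < y := by exact_mod_cast hlt
    rw [abs_of_neg (by linarith)]
    push_cast at h1 h2
    linarith
  · subst heq
    rw [sub_self, abs_zero, zero_mul]
    positivity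
  · have h1 := v_gap (b := b) hd hc hX1 hX2 hX3 hθ hy1 hgt hx2
    have h2 := (abs_le.mp h').2
    have h3 : (y : ℝ) < x := by exact_mod_cast hgt
    rw [abs_of_pos (by linarith)]
    linarith

/-- the number of integers near a given point -/
lemma card_near (S : Finset ℕ) (x : ℕ) (L : ℝ) (hL : 0 ≤ L) (h : ∀ y ∈ S, |(x : ℝ) - y| ≤ L) :
    (S.card : ℝ) ≤ 1 + 2 * L := by
  have hsub : S ⊆ Icc ⌈(x : ℝ) - L⌉₊ ⌊(x : ℝ) + L⌋₊ := by
    intro y hy
    have h1 := abs_le.mp (h y hy)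
    rw [Finset.mem_Icc]
    constructor
    · rw [Nat.ceil_le]
      linarith
    · refine Nat.le_floor ?_
      linarith
  have h1 := Finset.card_le_card hsub
  rw [Nat.card_Icc] at h1
  have h2 : (S.card : ℝ) ≤ ((⌊(x : ℝ) + L⌋₊ + 1 - ⌈(x : ℝ) - L⌉₊ : ℕ) : ℝ) := by exact_mod_cast h1
  refine h2.trans ?_
  have h3 := Nat.le_ceil ((x : ℝ) - L)
  have h4 : ((⌊(x : ℝ) + L⌋₊ : ℕ) : ℝ) ≤ (x : ℝ) + L := Nat.floor_le (by positivity)
  rcases le_total ⌈(x : ℝ) - L⌉₊ (⌊(x : ℝ) + L⌋₊ + 1) with h5 | h5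
  · rw [Nat.cast_sub h5]
    push_cast
    linarith
  · rw [Nat.sub_eq_zero_of_le h5]
    push_cast
    linarith

/-! ### The kernel -/

lemma e_re (x : ℝ) : (e x).re = Real.cos (2 * Real.pi * x) := by
  unfold e
  have : (2 * Real.pi * x * Complex.I : ℂ) = ((2 * Real.pi * x : ℝ) : ℂ) * Complex.I := by
    push_cast
    ring
  rw [this, Complex.exp_ofReal_mul_I_re]

/-- the kernel is at least `H / 2` near zero -/
lemma ker_low (H : ℕ) (β : ℝ) (h : ∀ k ∈ range H, |β * k| ≤ 1 / 6) :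
    (H : ℝ) / 2 ≤ ‖∑ k ∈ range H, e (β * k)‖ := by
  refine le_trans ?_ (Complex.re_le_norm _)
  rw [Complex.re_sum]
  have h1 : ∀ k ∈ range H, (1 / 2 : ℝ) ≤ (e (β * k)).re := by
    intro k hk
    rw [e_re, ← Real.cos_abs, ← Real.cos_pi_div_three]
    have hpi := Real.pi_pos
    have h2 := h k hk
    have h3 : |2 * Real.pi * (β * k)| ≤ Real.pi / 3 := by
      rw [abs_mul, abs_of_pos (by positivity : (0 : ℝ) < 2 * Real.pi)]
      nlinarith
    exact Real.cos_le_cos_of_nonneg_of_le_pi (abs_nonneg _) (by linarith) h3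
  have h2 := Finset.sum_le_sum h1
  rw [Finset.sum_const, Finset.card_range, nsmul_eq_mul] at h2
  linarith

/-! ### The energy -/

lemma en_le {P : Finset (ℕ × ℕ)} {v : ℕ × ℕ → ℤ} {p : ℕ × ℕ → ℝ} {LL K : ℝ} (hLL : 0 ≤ LL)
    (hp0 : ∀ ω ∈ P, 0 ≤ p ω) (hp1 : ∀ ω ∈ P, p ω ≤ LL)
    (hK : ∀ ω ∈ P, ((P.filter fun ω' => v ω = v ω').card : ℝ) ≤ K) :
    En P v p ≤ LL ^ 2 * (P.card * K) := by
  unfold En
  have h1 : ∀ ω ∈ P, (∑ ω' ∈ P, if v ω = v ω' then p ω * p ω' else 0) ≤ LL ^ 2 * K := by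
    intro ω hω
    rw [← Finset.sum_filter]
    have h2 : ∀ ω' ∈ P.filter (fun ω' => v ω = v ω'), p ω * p ω' ≤ LL ^ 2 := by
      intro ω' hω'
      have hm := (Finset.mem_filter.mp hω').1
      rw [sq]
      exact mul_le_mul (hp1 ω hω) (hp1 ω' hm) (hp0 ω' hm) hLL
    refine (Finset.sum_le_sum h2).trans ?_
    rw [Finset.sum_const, nsmul_eq_mul, mul_comm]
    exact mul_le_mul_of_nonneg_left (hK ω hω) (sq_nonneg _)
  refine (Finset.sum_le_sum h1).trans ?_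
  rw [Finset.sum_const, nsmul_eq_mul]
  apply le_of_eq
  ring

lemma arc_eq (η : ℝ) : Arc 0 η = Set.Icc (-η) η := by
  ext β
  unfold Arc
  simp only [Set.mem_ofPred_eq, Set.mem_Icc, abs_le]
  exact ⟨fun h => h.2, fun h => ⟨abs_nonneg _, h⟩⟩

lemma lam_nonneg (n : ℕ) : 0 ≤ lam n := by
  unfold lam
  split_ifs
  · exact Real.log_natCast_nonneg n
  · exact le_rfl

lemma lam_le {n X : ℕ} (hX : 1 ≤ X) (hn : n ≤ 2 * X) : lam n ≤ Real.log (2 * X) := by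
  have h0 : 0 ≤ Real.log (2 * X) := by
    refine Real.log_nonneg ?_
    have : (1 : ℝ) ≤ X := by exact_mod_cast hX
    linarith
  unfold lam
  split_ifs with hp
  · refine Real.log_le_log ?_ ?_
    · exact_mod_cast hp.pos
    · exact_mod_cast hn
  · exact h0

theorem msq : S_MSQ := by
  intro d c b hd hc
  refine ⟨48 + 32 / c, by positivity, 1 + ⌈2 / c⌉₊ + ⌈((d : ℝ) ^ 2 * 2 ^ (d - 1) / c) ^ 2⌉₊, ?_⟩
  intro X θ η hX hθ hη hη2
  have hX1 : 1 ≤ X := by omega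
  have hX1R : (1 : ℝ) ≤ X := by exact_mod_cast hX1
  have hX0 : (0 : ℝ) < X := by linarith
  have hX3 : 2 ≤ c * (X : ℝ) ^ d := by
    have h1 : 2 / c ≤ (X : ℝ) := by
      refine (Nat.le_ceil _).trans ?_
      exact_mod_cast (by omega : ⌈2 / c⌉₊ ≤ X)
    have h2 : (X : ℝ) ≤ (X : ℝ) ^ d := le_self_pow₀ hX1R (by omega)
    have h3 := (div_le_iff₀ hc).mp (h1.trans h2)
    linarith
  have hX2 : (d : ℝ) ^ 2 * 2 ^ (d - 1) ≤ c * Real.sqrt X := by
    have h1 : ((d : ℝ) ^ 2 * 2 ^ (d - 1) / c) ^ 2 ≤ (X : ℝ) := by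
      refine (Nat.le_ceil _).trans ?_
      exact_mod_cast (by omega : ⌈((d : ℝ) ^ 2 * 2 ^ (d - 1) / c) ^ 2⌉₊ ≤ X)
    have h2 := Real.le_sqrt_of_sq_le h1
    have h3 := (div_le_iff₀ hc).mp h2
    linarith
  set Q : ℕ → ℝ := QQ d (FF d c b) θ with hQ
  set LL : ℝ := Real.log (2 * X) with hLLdef
  have hLL : 0 ≤ LL := Real.log_nonneg (by linarith)
  set H : ℕ := ⌊1 / (6 * η)⌋₊ + 1 with hH
  have hHpos : (0 : ℝ) < H := by
    rw [hH]
    positivity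
  have hHη : 1 / (H : ℝ) ≤ 6 * η := by
    rw [div_le_iff₀ hHpos]
    have h1 : 1 / (6 * η) < (H : ℝ) := by
      rw [hH]
      push_cast
      exact Nat.lt_floor_add_one _
    have h2 := (div_lt_iff₀ (by positivity : (0 : ℝ) < 6 * η)).mp h1
    linarith
  set P : Finset (ℕ × ℕ) := Icc X (2 * X) ×ˢ range H with hP
  set v : ℕ × ℕ → ℤ := fun ω => ⌊Q ω.1⌋ + (ω.2 : ℤ) with hv
  set p : ℕ × ℕ → ℝ := fun ω => lam ω.1 * Real.sin (Real.pi * Q ω.1) ^ 2 with hp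
  -- the product
  have hprod : ∀ β : ℝ, TQ d (FF d c b) X θ β * ∑ k ∈ range H, e (β * k) = U P v p β := by
    intro β
    unfold TQ U
    rw [Finset.sum_mul_sum, hP, Finset.sum_product]
    refine Finset.sum_congr rfl fun x _ => Finset.sum_congr rfl fun k _ => ?_
    rw [hv, hp]
    dsimp only
    rw [← hQ, mul_assoc, ← e_add]
    congr 2
    push_cast
    ring
  -- the energy
  have hEn : En P v p ≤ LL ^ 2 * (P.card * (1 + 2 * (2 * H / (c * (X : ℝ) ^ d)))) := by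
    refine en_le hLL ?_ ?_ ?_
    · intro ω _
      rw [hp]
      have := lam_nonneg ω.1
      positivity
    · intro ω hω
      rw [hP, Finset.mem_product, Finset.mem_Icc] at hω
      rw [hp]
      dsimp only
      have h1 := lam_le hX1 hω.1.2
      have h2 := lam_nonneg ω.1
      have h3 : Real.sin (Real.pi * Q ω.1) ^ 2 ≤ 1 := Real.sin_sq_le_one _
      have h4 : 0 ≤ Real.sin (Real.pi * Q ω.1) ^ 2 := sq_nonneg _
      calc lam ω.1 * Real.sin (Real.pi * Q ω.1) ^ 2 ≤ lam ω.1 * 1 := by gcongr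
        _ ≤ LL := by rw [mul_one]; exact h1
    · intro ω hω
      rw [hP, Finset.mem_product, Finset.mem_range] at hω
      have h1 : (P.filter fun ω' => v ω = v ω').card =
          ((P.filter fun ω' => v ω = v ω').image Prod.fst).card := by
        refine (Finset.card_image_of_injOn ?_).symm
        intro ω₁ h₁ ω₂ h₂ h12
        have h₁' := (Finset.mem_filter.mp (Finset.mem_coe.mp h₁)).2
        have h₂' := (Finset.mem_filter.mp (Finset.mem_coe.mp h₂)).2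
        rw [hv] at h₁' h₂'
        dsimp only at h₁' h₂' h12
        rw [h12] at h₁'
        have : (ω₁.2 : ℤ) = ω₂.2 := by linarith
        have h3 : ω₁.2 = ω₂.2 := by exact_mod_cast this
        exact Prod.ext h12 h3
      rw [h1]
      refine card_near _ ω.1 _ (by positivity) ?_
      intro y hy
      obtain ⟨ω', hω', rfl⟩ := Finset.mem_image.mp hy
      obtain ⟨hm, hvv⟩ := Finset.mem_filter.mp hω'
      rw [hP, Finset.mem_product, Finset.mem_range] at hm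
      refine v_near (b := b) hd hc hX1 hX2 hX3 hθ hω.1 hm.1 ?_
      rw [hv] at hvv
      dsimp only at hvv
      have h2 : ⌊QQ d (FF d c b) θ ω.1⌋ - ⌊QQ d (FF d c b) θ ω'.1⌋ = (ω'.2 : ℤ) - ω.2 := by
        rw [← hQ]
        linarith
      rw [h2, abs_le]
      constructor <;> omega
  have hcard : (P.card : ℝ) = ((X : ℝ) + 1) * H := by
    rw [hP, Finset.card_product, Nat.card_Icc, Finset.card_range]
    have : 2 * X + 1 - X = X + 1 := by omega
    rw [this]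
    push_cast
    ring
  -- the integral
  have hcT : Continuous fun β : ℝ => TQ d (FF d c b) X θ β := by
    unfold TQ
    exact cont_trig _ _ _
  have hcU := cont_U P v p
  have hint : ∫ β in Arc 0 η, ‖TQ d (FF d c b) X θ β‖ ^ 2 ≤ 4 / (H : ℝ) ^ 2 * En P v p := by
    rw [← U_sq, ← integral_const_mul]
    have h1 : ∫ β in Arc 0 η, ‖TQ d (FF d c b) X θ β‖ ^ 2 ≤
        ∫ β in Arc 0 η, 4 / (H : ℝ) ^ 2 * ‖U P v p β‖ ^ 2 := by
      rw [arc_eq]
      refine setIntegral_mono_on ?_ ?_ measurableSet_Icc ?_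
      · exact (hcT.norm.pow 2).integrableOn_Icc
      · exact (continuous_const.mul (hcU.norm.pow 2)).integrableOn_Icc
      · intro β hβ
        have hβ' : |β| ≤ η := abs_le.mpr hβ
        rw [← hprod β, norm_mul, mul_pow]
        have h2 : (H : ℝ) / 2 ≤ ‖∑ k ∈ range H, e (β * k)‖ := by
          refine ker_low H β ?_
          intro k hk
          have hk' : k ≤ ⌊1 / (6 * η)⌋₊ := by
            have := Finset.mem_range.mp hk
            omega
          have h3 : (k : ℝ) ≤ 1 / (6 * η) := (Nat.le_floor_iff (by positivity)).mp hk'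
          rw [abs_mul, Nat.abs_cast]
          calc |β| * (k : ℝ) ≤ η * (1 / (6 * η)) := by gcongr
            _ = 1 / 6 := by field_simp
        have h3 : ((H : ℝ) / 2) ^ 2 ≤ ‖∑ k ∈ range H, e (β * k)‖ ^ 2 := by gcongr
        have h4 : 0 ≤ ‖TQ d (FF d c b) X θ β‖ ^ 2 := by positivity
        calc ‖TQ d (FF d c b) X θ β‖ ^ 2
            = 4 / (H : ℝ) ^ 2 * (‖TQ d (FF d c b) X θ β‖ ^ 2 * ((H : ℝ) / 2) ^ 2) := by
              field_simp
              ring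
          _ ≤ 4 / (H : ℝ) ^ 2 * (‖TQ d (FF d c b) X θ β‖ ^ 2 *
                ‖∑ k ∈ range H, e (β * k)‖ ^ 2) := by gcongr
    refine h1.trans ?_
    unfold mu
    rw [← integral_Icc_eq_integral_Ioc, arc_eq]
    refine setIntegral_mono_set ?_ ?_ ?_
    · exact (continuous_const.mul (hcU.norm.pow 2)).integrableOn_Icc
    · refine Filter.Eventually.of_forall fun β => ?_
      simp only [Pi.zero_apply]
      positivity
    · refine Filter.Eventually.of_forall ?_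
      intro β hβ
      exact ⟨by linarith [hβ.1], by linarith [hβ.2]⟩
  refine hint.trans ?_
  have h1 : 4 / (H : ℝ) ^ 2 * En P v p ≤
      4 / (H : ℝ) ^ 2 * (LL ^ 2 * (P.card * (1 + 2 * (2 * H / (c * (X : ℝ) ^ d))))) := by
    gcongr
  refine h1.trans ?_
  rw [hcard]
  have hXd : (0 : ℝ) < (X : ℝ) ^ d := by positivity
  have e1 : 4 / (H : ℝ) ^ 2 * (LL ^ 2 * (((X : ℝ) + 1) * H * (1 + 2 * (2 * H / (c * (X : ℝ) ^ d))))) =
      LL ^ 2 * (4 * ((X : ℝ) + 1) * (1 / H + 4 / (c * (X : ℝ) ^ d))) := by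
    field_simp
    ring
  rw [e1]
  have e2 : (X : ℝ) ^ (1 - (d : ℝ)) = X / (X : ℝ) ^ d := by
    rw [Real.rpow_sub hX0, Real.rpow_one, Real.rpow_natCast]
  rw [e2]
  have h2 : 4 * ((X : ℝ) + 1) * (1 / H + 4 / (c * (X : ℝ) ^ d)) ≤
      (48 + 32 / c) * (X * η + X / (X : ℝ) ^ d) := by
    calc 4 * ((X : ℝ) + 1) * (1 / H + 4 / (c * (X : ℝ) ^ d))
        ≤ 4 * (X + X) * (6 * η + 4 / (c * (X : ℝ) ^ d)) := by gcongr
      _ = 48 * (X * η) + 32 / c * (X / (X : ℝ) ^ d) := by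
          field_simp
          ring
      _ ≤ (48 + 32 / c) * (X * η + X / (X : ℝ) ^ d) := by
          have h3 : 0 ≤ 48 * (X / (X : ℝ) ^ d) := by positivity
          have h4 : 0 ≤ 32 / c * (X * η) := by positivity
          nlinarith
  calc LL ^ 2 * (4 * ((X : ℝ) + 1) * (1 / H + 4 / (c * (X : ℝ) ^ d)))
      ≤ LL ^ 2 * ((48 + 32 / c) * (X * η + X / (X : ℝ) ^ d)) := by gcongr
    _ = (48 + 32 / c) * LL ^ 2 * (X * η + X / (X : ℝ) ^ d) := by ring

end Pool.Agent.N152.KVMsq
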