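import Pool.Agent.N347.LA.Defs
import Pool.Agent.N347.LA.Fac
import Pool.Agent.N347.LB.Del
import Pool.Agent.N767.LA_INIT

set_option autoImplicit false

/-! LB/OST (helper152 for helper347), after LB/STATE (helper353) -/

namespace Pool.Agent.N152.LBOST

open Finset Pool.Agent.N347.LA

open Classical in
/-- LB/OST -/
theorem state_odd {V : Type} [Fintype V] (R : V → V → Prop) (hR : ∀ u v, R u v → R v u)
    (m m' n κ L : ℕ) (J : Fin n → V → V → ℕ)
    (hrow : ∀ v, ∑ u, mul R (fun _ => m) v u + m = n * (2 * m))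
    (hJs : ∀ i u v, J i u v = J i v u) (hJd : ∀ i v, J i v v = 0)
    (hJr : ∀ i v, ∑ u, J i v u = 2 * m') (hm' : 1 ≤ m') (hmm : m' ≤ m)
    (hJT : ∀ u v, ∑ i, J i u v ≤ mul R (fun _ => m) u v) (hκ0 : 0 < κ)
    (hκ : ∀ i v, κ ≤ (univ.filter (fun u =>
      Relation.ReflTransGen (fun x y => 0 < J i x y) v u)).card)
    (hL : 2 * n ≤ L * κ) (hLm : L + 4 ≤ 2 * m) :
    HasState R (n + 1) (fun v : V => v) (fun _ => m) := by
  have hTs : ∀ u v, mul R (fun _ => m) u v = mul R (fun _ => m) v u := by
    intro u v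
    have hiff : R u v ↔ R v u := ⟨hR u v, hR v u⟩
    unfold mul
    by_cases h : R u v
    · rw [if_pos h, if_pos (hiff.1 h)]
      by_cases e : u = v
      · rw [if_pos e, if_pos e.symm]
      · rw [if_neg e, if_neg (Ne.symm e)]
    · rw [if_neg h, if_neg fun h' => h (hiff.2 h')]
  have hTd : ∀ v, Even (mul R (fun _ => m) v v) := by
    intro v
    unfold mul
    by_cases h : R v v
    · rw [if_pos h, if_pos rfl]
      exact Nat.even_mul_pred_self m
    · rw [if_neg h]
      exact Even.zero
  obtain ⟨X, hX⟩ : ∃ X : ℕ, X = ∑ v, ∑ u, mul R (fun _ => m) v u := ⟨_, rfl⟩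
  have hXe : Even X := by
    rw [hX]
    exact Pool.Agent.N767.LAINIT.even_sum _ hTs hTd
  have hXr : Fintype.card V * m + X = n * (2 * (Fintype.card V * m)) := by
    have h1 : ∑ v, (∑ u, mul R (fun _ => m) v u + m) = ∑ _v : V, n * (2 * m) :=
      sum_congr rfl fun v _ => hrow v
    rw [sum_add_distrib, ← hX, sum_const, sum_const, card_univ, smul_eq_mul, smul_eq_mul] at h1
    rw [add_comm, h1]
    ring
  obtain ⟨T', hT'⟩ : ∃ T' : Option V → Option V → ℕ, T' = fun x y =>
    x.elim (y.elim X (fun _ => m)) (fun u => y.elim m (fun v => mul R (fun _ => m) u v)) := ⟨_, rfl⟩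
  have hT1 : ∀ u v, T' (some u) (some v) = mul R (fun _ => m) u v := fun u v => by rw [hT']; rfl
  have hT2 : ∀ u, T' (some u) none = m := fun u => by rw [hT']; rfl
  have hT3 : ∀ u, T' none (some u) = m := fun u => by rw [hT']; rfl
  have hT4 : T' none none = X := by rw [hT']; rfl
  obtain ⟨J', hJ'⟩ : ∃ J' : Fin n → Option V → Option V → ℕ, J' = fun i x y =>
    x.elim 0 (fun u => y.elim 0 (fun v => J i u v)) := ⟨_, rfl⟩
  have hJ1 : ∀ i u v, J' i (some u) (some v) = J i u v := fun i u v => by rw [hJ']; rfl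
  have hJ2 : ∀ i u, J' i (some u) none = 0 := fun i u => by rw [hJ']; rfl
  have hJ3 : ∀ i x, J' i none x = 0 := fun i x => by rw [hJ']; rfl
  obtain ⟨C, hCs, hCe, hCr, hCT, hCJ⟩ := factors n T'
    (by
      rintro (_ | u) (_ | v)
      · rfl
      · rw [hT3, hT2]
      · rw [hT3, hT2]
      · rw [hT1, hT1, hTs])
    (by
      rintro (_ | u)
      · rw [hT4]
        exact hXe
      · rw [hT1]
        exact hTd u)
    J'
    (by
      rintro i (_ | u) (_ | v)
      · rfl
      · rw [hJ2, hJ3]
      · rw [hJ2, hJ3]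
      · rw [hJ1, hJ1, hJs])
    (by
      rintro i (_ | u)
      · rw [hJ3]
      · rw [hJ1, hJd])
    (fun x => x.elim 0 (fun _ => 2 * m')) (fun x => x.elim (Fintype.card V * m) (fun _ => m - m'))
    (fun x => x.elim (2 * (Fintype.card V * m)) (fun _ => 2 * m))
    (by
      rintro i (_ | u)
      · show ∑ b', J' i none b' = 0
        exact sum_eq_zero fun x _ => hJ3 i x
      · show ∑ b', J' i (some u) b' = 2 * m'
        rw [Fintype.sum_option, hJ2, zero_add, ← hJr i u]
        exact sum_congr rfl fun v _ => hJ1 i u v)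
    (by
      rintro (_ | u)
      · show 2 * (Fintype.card V * m) = 0 + 2 * (Fintype.card V * m)
        rw [zero_add]
      · show 2 * m = 2 * m' + 2 * (m - m')
        omega)
    (by
      rintro (_ | u)
      · show ∑ b', T' none b' = n * (2 * (Fintype.card V * m))
        rw [Fintype.sum_option, hT4, ← hXr, add_comm X]
        congr 1
        rw [sum_congr rfl fun v _ => hT3 v, sum_const, card_univ, smul_eq_mul]
      · show ∑ b', T' (some u) b' = n * (2 * m)
        rw [Fintype.sum_option, hT2, ← hrow u, add_comm m]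
        congr 1
        exact sum_congr rfl fun v _ => hT1 u v)
    (by
      rintro (_ | u) (_ | v)
      · rw [sum_eq_zero fun i _ => hJ3 i none]
        exact Nat.zero_le _
      · rw [sum_eq_zero fun i _ => hJ3 i (some v)]
        exact Nat.zero_le _
      · rw [sum_eq_zero fun i _ => hJ2 i u]
        exact Nat.zero_le _
      · rw [sum_congr rfl fun i _ => hJ1 i u v, hT1]
        exact hJT u v)
  obtain ⟨E, hEs, hEJ, hEc, hEl⟩ := Pool.Agent.N347.LB.Del.delete n J (2 * m') κ L hJs hJd hJr
    (by omega) hκ0 hκ hL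
  have hJC : ∀ i u v, J i u v ≤ C i (some u) (some v) := fun i u v => by
    rw [← hJ1]
    exact hCJ i (some u) (some v)
  have hEC : ∀ i u v, E i u v ≤ C i (some u) (some v) := fun i u v => (hEJ i u v).trans (hJC i u v)
  have hEd : ∀ i v, E i v v = 0 := fun i v => Nat.le_zero.1 ((hEJ i v v).trans (le_of_eq (hJd i v)))
  have hlast : ∀ v, ∑ i, ∑ u, E i v u + 1 ≤ 2 * m := fun v => by
    have := hEl v
    omega
  have hCT1 : ∀ u v, ∑ i, C i (some u) (some v) = mul R (fun _ => m) u v := fun u v => by
    rw [hCT, hT1]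
  have hCr1 : ∀ i u, C i (some u) none + ∑ v, C i (some u) (some v) = 2 * m := fun i u => by
    have h1 := hCr i (some u)
    rw [Fintype.sum_option] at h1
    exact h1
  have hsum : ∀ u v, ∑ i, (C i (some u) (some v) - E i u v) + ∑ i, E i u v = mul R (fun _ => m) u v := by
    intro u v
    rw [← sum_add_distrib, ← hCT1 u v]
    exact sum_congr rfl fun i _ => Nat.sub_add_cancel (hEC i u v)
  refine ⟨Fin.snoc (α := fun _ => V → V → ℕ) (fun i u v => C i (some u) (some v) - E i u v)
    (fun u v => ∑ i, E i u v), Fin.snoc (α := fun _ => V → ℕ)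
      (fun i v => ∑ u, E i v u + C i (some v) none)
    (fun v => 2 * m - ∑ i, ∑ u, E i v u), ?_, ?_, ?_, ?_, ?_, ?_, ?_, ?_⟩
  · -- pos
    intro _
    omega
  · -- symm
    intro c a b
    refine Fin.lastCases ?_ (fun i => ?_) c
    · rw [Fin.snoc_last]
      exact sum_congr rfl fun i _ => hEs i a b
    · rw [Fin.snoc_castSucc]
      show C i (some a) (some b) - E i a b = C i (some b) (some a) - E i b a
      rw [hCs i (some a) (some b), hEs i a b]
  · -- even
    intro c a
    refine Fin.lastCases ?_ (fun i => ?_) c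
    · rw [Fin.snoc_last]
      have : ∑ i, E i a a = 0 := sum_eq_zero fun i _ => hEd i a
      rw [this]
      exact Even.zero
    · rw [Fin.snoc_castSucc]
      show Even (C i (some a) (some a) - E i a a)
      rw [hEd i a, Nat.sub_zero]
      exact hCe i (some a)
  · -- deg
    intro c a
    refine Fin.lastCases ?_ (fun i => ?_) c
    · rw [Fin.snoc_last, Fin.snoc_last]
      show ∑ b, ∑ i, E i a b + (2 * m - ∑ i, ∑ u, E i a u) = 2 * m
      rw [sum_comm]
      have := hlast a
      omega
    · rw [Fin.snoc_castSucc, Fin.snoc_castSucc]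
      show ∑ b, (C i (some a) (some b) - E i a b) + (∑ u, E i a u + C i (some a) none) = 2 * m
      rw [← add_assoc, ← sum_add_distrib, add_comm, ← hCr1 i a]
      congr 1
      exact sum_congr rfl fun b _ => Nat.sub_add_cancel (hEC i a b)
  · -- adj
    intro a b hab hRab
    rw [Fin.sum_univ_castSucc]
    simp only [Fin.snoc_castSucc, Fin.snoc_last]
    rw [hsum a b]
    unfold mul
    rw [if_pos hRab, if_neg hab]
  · -- loop
    intro a hRa
    rw [Fin.sum_univ_castSucc]
    simp only [Fin.snoc_castSucc, Fin.snoc_last]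
    rw [hsum a a]
    unfold mul
    rw [if_pos hRa, if_pos rfl]
  · -- nadj
    intro c a b hRab
    have h0 : mul R (fun _ => m) a b = 0 := by
      unfold mul
      rw [if_neg hRab]
    have hC0 : ∀ i, C i (some a) (some b) = 0 := by
      intro i
      have h1 : ∑ i, C i (some a) (some b) = 0 := (hCT1 a b).trans h0
      exact sum_eq_zero_iff.1 h1 i (mem_univ i)
    have hE0 : ∀ i, E i a b = 0 := fun i => Nat.le_zero.1 ((hEC i a b).trans (le_of_eq (hC0 i)))
    refine Fin.lastCases ?_ (fun i => ?_) c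
    · rw [Fin.snoc_last]
      exact sum_eq_zero fun i _ => hE0 i
    · rw [Fin.snoc_castSucc]
      show C i (some a) (some b) - E i a b = 0
      rw [hC0 i, Nat.zero_sub]
  · -- conn
    intro c
    refine Fin.lastCases ?_ (fun i => ?_) c
    · rw [Fin.snoc_last, Fin.snoc_last]
      intro x
      refine ⟨x, Relation.ReflTransGen.refl, ?_⟩
      have := hlast x
      show 0 < 2 * m - ∑ i, ∑ u, E i x u
      omega
    · rw [Fin.snoc_castSucc, Fin.snoc_castSucc]
      intro x
      obtain ⟨y, hy, hz⟩ := hEc i x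
      refine ⟨y, Relation.ReflTransGen.mono (fun u v huv => ?_) _ _ hy, ?_⟩
      · have h1 : 0 < J i u v - E i u v := huv
        have h2 := hJC i u v
        show 0 < C i (some u) (some v) - E i u v
        omega
      · show 0 < ∑ u, E i y u + C i (some y) none
        have h3 : 0 < ∑ u, E i y u := hz
        omega

end Pool.Agent.N152.LBOST
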