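import Pool.Agent.N541.LV.Stm

/-!
# Project LV (helper541), part STEP (helper152): one more variable
-/

set_option autoImplicit false

namespace Pool.Agent.N152.LV

open Finset Pool.Agent.N541.LV

theorem mem_pts {d : ℕ} {Λ : AddSubgroup (Fin d → ℤ)} {R : Fin d → ℕ} {P : Fin d → ℤ} :
    P ∈ pts Λ R ↔ (∀ l, -(R l : ℤ) ≤ P l ∧ P l ≤ R l) ∧ P ∈ Λ := by
  classical
  unfold pts Pool.Agent.N541.LV.box
  simp only [Finset.mem_filter, Fintype.mem_piFinset, Finset.mem_Icc]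

theorem pts_sub_le {d m : ℕ} (Λ : AddSubgroup (Fin d → ℤ)) (R : Fin d → ℕ) (o : Fin m → ℕ) (z : ℕ) :
    pts (sub Λ o z) R ⊆ pts Λ R := by
  intro P hP
  rw [mem_pts] at hP ⊢
  exact ⟨hP.1, hP.2.1⟩

theorem rk_sub_le {d m : ℕ} (Λ : AddSubgroup (Fin d → ℤ)) (R : Fin d → ℕ) (o : Fin m → ℕ) (z : ℕ) :
    rk (sub Λ o z) R ≤ rk Λ R := by
  unfold rk
  apply Submodule.finrank_mono
  unfold sp
  apply Submodule.span_mono
  apply Set.image_mono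
  exact_mod_cast pts_sub_le Λ R o z

theorem ev_bound {d : ℕ} {Λ : AddSubgroup (Fin d → ℤ)} {R : Fin d → ℕ} {X s C0 : ℕ} (hX : 1 ≤ X)
    (hR : ∀ l, R l ≤ C0 * X ^ s) {P : Fin d → ℤ} (hP : P ∈ pts Λ R) {t : ℕ} (ht : t ≤ X) :
    (ev P (t : ℤ)).natAbs ≤ d * C0 * X ^ (s + d) := by
  have h1 := (mem_pts.1 hP).1
  have h2 : |ev P (t : ℤ)| ≤ ∑ _l : Fin d, ((C0 : ℤ) * X ^ s * X ^ d) := by
    unfold ev
    refine (Finset.abs_sum_le_sum_abs _ _).trans (Finset.sum_le_sum fun l _ => ?_)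
    rw [abs_mul, abs_pow]
    have h3 : |P l| ≤ (C0 : ℤ) * X ^ s := by
      have h4 : |P l| ≤ (R l : ℤ) := abs_le.2 (h1 l)
      have h5 : (R l : ℤ) ≤ (C0 : ℤ) * X ^ s := by exact_mod_cast hR l
      exact h4.trans h5
    have h6 : |(t : ℤ)| ^ (l : ℕ) ≤ (X : ℤ) ^ d := by
      rw [Nat.abs_cast]
      have h7 : (t : ℤ) ^ (l : ℕ) ≤ (X : ℤ) ^ (l : ℕ) := by
        apply pow_le_pow_left₀ (by positivity)
        exact_mod_cast ht
      exact h7.trans (pow_le_pow_right₀ (by exact_mod_cast hX) l.2.le)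
    exact mul_le_mul h3 h6 (by positivity) (by positivity)
  rw [Finset.sum_const, Finset.card_univ, Fintype.card_fin, nsmul_eq_mul] at h2
  have h3 : ((ev P (t : ℤ)).natAbs : ℤ) ≤ ((d * C0 * X ^ (s + d) : ℕ) : ℤ) := by
    rw [Int.natCast_natAbs]
    refine h2.trans (le_of_eq ?_)
    push_cast
    ring
  exact_mod_cast h3

/-- Hoelder -/
theorem holder (q : ℕ) (hq : 1 ≤ q) (Z : Finset ℕ) (f : ℕ → ℝ) (hf : ∀ z, 0 ≤ f z) :
    ∑ z ∈ Z, (f z) ^ (1 / (q : ℝ)) ≤ (Z.card : ℝ) ^ (1 - 1 / (q : ℝ)) * (∑ z ∈ Z, f z) ^ (1 / (q : ℝ)) := by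
  have hq0 : (0 : ℝ) < q := by exact_mod_cast hq
  have hq1 : (1 : ℝ) ≤ q := by exact_mod_cast hq
  have h1 := Real.rpow_sum_le_const_mul_sum_rpow_of_nonneg (s := Z) (f := fun z => (f z) ^ (1 / (q : ℝ))) hq1
    (fun z _ => Real.rpow_nonneg (hf z) _)
  have h2 : ∀ z, ((f z) ^ (1 / (q : ℝ))) ^ (q : ℝ) = f z := by
    intro z
    rw [← Real.rpow_mul (hf z), one_div, inv_mul_cancel₀ hq0.ne', Real.rpow_one]
  simp only [h2] at h1
  have hA : 0 ≤ ∑ z ∈ Z, (f z) ^ (1 / (q : ℝ)) := Finset.sum_nonneg fun z _ => Real.rpow_nonneg (hf z) _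
  have hB : 0 ≤ ∑ z ∈ Z, f z := Finset.sum_nonneg fun z _ => hf z
  have h3 := Real.rpow_le_rpow (Real.rpow_nonneg hA _) h1 (by positivity : 0 ≤ 1 / (q : ℝ))
  rw [← Real.rpow_mul hA, mul_one_div_cancel hq0.ne', Real.rpow_one,
    Real.mul_rpow (by positivity) hB, ← Real.rpow_mul (by positivity)] at h3
  have e1 : ((q : ℝ) - 1) * (1 / q) = 1 - 1 / q := by
    field_simp
  rwa [e1] at h3

/-- **STEP** -/
theorem main (hI : IDXStm) (hG : GCDStm) (hK : CONGStm) (hCo : COSTStm) (hDr : DROPStm) : STEPStm := by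
  classical
  intro d m q s C0 hd hm hq ε hε
  obtain ⟨C1, hC1, hcost⟩ := hCo m q (s + d) (d * C0) hm hq ε hε
  obtain ⟨C2, hC2, hdrop⟩ := hDr d m s C0 hd hm ε hε
  have hq0 : (0 : ℝ) < q := by exact_mod_cast hq
  have hq1 : 1 / (q : ℝ) ≤ 1 := by
    rw [div_le_one hq0]
    exact_mod_cast hq
  have hqp : 0 < 1 / (q : ℝ) := by positivity
  refine ⟨((2 * (d : ℝ) + 3) ^ d) ^ (1 / (q : ℝ)) * C1 + C2 ^ (1 / (q : ℝ)), by positivity, ?_⟩
  intro X hX R hR Λ o ho Z hZ hP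
  have hX1 : (1 : ℝ) ≤ X := by exact_mod_cast hX
  have hX0 : (0 : ℝ) < X := by linarith
  have hWt : ∀ Λ' : AddSubgroup (Fin d → ℤ), 0 ≤ Wt q X Λ' R := fun Λ' => by
    unfold Wt
    positivity
  rcases Z.eq_empty_or_nonempty with rfl | ⟨z0, hz0⟩
  · rw [Finset.sum_empty]
    have := hWt Λ
    positivity
  obtain ⟨P0, hP0, -, hP0o⟩ := hP z0 hz0
  have hP0' : P0 ∈ pts Λ R := pts_sub_le Λ R o z0 hP0
  -- the moduli are not zero
  have hMo : ∀ z ∈ Z, Mo o z ≠ 0 := by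
    intro z hz h0
    obtain ⟨P, hP1, hP2, -⟩ := hP z hz
    have h3 := (mem_pts.1 hP1).2.2
    rw [h0, zero_dvd_iff] at h3
    exact hP2 h3
  have hg0 : ∀ z : ℕ, ∃ g : ℕ, Mo o z ≠ 0 → (0 < g ∧ (g : ℤ) ∣ Mo o z ∧ (∀ Q ∈ pts Λ R, (g : ℤ) ∣ ev Q z) ∧
      ∃ Q ∈ AddSubgroup.closure (pts Λ R : Set (Fin d → ℤ)), Mo o z ∣ ev Q z - (g : ℤ)) := by
    intro z
    by_cases h : Mo o z = 0
    · exact ⟨1, fun h' => absurd h h'⟩
    · obtain ⟨g, hg⟩ := hG d (pts Λ R) (Mo o z) z h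
      exact ⟨g, fun _ => hg⟩
  choose g hg using hg0
  -- the two parts
  rw [← Finset.sum_filter_add_sum_filter_not Z (fun z => rk (sub Λ o z) R = rk Λ R)]
  rw [add_mul, add_mul]
  refine add_le_add ?_ ?_
  · -- the first part
    have h1 := hcost X hX o (fun j => (ev P0 (o j : ℤ)).natAbs)
      (Z.filter fun z => rk (sub Λ o z) R = rk Λ R) g ho ?_
      ((Finset.filter_subset _ _).trans hZ) ?_
    · have h2 : ∀ z ∈ Z.filter (fun z => rk (sub Λ o z) R = rk Λ R), Wt q X (sub Λ o z) R ≤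
          (((2 * (d : ℝ) + 3) ^ d) ^ (1 / (q : ℝ)) * Wt q X Λ R) *
            ((((Mo o z).natAbs / g z : ℕ) : ℝ)) ^ (-(1 / (q : ℝ))) := by
        intro z hz
        rw [Finset.mem_filter] at hz
        obtain ⟨hzZ, hrk⟩ := hz
        obtain ⟨g1, g2, g3, g4⟩ := hg z (hMo z hzZ)
        have h3 := hI d m Λ R o z (g z) (fun l => (hR l).1) (hMo z hzZ) hrk g1 g2 g4
        have h4 : 1 ≤ (Mo o z).natAbs / g z := by
          rw [Nat.one_le_div_iff g1]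
          exact Nat.le_of_dvd (Int.natAbs_pos.2 (hMo z hzZ)) (Int.natCast_dvd.1 g2)
        obtain ⟨I, hIdef⟩ : ∃ I : ℕ, I = (Mo o z).natAbs / g z := ⟨_, rfl⟩
        rw [← hIdef] at h3 h4 ⊢
        have hI0 : (0 : ℝ) < I := by exact_mod_cast h4
        have h5 : (I : ℝ) * ((pts (sub Λ o z) R).card : ℝ) ≤ (2 * (d : ℝ) + 3) ^ d * ((pts Λ R).card : ℝ) := by
          exact_mod_cast h3
        have h6 : ((pts (sub Λ o z) R).card : ℝ) ≤ (2 * (d : ℝ) + 3) ^ d * ((pts Λ R).card : ℝ) * (I : ℝ)⁻¹ := by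
          rw [← div_eq_mul_inv, le_div_iff₀ hI0]
          linarith
        have h7 := Real.rpow_le_rpow (Nat.cast_nonneg _) h6 hqp.le
        rw [Real.mul_rpow (by positivity) (by positivity), Real.mul_rpow (by positivity) (by positivity),
          Real.inv_rpow hI0.le, ← Real.rpow_neg hI0.le] at h7
        unfold Wt
        rw [hrk]
        have h8 : (0 : ℝ) ≤ (X : ℝ) ^ ((1 - 1 / (q : ℝ)) * ((rk Λ R : ℝ) - 1)) := by positivity
        calc ((pts (sub Λ o z) R).card : ℝ) ^ (1 / (q : ℝ)) *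
              (X : ℝ) ^ ((1 - 1 / (q : ℝ)) * ((rk Λ R : ℝ) - 1))
            ≤ (((2 * (d : ℝ) + 3) ^ d) ^ (1 / (q : ℝ)) * ((pts Λ R).card : ℝ) ^ (1 / (q : ℝ)) *
                (I : ℝ) ^ (-(1 / (q : ℝ)))) * (X : ℝ) ^ ((1 - 1 / (q : ℝ)) * ((rk Λ R : ℝ) - 1)) :=
              mul_le_mul_of_nonneg_right h7 h8
          _ = _ := by ring
      refine (Finset.sum_le_sum h2).trans ?_
      rw [← Finset.mul_sum]
      have h9 : 0 ≤ ((2 * (d : ℝ) + 3) ^ d) ^ (1 / (q : ℝ)) * Wt q X Λ R := by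
        have := hWt Λ
        positivity
      refine (mul_le_mul_of_nonneg_left h1 h9).trans (le_of_eq (by ring))
    · intro j
      refine ⟨Int.natAbs_pos.2 (hP0o j), ?_⟩
      exact ev_bound hX (fun l => (hR l).2) hP0' (ho j).2
    · intro z hz
      rw [Finset.mem_filter] at hz
      obtain ⟨hzZ, -⟩ := hz
      obtain ⟨g1, g2, g3, -⟩ := hg z (hMo z hzZ)
      refine ⟨hMo z hzZ, g1, g2, ?_⟩
      intro j h hh1 hh2
      have h3 : (h : ℤ) ∣ ev P0 z := (Int.natCast_dvd_natCast.2 hh1).trans (g3 P0 hP0')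
      have h4 : (h : ℤ) ∣ ev P0 z - ev P0 (o j) := hh2.trans (hK d P0 z (o j))
      have h5 : (h : ℤ) ∣ ev P0 (o j) := (dvd_sub_right h3).1 h4
      exact Int.natCast_dvd.1 h5
  · -- the second part
    obtain ⟨Z2, hZ2⟩ : ∃ Z2 : Finset ℕ, Z2 = Z.filter (fun z => ¬ rk (sub Λ o z) R = rk Λ R) := ⟨_, rfl⟩
    rw [← hZ2]
    have hZ2Z : Z2 ⊆ Z := by
      rw [hZ2]
      exact Finset.filter_subset _ _
    have h1 := hdrop X hX R hR Λ o ho Z2 (hZ2Z.trans hZ) (fun z hz => hP z (hZ2Z hz))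
    have h2 := holder q hq Z2 (fun z => ((pts (sub Λ o z) R).card : ℝ)) (fun z => Nat.cast_nonneg _)
    have hcard : (Z2.card : ℝ) ≤ X := by
      have h3 := Finset.card_le_card (hZ2Z.trans hZ)
      rw [Nat.card_Icc, Nat.add_sub_cancel] at h3
      exact_mod_cast h3
    have h1q : 0 ≤ 1 - 1 / (q : ℝ) := by linarith
    have h4 : (Z2.card : ℝ) ^ (1 - 1 / (q : ℝ)) ≤ (X : ℝ) ^ (1 - 1 / (q : ℝ)) :=
      Real.rpow_le_rpow (Nat.cast_nonneg _) hcard h1q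
    have h5 : (∑ z ∈ Z2, ((pts (sub Λ o z) R).card : ℝ)) ^ (1 / (q : ℝ)) ≤
        C2 ^ (1 / (q : ℝ)) * (X : ℝ) ^ (ε / q) * ((pts Λ R).card : ℝ) ^ (1 / (q : ℝ)) := by
      have h6 := Real.rpow_le_rpow (Finset.sum_nonneg fun z _ => Nat.cast_nonneg _) h1 hqp.le
      rw [Real.mul_rpow (by positivity) (by positivity), Real.mul_rpow (by positivity) (by positivity),
        ← Real.rpow_mul hX0.le, mul_one_div] at h6
      exact h6
    have h6 : ∑ z ∈ Z2, ((pts (sub Λ o z) R).card : ℝ) ^ (1 / (q : ℝ)) ≤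
        (X : ℝ) ^ (1 - 1 / (q : ℝ)) *
          (C2 ^ (1 / (q : ℝ)) * (X : ℝ) ^ (ε / q) * ((pts Λ R).card : ℝ) ^ (1 / (q : ℝ))) := by
      refine h2.trans (mul_le_mul h4 h5 ?_ (by positivity))
      exact Real.rpow_nonneg (Finset.sum_nonneg fun z _ => Nat.cast_nonneg _) _
    have h7 : ∀ z ∈ Z2, Wt q X (sub Λ o z) R ≤ ((pts (sub Λ o z) R).card : ℝ) ^ (1 / (q : ℝ)) *
        ((X : ℝ) ^ ((1 - 1 / (q : ℝ)) * ((rk Λ R : ℝ) - 1)) * (X : ℝ) ^ (-(1 - 1 / (q : ℝ)))) := by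
      intro z hz
      rw [hZ2, Finset.mem_filter] at hz
      have h8 : rk (sub Λ o z) R + 1 ≤ rk Λ R := by
        have := rk_sub_le Λ R o z
        omega
      have h9 : (rk (sub Λ o z) R : ℝ) + 1 ≤ rk Λ R := by exact_mod_cast h8
      unfold Wt
      refine mul_le_mul_of_nonneg_left ?_ (by positivity)
      rw [← Real.rpow_add hX0]
      refine Real.rpow_le_rpow_of_exponent_le hX1 ?_
      nlinarith
    refine (Finset.sum_le_sum h7).trans ?_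
    rw [← Finset.sum_mul]
    have h8 : (X : ℝ) ^ (1 - 1 / (q : ℝ)) * (X : ℝ) ^ (-(1 - 1 / (q : ℝ))) = 1 := by
      rw [← Real.rpow_add hX0, add_neg_cancel, Real.rpow_zero]
    have h9 : (X : ℝ) ^ (ε / q) ≤ (X : ℝ) ^ (max 0 (1 - (m : ℝ) / q) + ε) := by
      refine Real.rpow_le_rpow_of_exponent_le hX1 ?_
      have e1 : ε / q ≤ ε := div_le_self hε.le (by exact_mod_cast hq)
      have e2 := le_max_left 0 (1 - (m : ℝ) / q)
      linarith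
    calc (∑ z ∈ Z2, ((pts (sub Λ o z) R).card : ℝ) ^ (1 / (q : ℝ))) *
          ((X : ℝ) ^ ((1 - 1 / (q : ℝ)) * ((rk Λ R : ℝ) - 1)) * (X : ℝ) ^ (-(1 - 1 / (q : ℝ))))
        ≤ ((X : ℝ) ^ (1 - 1 / (q : ℝ)) *
          (C2 ^ (1 / (q : ℝ)) * (X : ℝ) ^ (ε / q) * ((pts Λ R).card : ℝ) ^ (1 / (q : ℝ)))) *
          ((X : ℝ) ^ ((1 - 1 / (q : ℝ)) * ((rk Λ R : ℝ) - 1)) * (X : ℝ) ^ (-(1 - 1 / (q : ℝ)))) :=
          mul_le_mul_of_nonneg_right h6 (by positivity)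
      _ = C2 ^ (1 / (q : ℝ)) * (X : ℝ) ^ (ε / q) * Wt q X Λ R *
          ((X : ℝ) ^ (1 - 1 / (q : ℝ)) * (X : ℝ) ^ (-(1 - 1 / (q : ℝ)))) := by
          unfold Wt
          ring
      _ = C2 ^ (1 / (q : ℝ)) * (X : ℝ) ^ (ε / q) * Wt q X Λ R := by rw [h8, mul_one]
      _ ≤ C2 ^ (1 / (q : ℝ)) * (X : ℝ) ^ (max 0 (1 - (m : ℝ) / q) + ε) * Wt q X Λ R := by
          refine mul_le_mul_of_nonneg_right (mul_le_mul_of_nonneg_left h9 (by positivity)) (hWt Λ)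

end Pool.Agent.N152.LV
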