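import Mathlib
import Pool.Agent.N964.MX.Defs2
import Pool.Agent.N964.MX.I2

set_option autoImplicit false

/-!
# Project MX2: the sharper bound for the Mertens function, from the bounds of the mean
-/

namespace Pool.Agent.N152.MX2E

open Complex MeasureTheory Filter Topology
open Pool.Agent.H295R2
open Pool.Agent.Y23 (Lg)
open Pool.Agent.N964.MX

/-- the exponent -/
noncomputable def QR (y : ℝ) : ℝ := Real.sqrt (Real.log y) / Real.log (Real.log y)

lemma QR_ge {y : ℝ} (hy : 3 ≤ y) : 1 / 2 ≤ QR y := by
  have h1 := log_ge hy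
  have h2 := loglog_ge hy
  unfold QR
  rw [le_div_iff₀ (by linarith)]
  have h5 := Real.log_le_rpow_div (x := Real.log y) (by linarith) (ε := 1 / 2) (by norm_num)
  rw [← Real.sqrt_eq_rpow] at h5
  linarith

/-- the weighted integral -/
theorem int_bound2 {g : ℝ → ℝ} (hg : Continuous g) (hg0 : ∀ t, 0 ≤ g t) {y B : ℝ} {mm : ℝ → ℝ}
    (hy : 3 ≤ y) (hi : Integrable (fun t => g t * wt y t))
    (hm : ∀ T : ℝ, 1 ≤ T → ∫ t in (-T)..T, g t ≤ T * mm T)
    (hB : ∀ n : ℕ, min 1 (y / 2 ^ n) * mm (2 ^ (n + 1)) * ((n : ℝ) + 1) ^ 2 ≤ B)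
    (hB1 : mm 1 ≤ B) : ∫ t : ℝ, g t * wt y t ≤ 9 * B := by
  have hy0 : 0 < y := by linarith
  have hw0 : ∀ t, 0 ≤ wt y t := wt_nonneg hy0.le
  have hc : Continuous (fun t => g t * wt y t) := hg.mul (wt_cont y)
  have hB0 : 0 ≤ B := by
    have h1 := hm 1 le_rfl
    have h2 : 0 ≤ ∫ t in (-(1 : ℝ))..1, g t :=
      intervalIntegral.integral_nonneg (by norm_num) fun t _ => hg0 t
    linarith
  -- the weight on a block
  have hwb : ∀ (n : ℕ) (t : ℝ), 2 ^ n ≤ |t| → wt y t ≤ min 1 (y / 2 ^ n) / 2 ^ n := by
    intro n t ht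
    unfold wt
    have h1 : (0 : ℝ) < 2 ^ n := by positivity
    have h2 : (2 : ℝ) ^ n ≤ 1 + |t| := by linarith
    have h3 : min 1 (y / (1 + |t|)) ≤ min 1 (y / 2 ^ n) := by
      refine min_le_min le_rfl ?_
      gcongr
    have h4 : 0 ≤ min 1 (y / 2 ^ n) := le_min zero_le_one (by positivity)
    calc min 1 (y / (1 + |t|)) / (1 + |t|) ≤ min 1 (y / 2 ^ n) / (1 + |t|) := by gcongr
      _ ≤ _ := by gcongr
  have hblock : ∀ n : ℕ, (∫ t in (-(2 : ℝ) ^ (n + 1))..(-(2 : ℝ) ^ n), g t * wt y t) +
      (∫ t in ((2 : ℝ) ^ n)..(2 ^ (n + 1)), g t * wt y t) ≤ 2 * B / ((n : ℝ) + 1) ^ 2 := by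
    intro n
    have hp1 : (1 : ℝ) ≤ 2 ^ n := one_le_pow₀ (by norm_num)
    have hp2 : (2 : ℝ) ^ (n + 1) = 2 * 2 ^ n := by rw [pow_succ]; ring
    set c := min 1 (y / 2 ^ n) / 2 ^ n with hcdef
    have hc0 : 0 ≤ c := by
      have : 0 ≤ min 1 (y / 2 ^ n) := le_min zero_le_one (by positivity)
      positivity
    have i1 : ∫ t in (-(2 : ℝ) ^ (n + 1))..(-(2 : ℝ) ^ n), g t * wt y t ≤
        ∫ t in (-(2 : ℝ) ^ (n + 1))..(-(2 : ℝ) ^ n), c * g t := by
      refine intervalIntegral.integral_mono_on (by linarith) (hc.intervalIntegrable _ _)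
        ((continuous_const.mul hg).intervalIntegrable _ _) ?_
      intro t ht
      rw [Set.mem_Icc] at ht
      have := hwb n t (by rw [abs_of_nonpos (by linarith [ht.2])]; linarith [ht.2])
      have h0 := hg0 t
      nlinarith
    have i2 : ∫ t in ((2 : ℝ) ^ n)..(2 ^ (n + 1)), g t * wt y t ≤
        ∫ t in ((2 : ℝ) ^ n)..(2 ^ (n + 1)), c * g t := by
      refine intervalIntegral.integral_mono_on (by linarith) (hc.intervalIntegrable _ _)
        ((continuous_const.mul hg).intervalIntegrable _ _) ?_
      intro t ht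
      rw [Set.mem_Icc] at ht
      have := hwb n t (by rw [abs_of_nonneg (by linarith [ht.1])]; linarith [ht.1])
      have h0 := hg0 t
      nlinarith
    rw [intervalIntegral.integral_const_mul] at i1 i2
    have i3 : (∫ t in (-(2 : ℝ) ^ (n + 1))..(-(2 : ℝ) ^ n), g t) +
        (∫ t in ((2 : ℝ) ^ n)..(2 ^ (n + 1)), g t) ≤
        ∫ t in (-(2 : ℝ) ^ (n + 1))..(2 ^ (n + 1)), g t := by
      have s2 : ∫ t in (-(2 : ℝ) ^ (n + 1))..(2 ^ (n + 1)), g t =
          (∫ t in (-(2 : ℝ) ^ (n + 1))..(-(2 : ℝ) ^ n), g t) +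
          (∫ t in (-(2 : ℝ) ^ n)..(2 ^ n), g t) + (∫ t in ((2 : ℝ) ^ n)..(2 ^ (n + 1)), g t) := by
        rw [intervalIntegral.integral_add_adjacent_intervals (hg.intervalIntegrable _ _)
            (hg.intervalIntegrable _ _),
          intervalIntegral.integral_add_adjacent_intervals (hg.intervalIntegrable _ _)
            (hg.intervalIntegrable _ _)]
      have s3 : 0 ≤ ∫ t in (-(2 : ℝ) ^ n)..(2 ^ n), g t :=
        intervalIntegral.integral_nonneg (by linarith) fun t _ => hg0 t
      linarith
    have i4 := hm (2 ^ (n + 1)) (by linarith)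
    have hBn := hB n
    have hn1 : (0 : ℝ) < ((n : ℝ) + 1) ^ 2 := by positivity
    calc _ ≤ c * ∫ t in (-(2 : ℝ) ^ (n + 1))..(2 ^ (n + 1)), g t := by
          have := mul_le_mul_of_nonneg_left i3 hc0
          linarith
      _ ≤ c * (2 ^ (n + 1) * mm (2 ^ (n + 1))) := mul_le_mul_of_nonneg_left i4 hc0
      _ = 2 * (min 1 (y / 2 ^ n) * mm (2 ^ (n + 1))) := by
          have h2 : (2 : ℝ) ^ n ≠ 0 := by positivity
          have h3 : c * 2 ^ (n + 1) = 2 * min 1 (y / 2 ^ n) := by
            rw [hcdef, hp2]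
            field_simp
          calc c * (2 ^ (n + 1) * mm (2 ^ (n + 1))) = (c * 2 ^ (n + 1)) * mm (2 ^ (n + 1)) := by
                ring
            _ = _ := by rw [h3]; ring
      _ ≤ 2 * (B / ((n : ℝ) + 1) ^ 2) := by
          refine mul_le_mul_of_nonneg_left ?_ (by norm_num)
          rw [le_div_iff₀ hn1]
          exact hBn
      _ = _ := by ring
  have hbase : ∫ t in (-(2 : ℝ) ^ 0)..(2 ^ 0), g t * wt y t ≤ B := by
    rw [pow_zero]
    have i1 : ∫ t in (-(1 : ℝ))..1, g t * wt y t ≤ ∫ t in (-(1 : ℝ))..1, g t := by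
      refine intervalIntegral.integral_mono_on (by norm_num) (hc.intervalIntegrable _ _)
        (hg.intervalIntegrable _ _) ?_
      intro t ht
      have h1 : wt y t ≤ 1 := by
        unfold wt
        rw [div_le_one (by positivity)]
        have := abs_nonneg t
        exact (min_le_left _ _).trans (by linarith)
      have h0 := hg0 t
      nlinarith
    have i2 := hm 1 le_rfl
    linarith
  -- telescoping
  have key : ∀ n : ℕ, ∫ t in (-(2 : ℝ) ^ n)..(2 ^ n), g t * wt y t ≤
      B * (5 - 4 / ((n : ℝ) + 1)) := by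
    intro n
    induction n with
    | zero =>
      refine hbase.trans (le_of_eq ?_)
      norm_num
    | succ n ih =>
      have hp1 : (1 : ℝ) ≤ 2 ^ n := one_le_pow₀ (by norm_num)
      have s2 : ∫ t in (-(2 : ℝ) ^ (n + 1))..(2 ^ (n + 1)), g t * wt y t =
          (∫ t in (-(2 : ℝ) ^ (n + 1))..(-(2 : ℝ) ^ n), g t * wt y t) +
          (∫ t in (-(2 : ℝ) ^ n)..(2 ^ n), g t * wt y t) +
          (∫ t in ((2 : ℝ) ^ n)..(2 ^ (n + 1)), g t * wt y t) := by
        rw [intervalIntegral.integral_add_adjacent_intervals (hc.intervalIntegrable _ _)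
            (hc.intervalIntegrable _ _),
          intervalIntegral.integral_add_adjacent_intervals (hc.intervalIntegrable _ _)
            (hc.intervalIntegrable _ _)]
      have hb := hblock n
      have h1 : 2 * B / ((n : ℝ) + 1) ^ 2 ≤
          B * (4 / ((n : ℝ) + 1) - 4 / ((n : ℝ) + 1 + 1)) := by
        have h2 : 2 / ((n : ℝ) + 1) ^ 2 ≤ 4 / ((n : ℝ) + 1) - 4 / ((n : ℝ) + 1 + 1) := by
          rw [div_sub_div _ _ (by positivity) (by positivity),
            div_le_div_iff₀ (by positivity) (by positivity)]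
          have : (0 : ℝ) ≤ n := Nat.cast_nonneg n
          nlinarith
        calc 2 * B / ((n : ℝ) + 1) ^ 2 = B * (2 / ((n : ℝ) + 1) ^ 2) := by ring
          _ ≤ _ := mul_le_mul_of_nonneg_left h2 hB0
      rw [s2]
      push_cast
      nlinarith
  have hlim : Tendsto (fun n : ℕ => ∫ t in (-(2 : ℝ) ^ n)..(2 ^ n), g t * wt y t) atTop
      (𝓝 (∫ t : ℝ, g t * wt y t)) := by
    have h1 : Tendsto (fun n : ℕ => (2 : ℝ) ^ n) atTop atTop :=
      tendsto_pow_atTop_atTop_of_one_lt (by norm_num)
    exact intervalIntegral_tendsto_integral hi (tendsto_neg_atTop_atBot.comp h1) h1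
  refine le_of_tendsto hlim (Eventually.of_forall fun n => (key n).trans ?_)
  have h1 : 0 ≤ 4 / ((n : ℝ) + 1) := by positivity
  nlinarith

/-- a bounded sequence -/
lemma seq_bd (K : ℝ) : ∃ B : ℝ, 1 ≤ B ∧ ∀ n : ℕ, (1 / Real.sqrt 2) ^ n *
    Real.exp (K * (2 * (n : ℝ) + 3) ^ (2 / 3 : ℝ)) * ((n : ℝ) + 1) ^ 2 ≤ B := by
  have ht : Tendsto (fun n : ℕ => (1 / Real.sqrt 2) ^ n *
      Real.exp (K * (2 * (n : ℝ) + 3) ^ (2 / 3 : ℝ)) * ((n : ℝ) + 1) ^ 2) atTop (𝓝 0) := by
    have hq : Tendsto (fun x : ℝ => Real.exp (-(x * (Real.log 2 / 2)) +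
        K * (2 * x + 3) ^ (2 / 3 : ℝ) + 2 * Real.log (x + 1))) atTop (𝓝 0) := by
      refine Real.tendsto_exp_atBot.comp ?_
      have ho : (fun x : ℝ => K * (2 * x + 3) ^ (2 / 3 : ℝ) + 2 * Real.log (x + 1))
          =o[atTop] fun x : ℝ => x := by
        have l1 : (fun x : ℝ => (2 * x + 3) ^ (2 / 3 : ℝ)) =o[atTop] fun x : ℝ => (2 * x + 3) := by
          have h2 : (fun x : ℝ => x ^ (2 / 3 : ℝ)) =o[atTop] fun x : ℝ => x := by
            rw [Asymptotics.isLittleO_iff_tendsto' (by
              filter_upwards [eventually_gt_atTop 0] with x hx h0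
              exact absurd h0 hx.ne')]
            refine (tendsto_rpow_neg_atTop (y := 1 / 3) (by norm_num)).congr' ?_
            filter_upwards [eventually_gt_atTop 0] with x hx
            rw [← Real.rpow_sub_one hx.ne']
            norm_num
          exact h2.comp_tendsto (tendsto_atTop_add_const_right _ _
            (tendsto_id.const_mul_atTop (by norm_num)))
        have l2 : (fun x : ℝ => Real.log (x + 1)) =o[atTop] fun x : ℝ => x + 1 := by
          have h2 : (fun x : ℝ => Real.log x) =o[atTop] fun x : ℝ => x :=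
            Real.isLittleO_log_id_atTop
          exact h2.comp_tendsto (tendsto_atTop_add_const_right _ _ tendsto_id)
        have b1 : (fun x : ℝ => (2 * x + 3)) =O[atTop] fun x : ℝ => x := by
          refine Asymptotics.IsBigO.of_bound 5 ?_
          filter_upwards [eventually_ge_atTop 1] with x hx
          rw [Real.norm_eq_abs, Real.norm_eq_abs, abs_of_nonneg (by linarith),
            abs_of_nonneg (by linarith)]
          linarith
        have b2 : (fun x : ℝ => (x + 1)) =O[atTop] fun x : ℝ => x := by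
          refine Asymptotics.IsBigO.of_bound 5 ?_
          filter_upwards [eventually_ge_atTop 1] with x hx
          rw [Real.norm_eq_abs, Real.norm_eq_abs, abs_of_nonneg (by linarith),
            abs_of_nonneg (by linarith)]
          linarith
        exact ((l1.trans_isBigO b1).const_mul_left K).add ((l2.trans_isBigO b2).const_mul_left 2)
      have hc : 0 < Real.log 2 / 4 := by have := Real.log_pos one_lt_two; positivity
      have he := ho.def hc
      have hlin : Tendsto (fun x : ℝ => -(x * (Real.log 2 / 4))) atTop atBot :=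
        tendsto_neg_atTop_atBot.comp (tendsto_id.atTop_mul_const hc)
      refine tendsto_atBot_mono' _ ?_ hlin
      filter_upwards [he, eventually_ge_atTop 0] with x hx hx0
      rw [Real.norm_eq_abs, Real.norm_eq_abs, abs_of_nonneg hx0] at hx
      have := (abs_le.1 hx).2
      linarith
    refine (hq.comp tendsto_natCast_atTop_atTop).congr fun n => ?_
    simp only [Function.comp]
    have hn : (0 : ℝ) < (n : ℝ) + 1 := by positivity
    rw [Real.exp_add, Real.exp_add]
    have e1 : Real.exp (-((n : ℝ) * (Real.log 2 / 2))) = (1 / Real.sqrt 2) ^ n := by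
      have : (1 / Real.sqrt 2) = Real.exp (-(Real.log 2 / 2)) := by
        rw [Real.exp_neg, Real.sqrt_eq_rpow, Real.rpow_def_of_pos (by norm_num), one_div]
        congr 2
        ring
      rw [this, ← Real.exp_nat_mul]
      congr 1
      ring
    have e2 : Real.exp (2 * Real.log ((n : ℝ) + 1)) = ((n : ℝ) + 1) ^ 2 := by
      have : 2 * Real.log ((n : ℝ) + 1) = Real.log (((n : ℝ) + 1) ^ 2) := by
        rw [Real.log_pow]; norm_num
      rw [this, Real.exp_log (by positivity)]
    rw [e1, e2]
  obtain ⟨B, hB⟩ := ht.bddAbove_range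
  exact ⟨max B 1, le_max_right _ _, fun n => (hB ⟨n, rfl⟩).trans (le_max_left _ _)⟩

lemma min_le_pow {y : ℝ} {n : ℕ} (h : y ^ 2 ≤ 2 ^ n) :
    min 1 (y / 2 ^ n) ≤ (1 / Real.sqrt 2) ^ n := by
  refine (min_le_right _ _).trans ?_
  have h2 : Real.sqrt 2 ^ n * Real.sqrt 2 ^ n = 2 ^ n := by
    rw [← mul_pow, Real.mul_self_sqrt (by norm_num)]
  have h3 : y ≤ Real.sqrt 2 ^ n := by
    have : y ^ 2 ≤ (Real.sqrt 2 ^ n) ^ 2 := by rw [sq (Real.sqrt 2 ^ n), h2]; exact h
    exact le_of_sq_le_sq this (by positivity)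
  rw [one_div, inv_pow, ← h2, div_le_iff₀ (by positivity)]
  have h4 : (0 : ℝ) < Real.sqrt 2 ^ n := by positivity
  have h5 : (Real.sqrt 2 ^ n)⁻¹ * (Real.sqrt 2 ^ n * Real.sqrt 2 ^ n) = Real.sqrt 2 ^ n := by
    field_simp
  rw [h5]; exact h3

theorem M2_of (h2 : S_mean2) (h1 : S_mean) : S_M2 := by
  intro RH
  obtain ⟨K1, hK1, HK1⟩ := h1 RH
  obtain ⟨K2, hK2, HK2⟩ := h2 RH
  obtain ⟨B0, hB0, HB0⟩ := seq_bd (17 * K1)
  have hlB0 : 0 ≤ Real.log B0 := Real.log_nonneg hB0
  -- the constant
  set C3 : ℝ := 4 * K2 + (2 * Real.log B0 + 64) with hC3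
  have hC30 : 0 ≤ C3 := by positivity
  refine ⟨100 + (C3 + 101), by positivity, fun y hy => ?_⟩
  have hy0 : 0 < y := by linarith
  have hL := log_ge hy
  have hLL := loglog_ge hy
  have hQ := QR_ge hy
  have hsy : 1 ≤ Real.sqrt y := by rw [Real.one_le_sqrt]; linarith
  change |Mx y| ≤ Real.sqrt y * Real.exp ((100 + (C3 + 101)) * QR y)
  rcases le_or_gt (Real.log y) 100 with h1 | h1
  · -- small `y`
    have h2 := abs_Mx_le hy0.le
    have h3 : y = Real.sqrt y * Real.exp (Real.log y / 2) := by
      have h4 : Real.exp (Real.log y / 2) = Real.sqrt y := by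
        rw [Real.sqrt_eq_rpow, Real.rpow_def_of_pos hy0]
        congr 1; ring
      rw [h4, Real.mul_self_sqrt hy0.le]
    refine h2.trans ?_
    nth_rewrite 1 [h3]
    refine mul_le_mul_of_nonneg_left (Real.exp_le_exp.2 ?_) (by linarith)
    have : 0 ≤ (C3 + 101) * QR y := by positivity
    nlinarith
  · have hQd : QR y = Real.sqrt (Real.log y) / Real.log (Real.log y) := rfl
    set L := Real.log y with hLd
    have hL0 : 0 < L := by linarith
    have hl1 : 1 ≤ Real.log L := by
      have h3 := Real.log_le_log (by norm_num) (by linarith : (3 : ℝ) ≤ L)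
      linarith [log3]
    have hll : 0 ≤ Real.log (Real.log L) := Real.log_nonneg hl1
    have hs10 : 10 ≤ Real.sqrt L := by
      refine Real.le_sqrt_of_sq_le ?_
      norm_num
      exact h1.le
    have hss : Real.sqrt L * Real.sqrt L = L := Real.mul_self_sqrt hL0.le
    -- the distance
    set u := Real.sqrt L * Real.log L with hud
    have hu10 : 10 ≤ u := by
      rw [hud]
      nlinarith
    have hu0 : 0 < u := by linarith
    set δ := 1 / u with hδd
    have hδ : 0 < δ := by positivity
    have hδ4 : δ ≤ 1 / 4 := by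
      rw [hδd]
      exact one_div_le_one_div_of_le (by norm_num) (by linarith)
    have hu1 : 1 / δ = u := by rw [hδd, one_div_one_div]
    -- the two exponents
    have e1 : δ * L = QR y := by
      rw [hQd, hδd, hud]
      have h5 : Real.log L ≠ 0 := by linarith
      have h6 : Real.sqrt L ≠ 0 := by linarith
      rw [one_div, inv_mul_eq_div, div_eq_div_iff (by positivity) h5]
      calc L * Real.log L = (Real.sqrt L * Real.sqrt L) * Real.log L := by rw [hss]
        _ = _ := by ring
    have em : Real.log L / 2 ≤ Real.log (1 / δ) := by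
      rw [hu1, hud, Real.log_mul (by linarith) (by linarith), Real.log_sqrt hL0.le]
      linarith
    have e2 : 1 / (δ * Real.log (1 / δ) ^ 2) ≤ 4 * QR y := by
      have h5 : 1 / (δ * Real.log (1 / δ) ^ 2) = u / Real.log (1 / δ) ^ 2 := by
        rw [← hu1]
        field_simp
      rw [h5]
      have h6 : 0 < Real.log (1 / δ) := by linarith
      rw [div_le_iff₀ (by positivity), hQd, hud]
      have h7 : (Real.log L / 2) ^ 2 ≤ Real.log (1 / δ) ^ 2 :=
        pow_le_pow_left₀ (by linarith) em 2
      have h8 : Real.sqrt L * Real.log L =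
          4 * (Real.sqrt L / Real.log L) * (Real.log L / 2) ^ 2 := by
        have : Real.log L ≠ 0 := by linarith
        field_simp
        ring
      rw [h8]
      refine mul_le_mul_of_nonneg_left h7 ?_
      positivity
    -- the bound for the means
    let mm : ℝ → ℝ := fun T => if Lg T ≤ 1 / δ ^ 3 then
      Real.exp (K2 * (1 / (δ * Real.log (1 / δ) ^ 2))) else
      Real.exp (K1 * (Real.log (1 / δ) / δ) + K1 * Real.log (Lg T) ^ 2)
    have hmm : ∀ T : ℝ, 1 ≤ T → ∫ t in (-T)..T, ‖fz (1 / 2 + δ + t * I)‖ ≤ T * mm T := by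
      intro T hT
      by_cases hc : Lg T ≤ 1 / δ ^ 3
      · simp only [mm, if_pos hc]
        exact HK2 T δ hT hδ hδ4 hc
      · simp only [mm, if_neg hc]
        exact HK1 T δ hT hδ hδ4
    have hu3 : 1 / δ ^ 3 = u ^ 3 := by
      rw [← hu1]; field_simp
    have hQ0 : 0 ≤ QR y := by linarith
    have hexpQ : ∀ c : ℝ, c ≤ C3 * QR y → Real.exp c ≤ Real.exp (C3 * QR y) := fun c hc =>
      Real.exp_le_exp.2 hc
    have hm1 : mm 1 ≤ Real.exp (C3 * QR y) := by
      have hc : Lg 1 ≤ 1 / δ ^ 3 := by
        rw [hu3]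
        have h5 : Lg 1 ≤ 4 := by
          unfold Lg
          rw [abs_one]
          have := Real.log_le_sub_one_of_pos (x := 3 + 1) (by norm_num)
          linarith
        have h6 : (10 : ℝ) ^ 3 ≤ u ^ 3 := pow_le_pow_left₀ (by norm_num) hu10 3
        norm_num at h6
        linarith
      simp only [mm, if_pos hc]
      apply hexpQ
      have h5 := mul_le_mul_of_nonneg_left e2 hK2.le
      have h6 : 0 ≤ (2 * Real.log B0 + 64) * QR y := by positivity
      rw [hC3]
      linarith
    have hBn : ∀ n : ℕ, min 1 (y / 2 ^ n) * mm (2 ^ (n + 1)) * ((n : ℝ) + 1) ^ 2 ≤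
        Real.exp (C3 * QR y) := by
      intro n
      have hmin : 0 ≤ min 1 (y / 2 ^ n) := le_min zero_le_one (by positivity)
      have hn0 : (0 : ℝ) ≤ n := Nat.cast_nonneg n
      by_cases hc : Lg (2 ^ (n + 1)) ≤ 1 / δ ^ 3
      · -- moderate heights
        have hmA : mm (2 ^ (n + 1)) ≤ Real.exp (4 * K2 * QR y) := by
          simp only [mm, if_pos hc]
          rw [Real.exp_le_exp]
          have h5 := mul_le_mul_of_nonneg_left e2 hK2.le
          linarith
        have hA : min 1 (y / 2 ^ n) * ((n : ℝ) + 1) ^ 2 ≤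
            Real.exp ((2 * Real.log B0 + 64) * QR y) := by
          rcases le_or_gt (y ^ 2) (2 ^ n) with h | h
          · have h5 := min_le_pow h
            have h6 := HB0 n
            have h7 : 1 ≤ Real.exp (17 * K1 * (2 * (n : ℝ) + 3) ^ (2 / 3 : ℝ)) :=
              Real.one_le_exp (by positivity)
            have h8 : 0 ≤ (1 / Real.sqrt 2) ^ n := by positivity
            calc min 1 (y / 2 ^ n) * ((n : ℝ) + 1) ^ 2 ≤
                (1 / Real.sqrt 2) ^ n * ((n : ℝ) + 1) ^ 2 := by gcongr
              _ ≤ (1 / Real.sqrt 2) ^ n * Real.exp (17 * K1 * (2 * (n : ℝ) + 3) ^ (2 / 3 : ℝ)) *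
                  ((n : ℝ) + 1) ^ 2 := by
                refine mul_le_mul_of_nonneg_right ?_ (by positivity)
                exact le_mul_of_one_le_right h8 h7
              _ ≤ B0 := h6
              _ = Real.exp (Real.log B0) := (Real.exp_log (by linarith)).symm
              _ ≤ _ := by
                rw [Real.exp_le_exp]
                nlinarith
          · have h5 : (n : ℝ) * Real.log 2 < 2 * Real.log y := by
              have h2 := Real.log_lt_log (by positivity) h
              rw [Real.log_pow, Real.log_pow] at h2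
              exact_mod_cast h2
            have h6 : (n : ℝ) ≤ 3 * L := by
              have := Real.log_two_gt_d9
              nlinarith
            have h7 : ((n : ℝ) + 1) ^ 2 ≤ (4 * L) ^ 2 :=
              pow_le_pow_left₀ (by positivity) (by linarith) 2
            have h8 : (4 * L) ^ 2 ≤ Real.exp (4 * Real.log L) := by
              have h9 : Real.exp (4 * Real.log L) = L ^ 4 := by
                have : 4 * Real.log L = Real.log (L ^ 4) := by rw [Real.log_pow]; norm_num
                rw [this, Real.exp_log (by positivity)]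
              rw [h9]
              have h10 : (16 : ℝ) ≤ L ^ 2 := by nlinarith
              calc (4 * L) ^ 2 = 16 * L ^ 2 := by ring
                _ ≤ L ^ 2 * L ^ 2 := by gcongr
                _ = L ^ 4 := by ring
            have h9 : 4 * Real.log L ≤ 64 * QR y := by
              have h10 := log_sq_le (τ := L) (by linarith)
              rw [hQd]
              have h11 : Real.log L ≤ 16 * (Real.sqrt L / Real.log L) := by
                rw [← mul_div_assoc, le_div_iff₀ (by linarith)]
                calc Real.log L * Real.log L = Real.log L ^ 2 := by ring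
                  _ ≤ _ := h10
              linarith
            calc min 1 (y / 2 ^ n) * ((n : ℝ) + 1) ^ 2 ≤ 1 * ((n : ℝ) + 1) ^ 2 := by
                  gcongr
                  exact min_le_left _ _
              _ ≤ (4 * L) ^ 2 := by rw [one_mul]; exact h7
              _ ≤ _ := h8
              _ ≤ _ := by
                rw [Real.exp_le_exp]
                nlinarith
        have hmm0 : 0 ≤ mm (2 ^ (n + 1)) := by
          simp only [mm, if_pos hc]
          positivity
        calc min 1 (y / 2 ^ n) * mm (2 ^ (n + 1)) * ((n : ℝ) + 1) ^ 2 =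
            mm (2 ^ (n + 1)) * (min 1 (y / 2 ^ n) * ((n : ℝ) + 1) ^ 2) := by ring
          _ ≤ Real.exp (4 * K2 * QR y) * Real.exp ((2 * Real.log B0 + 64) * QR y) := by
            gcongr
          _ = Real.exp (C3 * QR y) := by
            rw [← Real.exp_add]
            congr 1
            rw [hC3]
            ring
      · -- large heights
        set X := Lg (2 ^ (n + 1)) with hX
        rw [not_le] at hc
        have hX1 : 1 ≤ X := Pool.Agent.Y23.one_le_Lg _
        have hXn : X ≤ 2 * (n : ℝ) + 3 := by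
          have := Lg_two_pow n
          linarith
        have hXu : u ^ 3 < X := by rw [← hu3]; exact hc
        have hX10 : 10 * L ≤ X := by
          have h5 : Real.sqrt L ^ 3 ≤ u ^ 3 := by
            refine pow_le_pow_left₀ (by linarith) ?_ 3
            rw [hud]
            nlinarith
          have h6 : 10 * L ≤ Real.sqrt L ^ 3 := by
            calc 10 * L ≤ Real.sqrt L * L := by gcongr
              _ = Real.sqrt L ^ 3 := by
                calc Real.sqrt L * L = Real.sqrt L * (Real.sqrt L * Real.sqrt L) := by rw [hss]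
                  _ = _ := by ring
          linarith
        have hy2 : y ^ 2 ≤ 2 ^ n := by
          have h5 : Real.log (y ^ 2) ≤ Real.log (2 ^ n) := by
            rw [Real.log_pow, Real.log_pow]
            push_cast
            have h6 := Real.log_two_gt_d9
            have h7 : 3 * L ≤ n := by linarith
            nlinarith
          exact (Real.log_le_log_iff (by positivity) (by positivity)).1 h5
        have hX23 : X ^ (2 / 3 : ℝ) ≤ (2 * (n : ℝ) + 3) ^ (2 / 3 : ℝ) :=
          Real.rpow_le_rpow (by linarith) hXn (by norm_num)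
        have hexp1 : Real.log (1 / δ) / δ ≤ X ^ (2 / 3 : ℝ) := by
          have h5 : Real.log (1 / δ) ≤ u := by
            rw [hu1]
            have := Real.log_le_sub_one_of_pos hu0
            linarith
          have h6 : Real.log (1 / δ) / δ ≤ u ^ 2 := by
            rw [div_eq_mul_one_div, hu1, sq]
            rw [hu1] at h5
            gcongr
          have h7 : u ^ 2 = (u ^ 3) ^ (2 / 3 : ℝ) := by
            rw [← Real.rpow_natCast u 3, ← Real.rpow_mul hu0.le]
            norm_num
          rw [h7] at h6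
          exact h6.trans (Real.rpow_le_rpow (by positivity) hXu.le (by norm_num))
        have hexp2 : Real.log X ^ 2 ≤ 16 * X ^ (2 / 3 : ℝ) := by
          have h5 := log_sq_le hX1
          have h6 : Real.sqrt X ≤ X ^ (2 / 3 : ℝ) := by
            rw [Real.sqrt_eq_rpow]
            exact Real.rpow_le_rpow_of_exponent_le hX1 (by norm_num)
          linarith
        have hmB : mm (2 ^ (n + 1)) ≤ Real.exp (17 * K1 * (2 * (n : ℝ) + 3) ^ (2 / 3 : ℝ)) := by
          simp only [mm]
          rw [if_neg (not_le.2 hc), Real.exp_le_exp]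
          have h5 := mul_le_mul_of_nonneg_left hexp1 hK1.le
          have h6 := mul_le_mul_of_nonneg_left hexp2 hK1.le
          have h7 := mul_le_mul_of_nonneg_left hX23 (by positivity : 0 ≤ 17 * K1)
          nlinarith
        have h5 := min_le_pow hy2
        calc min 1 (y / 2 ^ n) * mm (2 ^ (n + 1)) * ((n : ℝ) + 1) ^ 2 ≤
            (1 / Real.sqrt 2) ^ n * Real.exp (17 * K1 * (2 * (n : ℝ) + 3) ^ (2 / 3 : ℝ)) *
              ((n : ℝ) + 1) ^ 2 := by
              have hmm0 : 0 ≤ mm (2 ^ (n + 1)) := by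
                simp only [mm]
                rw [if_neg (not_le.2 hc)]
                positivity
              gcongr
          _ ≤ B0 := HB0 n
          _ = Real.exp (Real.log B0) := (Real.exp_log (by linarith)).symm
          _ ≤ _ := by
            apply hexpQ
            rw [hC3]
            nlinarith [mul_nonneg hK2.le hQ0]
    have h2 := mx_le RH hδ hδ4 (by linarith : 1 ≤ y)
    have h3 := int_bound2 (g := fun t => ‖fz (1 / 2 + δ + t * I)‖) ((fz_cont RH hδ).norm)
      (fun t => norm_nonneg _) (B := Real.exp (C3 * QR y)) (mm := mm) hy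
      (int_fw RH hδ hδ4 (by linarith)) hmm hBn hm1
    have e3 : y ^ (1 / 2 + δ) = Real.sqrt y * Real.exp (QR y) := by
      rw [Real.rpow_add hy0, Real.sqrt_eq_rpow, ← e1]
      congr 1
      rw [Real.rpow_def_of_pos hy0, ← hLd, mul_comm]
    rw [e3] at h2
    have h5 : 2750 * (Real.sqrt y * Real.exp (QR y)) *
        (∫ t : ℝ, ‖fz (1 / 2 + δ + t * I)‖ * wt y t) ≤
        2750 * (Real.sqrt y * Real.exp (QR y)) * (9 * Real.exp (C3 * QR y)) :=
      mul_le_mul_of_nonneg_left h3 (by positivity)
    have h6 : 2750 * (Real.sqrt y * Real.exp (QR y)) * (9 * Real.exp (C3 * QR y)) =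
        24750 * (Real.sqrt y * Real.exp ((C3 + 1) * QR y)) := by
      have : Real.exp ((C3 + 1) * QR y) = Real.exp (QR y) * Real.exp (C3 * QR y) := by
        rw [← Real.exp_add]
        congr 1
        ring
      rw [this]
      ring
    rw [h6] at h5
    have h7 : (24770 : ℝ) ≤ Real.exp (100 * QR y) := by
      have h8 : (40 : ℝ) ≤ 100 * QR y := by linarith
      have h9 : Real.exp 40 ≤ Real.exp (100 * QR y) := Real.exp_le_exp.2 h8
      have h10 : (2 : ℝ) ^ 40 ≤ Real.exp 40 := by
        have h11 : (2 : ℝ) ≤ Real.exp 1 := by linarith [Real.exp_one_gt_d9]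
        have h12 : Real.exp 40 = Real.exp 1 ^ 40 := by
          rw [← Real.exp_nat_mul]; norm_num
        rw [h12]
        gcongr
      norm_num at h10
      linarith
    have h8 : (1 : ℝ) ≤ Real.sqrt y * Real.exp ((C3 + 1) * QR y) := by
      have h9 : 1 ≤ Real.exp ((C3 + 1) * QR y) := Real.one_le_exp (by positivity)
      nlinarith
    calc |Mx y| ≤ 20 + 24750 * (Real.sqrt y * Real.exp ((C3 + 1) * QR y)) := by linarith
      _ ≤ 24770 * (Real.sqrt y * Real.exp ((C3 + 1) * QR y)) := by linarith
      _ ≤ Real.exp (100 * QR y) * (Real.sqrt y * Real.exp ((C3 + 1) * QR y)) := by gcongr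
      _ = Real.sqrt y * (Real.exp (100 * QR y) * Real.exp ((C3 + 1) * QR y)) := by ring
      _ ≤ _ := by
        refine mul_le_mul_of_nonneg_left ?_ (by linarith)
        rw [← Real.exp_add, Real.exp_le_exp]
        nlinarith

end Pool.Agent.N152.MX2E
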