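import Pool.Agent.N576.MX3.D

/-!
# Project MX3 (helper576): the final separation
-/

set_option autoImplicit false

namespace Pool.Agent.N152.MX3

open Finset
open Pool.Agent.N576.MX3

/-- products over values of the exponential -/
theorem step1 (q : Q3) (L T S : ℕ) (p : ℕ × ℕ × ℕ → ℤ)
    (hA : ∀ m1 m2 s, m1 < T → m2 < T → s < S → q.A L p m1 m2 s = 0) (m1 m2 : ℕ) (h1 : m1 < T)
    (h2 : m2 < T) (Y : Finset ℝ) : ∀ s, Y.card + s < S →
    ∑ l ∈ Cu L, (p l : ℝ) * (q.g1 l : ℝ) ^ m1 * (q.g2 l : ℝ) ^ m2 * Real.exp (q.E l) ^ s *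
      ∏ x ∈ Y, (Real.exp (q.E l) - x) = 0 := by
  classical
  induction Y using Finset.induction_on with
  | empty =>
    intro s hs
    rw [Finset.card_empty, Nat.zero_add] at hs
    have h3 := hA m1 m2 s h1 h2 hs
    unfold Q3.A at h3
    rw [← h3]
    apply Finset.sum_congr rfl
    intro l _
    rw [Real.exp_nat_mul, Finset.prod_empty, mul_one]
  | insert x Y hx ih =>
    intro s hs
    rw [Finset.card_insert_of_notMem hx] at hs
    have a1 := ih (s + 1) (by omega)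
    have a2 := ih s (by omega)
    have h3 : ∀ l ∈ Cu L, (p l : ℝ) * (q.g1 l : ℝ) ^ m1 * (q.g2 l : ℝ) ^ m2 *
        Real.exp (q.E l) ^ s * ∏ x ∈ insert x Y, (Real.exp (q.E l) - x) =
        ((p l : ℝ) * (q.g1 l : ℝ) ^ m1 * (q.g2 l : ℝ) ^ m2 * Real.exp (q.E l) ^ (s + 1) *
          ∏ x ∈ Y, (Real.exp (q.E l) - x)) -
        x * ((p l : ℝ) * (q.g1 l : ℝ) ^ m1 * (q.g2 l : ℝ) ^ m2 * Real.exp (q.E l) ^ s *
          ∏ x ∈ Y, (Real.exp (q.E l) - x)) := by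
      intro l _
      rw [Finset.prod_insert hx]
      ring
    rw [Finset.sum_congr rfl h3, Finset.sum_sub_distrib, ← Finset.mul_sum, a1, a2]
    ring

theorem card_Cu (L : ℕ) : (Cu L).card = L ^ 3 := by
  unfold Cu
  rw [Finset.card_product, Finset.card_product, Finset.card_range]
  ring

open Classical in
/-- the class of `l0` -/
noncomputable def Cl (q : Q3) (L : ℕ) (l0 : ℕ × ℕ × ℕ) : Finset (ℕ × ℕ × ℕ) :=
  (Cu L).filter (fun l => q.E l = q.E l0)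

theorem mem_Cl {q : Q3} {L : ℕ} {l0 l : ℕ × ℕ × ℕ} : l ∈ Cl q L l0 ↔ l ∈ Cu L ∧ q.E l = q.E l0 := by
  classical
  simp [Cl]

/-- sums over a class -/
theorem step2 (q : Q3) (L T S : ℕ) (p : ℕ × ℕ × ℕ → ℤ) (hS : L ^ 3 ≤ S)
    (hA : ∀ m1 m2 s, m1 < T → m2 < T → s < S → q.A L p m1 m2 s = 0) (l0 : ℕ × ℕ × ℕ)
    (hl0 : l0 ∈ Cu L) (m1 m2 : ℕ) (h1 : m1 < T) (h2 : m2 < T) :
    ∑ l ∈ Cl q L l0, (p l : ℝ) * (q.g1 l : ℝ) ^ m1 * (q.g2 l : ℝ) ^ m2 = 0 := by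
  classical
  set X : Finset ℝ := (Cu L).image (fun l => Real.exp (q.E l)) with hX
  have hx0 : Real.exp (q.E l0) ∈ X := Finset.mem_image_of_mem (fun l => Real.exp (q.E l)) hl0
  have hcard : (X.erase (Real.exp (q.E l0))).card + 0 < S := by
    rw [Finset.card_erase_of_mem hx0]
    have e1 : X.card ≤ L ^ 3 := by
      rw [← card_Cu L]
      exact Finset.card_image_le
    have e2 : 0 < X.card := Finset.card_pos.2 ⟨_, hx0⟩
    omega
  have h3 := step1 q L T S p hA m1 m2 h1 h2 (X.erase (Real.exp (q.E l0))) 0 hcard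
  set P0 : ℝ := ∏ x ∈ X.erase (Real.exp (q.E l0)), (Real.exp (q.E l0) - x) with hP0
  have hP0ne : P0 ≠ 0 := by
    rw [hP0, Finset.prod_ne_zero_iff]
    intro x hx
    rw [Finset.mem_erase] at hx
    exact sub_ne_zero.2 (Ne.symm hx.1)
  have h4 : ∑ l ∈ Cl q L l0, (p l : ℝ) * (q.g1 l : ℝ) ^ m1 * (q.g2 l : ℝ) ^ m2 * P0 = 0 := by
    rw [← h3]
    have hsub : Cl q L l0 ⊆ Cu L := fun l hl => (mem_Cl.1 hl).1
    rw [← Finset.sum_subset hsub]
    · apply Finset.sum_congr rfl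
      intro l hl
      rw [(mem_Cl.1 hl).2, pow_zero, mul_one]
    · intro l hl hl'
      have hne : Real.exp (q.E l) ≠ Real.exp (q.E l0) := by
        intro he
        exact hl' (mem_Cl.2 ⟨hl, Real.exp_injective he⟩)
      have hmem : Real.exp (q.E l) ∈ X.erase (Real.exp (q.E l0)) := by
        rw [Finset.mem_erase]
        exact ⟨hne, Finset.mem_image_of_mem (fun l => Real.exp (q.E l)) hl⟩
      rw [Finset.prod_eq_zero hmem (sub_self _), mul_zero]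
  rw [← Finset.sum_mul] at h4
  rcases mul_eq_zero.1 h4 with h5 | h5
  · exact h5
  · exact absurd h5 hP0ne

/-- multiplication by one affine function -/
theorem van_mul (T : ℕ) (C : Finset (ℕ × ℕ × ℕ)) (p u v c F : ℕ × ℕ × ℕ → ℝ) (α β γ : ℝ)
    (hc : ∀ l ∈ C, c l = α * u l + β * v l + γ) (x : ℝ) (n : ℕ)
    (h : ∀ i j, i + n < T → j + n < T → ∑ l ∈ C, p l * F l * u l ^ i * v l ^ j = 0) :
    ∀ i j, i + (n + 1) < T → j + (n + 1) < T →
      ∑ l ∈ C, p l * (F l * (c l - x)) * u l ^ i * v l ^ j = 0 := by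
  intro i j hi hj
  have a1 := h (i + 1) j (by omega) (by omega)
  have a2 := h i (j + 1) (by omega) (by omega)
  have a3 := h i j (by omega) (by omega)
  have h3 : ∀ l ∈ C, p l * (F l * (c l - x)) * u l ^ i * v l ^ j =
      α * (p l * F l * u l ^ (i + 1) * v l ^ j) + β * (p l * F l * u l ^ i * v l ^ (j + 1)) +
        (γ - x) * (p l * F l * u l ^ i * v l ^ j) := by
    intro l hl
    rw [hc l hl]
    ring
  rw [Finset.sum_congr rfl h3, Finset.sum_add_distrib, Finset.sum_add_distrib, ← Finset.mul_sum,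
    ← Finset.mul_sum, ← Finset.mul_sum, a1, a2, a3]
  ring

/-- multiplication by several affine functions -/
theorem van_prod (T : ℕ) (C : Finset (ℕ × ℕ × ℕ)) (p u v c F : ℕ × ℕ × ℕ → ℝ)
    (hc : ∃ α β γ : ℝ, ∀ l ∈ C, c l = α * u l + β * v l + γ) (n : ℕ)
    (h : ∀ i j, i + n < T → j + n < T → ∑ l ∈ C, p l * F l * u l ^ i * v l ^ j = 0)
    (Y : Finset ℕ) :
    ∀ i j, i + (n + Y.card) < T → j + (n + Y.card) < T →
      ∑ l ∈ C, p l * (F l * ∏ x ∈ Y, (c l - x)) * u l ^ i * v l ^ j = 0 := by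
  classical
  obtain ⟨α, β, γ, hc⟩ := hc
  induction Y using Finset.induction_on with
  | empty => simpa using h
  | insert x Y hx ih =>
    intro i j hi hj
    rw [Finset.card_insert_of_notMem hx] at hi hj
    have h3 := van_mul T C p u v c (fun l => F l * ∏ x ∈ Y, (c l - x)) α β γ hc x (n + Y.card) ih
      i j (by omega) (by omega)
    rw [← h3]
    apply Finset.sum_congr rfl
    intro l _
    rw [Finset.prod_insert hx]
    ring

/-- **The final separation.** -/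
theorem vand : VAND := by
  classical
  intro q H L T S p hq hT hS hLam hA l0 hl0
  have hb3 : (q.b3 : ℝ) ≠ 0 := by exact_mod_cast hq.ne
  have hstep := step2 q L T S p hS hA l0 hl0
  -- the coordinates are affine functions on the class
  have c3 : ∀ l ∈ Cl q L l0, ((l.2.2 : ℕ) : ℝ) = (-q.l1 / q.Lam) * (q.g1 l : ℝ) +
      (-q.l2 / q.Lam) * (q.g2 l : ℝ) + ((l0.2.2 : ℝ) + (q.l1 * (q.g1 l0 : ℝ) +
      q.l2 * (q.g2 l0 : ℝ)) / q.Lam) := by
    intro l hl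
    have hE := (mem_Cl.1 hl).2
    simp only [Q3.E] at hE
    have key : q.l1 * ((q.g1 l : ℝ) - q.g1 l0) + q.l2 * ((q.g2 l : ℝ) - q.g2 l0) =
        -(((l.2.2 : ℕ) : ℝ) - l0.2.2) * q.Lam := by
      simp only [Q3.g1, Q3.g2, Q3.Lam]
      push_cast
      linear_combination (q.b3 : ℝ) * hE
    have e : ((l.2.2 : ℕ) : ℝ) - l0.2.2 = -(q.l1 * ((q.g1 l : ℝ) - q.g1 l0) +
        q.l2 * ((q.g2 l : ℝ) - q.g2 l0)) / q.Lam := by
      rw [key]
      field_simp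
    calc ((l.2.2 : ℕ) : ℝ) = (((l.2.2 : ℕ) : ℝ) - l0.2.2) + l0.2.2 := by ring
      _ = -(q.l1 * ((q.g1 l : ℝ) - q.g1 l0) +
        q.l2 * ((q.g2 l : ℝ) - q.g2 l0)) / q.Lam + l0.2.2 := by rw [e]
      _ = _ := by ring
  have c1 : ∀ l ∈ Cl q L l0, ((l.1 : ℕ) : ℝ) = (1 / q.b3 + q.b1 / q.b3 * (-q.l1 / q.Lam)) *
      (q.g1 l : ℝ) + (q.b1 / q.b3 * (-q.l2 / q.Lam)) * (q.g2 l : ℝ) +
      q.b1 / q.b3 * ((l0.2.2 : ℝ) + (q.l1 * (q.g1 l0 : ℝ) +
      q.l2 * (q.g2 l0 : ℝ)) / q.Lam) := by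
    intro l hl
    have h3 := c3 l hl
    have e : ((l.1 : ℕ) : ℝ) = 1 / q.b3 * (q.g1 l : ℝ) + q.b1 / q.b3 * ((l.2.2 : ℕ) : ℝ) := by
      simp only [Q3.g1]
      push_cast
      field_simp
      ring
    rw [e, h3]
    ring
  have c2 : ∀ l ∈ Cl q L l0, ((l.2.1 : ℕ) : ℝ) = (q.b2 / q.b3 * (-q.l1 / q.Lam)) *
      (q.g1 l : ℝ) + (1 / q.b3 + q.b2 / q.b3 * (-q.l2 / q.Lam)) * (q.g2 l : ℝ) +
      q.b2 / q.b3 * ((l0.2.2 : ℝ) + (q.l1 * (q.g1 l0 : ℝ) +
      q.l2 * (q.g2 l0 : ℝ)) / q.Lam) := by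
    intro l hl
    have h3 := c3 l hl
    have e : ((l.2.1 : ℕ) : ℝ) = 1 / q.b3 * (q.g2 l : ℝ) + q.b2 / q.b3 * ((l.2.2 : ℕ) : ℝ) := by
      simp only [Q3.g2]
      push_cast
      field_simp
      ring
    rw [e, h3]
    ring
  have hmem : ∀ l ∈ Cu L, l.1 < L ∧ l.2.1 < L ∧ l.2.2 < L := by
    intro l hl
    unfold Cu at hl
    rw [Finset.mem_product, Finset.mem_product, Finset.mem_range, Finset.mem_range,
      Finset.mem_range] at hl
    exact hl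
  obtain ⟨hl1, hl2, hl3⟩ := hmem l0 hl0
  have hcard : ∀ x : ℕ, x < L → ((range L).erase x).card = L - 1 := by
    intro x hx
    rw [Finset.card_erase_of_mem (Finset.mem_range.2 hx), Finset.card_range]
  have v0 : ∀ i j, i + 0 < T → j + 0 < T → ∑ l ∈ Cl q L l0, (p l : ℝ) * 1 * (q.g1 l : ℝ) ^ i *
      (q.g2 l : ℝ) ^ j = 0 := by
    intro i j hi hj
    simpa using hstep i j hi hj
  have v1 := van_prod T (Cl q L l0) (fun l => (p l : ℝ)) (fun l => (q.g1 l : ℝ))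
    (fun l => (q.g2 l : ℝ)) (fun l => ((l.1 : ℕ) : ℝ)) (fun _ => 1) ⟨_, _, _, c1⟩ 0 v0
    ((range L).erase l0.1)
  have v2 := van_prod T (Cl q L l0) (fun l => (p l : ℝ)) (fun l => (q.g1 l : ℝ))
    (fun l => (q.g2 l : ℝ)) (fun l => ((l.2.1 : ℕ) : ℝ)) _ ⟨_, _, _, c2⟩ _ v1
    ((range L).erase l0.2.1)
  have v3 := van_prod T (Cl q L l0) (fun l => (p l : ℝ)) (fun l => (q.g1 l : ℝ))
    (fun l => (q.g2 l : ℝ)) (fun l => ((l.2.2 : ℕ) : ℝ)) _ ⟨_, _, _, c3⟩ _ v2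
    ((range L).erase l0.2.2) 0 0
  rw [hcard _ hl1, hcard _ hl2, hcard _ hl3] at v3
  have v4 := v3 (by omega) (by omega)
  simp only [pow_zero, mul_one, one_mul] at v4
  rw [Finset.sum_eq_single l0] at v4
  · rcases mul_eq_zero.1 v4 with h5 | h5
    · exact_mod_cast h5
    · exfalso
      have hne : ∀ x : ℕ, ∏ y ∈ (range L).erase x, ((x : ℝ) - (y : ℝ)) ≠ 0 := by
        intro x
        rw [Finset.prod_ne_zero_iff]
        intro y hy
        rw [Finset.mem_erase] at hy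
        exact sub_ne_zero.2 (by exact_mod_cast (Ne.symm hy.1))
      exact (mul_ne_zero (mul_ne_zero (hne _) (hne _)) (hne _)) h5
  · intro l hl hne
    obtain ⟨hm1, hm2, hm3⟩ := hmem l (mem_Cl.1 hl).1
    have hz : ∀ x y : ℕ, x < L → x ≠ y → ∏ z ∈ (range L).erase y, ((x : ℝ) - (z : ℝ)) = 0 := by
      intro x y hx hxy
      exact Finset.prod_eq_zero (Finset.mem_erase.2 ⟨hxy, Finset.mem_range.2 hx⟩) (sub_self _)
    by_cases e1 : l.1 = l0.1
    · by_cases e2 : l.2.1 = l0.2.1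
      · have e3 : l.2.2 ≠ l0.2.2 := by
          intro e3
          exact hne (Prod.ext e1 (Prod.ext e2 e3))
        rw [hz _ _ hm3 e3]
        simp
      · rw [hz _ _ hm2 e2]
        simp
    · rw [hz _ _ hm1 e1]
      simp
  · intro hnot
    exact absurd (mem_Cl.2 ⟨hl0, rfl⟩) hnot

end Pool.Agent.N152.MX3
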