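import Pool.Agent.N152.Chart

/-! The two families of coordinates on `X`. -/

set_option autoImplicit false

open scoped LinearAlgebra.Projectivization

namespace Pool.Agent.N152

open Pool.Agent.Helper922.HB Pool.Agent.Helper10.Dupin Topology

/-! ### phases -/

/-- unit complex numbers -/
noncomputable def ph (a x : ℝ) : ℂ := Complex.exp ((2 * Real.pi * a * x : ℝ) * Complex.I)

theorem norm_ph (a x : ℝ) : ‖ph a x‖ = 1 := Complex.norm_exp_ofReal_mul_I _

theorem ph_ne (a x : ℝ) : ph a x ≠ 0 := Complex.exp_ne_zero _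

theorem ph_zero (a : ℝ) : ph a 0 = 1 := by simp [ph]

theorem ph_add (a x y : ℝ) : ph a (x + y) = ph a x * ph a y := by
  unfold ph
  rw [← Complex.exp_add]
  congr 1
  push_cast
  ring

theorem ph_int (a : ℝ) (m : ℤ) : ph a m = ph a 1 ^ m := by
  unfold ph
  rw [← Complex.exp_int_mul]
  congr 1
  push_cast
  ring

theorem ph_pow (a x : ℝ) (k : ℕ) : ph a x ^ k = ph (k * a) x := by
  unfold ph
  rw [← Complex.exp_nat_mul]
  congr 1
  push_cast
  ring

theorem ph_half : ph (1 / 2) 1 = -1 := by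
  unfold ph
  rw [← Complex.exp_pi_mul_I]
  congr 1
  push_cast
  ring

theorem ph_third : ph (1 / 3) 1 = om := by
  unfold ph om
  congr 1
  push_cast
  ring

theorem ph_sixth : ph (-(1 / 6)) 1 = -om := by
  have h : -om = ph (1 / 2) 1 * ph (1 / 3) 1 := by rw [ph_half, ph_third]; ring
  rw [h]
  unfold ph
  rw [← Complex.exp_add, Complex.exp_eq_exp_iff_exists_int]
  refine ⟨-1, ?_⟩
  push_cast
  ring

theorem ph_one (x : ℝ) : ph 1 x = (Ex x).1 := by
  unfold ph Ex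
  rw [mul_one]

theorem continuous_ph {X : Type} [TopologicalSpace X] (a : ℝ) {f : X → ℝ} (hf : Continuous f) :
    Continuous fun x => ph a (f x) := by
  unfold ph
  fun_prop

/-- the flow on the affine part -/
noncomputable def Aaff : Flow (ℂ × ℂ) where
  act x n := (ph (1 / 2) x * n.1, ph (1 / 3) x * n.2)
  cont := by
    have h1 := continuous_ph (X := ℝ × (ℂ × ℂ)) (1 / 2) (f := fun p => p.1) (by fun_prop)
    have h2 := continuous_ph (X := ℝ × (ℂ × ℂ)) (1 / 3) (f := fun p => p.1) (by fun_prop)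
    fun_prop
  zero n := by rw [ph_zero, ph_zero, one_mul, one_mul]
  add x y n := by rw [ph_add, ph_add, mul_assoc, mul_assoc]

theorem Dmem {ρ s : ℂ} (h : ‖s * ρ ^ 6‖ < 1) (a x : ℝ) : ‖s * (ph a x * ρ) ^ 6‖ < 1 := by
  rw [mul_pow, norm_mul, norm_mul, norm_pow, norm_ph, one_pow, one_mul, ← norm_mul]
  exact h

/-- the flow on the disc bundle -/
noncomputable def Ainf : Flow DD where
  act x n := ⟨(ph (-(1 / 6)) x * n.1.1, n.1.2), Dmem n.2 _ _⟩
  cont := by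
    have h1 := continuous_ph (X := ℝ × DD) (-(1 / 6)) (f := fun p => p.1) (by fun_prop)
    apply Continuous.subtype_mk
    fun_prop
  zero n := by
    apply Subtype.ext
    change (ph (-(1 / 6)) 0 * n.1.1, n.1.2) = n.1
    rw [ph_zero, one_mul]
  add x y n := by
    apply Subtype.ext
    change (ph (-(1 / 6)) (x + y) * n.1.1, n.1.2) =
      (ph (-(1 / 6)) x * (ph (-(1 / 6)) y * n.1.1), n.1.2)
    rw [ph_add, mul_assoc]

/-- the flow on the punctured disc bundle -/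
noncomputable def Adp : Flow DP where
  act x n := ⟨(ph (-(1 / 6)) x * n.1.1, n.1.2), mul_ne_zero (ph_ne _ _) n.2.1, Dmem n.2.2 _ _⟩
  cont := by
    have h1 := continuous_ph (X := ℝ × DP) (-(1 / 6)) (f := fun p => p.1) (by fun_prop)
    apply Continuous.subtype_mk
    fun_prop
  zero n := by
    apply Subtype.ext
    change (ph (-(1 / 6)) 0 * n.1.1, n.1.2) = n.1
    rw [ph_zero, one_mul]
  add x y n := by
    apply Subtype.ext
    change (ph (-(1 / 6)) (x + y) * n.1.1, n.1.2) =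
      (ph (-(1 / 6)) x * (ph (-(1 / 6)) y * n.1.1), n.1.2)
    rw [ph_add, mul_assoc]

theorem Aaff_int (m : ℤ) (n : ℂ × ℂ) : Aaff.act m n = ((-1) ^ m * n.1, om ^ m * n.2) := by
  change (ph (1 / 2) m * n.1, ph (1 / 3) m * n.2) = _
  rw [ph_int, ph_int, ph_half, ph_third]

theorem Ainf_int (m : ℤ) (n : DD) : (Ainf.act m n).1 = ((-om) ^ m * n.1.1, n.1.2) := by
  change (ph (-(1 / 6)) m * n.1.1, n.1.2) = _
  rw [ph_int, ph_sixth]

theorem Adp_int (m : ℤ) (n : DP) : (Adp.act m n).1 = ((-om) ^ m * n.1.1, n.1.2) := by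
  change (ph (-(1 / 6)) m * n.1.1, n.1.2) = _
  rw [ph_int, ph_sixth]

open TData

theorem neg_om_pow3 (m : ℤ) : ((-om) ^ m) ^ 3 = (-1) ^ m := by
  rw [← zpow_natCast, ← zpow_mul, mul_comm, zpow_mul, zpow_natCast]
  congr 1
  rw [neg_pow, om_pow]
  norm_num

theorem neg_om_pow6 (m : ℤ) : ((-om) ^ m) ^ 6 = 1 := by
  have : ((-om) ^ m) ^ 6 = (((-om) ^ m) ^ 3) ^ 2 := by ring
  rw [this, neg_om_pow3, ← zpow_natCast, ← zpow_mul, mul_comm, zpow_mul]
  norm_num

theorem neg_one_zpow_sq (m : ℤ) : (((-1 : ℂ)) ^ m) * (-1) ^ m = 1 := by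
  rw [← mul_zpow]; norm_num

/-! ### affine part -/

/-- the vector of the affine part -/
noncomputable def xaff (z t : ℂ) : Fin 3 → ℂ := ![z, t, 1]

theorem xaff_ne (z t : ℂ) : xaff z t ≠ 0 := by
  intro h
  have := congrFun h 2
  simp [xaff] at this

theorem xaff_eqn (z t : ℂ) : Eqn (xaff z t) (z ^ 2 + t ^ 3) := by
  simp [Eqn, xaff]

/-- lift of the affine coordinates -/
noncomputable def laff (p : Cs × (ℂ × ℂ)) : XH :=
  ⟨(p.1.1, xaff p.2.1 p.2.2, p.2.1 ^ 2 + p.2.2 ^ 3), p.1.2, xaff_ne _ _, xaff_eqn _ _⟩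

theorem continuous_xaff {X : Type} [TopologicalSpace X] {f g : X → ℂ} (hf : Continuous f)
    (hg : Continuous g) : Continuous fun x => xaff (f x) (g x) := by
  refine continuous_pi fun i => ?_
  fin_cases i
  · exact hf
  · exact hg
  · exact continuous_const

theorem continuous_laff : Continuous laff := by
  apply Continuous.subtype_mk
  have := continuous_xaff (X := Cs × (ℂ × ℂ)) (f := fun p => p.2.1) (g := fun p => p.2.2)
    (by fun_prop) (by fun_prop)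
  fun_prop

variable (T : TData)

/-- affine coordinates -/
noncomputable def Raff (p : Cs × (ℂ × ℂ)) : T.XX := T.Qx (laff p)

theorem continuous_Raff : Continuous (Raff T) := T.continuous_Qx.comp continuous_laff

theorem Qx_eq_iff (p p' : XH) : T.Qx p = T.Qx p' ↔ p.1.2.2 = p'.1.2.2 ∧
    ∃ (m : ℤ) (c : ℂ), c ≠ 0 ∧ p'.1.1 = qq ^ m * p.1.1 ∧ p'.1.2.1 = c • tw m p.1.2.1 := by
  rw [← Qm_eq_iff]
  exact Subtype.ext_iff

/-- equivalence of a point of the cone with a point in affine coordinates -/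
theorem Qx_eq_Raff (p : XH) (q : Cs × (ℂ × ℂ)) : T.Qx p = Raff T q ↔ p.1.2.1 2 ≠ 0 ∧
    ∃ m : ℤ, q.1.1 = qq ^ m * p.1.1 ∧ q.2.1 = (-1) ^ m * (p.1.2.1 0 / p.1.2.1 2) ∧
      q.2.2 = om ^ m * (p.1.2.1 1 / p.1.2.1 2) := by
  obtain ⟨⟨u, x, s⟩, hu, hx, he⟩ := p
  obtain ⟨v, z, t⟩ := q
  unfold Raff
  rw [Qx_eq_iff]
  change (s = z ^ 2 + t ^ 3 ∧ ∃ (m : ℤ) (c : ℂ), c ≠ 0 ∧ v.1 = qq ^ m * u ∧
    xaff z t = c • tw m x) ↔ (x 2 ≠ 0 ∧ ∃ m : ℤ, v.1 = qq ^ m * u ∧
      z = (-1) ^ m * (x 0 / x 2) ∧ t = om ^ m * (x 1 / x 2))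
  change x 0 ^ 2 * x 2 + x 1 ^ 3 = s * x 2 ^ 3 at he
  constructor
  · rintro ⟨-, m, c, hc, h1, h2⟩
    have e0 := congrFun h2 0
    have e1 := congrFun h2 1
    have e2 := congrFun h2 2
    simp only [xaff, tw, Pi.smul_apply, smul_eq_mul, chi_zero, chi_one, chi_two, one_zpow, one_mul,
      Matrix.cons_val] at e0 e1 e2
    have h3 : x 2 ≠ 0 := by
      intro h
      rw [h, mul_zero] at e2
      exact one_ne_zero e2
    have hc' : c = (x 2)⁻¹ := eq_inv_of_mul_eq_one_left e2.symm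
    refine ⟨h3, m, h1, ?_, ?_⟩
    · rw [e0, hc']
      ring
    · rw [e1, hc']
      ring
  · rintro ⟨h3, m, h1, h2, h4⟩
    have hm1 : (((-1 : ℂ) ^ m)) ^ 2 = 1 := by rw [pow_two]; exact neg_one_zpow_sq m
    have hm2 : ((om ^ m)) ^ 3 = 1 := by
      rw [← zpow_natCast, ← zpow_mul, mul_comm, zpow_mul, zpow_natCast, om_pow, one_zpow]
    refine ⟨?_, m, (x 2)⁻¹, inv_ne_zero h3, h1, ?_⟩
    · rw [h2, h4, mul_pow, mul_pow, hm1, hm2]
      field_simp
      linear_combination -he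
    · funext i
      simp only [xaff, tw, Pi.smul_apply, smul_eq_mul]
      fin_cases i
      · simp only [Fin.zero_eta, Matrix.cons_val, chi_zero]
        rw [h2]; ring
      · simp only [Fin.mk_one, Matrix.cons_val, chi_one]
        rw [h4]; ring
      · simp only [Fin.reduceFinMk, Matrix.cons_val, chi_two, one_zpow, one_mul]
        rw [inv_mul_cancel₀ h3]

theorem Raff_eq_iff (p p' : Cs × (ℂ × ℂ)) : Raff T p = Raff T p' ↔
    ∃ m : ℤ, p'.1.1 = qq ^ m * p.1.1 ∧ p'.2 = Aaff.act m p.2 := by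
  change T.Qx (laff p) = Raff T p' ↔ _
  rw [Qx_eq_Raff]
  have h2 : (laff p).1.2.1 2 = 1 := rfl
  have h0 : (laff p).1.2.1 0 = p.2.1 := rfl
  have h1 : (laff p).1.2.1 1 = p.2.2 := rfl
  rw [h2, h0, h1, div_one, div_one]
  constructor
  · rintro ⟨-, m, h3, h4, h5⟩
    exact ⟨m, h3, by rw [Aaff_int, ← h4, ← h5]⟩
  · rintro ⟨m, h3, h4⟩
    rw [Aaff_int] at h4
    exact ⟨one_ne_zero, m, h3, by rw [h4], by rw [h4]⟩

/-- continuity of the inverse coordinates -/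
theorem contOn_inv_aff (m : ℤ) : ContinuousOn (fun p : XH =>
    ((⟨qq ^ m * p.1.1, mul_ne_zero (zpow_ne_zero _ qq_ne) p.2.1⟩,
      ((-1) ^ m * (p.1.2.1 0 / p.1.2.1 2), om ^ m * (p.1.2.1 1 / p.1.2.1 2))) : Cs × (ℂ × ℂ)))
    {p : XH | p.1.2.1 2 ≠ 0} := by
  refine ContinuousOn.prodMk ?_ (ContinuousOn.prodMk ?_ ?_)
  · apply Continuous.continuousOn
    apply Continuous.subtype_mk
    fun_prop
  · refine ContinuousOn.mul continuousOn_const (ContinuousOn.div ?_ ?_ fun p hp => hp)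
    · exact Continuous.continuousOn (by fun_prop)
    · exact Continuous.continuousOn (by fun_prop)
  · refine ContinuousOn.mul continuousOn_const (ContinuousOn.div ?_ ?_ fun p hp => hp)
    · exact Continuous.continuousOn (by fun_prop)
    · exact Continuous.continuousOn (by fun_prop)

theorem isOpenMap_Raff : IsOpenMap (Raff T) := by
  intro O hO
  apply T.isOpen_of_preimage
  have h1 : T.Qx ⁻¹' (Raff T '' O) = ⋃ m : ℤ, ({p : XH | p.1.2.1 2 ≠ 0} ∩ (fun p : XH =>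
    ((⟨qq ^ m * p.1.1, mul_ne_zero (zpow_ne_zero _ qq_ne) p.2.1⟩,
      ((-1) ^ m * (p.1.2.1 0 / p.1.2.1 2), om ^ m * (p.1.2.1 1 / p.1.2.1 2))) :
        Cs × (ℂ × ℂ))) ⁻¹' O) := by
    ext p
    simp only [Set.mem_preimage, Set.mem_iUnion, Set.mem_inter_iff]
    constructor
    · rintro ⟨q, hq, hqp⟩
      obtain ⟨h2, m, h3, h4, h5⟩ := (Qx_eq_Raff T p q).1 hqp.symm
      refine ⟨m, h2, ?_⟩
      have : q = ((⟨qq ^ m * p.1.1, mul_ne_zero (zpow_ne_zero _ qq_ne) p.2.1⟩,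
        ((-1) ^ m * (p.1.2.1 0 / p.1.2.1 2), om ^ m * (p.1.2.1 1 / p.1.2.1 2))) :
        Cs × (ℂ × ℂ)) := Prod.ext (Subtype.ext h3) (Prod.ext h4 h5)
      rw [← this]
      exact hq
    · rintro ⟨m, h2, h3⟩
      exact ⟨_, h3, ((Qx_eq_Raff T p _).2 ⟨h2, m, rfl, rfl, rfl⟩).symm⟩
  rw [h1]
  refine isOpen_iUnion fun m => (contOn_inv_aff m).isOpen_inter_preimage ?_ hO
  have : Continuous fun p : XH => p.1.2.1 2 := by fun_prop
  exact isOpen_ne_fun this continuous_const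

theorem mem_range_Raff (p : XH) : T.Qx p ∈ Set.range (Raff T) ↔ p.1.2.1 2 ≠ 0 := by
  constructor
  · rintro ⟨q, hq⟩
    exact ((Qx_eq_Raff T p q).1 hq.symm).1
  · intro h
    refine ⟨(⟨p.1.1, p.2.1⟩, (p.1.2.1 0 / p.1.2.1 2, p.1.2.1 1 / p.1.2.1 2)), ?_⟩
    symm
    rw [Qx_eq_Raff]
    refine ⟨h, 0, ?_, ?_, ?_⟩ <;> simp

end Pool.Agent.N152
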