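import Pool.Agent.N152.Maps

/-! Coordinates at infinity. -/

set_option autoImplicit false

open scoped LinearAlgebra.Projectivization

namespace Pool.Agent.N152

open Pool.Agent.Helper922.HB Pool.Agent.Helper10.Dupin Topology TData

theorem slit_of_lt {y : ℂ} (h : ‖y‖ < 1) : 1 - y ∈ Complex.slitPlane := by
  rw [sub_eq_add_neg]
  exact Complex.mem_slitPlane_of_norm_lt_one (by rwa [norm_neg])

theorem slit_ne {y : ℂ} (h : ‖y‖ < 1) : rt (1 - y) ≠ 0 :=
  rt_ne (Complex.slitPlane_ne_zero (slit_of_lt h))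

/-- the vector at infinity -/
noncomputable def xinf (ρ s : ℂ) : Fin 3 → ℂ := ![1, -(ρ * rt (1 - s * ρ ^ 6)), ρ ^ 3]

theorem xinf_ne (ρ s : ℂ) : xinf ρ s ≠ 0 := by
  intro h
  have := congrFun h 0
  simp [xinf] at this

theorem xinf_eqn (ρ s : ℂ) : Eqn (xinf ρ s) s := by
  simp only [Eqn, xinf, Matrix.cons_val]
  have h := rt_pow (1 - s * ρ ^ 6)
  have e : (-(ρ * rt (1 - s * ρ ^ 6))) ^ 3 = -(ρ ^ 3 * rt (1 - s * ρ ^ 6) ^ 3) := by ring
  rw [e, h]
  ring

/-- lift of the coordinates at infinity -/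
noncomputable def linf (p : Cs × DD) : XH :=
  ⟨(p.1.1, xinf p.2.1.1 p.2.1.2, p.2.1.2), p.1.2, xinf_ne _ _, xinf_eqn _ _⟩

theorem continuous_linf : Continuous linf := by
  apply Continuous.subtype_mk
  refine Continuous.prodMk (by fun_prop) (Continuous.prodMk ?_ (by fun_prop))
  refine continuous_pi fun i => ?_
  have h1 : Continuous fun p : Cs × DD => rt (1 - p.2.1.2 * p.2.1.1 ^ 6) :=
    rt_cont (by fun_prop) fun p => slit_of_lt p.2.2
  fin_cases i
  · exact continuous_const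
  · change Continuous fun p : Cs × DD => -(p.2.1.1 * rt (1 - p.2.1.2 * p.2.1.1 ^ 6))
    fun_prop
  · change Continuous fun p : Cs × DD => p.2.1.1 ^ 3
    fun_prop

variable (T : TData)

/-- coordinates at infinity -/
noncomputable def Rinf (p : Cs × DD) : T.XX := T.Qx (linf p)

theorem continuous_Rinf : Continuous (Rinf T) := T.continuous_Qx.comp continuous_linf

/-- the inverse coordinate -/
noncomputable def rho (x : Fin 3 → ℂ) (s : ℂ) : ℂ :=
  -(x 1 / x 0) / rt (1 - s * (x 2 / x 0) ^ 2)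

theorem rho_pow {x : Fin 3 → ℂ} {s : ℂ} (h0 : x 0 ≠ 0) (he : Eqn x s)
    (hs : ‖s * (x 2 / x 0) ^ 2‖ < 1) : rho x s ^ 3 = x 2 / x 0 := by
  have hne := Complex.slitPlane_ne_zero (slit_of_lt hs)
  unfold Eqn at he
  unfold rho
  rw [div_pow, rt_pow, div_eq_iff hne]
  field_simp
  linear_combination -he

theorem Qx_eq_Rinf (p : XH) (q : Cs × DD) : T.Qx p = Rinf T q ↔
    p.1.2.1 0 ≠ 0 ∧ ‖p.1.2.2 * (p.1.2.1 2 / p.1.2.1 0) ^ 2‖ < 1 ∧ q.2.1.2 = p.1.2.2 ∧
    ∃ m : ℤ, q.1.1 = qq ^ m * p.1.1 ∧ q.2.1.1 = (-om) ^ m * rho p.1.2.1 p.1.2.2 := by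
  obtain ⟨⟨u, x, s⟩, hu, hx, he⟩ := p
  obtain ⟨v, ⟨⟨ρ, s'⟩, hd⟩⟩ := q
  unfold Rinf
  rw [Qx_eq_iff]
  change (s = s' ∧ ∃ (m : ℤ) (c : ℂ), c ≠ 0 ∧ v.1 = qq ^ m * u ∧
    xinf ρ s' = c • tw m x) ↔ (x 0 ≠ 0 ∧ ‖s * (x 2 / x 0) ^ 2‖ < 1 ∧ s' = s ∧
      ∃ m : ℤ, v.1 = qq ^ m * u ∧ ρ = (-om) ^ m * rho x s)
  change Eqn x s at he
  change ‖s' * ρ ^ 6‖ < 1 at hd
  constructor
  · rintro ⟨rfl, m, c, hc, h1, h2⟩
    have e0 := congrFun h2 0
    have e1 := congrFun h2 1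
    have e2 := congrFun h2 2
    simp only [xinf, tw, Pi.smul_apply, smul_eq_mul, chi_zero, chi_one, chi_two, one_zpow, one_mul,
      Matrix.cons_val] at e0 e1 e2
    have h3 : x 0 ≠ 0 := by
      intro h
      rw [h, mul_zero, mul_zero] at e0
      exact one_ne_zero e0
    have hmm := neg_one_zpow_sq m
    have hcx : c = (-1) ^ m * (x 0)⁻¹ := by
      field_simp
      linear_combination c * x 0 * (-hmm) - (-1) ^ m * e0
    have e3 : x 2 / x 0 = (-1) ^ m * ρ ^ 3 := by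
      rw [e2, hcx]
      field_simp
      linear_combination x 2 * (-hmm)
    have e4 : s * (x 2 / x 0) ^ 2 = s * ρ ^ 6 := by
      rw [e3]
      linear_combination s * ρ ^ 6 * hmm
    have hr := slit_ne hd
    refine ⟨h3, by rw [e4]; exact hd, rfl, m, h1, ?_⟩
    unfold rho
    rw [e4]
    have e5 : (-om) ^ m = (-1) ^ m * om ^ m := by
      rw [← mul_zpow]; congr 1; ring
    rw [e5]
    rw [hcx] at e1
    have hom := zpow_ne_zero m om_ne
    generalize rt (1 - s * ρ ^ 6) = r at e1 hr ⊢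
    field_simp
    field_simp at e1
    linear_combination -e1
  · rintro ⟨h3, h4, rfl, m, h1, h2⟩
    have hmm := neg_one_zpow_sq m
    have hm1 : ((-1 : ℂ)) ^ m ≠ 0 := zpow_ne_zero m (by norm_num)
    have h5 := rho_pow h3 he h4
    have h6 : ρ ^ 3 = (-1) ^ m * (x 2 / x 0) := by
      rw [h2, mul_pow, neg_om_pow3, h5]
    have h7 : s' * ρ ^ 6 = s' * (x 2 / x 0) ^ 2 := by
      have : ρ ^ 6 = (ρ ^ 3) ^ 2 := by ring
      rw [this, h6]
      linear_combination s' * (x 2 / x 0) ^ 2 * hmm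
    have hr := slit_ne h4
    refine ⟨rfl, m, (-1) ^ m * (x 0)⁻¹, mul_ne_zero hm1 (inv_ne_zero h3), h1, ?_⟩
    funext i
    simp only [xinf, tw, Pi.smul_apply, smul_eq_mul]
    fin_cases i
    · simp only [Fin.zero_eta, Matrix.cons_val, chi_zero]
      field_simp
      linear_combination -hmm
    · simp only [Fin.mk_one, Matrix.cons_val, chi_one]
      rw [h7, h2]
      unfold rho
      have e5 : (-om) ^ m = (-1) ^ m * om ^ m := by
        rw [← mul_zpow]; congr 1; ring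
      rw [e5]
      generalize rt (1 - s' * (x 2 / x 0) ^ 2) = r at hr ⊢
      field_simp
    · simp only [Fin.reduceFinMk, Matrix.cons_val, chi_two, one_zpow, one_mul]
      rw [h6]
      ring

end Pool.Agent.N152
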