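import Pool.Agent.N152.Maps2

/-! Coordinates at infinity: open map, fibres, range; overlap. -/

set_option autoImplicit false

open scoped LinearAlgebra.Projectivization

namespace Pool.Agent.N152

open Pool.Agent.Helper922.HB Pool.Agent.Helper10.Dupin Topology TData

variable (T : TData)

theorem rho_xinf {ρ s : ℂ} (h : ‖s * ρ ^ 6‖ < 1) : rho (xinf ρ s) s = ρ := by
  unfold rho
  simp only [xinf, Matrix.cons_val, div_one]
  have e : (ρ ^ 3) ^ 2 = ρ ^ 6 := by ring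
  rw [e]
  have hr := slit_ne h
  generalize rt (1 - s * ρ ^ 6) = r at hr ⊢
  field_simp

theorem Rinf_eq_iff (p p' : Cs × DD) : Rinf T p = Rinf T p' ↔
    ∃ m : ℤ, p'.1.1 = qq ^ m * p.1.1 ∧ p'.2 = Ainf.act m p.2 := by
  change T.Qx (linf p) = Rinf T p' ↔ _
  rw [Qx_eq_Rinf]
  have h0 : (linf p).1.2.1 0 = 1 := rfl
  have h2 : (linf p).1.2.1 2 = p.2.1.1 ^ 3 := rfl
  have hs : (linf p).1.2.2 = p.2.1.2 := rfl
  have hr : rho (linf p).1.2.1 (linf p).1.2.2 = p.2.1.1 := rho_xinf p.2.2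
  rw [hr, h0, h2, hs, div_one]
  have e : (p.2.1.1 ^ 3) ^ 2 = p.2.1.1 ^ 6 := by ring
  rw [e]
  constructor
  · rintro ⟨-, -, h3, m, h4, h5⟩
    refine ⟨m, h4, Subtype.ext ?_⟩
    rw [Ainf_int]
    exact Prod.ext h5 h3
  · rintro ⟨m, h4, h5⟩
    have h6 := congrArg Subtype.val h5
    rw [Ainf_int] at h6
    refine ⟨one_ne_zero, p.2.2, ?_, m, h4, ?_⟩
    · rw [h6]
    · rw [h6]

/-- the lift with values in a bigger space -/
noncomputable def linv (m : ℤ) (p : XH) : Cs × (ℂ × ℂ) :=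
  (⟨qq ^ m * p.1.1, mul_ne_zero (zpow_ne_zero _ qq_ne) p.2.1⟩,
    ((-om) ^ m * rho p.1.2.1 p.1.2.2, p.1.2.2))

/-- domain of the inverse coordinates -/
def Winf : Set XH := {p | p.1.2.1 0 ≠ 0 ∧ ‖p.1.2.2 * (p.1.2.1 2 / p.1.2.1 0) ^ 2‖ < 1}

theorem contOn_quot : ContinuousOn (fun p : XH => p.1.2.2 * (p.1.2.1 2 / p.1.2.1 0) ^ 2)
    {p : XH | p.1.2.1 0 ≠ 0} := by
  refine ContinuousOn.mul (Continuous.continuousOn (by fun_prop)) (ContinuousOn.pow
    (ContinuousOn.div (Continuous.continuousOn (by fun_prop)) (Continuous.continuousOn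
      (by fun_prop)) fun p hp => hp) 2)

theorem isOpen_Winf : IsOpen Winf := by
  have h0 : IsOpen {p : XH | p.1.2.1 0 ≠ 0} := by
    have : Continuous fun p : XH => p.1.2.1 0 := by fun_prop
    exact isOpen_ne_fun this continuous_const
  have h1 := contOn_quot.norm.isOpen_inter_preimage h0 (isOpen_Iio (a := (1 : ℝ)))
  exact h1

theorem contOn_rho : ContinuousOn (fun p : XH => rho p.1.2.1 p.1.2.2) Winf := by
  unfold rho
  refine ContinuousOn.div (ContinuousOn.neg (ContinuousOn.div (Continuous.continuousOn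
    (by fun_prop)) (Continuous.continuousOn (by fun_prop)) fun p hp => hp.1)) ?_
    fun p hp => slit_ne hp.2
  intro p hp
  have h1 : ContinuousWithinAt (fun p : XH => 1 - p.1.2.2 * (p.1.2.1 2 / p.1.2.1 0) ^ 2) Winf p :=
    ((continuousOn_const.sub (contOn_quot.mono fun p hp => hp.1)) p hp)
  have h2 : ContinuousAt rt (1 - p.1.2.2 * (p.1.2.1 2 / p.1.2.1 0) ^ 2) :=
    continuousAt_cpow_const (slit_of_lt hp.2)
  exact ContinuousAt.comp_continuousWithinAt (g := rt) h2 h1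

theorem contOn_linv (m : ℤ) : ContinuousOn (linv m) Winf := by
  unfold linv
  refine ContinuousOn.prodMk ?_ (ContinuousOn.prodMk ?_ ?_)
  · apply Continuous.continuousOn
    apply Continuous.subtype_mk
    fun_prop
  · exact continuousOn_const.mul contOn_rho
  · exact Continuous.continuousOn (by fun_prop)

theorem isOpenMap_Rinf : IsOpenMap (Rinf T) := by
  intro O hO
  apply T.isOpen_of_preimage
  -- `O` comes from the bigger space
  have hind : IsInducing (fun p : Cs × DD => ((p.1, p.2.1) : Cs × (ℂ × ℂ))) :=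
    IsInducing.id.prodMap IsInducing.subtypeVal
  obtain ⟨O', hO', rfl⟩ := hind.isOpen_iff.1 hO
  have h1 : T.Qx ⁻¹' (Rinf T '' ((fun p : Cs × DD => ((p.1, p.2.1) : Cs × (ℂ × ℂ))) ⁻¹' O')) =
      ⋃ m : ℤ, (Winf ∩ linv m ⁻¹' O') := by
    ext p
    simp only [Set.mem_preimage, Set.mem_iUnion, Set.mem_inter_iff]
    constructor
    · rintro ⟨q, hq, hqp⟩
      obtain ⟨h2, h3, h4, m, h5, h6⟩ := (Qx_eq_Rinf T p q).1 hqp.symm
      refine ⟨m, ⟨h2, h3⟩, ?_⟩
      have : linv m p = (q.1, q.2.1) :=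
        Prod.ext (Subtype.ext h5.symm) (Prod.ext h6.symm h4.symm)
      rw [this]
      exact hq
    · rintro ⟨m, h2, h3⟩
      have h4 : ‖p.1.2.2 * ((-om) ^ m * rho p.1.2.1 p.1.2.2) ^ 6‖ < 1 := by
        have h5 := rho_pow h2.1 p.2.2.2 h2.2
        have e : ((-om) ^ m * rho p.1.2.1 p.1.2.2) ^ 6 = (p.1.2.1 2 / p.1.2.1 0) ^ 2 := by
          rw [mul_pow, neg_om_pow6, one_mul, ← h5]
          ring
        rw [e]
        exact h2.2
      exact ⟨(⟨qq ^ m * p.1.1, mul_ne_zero (zpow_ne_zero _ qq_ne) p.2.1⟩,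
        ⟨((-om) ^ m * rho p.1.2.1 p.1.2.2, p.1.2.2), h4⟩), h3,
        ((Qx_eq_Rinf T p _).2 ⟨h2.1, h2.2, rfl, m, rfl, rfl⟩).symm⟩
  rw [h1]
  exact isOpen_iUnion fun m => (contOn_linv m).isOpen_inter_preimage isOpen_Winf hO'

theorem mem_range_Rinf (p : XH) : T.Qx p ∈ Set.range (Rinf T) ↔ p ∈ Winf := by
  constructor
  · rintro ⟨q, hq⟩
    obtain ⟨h2, h3, -⟩ := (Qx_eq_Rinf T p q).1 hq.symm
    exact ⟨h2, h3⟩
  · intro h2
    have h5 := rho_pow h2.1 p.2.2.2 h2.2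
    have h4 : ‖p.1.2.2 * (rho p.1.2.1 p.1.2.2) ^ 6‖ < 1 := by
      have e : (rho p.1.2.1 p.1.2.2) ^ 6 = (p.1.2.1 2 / p.1.2.1 0) ^ 2 := by
        rw [← h5]
        ring
      rw [e]
      exact h2.2
    refine ⟨(⟨p.1.1, p.2.1⟩, ⟨(rho p.1.2.1 p.1.2.2, p.1.2.2), h4⟩), ?_⟩
    symm
    rw [Qx_eq_Rinf]
    refine ⟨h2.1, h2.2, rfl, 0, ?_, ?_⟩ <;> simp

/-- the two charts cover -/
theorem cover (y : T.XX) : y ∈ Set.range (Raff T) ∨ y ∈ Set.range (Rinf T) := by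
  obtain ⟨_, p, rfl⟩ := y
  change T.Qx p ∈ _ ∨ T.Qx p ∈ _
  rw [mem_range_Raff, mem_range_Rinf]
  by_cases h : p.1.2.1 2 = 0
  · right
    have he : p.1.2.1 0 ^ 2 * p.1.2.1 2 + p.1.2.1 1 ^ 3 = p.1.2.2 * p.1.2.1 2 ^ 3 := p.2.2.2
    have h1 : p.1.2.1 1 = 0 := by
      rw [h] at he
      have : p.1.2.1 1 ^ 3 = 0 := by linear_combination he
      exact pow_eq_zero_iff (by norm_num) |>.1 this
    refine ⟨?_, ?_⟩
    · intro h0
      apply p.2.2.1
      funext i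
      fin_cases i
      · exact h0
      · exact h1
      · exact h
    · rw [h]; simp
  · left; exact h

/-- inclusion of the punctured disc bundle -/
def iDP (p : DP) : DD := ⟨p.1, p.2.2⟩

theorem continuous_iDP : Continuous iDP := by
  apply Continuous.subtype_mk; fun_prop

theorem isOpenMap_iDP : IsOpenMap iDP := by
  intro O hO
  obtain ⟨O', hO', rfl⟩ := isOpen_induced_iff.1 hO
  have h1 : iDP '' (Subtype.val ⁻¹' O') = {d : DD | d.1.1 ≠ 0} ∩ Subtype.val ⁻¹' O' := by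
    ext d
    constructor
    · rintro ⟨p, hp, rfl⟩
      exact ⟨p.2.1, hp⟩
    · rintro ⟨h2, h3⟩
      exact ⟨⟨d.1, h2, d.2⟩, h3, rfl⟩
  rw [h1]
  have h2 : IsOpen {d : DD | d.1.1 ≠ 0} := by
    have : Continuous fun d : DD => d.1.1 := by fun_prop
    exact isOpen_ne_fun this continuous_const
  exact h2.inter (hO'.preimage continuous_subtype_val)

/-- coordinates on the overlap -/
noncomputable def Rdp (p : Cs × DP) : T.XX := Rinf T (p.1, iDP p.2)

theorem continuous_Rdp : Continuous (Rdp T) := by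
  have := continuous_iDP
  exact (continuous_Rinf T).comp (by fun_prop)

theorem isOpenMap_Rdp : IsOpenMap (Rdp T) :=
  (isOpenMap_Rinf T).comp (IsOpenMap.id.prodMap isOpenMap_iDP)

theorem Rdp_eq_iff (p p' : Cs × DP) : Rdp T p = Rdp T p' ↔
    ∃ m : ℤ, p'.1.1 = qq ^ m * p.1.1 ∧ p'.2 = Adp.act m p.2 := by
  unfold Rdp
  rw [Rinf_eq_iff]
  constructor
  · rintro ⟨m, h1, h2⟩
    refine ⟨m, h1, Subtype.ext ?_⟩
    have h3 := congrArg (fun d : DD => d.1) h2
    exact h3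
  · rintro ⟨m, h1, h2⟩
    refine ⟨m, h1, Subtype.ext ?_⟩
    have h3 := congrArg (fun d : DP => d.1) h2
    exact h3

theorem range_Rdp : Set.range (Rdp T) = Set.range (Raff T) ∩ Set.range (Rinf T) := by
  ext y
  constructor
  · rintro ⟨p, rfl⟩
    refine ⟨?_, _, rfl⟩
    change T.Qx (linf (p.1, iDP p.2)) ∈ _
    rw [mem_range_Raff]
    exact pow_ne_zero 3 p.2.2.1
  · rintro ⟨h1, q, rfl⟩
    change T.Qx (linf q) ∈ _ at h1
    rw [mem_range_Raff] at h1
    have h2 : q.2.1.1 ≠ 0 := by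
      intro h
      apply h1
      change q.2.1.1 ^ 3 = 0
      rw [h]; ring
    exact ⟨(q.1, ⟨q.2.1, h2, q.2.2⟩), rfl⟩

end Pool.Agent.N152
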