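import Pool.Agent.N152.Tref2

/-! Homology equivalences for the local models. -/

set_option autoImplicit false

namespace Pool.Agent.N152

open Pool.Agent.Helper922.HB Pool.Agent.Helper10.Dupin

/-- subset of a product given by a subset of the second factor -/
def prodSnd {C M : Type} [TopologicalSpace C] [TopologicalSpace M] (S : Set M) :
    {m : C × M // m.2 ∈ S} ≃ₜ C × S where
  toFun p := (p.1.1, ⟨p.1.2, p.2⟩)
  invFun p := ⟨(p.1, p.2.1), p.2.2⟩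
  left_inv _ := rfl
  right_inv _ := rfl
  continuous_toFun := by fun_prop
  continuous_invFun := by fun_prop

theorem HE_sub_prod {C M : Type} [TopologicalSpace C] [TopologicalSpace M] (hC : PrHE C)
    (S : Set M) (h : HE (sub S)) : HE (sub {m : C × M | m.2 ∈ S}) :=
  HE_conj (prodSnd S) (Homeomorph.refl _) _ _ (fun _ => rfl) (hC S M _ h)

theorem HE_unit {X : Type} [TopologicalSpace X] (hX : Contr X) :
    HE (ContinuousMap.const X ()) := by
  obtain ⟨x0, H, h0, h1⟩ := hX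
  exact HE_of_homotopyEquiv _ (ContinuousMap.const _ x0) H
    ⟨fun q => q.1, by fun_prop⟩ h0 (fun x => h1 x) (fun _ => rfl) (fun _ => rfl)

/-- a map between contractible spaces -/
theorem HE_contr {X Y : Type} [TopologicalSpace X] [TopologicalSpace Y] (hX : Contr X)
    (hY : Contr Y) (f : C(X, Y)) : HE f :=
  HE.of_comp_left (HE_unit hY) (by exact HE_unit hX)

/-! ### the model at infinity -/

/-- the disc bundle at infinity -/
abbrev DD : Type := {p : ℂ × ℂ // ‖p.2 * p.1 ^ 6‖ < 1}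

/-- the punctured disc bundle at infinity -/
abbrev DP : Type := {p : ℂ × ℂ // p.1 ≠ 0 ∧ ‖p.2 * p.1 ^ 6‖ < 1}

theorem scale_lt {ρ s : ℂ} (h : ‖s * ρ ^ 6‖ < 1) {a b : ℝ} (ha : 0 ≤ a) (ha1 : a ≤ 1)
    (hb : 0 ≤ b) (hb1 : b ≤ 1) : ‖((b : ℂ) * s) * ((a : ℂ) * ρ) ^ 6‖ < 1 := by
  have e : ((b : ℂ) * s) * ((a : ℂ) * ρ) ^ 6 = ((b * a ^ 6 : ℝ) : ℂ) * (s * ρ ^ 6) := by
    push_cast; ring
  rw [e, norm_mul, Complex.norm_real, Real.norm_of_nonneg (by positivity)]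
  have h1 : b * a ^ 6 ≤ 1 := mul_le_one₀ hb1 (by positivity) (pow_le_one₀ ha ha1)
  have h2 : 0 ≤ b * a ^ 6 := by positivity
  nlinarith [norm_nonneg (s * ρ ^ 6)]

theorem contr_DD : Contr DD := by
  refine ⟨⟨(0, 0), by simp⟩, ⟨fun q => ⟨(((1 - (q.2 : ℝ) : ℝ) : ℂ) * q.1.1.1,
    ((1 - (q.2 : ℝ) : ℝ) : ℂ) * q.1.1.2), ?_⟩, ?_⟩, ?_, ?_⟩
  · have h0 := q.2.2.1
    have h1 := q.2.2.2
    exact scale_lt q.1.2 (by linarith) (by linarith) (by linarith) (by linarith)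
  · apply Continuous.subtype_mk
    fun_prop
  · intro x
    apply Subtype.ext
    simp
  · intro x
    apply Subtype.ext
    simp

theorem contr_DDs (s0 : ℂ) : Contr ↥({d : DD | d.1.2 = s0} : Set DD) := by
  refine ⟨⟨⟨(0, s0), by simp⟩, rfl⟩, ⟨fun q => ⟨⟨(((1 - (q.2 : ℝ) : ℝ) : ℂ) * q.1.1.1.1,
    q.1.1.1.2), ?_⟩, q.1.2⟩, ?_⟩, ?_, ?_⟩
  · have h0 := q.2.2.1
    have h1 := q.2.2.2
    have := scale_lt (b := 1) q.1.1.2 (a := 1 - (q.2 : ℝ)) (by linarith) (by linarith)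
      (by norm_num) le_rfl
    simpa using this
  · apply Continuous.subtype_mk
    apply Continuous.subtype_mk
    fun_prop
  · intro x
    apply Subtype.ext
    apply Subtype.ext
    simp
  · intro x
    apply Subtype.ext
    apply Subtype.ext
    have h : x.1.1.2 = s0 := x.2
    simp [h]

theorem he_DD (s0 : ℂ) : HE (sub {d : DD | d.1.2 = s0}) := HE_contr (contr_DDs s0) contr_DD _

/-- first coordinate -/
noncomputable def dpr : C(DP, Cs) := ⟨fun p => ⟨p.1.1, p.2.1⟩, by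
  apply Continuous.subtype_mk; fun_prop⟩

theorem he_dpr : HE dpr := by
  refine HE_of_homotopyEquiv dpr ⟨fun z => ⟨(z.1, 0), z.2, by simp⟩, ?_⟩
    ⟨fun q => ⟨(q.1.1.1, ((1 - (q.2 : ℝ) : ℝ) : ℂ) * q.1.1.2), q.1.2.1, ?_⟩, ?_⟩
    ⟨fun q => q.1, by fun_prop⟩ ?_ ?_ ?_ ?_
  · apply Continuous.subtype_mk; fun_prop
  · have h0 := q.2.2.1
    have h1 := q.2.2.2
    have := scale_lt (a := 1) q.1.2.2 (b := 1 - (q.2 : ℝ)) (by norm_num) le_rfl (by linarith)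
      (by linarith)
    simpa using this
  · apply Continuous.subtype_mk
    fun_prop
  · intro x
    apply Subtype.ext
    simp
  · intro x
    apply Subtype.ext
    simp [dpr]
  · intro z; rfl
  · intro z; rfl

/-- scaling factor -/
noncomputable def scf (c : ℝ) (l : ℝ) (ρ : ℂ) : ℝ := (1 + l * c * ‖ρ‖)⁻¹

theorem scf_pos {c l : ℝ} (hc : 0 ≤ c) (hl : 0 ≤ l) (ρ : ℂ) : 0 < scf c l ρ := by
  unfold scf
  positivity

theorem scf_le {c l : ℝ} (hc : 0 ≤ c) (hl : 0 ≤ l) (ρ : ℂ) : scf c l ρ ≤ 1 := by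
  unfold scf
  apply inv_le_one_of_one_le₀
  have : 0 ≤ l * c * ‖ρ‖ := by positivity
  linarith

theorem scf_lt {s0 : ℂ} (ρ : ℂ) :
    ‖s0 * ((scf (1 + ‖s0‖) 1 ρ : ℂ) * ρ) ^ 6‖ < 1 := by
  have hc : 0 < 1 + ‖s0‖ := by positivity
  have h1 : ‖((scf (1 + ‖s0‖) 1 ρ : ℂ) * ρ)‖ * (1 + ‖s0‖) < 1 := by
    rw [norm_mul, Complex.norm_real, Real.norm_of_nonneg (scf_pos hc.le zero_le_one ρ).le]
    unfold scf
    rw [one_mul, inv_mul_eq_div, div_mul_eq_mul_div, div_lt_one (by positivity)]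
    nlinarith [norm_nonneg ρ]
  rw [norm_mul, norm_pow]
  have h2 : 0 ≤ ‖((scf (1 + ‖s0‖) 1 ρ : ℂ) * ρ)‖ := norm_nonneg _
  generalize ‖((scf (1 + ‖s0‖) 1 ρ : ℂ) * ρ)‖ = x at h1 h2
  have h3 : 0 ≤ ‖s0‖ := norm_nonneg _
  generalize ‖s0‖ = y at h1 h3
  have h4 : x < 1 := by nlinarith
  have h5 : x ^ 6 ≤ x := by
    calc x ^ 6 ≤ x ^ 1 := pow_le_pow_of_le_one h2 h4.le (by norm_num)
      _ = x := pow_one x
  nlinarith

/-- first coordinate on a slice -/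
noncomputable def dprs (s0 : ℂ) : C(↥({d : DP | d.1.2 = s0} : Set DP), Cs) :=
  dpr.comp (sub {d : DP | d.1.2 = s0})

theorem he_dprs (s0 : ℂ) : HE (dprs s0) := by
  have hc : 0 ≤ 1 + ‖s0‖ := by positivity
  have scf_cont : ∀ {X : Type} [TopologicalSpace X] (l : X → ℝ) (ρ : X → ℂ), Continuous l →
      Continuous ρ → (∀ x, 0 ≤ l x) → Continuous fun x => ((scf (1 + ‖s0‖) (l x) (ρ x) : ℝ) : ℂ) := by
    intro X _ l ρ hl hρ h0
    apply Complex.continuous_ofReal.comp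
    unfold scf
    apply Continuous.inv₀
    · fun_prop
    · intro x
      have := h0 x
      positivity
  refine HE_of_homotopyEquiv (dprs s0)
    ⟨fun z => ⟨⟨((scf (1 + ‖s0‖) 1 z.1 : ℂ) * z.1, s0),
      mul_ne_zero (by exact_mod_cast (scf_pos hc zero_le_one _).ne') z.2, scf_lt z.1⟩, rfl⟩, ?_⟩
    ⟨fun q => ⟨⟨((scf (1 + ‖s0‖) (q.2 : ℝ) q.1.1.1.1 : ℂ) * q.1.1.1.1, q.1.1.1.2),
      mul_ne_zero (by exact_mod_cast (scf_pos hc q.2.2.1 _).ne') q.1.1.2.1, ?_⟩, q.1.2⟩, ?_⟩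
    ⟨fun q => ⟨(scf (1 + ‖s0‖) (q.2 : ℝ) q.1.1 : ℂ) * q.1.1,
      mul_ne_zero (by exact_mod_cast (scf_pos hc q.2.2.1 _).ne') q.1.2⟩, ?_⟩ ?_ ?_ ?_ ?_
  · apply Continuous.subtype_mk
    apply Continuous.subtype_mk
    refine Continuous.prodMk (Continuous.mul ?_ (by fun_prop)) (by fun_prop)
    exact scf_cont (fun _ => 1) _ (by fun_prop) (by fun_prop) (fun _ => zero_le_one)
  · have := scale_lt (b := 1) q.1.1.2.2 (a := scf (1 + ‖s0‖) (q.2 : ℝ) q.1.1.1.1)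
      (scf_pos hc q.2.2.1 _).le (scf_le hc q.2.2.1 _) (by norm_num) le_rfl
    simpa using this
  · apply Continuous.subtype_mk
    apply Continuous.subtype_mk
    refine Continuous.prodMk (Continuous.mul ?_ (by fun_prop)) (by fun_prop)
    exact scf_cont (fun q : _ × unitInterval => (q.2 : ℝ)) _ (by fun_prop) (by fun_prop)
      (fun q => q.2.2.1)
  · apply Continuous.subtype_mk
    refine Continuous.mul ?_ (by fun_prop)
    exact scf_cont (fun q : _ × unitInterval => (q.2 : ℝ)) _ (by fun_prop) (by fun_prop)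
      (fun q => q.2.2.1)
  · intro x
    apply Subtype.ext
    apply Subtype.ext
    simp [scf]
  · intro x
    apply Subtype.ext
    apply Subtype.ext
    have h : x.1.1.2 = s0 := x.2
    simp [scf, dprs, dpr, sub, h]
  · intro x
    apply Subtype.ext
    simp [scf]
  · intro x
    apply Subtype.ext
    simp [scf, dprs, dpr, sub]

theorem he_DP (s0 : ℂ) : HE (sub {d : DP | d.1.2 = s0}) :=
  HE.of_comp_left he_dpr (he_dprs s0)

/-! ### the affine model -/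


/-- the base parameter on the affine part -/
noncomputable def sg (m : S1 × (ℂ × ℂ)) : ℂ := m.1.1 * (m.2.1 ^ 2 + m.2.2 ^ 3)

theorem contr_CC : Contr (ℂ × ℂ) := by
  refine ⟨(0, 0), ⟨fun q => ((1 - (q.2 : ℝ) : ℝ) : ℂ) • q.1, by fun_prop⟩, ?_, ?_⟩
  · intro x
    simp
  · intro x
    simp only [ContinuousMap.coe_mk, Set.Icc.coe_one, sub_self, Complex.ofReal_zero, zero_smul]
    rfl

theorem he_fst_aff : HE (ContinuousMap.fst : C(S1 × (ℂ × ℂ), S1)) := by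
  have h := HE_snd (X := S1) contr_CC
  have e : (ContinuousMap.fst : C(S1 × (ℂ × ℂ), S1)) =
      (ContinuousMap.snd : C((ℂ × ℂ) × S1, S1)).comp
        ⟨Homeomorph.prodComm S1 (ℂ × ℂ), (Homeomorph.prodComm S1 (ℂ × ℂ)).continuous⟩ := rfl
  rw [e]
  exact HE.comp h (HE_of_homeo (Homeomorph.prodComm S1 (ℂ × ℂ)) _ fun _ => rfl)

/-- projection of the affine part of the fibre to the circle -/
noncomputable def fa (s0 : ℂ) : C(↥({m | sg m = s0} : Set (S1 × (ℂ × ℂ))), S1) :=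
  ContinuousMap.fst.comp (sub {m | sg m = s0})

theorem he_fa_zero : HE (fa 0) := by
  refine HE_of_homotopyEquiv (fa 0)
    ⟨fun b => ⟨(b, (0, 0)), by simp [sg]⟩, ?_⟩
    ⟨fun q => ⟨(q.1.1.1, (((1 - (q.2 : ℝ) : ℝ) : ℂ) ^ 3 * q.1.1.2.1,
      ((1 - (q.2 : ℝ) : ℝ) : ℂ) ^ 2 * q.1.1.2.2)), ?_⟩, ?_⟩
    ⟨fun q => q.1, by fun_prop⟩ ?_ ?_ ?_ ?_
  · apply Continuous.subtype_mk; fun_prop
  · have h : q.1.1.1.1 * (q.1.1.2.1 ^ 2 + q.1.1.2.2 ^ 3) = 0 := q.1.2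
    show q.1.1.1.1 * ((((1 - (q.2 : ℝ) : ℝ) : ℂ) ^ 3 * q.1.1.2.1) ^ 2 +
      (((1 - (q.2 : ℝ) : ℝ) : ℂ) ^ 2 * q.1.1.2.2) ^ 3) = 0
    linear_combination ((1 - (q.2 : ℝ) : ℝ) : ℂ) ^ 6 * h
  · apply Continuous.subtype_mk
    fun_prop
  · intro x
    apply Subtype.ext
    simp
  · intro x
    apply Subtype.ext
    simp [fa, sub]
  · intro z; rfl
  · intro z; rfl

end Pool.Agent.N152
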