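import Pool.Agent.N208.BT.Stm6

set_option autoImplicit false

/-!
# The decomposition of the real Lie algebra given by an ideal (NC/D)
-/

open Module Matrix

noncomputable section

namespace Pool.Agent.N152.NCD

open Pool.Agent.Y102 Pool.Agent.W516.DR Pool.Agent.H204R3.GP Pool.Agent.W516.KC
  Pool.Agent.H204R3.SP Pool.Agent.TH119.MX Pool.Agent.R917 Pool.Agent.N208.AM Pool.Agent.N208.AD
  Pool.Agent.N208.BT

variable {g : ℕ} {A : AbVar g}

theorem tr_brE (Z Y W : Module.End ℝ (Fin g → ℂ)) :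
    LinearMap.trace ℝ (Fin g → ℂ) ((Z * Y - Y * Z) * W) =
      -LinearMap.trace ℝ (Fin g → ℂ) (Y * (Z * W - W * Z)) := by
  rw [sub_mul, mul_sub, map_sub, map_sub, mul_assoc Z Y W, mul_assoc Y Z W,
    LinearMap.trace_mul_comm ℝ Z (Y * W), mul_assoc Y W Z, neg_sub]

/-- the trace form is not degenerate on ideals -/
theorem nondeg {𝔫 : Submodule ℝ (Module.End ℝ (Fin g → ℂ))} (hn : IdE A 𝔫)
    {Y : Module.End ℝ (Fin g → ℂ)} (hY : Y ∈ 𝔫)
    (htr : ∀ Z ∈ 𝔫, LinearMap.trace ℝ (Fin g → ℂ) (Y * Z) = 0) : Y = 0 := by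
  by_contra hne
  have h1 := tr_adj_pos (adj_spE (hn.le Y hY)) hne
  have h2 : -th Y ∈ 𝔫 := 𝔫.neg_mem (th_mem (A := A) (fun x hx y hy => hn.br y hy x hx) hY)
  rw [htr _ h2] at h1
  exact lt_irrefl _ h1

theorem perp_IdE {𝔫 : Submodule ℝ (Module.End ℝ (Fin g → ℂ))} (hn : IdE A 𝔫) :
    IdE A (perpE A 𝔫) := by
  refine ⟨fun Y hY => hY.1, fun Y hY Z hZ => ⟨?_, fun W hW => ?_⟩⟩
  · exact spE_br (fun X hX Y hY => A.NA_bracket hX hY) Z hZ Y hY.1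
  · rw [tr_brE, hY.2 _ (hn.br W hW Z hZ), neg_zero]

theorem main : Pool.Agent.N208.BT.S_NCD := by
  intro g A 𝔫 hn
  have hs := perp_IdE hn
  have hdis : ∀ Y ∈ 𝔫, Y ∈ perpE A 𝔫 → Y = 0 := fun Y hY hYs => nondeg hn hY hYs.2
  refine ⟨hs, fun Y hY Z hZ => ?_, hdis, fun Y hY => ?_⟩
  · have h1 : Z * Y - Y * Z ∈ 𝔫 := hn.br Y hY Z (hs.le Z hZ)
    have h2 : Y * Z - Z * Y ∈ perpE A 𝔫 := hs.br Z hZ Y (hn.le Y hY)
    have h3 : Y * Z - Z * Y ∈ 𝔫 := by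
      have := 𝔫.neg_mem h1
      rwa [neg_sub] at this
    exact sub_eq_zero.1 (hdis _ h3 h2)
  · let f : 𝔫 →ₗ[ℝ] Module.Dual ℝ 𝔫 := LinearMap.mk₂ ℝ
      (fun K Z : 𝔫 => LinearMap.trace ℝ (Fin g → ℂ) (K.1 * Z.1))
      (fun a b c => by rw [Submodule.coe_add, add_mul, map_add])
      (fun c a b => by rw [Submodule.coe_smul, smul_mul_assoc, map_smul])
      (fun a b c => by rw [Submodule.coe_add, mul_add, map_add])
      (fun c a b => by rw [Submodule.coe_smul, mul_smul_comm, map_smul])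
    have hinj : Function.Injective f := by
      rw [injective_iff_map_eq_zero]
      intro K hK
      refine Subtype.ext (nondeg hn K.2 fun Z hZ => ?_)
      exact congrArg (fun F : Module.Dual ℝ 𝔫 => F ⟨Z, hZ⟩) hK
    have hfr : Module.finrank ℝ 𝔫 = Module.finrank ℝ (Module.Dual ℝ 𝔫) :=
      (Subspace.dual_finrank_eq (K := ℝ) (V := 𝔫)).symm
    have hsur : Function.Surjective f :=
      (@LinearMap.injective_iff_surjective_of_finrank_eq_finrank ℝ 𝔫 _ _ _ (Module.Dual ℝ 𝔫)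
        _ _ _ _ hfr f).1 hinj
    let φ : Module.Dual ℝ 𝔫 :=
      ((LinearMap.trace ℝ (Fin g → ℂ)).comp (LinearMap.mulLeft ℝ Y)).comp 𝔫.subtype
    obtain ⟨K, hK⟩ := hsur φ
    refine ⟨K.1, K.2, Y - K.1, ⟨Submodule.sub_mem _ hY (hn.le _ K.2), fun Z hZ => ?_⟩, by abel⟩
    have h1 : LinearMap.trace ℝ (Fin g → ℂ) (K.1 * Z) =
        LinearMap.trace ℝ (Fin g → ℂ) (Y * Z) :=
      congrArg (fun F : Module.Dual ℝ 𝔫 => F ⟨Z, hZ⟩) hK
    rw [sub_mul, map_sub, h1, sub_self]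

end Pool.Agent.N152.NCD
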