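import Pool.Agent.N152.Maps3

/-! Local parametrisations of `X`. -/

set_option autoImplicit false

open scoped LinearAlgebra.Projectivization

namespace Pool.Agent.N152

open Pool.Agent.Helper922.HB Pool.Agent.Helper10.Dupin Topology TData

variable (T : TData)

theorem hasFDerivAt_Ph (x : (Fin 3 → ℂ) → (Fin 3 → ℂ)) (x' : (Fin 3 → ℂ) →L[ℂ] (Fin 3 → ℂ))
    (v : Fin 3 → ℂ) (hv : v 0 ≠ 0) (hx : HasFDerivAt x x' v) :
    HasFDerivAt (fun v => T.Ph (v 0) (x v)) (ContinuousLinearMap.pi fun i : T.Idx =>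
      (T.F i.1 (v 0) i.2) • ((ContinuousLinearMap.proj i.1).comp x') +
      (x v i.1) • ((deriv (T.F i.1) (v 0) i.2) •
        (ContinuousLinearMap.proj 0 : (Fin 3 → ℂ) →L[ℂ] ℂ))) v := by
  rw [hasFDerivAt_pi]
  intro i
  have h1 : HasFDerivAt (fun v : Fin 3 → ℂ => x v i.1) ((ContinuousLinearMap.proj i.1).comp x') v :=
    (ContinuousLinearMap.proj (R := ℂ) (φ := fun _ : Fin 3 => ℂ) i.1).hasFDerivAt.comp v hx
  have h2 : HasDerivAt (T.F i.1) (deriv (T.F i.1) (v 0)) (v 0) :=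
    ((T.diff i.1).differentiableAt (isOpen_ne.mem_nhds hv)).hasDerivAt
  have h3 : HasDerivAt (fun u => T.F i.1 u i.2) (deriv (T.F i.1) (v 0) i.2) (v 0) :=
    (hasDerivAt_pi.1 h2) i.2
  have h4 : HasFDerivAt (fun v : Fin 3 → ℂ => T.F i.1 (v 0) i.2)
      ((deriv (T.F i.1) (v 0) i.2) • (ContinuousLinearMap.proj 0 : (Fin 3 → ℂ) →L[ℂ] ℂ)) v := by
    have h5 : HasFDerivAt (fun v : Fin 3 → ℂ => v 0)
        (ContinuousLinearMap.proj 0 : (Fin 3 → ℂ) →L[ℂ] ℂ) v :=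
      (ContinuousLinearMap.proj (R := ℂ) (φ := fun _ : Fin 3 => ℂ) 0).hasFDerivAt
    exact h3.comp_hasFDerivAt v h5
  exact h4.mul h1

theorem Ph_immersion (x : (Fin 3 → ℂ) → (Fin 3 → ℂ)) (x' : (Fin 3 → ℂ) →L[ℂ] (Fin 3 → ℂ))
    (v : Fin 3 → ℂ) (hv : v 0 ≠ 0) (hx : HasFDerivAt x x' v) (h : Fin 3 → ℂ) (c : ℂ)
    (hc : fderiv ℂ (fun v => T.Ph (v 0) (x v)) v h = c • T.Ph (v 0) (x v)) :
    ∀ k, x v k * h 0 = 0 ∧ x' h k = c * x v k := by
  intro k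
  rw [(hasFDerivAt_Ph T x x' v hv hx).fderiv] at hc
  have h1 : ∀ j, T.F k (v 0) j * (x' h k) + x v k * (deriv (T.F k) (v 0) j * h 0) =
      c * (T.F k (v 0) j * x v k) := by
    intro j
    have := congrFun hc ⟨k, j⟩
    simpa [Ph] using this
  have h2 : x v k * h 0 = 0 := by
    by_contra hne
    apply T.imm k (v 0) hv ((c * x v k - x' h k) / (x v k * h 0))
    funext j
    simp only [Pi.smul_apply, smul_eq_mul]
    have h3 := mul_ne_zero_iff.1 hne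
    obtain ⟨h4, h5⟩ := h3
    field_simp
    linear_combination h1 j
  refine ⟨h2, ?_⟩
  obtain ⟨j, hj⟩ := Function.ne_iff.1 (T.ne k (v 0) hv)
  change T.F k (v 0) j ≠ 0 at hj
  have h3 := h1 j
  have h4 : T.F k (v 0) j * (x' h k - c * x v k) = 0 := by
    linear_combination h3 - deriv (T.F k) (v 0) j * h2
  exact sub_eq_zero.1 ((mul_eq_zero.1 h4).resolve_left hj)

/-- the disc around `u0` -/
def dsc (u0 : ℂ) : Set ℂ := {u | ‖u - u0‖ < ‖u0‖ / 4}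

theorem isOpen_dsc (u0 : ℂ) : IsOpen (dsc u0) := isOpen_lt (by fun_prop) (by fun_prop)

theorem dsc_bd {u0 u : ℂ} (hu : u ∈ dsc u0) : 3 / 4 * ‖u0‖ < ‖u‖ ∧ ‖u‖ < 5 / 4 * ‖u0‖ := by
  have h : ‖u - u0‖ < ‖u0‖ / 4 := hu
  have h1 := norm_sub_norm_le u0 u
  have h2 := norm_sub_norm_le u u0
  rw [norm_sub_rev] at h1
  constructor <;> linarith

theorem dsc_ne {u0 u : ℂ} (hu0 : u0 ≠ 0) (hu : u ∈ dsc u0) : u ≠ 0 := by
  have h1 := (dsc_bd hu).1
  have h2 := norm_pos_iff.2 hu0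
  intro h
  rw [h, norm_zero] at h1
  linarith

theorem dsc_int {u0 u u' : ℂ} (hu0 : u0 ≠ 0) (hu : u ∈ dsc u0) (hu' : u' ∈ dsc u0) {m : ℤ}
    (h : u' = qq ^ m * u) : m = 0 := by
  have h1 := dsc_bd hu
  have h2 := dsc_bd hu'
  have h3 := norm_pos_iff.2 hu0
  have h4 := congrArg norm h
  rw [norm_mul, norm_zpow, norm_qq] at h4
  by_contra hm
  rcases lt_or_gt_of_ne hm with h5 | h5
  · have h6 : (2 : ℝ) ≤ (1 / 2 : ℝ) ^ m := by
      have h7 : (1 / 2 : ℝ) ^ m = 2 ^ (-m) := by rw [one_div, inv_zpow']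
      rw [h7]
      calc (2 : ℝ) = 2 ^ (1 : ℤ) := by norm_num
        _ ≤ 2 ^ (-m) := zpow_le_zpow_right₀ (by norm_num) (by omega)
    nlinarith
  · have h6 : (1 / 2 : ℝ) ^ m ≤ 1 / 2 := by
      have h7 : (1 / 2 : ℝ) ^ m = (2 ^ m)⁻¹ := by rw [one_div, inv_zpow]
      rw [h7, one_div]
      apply inv_anti₀ (by norm_num)
      calc (2 : ℝ) = 2 ^ (1 : ℤ) := by norm_num
        _ ≤ 2 ^ m := zpow_le_zpow_right₀ (by norm_num) (by omega)
    have h8 : 0 < (1 / 2 : ℝ) ^ m := by positivity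
    nlinarith

/-- the affine domain -/
def Vaff (u0 : ℂ) : Set (Fin 3 → ℂ) := {v | v 0 ∈ dsc u0}

theorem isOpen_Vaff (u0 : ℂ) : IsOpen (Vaff u0) :=
  (isOpen_dsc u0).preimage (continuous_apply 0)

/-- the coordinates as a point -/
def gaff {u0 : ℂ} (hu0 : u0 ≠ 0) (v : Vaff u0) : Cs × (ℂ × ℂ) :=
  (⟨v.1 0, dsc_ne hu0 v.2⟩, (v.1 1, v.1 2))

theorem continuous_gaff {u0 : ℂ} (hu0 : u0 ≠ 0) : Continuous (gaff hu0) := by
  unfold gaff
  refine Continuous.prodMk (Continuous.subtype_mk ?_ _) (Continuous.prodMk ?_ ?_)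
  · exact (continuous_apply 0).comp continuous_subtype_val
  · exact (continuous_apply 1).comp continuous_subtype_val
  · exact (continuous_apply 2).comp continuous_subtype_val

theorem vec3_eta (v : Fin 3 → ℂ) : ![v 0, v 1, v 2] = v := by
  funext i
  fin_cases i <;> rfl

theorem isOpenMap_gaff {u0 : ℂ} (hu0 : u0 ≠ 0) : IsOpenMap (gaff hu0) := by
  intro O hO
  obtain ⟨O', hO', rfl⟩ := isOpen_induced_iff.1 hO
  have h1 : gaff hu0 '' (Subtype.val ⁻¹' O') = (fun p : Cs × (ℂ × ℂ) =>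
      (![p.1.1, p.2.1, p.2.2] : Fin 3 → ℂ)) ⁻¹' (Vaff u0 ∩ O') := by
    ext p
    constructor
    · rintro ⟨v, hv, rfl⟩
      change ![v.1 0, v.1 1, v.1 2] ∈ Vaff u0 ∩ O'
      rw [vec3_eta]
      exact ⟨v.2, hv⟩
    · rintro ⟨h2, h3⟩
      exact ⟨⟨_, h2⟩, h3, rfl⟩
  rw [h1]
  refine ((isOpen_Vaff u0).inter hO').preimage ?_
  refine continuous_pi fun i => ?_
  fin_cases i
  · change Continuous fun p : Cs × (ℂ × ℂ) => p.1.1
    fun_prop
  · change Continuous fun p : Cs × (ℂ × ℂ) => p.2.1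
    fun_prop
  · change Continuous fun p : Cs × (ℂ × ℂ) => p.2.2
    fun_prop

/-- derivative of the affine vector -/
noncomputable def daff : (Fin 3 → ℂ) →L[ℂ] (Fin 3 → ℂ) :=
  ContinuousLinearMap.pi ![ContinuousLinearMap.proj 1, ContinuousLinearMap.proj 2, 0]

theorem hasFDerivAt_xaff (v : Fin 3 → ℂ) :
    HasFDerivAt (fun v : Fin 3 → ℂ => xaff (v 1) (v 2)) daff v := by
  rw [hasFDerivAt_pi']
  intro i
  fin_cases i
  · exact (ContinuousLinearMap.proj (R := ℂ) (φ := fun _ : Fin 3 => ℂ) 1).hasFDerivAt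
  · exact (ContinuousLinearMap.proj (R := ℂ) (φ := fun _ : Fin 3 => ℂ) 2).hasFDerivAt
  · exact hasFDerivAt_const (1 : ℂ) v

/-- affine parametrisation -/
noncomputable def Paff {u0 : ℂ} (hu0 : u0 ≠ 0) : LocalParam 3 T.XX where
  V := Vaff u0
  a v := v 1 ^ 2 + v 2 ^ 3
  φ v := T.Ph (v 0) (xaff (v 1) (v 2))
  isOpen_V := isOpen_Vaff u0
  holo_a := by
    apply Differentiable.differentiableOn
    fun_prop
  holo_φ := fun v hv => (hasFDerivAt_Ph T _ _ v (dsc_ne hu0 hv)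
    (hasFDerivAt_xaff v)).differentiableAt.differentiableWithinAt
  φ_ne v hv := T.Ph_ne (dsc_ne hu0 hv) (xaff_ne _ _)
  mem v hv := ⟨laff (gaff hu0 ⟨v, hv⟩), rfl⟩
  openEmbedding := by
    have h1 : (fun v : Vaff u0 => (⟨((v.1 1 ^ 2 + v.1 2 ^ 3 : ℂ), Projectivization.mk ℂ
        (T.Ph (v.1 0) (xaff (v.1 1) (v.1 2))) (T.Ph_ne (dsc_ne hu0 v.2) (xaff_ne _ _))),
        ⟨laff (gaff hu0 ⟨v.1, v.2⟩), rfl⟩⟩ : T.XX)) = Raff T ∘ gaff hu0 := rfl
    rw [h1]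
    refine IsOpenEmbedding.of_continuous_injective_isOpenMap
      ((continuous_Raff T).comp (continuous_gaff hu0)) ?_
      ((isOpenMap_Raff T).comp (isOpenMap_gaff hu0))
    intro v w hvw
    obtain ⟨m, h2, h3⟩ := (Raff_eq_iff T _ _).1 hvw
    have hm := dsc_int hu0 v.2 w.2 h2
    subst hm
    rw [Aaff_int] at h3
    simp only [zpow_zero, one_mul] at h2 h3
    have h4 := congrArg Prod.fst h3
    have h5 := congrArg Prod.snd h3
    change w.1 0 = v.1 0 at h2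
    change w.1 1 = v.1 1 at h4
    change w.1 2 = v.1 2 at h5
    apply Subtype.ext
    rw [← vec3_eta v.1, ← vec3_eta w.1, h2, h4, h5]
  immersion := by
    intro v hv h _ hc
    obtain ⟨c, hc⟩ := hc
    have key := Ph_immersion T _ _ v (dsc_ne hu0 hv) (hasFDerivAt_xaff v) h c hc
    obtain ⟨e1, e2⟩ := key 2
    have e3 := (key 0).2
    have e4 := (key 1).2
    have f2 : xaff (v 1) (v 2) 2 = 1 := rfl
    have d0 : daff h 0 = h 1 := rfl
    have d1 : daff h 1 = h 2 := rfl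
    have d2 : daff h 2 = 0 := rfl
    rw [f2, one_mul] at e1
    rw [f2, d2, mul_one] at e2
    rw [d0, ← e2, zero_mul] at e3
    rw [d1, ← e2, zero_mul] at e4
    rw [← vec3_eta h, e1, e3, e4]
    funext i
    fin_cases i <;> rfl

end Pool.Agent.N152
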