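import Pool.Agent.N152.Geo

/-! A theta function. -/

set_option autoImplicit false

open Filter Topology

namespace Pool.Agent.N152

/-- the infinite product -/
noncomputable def PP (x : ℂ) : ℂ := ∏' n : ℕ, (1 + -(qq ^ n * x))

theorem PP_summ (x : ℂ) : Summable fun n : ℕ => ‖-(qq ^ n * x)‖ := by
  have h : (fun n : ℕ => ‖-(qq ^ n * x)‖) = fun n : ℕ => (1 / 2 : ℝ) ^ n * ‖x‖ := by
    funext n
    rw [norm_neg, norm_mul, norm_pow, norm_qq]
  rw [h]
  exact (summable_geometric_of_lt_one (by norm_num) (by norm_num)).mul_right _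

theorem PP_mult (x : ℂ) : Multipliable fun n : ℕ => (1 + -(qq ^ n * x)) :=
  multipliable_one_add_of_summable (PP_summ x)

theorem PP_diff : Differentiable ℂ PP := by
  rw [← differentiableOn_univ]
  have h1 : HasProdLocallyUniformlyOn (fun (n : ℕ) (x : ℂ) => 1 + -(qq ^ n * x)) PP Set.univ := by
    apply hasProdLocallyUniformlyOn_of_forall_compact isOpen_univ
    intro K _ hK
    obtain ⟨C, hC⟩ := hK.isBounded.exists_norm_le
    refine Summable.hasProdUniformlyOn_nat_one_add (f := fun (n : ℕ) (x : ℂ) => -(qq ^ n * x)) hK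
      (u := fun n : ℕ => (1 / 2 : ℝ) ^ n * C)
      ((summable_geometric_of_lt_one (by norm_num) (by norm_num)).mul_right _)
      (.of_forall fun n x hx ↦ ?_) (fun _ ↦ by fun_prop)
    rw [norm_neg, norm_mul, norm_pow, norm_qq]
    exact mul_le_mul_of_nonneg_left (hC x hx) (by positivity)
  refine h1.differentiableOn (.of_forall fun s ↦ ?_) isOpen_univ
  have := DifferentiableOn.finsetProd (s := Set.univ) (𝕜 := ℂ) (u := s)
    (f := fun (n : ℕ) (x : ℂ) => 1 + -(qq ^ n * x)) (fun _ _ ↦ by fun_prop)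
  simpa [Finset.prod_fn] using this

theorem PP_step (x : ℂ) : PP x = (1 - x) * PP (qq * x) := by
  unfold PP
  have h : (fun n : ℕ => (1 + -(qq ^ (n + 1) * x))) = fun n : ℕ => (1 + -(qq ^ n * (qq * x))) := by
    funext n
    rw [pow_succ]; ring
  rw [tprod_eq_zero_mul' (by rw [h]; exact PP_mult _), h]
  simp [sub_eq_add_neg]

theorem PP_ne {x : ℂ} (h : ∀ n : ℕ, qq ^ n * x ≠ 1) : PP x ≠ 0 := by
  unfold PP
  refine tprod_one_add_ne_zero_of_summable (fun n h0 => h n ?_) (PP_summ x)
  linear_combination -h0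

/-- the theta function -/
noncomputable def th (u : ℂ) : ℂ := PP u * PP (qq / u)

theorem th_diff : DifferentiableOn ℂ th {u | u ≠ 0} := by
  unfold th
  refine PP_diff.differentiableOn.mul (PP_diff.comp_differentiableOn ?_)
  intro u hu
  exact ((differentiableAt_const qq).div differentiableAt_id hu).differentiableWithinAt

theorem th_diffAt {u : ℂ} (hu : u ≠ 0) : DifferentiableAt ℂ th u :=
  th_diff.differentiableAt (isOpen_ne.mem_nhds hu)

theorem th_quasi {u : ℂ} (hu : u ≠ 0) : th (qq * u) = -u⁻¹ * th u := by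
  have hq := qq_ne
  unfold th
  have e1 : qq / (qq * u) = u⁻¹ := by field_simp
  have e2 : qq / u = qq * u⁻¹ := by field_simp
  rw [e1, e2, PP_step u, PP_step u⁻¹]
  field_simp
  ring

theorem th_ne {u : ℂ} (hu : u ≠ 0) (h : ∀ m : ℤ, u ≠ qq ^ m) : th u ≠ 0 := by
  have hq := qq_ne
  unfold th
  refine mul_ne_zero (PP_ne fun n hn => h (-n) ?_) (PP_ne fun n hn => h (n + 1) ?_)
  · rw [zpow_neg, zpow_natCast]
    have := pow_ne_zero n hq
    field_simp
    linear_combination hn
  · rw [zpow_add_one₀ hq, zpow_natCast]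
    field_simp at hn
    linear_combination -hn

theorem th_one : th 1 = 0 := by
  unfold th
  rw [PP_step 1]
  ring

theorem th_deriv : HasDerivAt th (-(PP qq * PP qq)) 1 := by
  have h1 : th =ᶠ[𝓝 1] fun u => (1 - u) * (PP (qq * u) * PP (qq / u)) := by
    refine Eventually.of_forall fun u => ?_
    unfold th
    rw [PP_step u]
    ring
  have h2 : DifferentiableAt ℂ (fun u : ℂ => PP (qq * u) * PP (qq / u)) 1 := by
    refine DifferentiableAt.mul ?_ ?_
    · exact PP_diff.differentiableAt.comp (1 : ℂ) (by fun_prop)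
    · exact PP_diff.differentiableAt.comp (1 : ℂ)
        (DifferentiableAt.div (by fun_prop) (by fun_prop) one_ne_zero)
  have h3 : HasDerivAt (fun u : ℂ => 1 - u) (-1) 1 := by
    simpa using (hasDerivAt_id (1 : ℂ)).const_sub 1
  have h4 := (h3.mul h2.hasDerivAt).congr_of_eventuallyEq h1
  have e : -(PP qq * PP qq) = -1 * (PP (qq * 1) * PP (qq / 1)) +
      (1 - 1) * deriv (fun u => PP (qq * u) * PP (qq / u)) 1 := by simp
  rw [e]
  exact h4

theorem PP_qq_ne : PP qq ≠ 0 := by
  apply PP_ne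
  intro n h
  have h1 := congrArg norm h
  rw [norm_mul, norm_pow, norm_qq, norm_one] at h1
  have h2 : (1 / 2 : ℝ) ^ n ≤ 1 := pow_le_one₀ (by norm_num) (by norm_num)
  linarith

theorem th_deriv_ne : -(PP qq * PP qq) ≠ 0 :=
  neg_ne_zero.2 (mul_ne_zero PP_qq_ne PP_qq_ne)

/-! ### avoiding the lattice -/

theorem qz_real (m : ℤ) : ∃ r : ℝ, 0 < r ∧ qq ^ m = (r : ℂ) := by
  refine ⟨(1 / 2 : ℝ) ^ m, by positivity, ?_⟩
  unfold qq
  push_cast
  rfl

theorem generic {α β : ℂ} (hα : α ≠ 0) :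
    ∃ a : ℂ, a ≠ 0 ∧ (∀ m : ℤ, α / a ≠ qq ^ m) ∧ ∀ m : ℤ, β * a ≠ qq ^ m := by
  by_cases h : ∀ m : ℤ, β * (-α) ≠ qq ^ m
  · refine ⟨-α, neg_ne_zero.2 hα, fun m hm => ?_, h⟩
    obtain ⟨r, hr, hrm⟩ := qz_real m
    have e : α / -α = -1 := by field_simp
    rw [e, hrm] at hm
    have := congrArg Complex.re hm
    simp at this
    linarith
  · push Not at h
    obtain ⟨k, hk⟩ := h
    refine ⟨α * Complex.I, mul_ne_zero hα Complex.I_ne_zero, fun m hm => ?_, fun m hm => ?_⟩
    · obtain ⟨r, hr, hrm⟩ := qz_real m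
      have e : α / (α * Complex.I) = -Complex.I := by
        field_simp
        simp
      rw [e, hrm] at hm
      have := congrArg Complex.re hm
      simp at this
      linarith
    · obtain ⟨r, hr, hrm⟩ := qz_real m
      obtain ⟨r', hr', hrk⟩ := qz_real k
      have e : β * (α * Complex.I) = -((β * (-α)) * Complex.I) := by ring
      rw [e, hk, hrk, hrm] at hm
      have := congrArg Complex.re hm
      simp at this
      linarith

end Pool.Agent.N152
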