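import Pool.Agent.N152.Theta

/-! Theta functions of degree three: separation properties. -/

set_option autoImplicit false

open Filter Topology

namespace Pool.Agent.N152

theorem th_div_diff {u b : ℂ} (hu : u ≠ 0) (hb : b ≠ 0) :
    DifferentiableAt ℂ (fun w => th (w / b)) u :=
  DifferentiableAt.comp u (g := th) (f := fun w : ℂ => w / b) (th_diffAt (div_ne_zero hu hb))
    (by fun_prop)

theorem th_mul_diff {u b : ℂ} (hu : u ≠ 0) (hb : b ≠ 0) :
    DifferentiableAt ℂ (fun w => th (w * b)) u :=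
  DifferentiableAt.comp u (g := th) (f := fun w : ℂ => w * b) (th_diffAt (mul_ne_zero hu hb))
    (by fun_prop)

/-- parameters -/
abbrev Pm : Type := {a : ℂ × ℂ // a.1 ≠ 0 ∧ a.2 ≠ 0}

section

variable {c : ℂ} (hc : c ≠ 0)

/-- theta functions of degree three -/
noncomputable def GG (c : ℂ) (a : Pm) (u : ℂ) : ℂ :=
  th (u / a.1.1) * th (u / a.1.2) * th (u * (a.1.1 * a.1.2 / c))

include hc

theorem GG_diffAt (a : Pm) {u : ℂ} (hu : u ≠ 0) : DifferentiableAt ℂ (GG c a) u := by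
  have h1 := a.2.1
  have h2 := a.2.2
  unfold GG
  refine DifferentiableAt.mul (DifferentiableAt.mul ?_ ?_) ?_
  · exact th_div_diff hu h1
  · exact th_div_diff hu h2
  · exact th_mul_diff hu (div_ne_zero (mul_ne_zero h1 h2) hc)

theorem GG_diff (a : Pm) : DifferentiableOn ℂ (GG c a) {u | u ≠ 0} := fun _ hu =>
  (GG_diffAt hc a hu).differentiableWithinAt

theorem GG_quasi (a : Pm) {u : ℂ} (hu : u ≠ 0) :
    GG c a (qq * u) = (-c * (u⁻¹) ^ 3) * GG c a u := by
  have h1 := a.2.1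
  have h2 := a.2.2
  unfold GG
  have e1 : qq * u / a.1.1 = qq * (u / a.1.1) := by ring
  have e2 : qq * u / a.1.2 = qq * (u / a.1.2) := by ring
  have e3 : qq * u * (a.1.1 * a.1.2 / c) = qq * (u * (a.1.1 * a.1.2 / c)) := by ring
  rw [e1, e2, e3, th_quasi (div_ne_zero hu h1), th_quasi (div_ne_zero hu h2),
    th_quasi (mul_ne_zero hu (div_ne_zero (mul_ne_zero h1 h2) hc))]
  generalize th (u / a.1.1) = x
  generalize th (u / a.1.2) = y
  generalize th (u * (a.1.1 * a.1.2 / c)) = z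
  field_simp

theorem GG_quasi_zpow (m : ℤ) {u : ℂ} (hu : u ≠ 0) :
    ∃ e : ℂ, e ≠ 0 ∧ ∀ a : Pm, GG c a (qq ^ m * u) = e * GG c a u := by
  have hq := qq_ne
  induction m using Int.induction_on with
  | zero => exact ⟨1, one_ne_zero, fun a => by simp⟩
  | succ m ih =>
    obtain ⟨e, h0, h⟩ := ih
    have hv : qq ^ (m : ℤ) * u ≠ 0 := mul_ne_zero (zpow_ne_zero _ hq) hu
    refine ⟨-c * ((qq ^ (m : ℤ) * u)⁻¹) ^ 3 * e, ?_, fun a => ?_⟩
    · exact mul_ne_zero (mul_ne_zero (neg_ne_zero.2 hc) (pow_ne_zero 3 (inv_ne_zero hv))) h0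
    · have e1 : qq ^ ((m : ℤ) + 1) * u = qq * (qq ^ (m : ℤ) * u) := by
        rw [zpow_add_one₀ hq]; ring
      rw [e1, GG_quasi hc a hv, h a]
      ring
  | pred m ih =>
    obtain ⟨e, h0, h⟩ := ih
    have hv : qq ^ (-(m : ℤ) - 1) * u ≠ 0 := mul_ne_zero (zpow_ne_zero _ hq) hu
    refine ⟨(-c)⁻¹ * ((qq ^ (-(m : ℤ) - 1) * u)) ^ 3 * e, ?_, fun a => ?_⟩
    · exact mul_ne_zero (mul_ne_zero (inv_ne_zero (neg_ne_zero.2 hc)) (pow_ne_zero 3 hv)) h0
    · have e1 : qq ^ (-(m : ℤ)) * u = qq * (qq ^ (-(m : ℤ) - 1) * u) := by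
        rw [zpow_sub_one₀ hq]
        field_simp
      have h1 := h a
      rw [e1, GG_quasi hc a hv] at h1
      rw [mul_assoc _ e, ← h1]
      field_simp

/-- not all functions vanish -/
theorem exists_ne {u : ℂ} (hu : u ≠ 0) : ∃ b : Pm, GG c b u ≠ 0 := by
  obtain ⟨a, ha, h1, h2⟩ := generic (α := u) (β := u * (-u) / c) hu
  refine ⟨⟨(-u, a), neg_ne_zero.2 hu, ha⟩, ?_⟩
  unfold GG
  refine mul_ne_zero (mul_ne_zero (th_ne (div_ne_zero hu (neg_ne_zero.2 hu)) fun m hm => ?_)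
    (th_ne (div_ne_zero hu ha) h1)) (th_ne (mul_ne_zero hu (div_ne_zero
      (mul_ne_zero (neg_ne_zero.2 hu) ha) hc)) fun m hm => h2 m ?_)
  · obtain ⟨r, hr, hrm⟩ := qz_real m
    have e : u / -u = -1 := by field_simp
    change u / -u = qq ^ m at hm
    rw [e, hrm] at hm
    have := congrArg Complex.re hm
    simp at this
    linarith
  · rw [← hm]
    change u * -u / c * a = u * (-u * a / c)
    ring

/-- separation of points -/
theorem exists_sep {u v : ℂ} (hu : u ≠ 0) (hv : v ≠ 0) (h : ∀ m : ℤ, v ≠ qq ^ m * u) :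
    ∃ a : Pm, GG c a u = 0 ∧ GG c a v ≠ 0 := by
  obtain ⟨a, ha, h1, h2⟩ := generic (α := v) (β := v * u / c) hv
  refine ⟨⟨(u, a), hu, ha⟩, ?_, ?_⟩
  · unfold GG
    change th (u / u) * _ * _ = 0
    rw [div_self hu, th_one]
    ring
  · unfold GG
    refine mul_ne_zero (mul_ne_zero (th_ne (div_ne_zero hv hu) fun m hm => h m ?_)
      (th_ne (div_ne_zero hv ha) h1)) (th_ne (mul_ne_zero hv (div_ne_zero
        (mul_ne_zero hu ha) hc)) fun m hm => h2 m ?_)
    · rw [← hm]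
      change v = v / u * u
      field_simp
    · rw [← hm]
      change v * u / c * a = v * (u * a / c)
      ring

/-- separation of tangent vectors -/
theorem exists_tan {u : ℂ} (hu : u ≠ 0) :
    ∃ a : Pm, GG c a u = 0 ∧ deriv (GG c a) u ≠ 0 := by
  obtain ⟨a, ha, h1, h2⟩ := generic (α := u) (β := u * u / c) hu
  have hac : u * a / c ≠ 0 := div_ne_zero (mul_ne_zero hu ha) hc
  refine ⟨⟨(u, a), hu, ha⟩, ?_, ?_⟩
  · unfold GG
    change th (u / u) * _ * _ = 0
    rw [div_self hu, th_one]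
    ring
  · have hd1 : HasDerivAt (fun w => th (w / u)) (-(PP qq * PP qq) * (1 / u)) u := by
      have e1 : HasDerivAt (fun w : ℂ => w / u) (1 / u) u := (hasDerivAt_id u).div_const u
      have e2 : HasDerivAt th (-(PP qq * PP qq)) (u / u) := by
        rw [div_self hu]; exact th_deriv
      exact HasDerivAt.comp (h₂ := th) (h := fun w : ℂ => w / u) u e2 e1
    have hd2 : DifferentiableAt ℂ (fun w => th (w / a) * th (w * (u * a / c))) u := by
      refine DifferentiableAt.mul ?_ ?_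
      · exact th_div_diff hu ha
      · exact th_mul_diff hu hac
    have hd3 := hd1.mul hd2.hasDerivAt
    have e : GG c ⟨(u, a), hu, ha⟩ = fun w => th (w / u) * (th (w / a) * th (w * (u * a / c))) := by
      funext w
      unfold GG
      ring
    have hd4 : HasDerivAt (GG c ⟨(u, a), hu, ha⟩) (-(PP qq * PP qq) * (1 / u) *
        (th (u / a) * th (u * (u * a / c)))) u := by
      rw [e]
      have e3 : -(PP qq * PP qq) * (1 / u) * (th (u / a) * th (u * (u * a / c))) =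
        -(PP qq * PP qq) * (1 / u) * (th (u / a) * th (u * (u * a / c))) +
          th (u / u) * deriv (fun w => th (w / a) * th (w * (u * a / c))) u := by
        rw [div_self hu, th_one]; ring
      rw [e3]
      exact hd3
    rw [hd4.deriv]
    refine mul_ne_zero (mul_ne_zero th_deriv_ne (one_div_ne_zero hu)) (mul_ne_zero
      (th_ne (div_ne_zero hu ha) h1) (th_ne (mul_ne_zero hu hac) fun m hm => h2 m ?_))
    rw [← hm]
    ring

/-- separation property of a finite set of parameters -/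
def Sep (c : ℂ) (S : Set Pm) (u v : ℂ) : Prop :=
  ∀ s : ℂ, (∀ a ∈ S, GG c a u = s * GG c a v) → ∃ m : ℤ, v = qq ^ m * u

omit hc in
theorem Sep.mono {S S' : Set Pm} (h : S ⊆ S') {u v : ℂ} (hS : Sep c S u v) : Sep c S' u v :=
  fun s hs => hS s fun a ha => hs a (h ha)

theorem sep_local {u v : ℂ} (hu : u ≠ 0) (hv : v ≠ 0) :
    ∃ S : Set Pm, S.Finite ∧ ∀ᶠ p : ℂ × ℂ in 𝓝 (u, v), Sep c S p.1 p.2 := by
  obtain ⟨b, hb⟩ := exists_ne hc hu
  by_cases h : ∀ m : ℤ, v ≠ qq ^ m * u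
  · obtain ⟨a, ha1, ha2⟩ := exists_sep hc hu hv h
    refine ⟨{a, b}, Set.toFinite _, ?_⟩
    have hcont : ContinuousAt (fun p : ℂ × ℂ => GG c a p.1 * GG c b p.2 -
        GG c b p.1 * GG c a p.2) (u, v) := by
      have c1 := (GG_diffAt hc a hu).continuousAt
      have c2 := (GG_diffAt hc b hu).continuousAt
      have c3 := (GG_diffAt hc a hv).continuousAt
      have c4 := (GG_diffAt hc b hv).continuousAt
      refine ContinuousAt.sub (ContinuousAt.mul ?_ ?_) (ContinuousAt.mul ?_ ?_)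
      · exact ContinuousAt.comp (x := (u, v)) (g := GG c a) (f := Prod.fst) c1 continuousAt_fst
      · exact ContinuousAt.comp (x := (u, v)) (g := GG c b) (f := Prod.snd) c4 continuousAt_snd
      · exact ContinuousAt.comp (x := (u, v)) (g := GG c b) (f := Prod.fst) c2 continuousAt_fst
      · exact ContinuousAt.comp (x := (u, v)) (g := GG c a) (f := Prod.snd) c3 continuousAt_snd
    have hne : (fun p : ℂ × ℂ => GG c a p.1 * GG c b p.2 - GG c b p.1 * GG c a p.2) (u, v) ≠ 0 := by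
      change GG c a u * GG c b v - GG c b u * GG c a v ≠ 0
      rw [ha1, zero_mul, zero_sub]
      exact neg_ne_zero.2 (mul_ne_zero hb ha2)
    filter_upwards [hcont.eventually_ne hne] with p hp s hs
    exfalso
    apply hp
    rw [hs a (by simp), hs b (by simp)]
    ring
  · push Not at h
    obtain ⟨m, hm⟩ := h
    obtain ⟨a, ha1, ha2⟩ := exists_tan hc hu
    refine ⟨{a, b}, Set.toFinite _, ?_⟩
    -- the quotient is locally injective
    have hr : HasStrictDerivAt (fun w => GG c a w / GG c b w)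
        ((deriv (GG c a) u * GG c b u - GG c a u * deriv (GG c b) u) / GG c b u ^ 2) u := by
      have sa : HasStrictDerivAt (GG c a) (deriv (GG c a) u) u := by
        have := ((GG_diff hc a).analyticAt (isOpen_ne.mem_nhds hu))
        exact this.hasStrictDerivAt
      have sb : HasStrictDerivAt (GG c b) (deriv (GG c b) u) u := by
        have := ((GG_diff hc b).analyticAt (isOpen_ne.mem_nhds hu))
        exact this.hasStrictDerivAt
      exact sa.div sb hb
    have hr0 : (deriv (GG c a) u * GG c b u - GG c a u * deriv (GG c b) u) / GG c b u ^ 2 ≠ 0 := by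
      rw [ha1, zero_mul, sub_zero]
      exact div_ne_zero (mul_ne_zero ha2 hb) (pow_ne_zero 2 hb)
    obtain ⟨N, hN, hinj⟩ : ∃ N ∈ 𝓝 u, Set.InjOn (fun w => GG c a w / GG c b w) N := by
      refine ⟨_, HasStrictDerivAt.eventually_left_inverse hr hr0, ?_⟩
      intro x hx y hy hxy
      have hx' := hx
      have hy' := hy
      rw [Set.mem_ofPred_eq] at hx' hy'
      rw [← hx', ← hy']
      exact congrArg _ hxy
    have hq := qq_ne
    have e1 : ∀ᶠ p : ℂ × ℂ in 𝓝 (u, v), p.1 ∈ N :=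
      continuousAt_fst.eventually_mem hN
    have e2 : ∀ᶠ p : ℂ × ℂ in 𝓝 (u, v), qq ^ (-m) * p.2 ∈ N := by
      have hcont : ContinuousAt (fun p : ℂ × ℂ => qq ^ (-m) * p.2) (u, v) := by fun_prop
      apply hcont.eventually_mem
      have : qq ^ (-m) * v = u := by
        rw [hm, zpow_neg]
        have := zpow_ne_zero m hq
        field_simp
      change N ∈ 𝓝 (qq ^ (-m) * v)
      rw [this]
      exact hN
    have e3 : ∀ᶠ p : ℂ × ℂ in 𝓝 (u, v), GG c b p.1 ≠ 0 := by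
      have h1 := (GG_diffAt hc b hu).continuousAt.eventually_ne hb
      exact (continuousAt_fst (p := (u, v))).eventually h1
    have e4 : ∀ᶠ p : ℂ × ℂ in 𝓝 (u, v), p.2 ≠ 0 := by
      exact continuousAt_snd.eventually_ne hv
    filter_upwards [e1, e2, e3, e4] with p h1 h2 h3 h4 s hs
    set w := qq ^ (-m) * p.2 with hw
    have hpw : p.2 = qq ^ m * w := by
      rw [hw, zpow_neg]
      have := zpow_ne_zero m hq
      field_simp
    have hw0 : w ≠ 0 := mul_ne_zero (zpow_ne_zero _ hq) h4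
    obtain ⟨e, he0, he⟩ := GG_quasi_zpow hc m hw0
    have ha' := hs a (by simp)
    have hb' := hs b (by simp)
    rw [hpw, he] at ha' hb'
    have hse : s ≠ 0 := by
      rintro rfl
      rw [zero_mul] at hb'
      exact h3 hb'
    have hbw : GG c b w ≠ 0 := by
      intro h0
      rw [h0, mul_zero, mul_zero] at hb'
      exact h3 hb'
    have huw : p.1 = w := by
      apply hinj h1 h2
      change GG c a p.1 / GG c b p.1 = GG c a w / GG c b w
      rw [ha', hb']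
      field_simp
    exact ⟨m, by rw [hpw, ← huw]⟩

/-- the Wronskian -/
noncomputable def Wr (c : ℂ) (a b : Pm) (u : ℂ) : ℂ :=
  GG c a u * deriv (GG c b) u - GG c b u * deriv (GG c a) u

theorem wr_local {u : ℂ} (hu : u ≠ 0) :
    ∃ S : Set Pm, S.Finite ∧ ∀ᶠ w in 𝓝 u, ∃ a ∈ S, ∃ b ∈ S, Wr c a b w ≠ 0 := by
  obtain ⟨b, hb⟩ := exists_ne hc hu
  obtain ⟨a, ha1, ha2⟩ := exists_tan hc hu
  refine ⟨{a, b}, Set.toFinite _, ?_⟩
  have hcd : ∀ a : Pm, ContinuousAt (deriv (GG c a)) u := by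
    intro a
    have := ((GG_diff hc a).analyticAt (isOpen_ne.mem_nhds hu))
    exact this.deriv.continuousAt
  have hcont : ContinuousAt (Wr c a b) u := by
    unfold Wr
    exact ((GG_diffAt hc a hu).continuousAt.mul (hcd b)).sub
      ((GG_diffAt hc b hu).continuousAt.mul (hcd a))
  have hne : Wr c a b u ≠ 0 := by
    unfold Wr
    rw [ha1, zero_mul, zero_sub]
    exact neg_ne_zero.2 (mul_ne_zero hb ha2)
  filter_upwards [hcont.eventually_ne hne] with w hw
  exact ⟨a, by simp, b, by simp, hw⟩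

omit hc in
/-- fundamental domain -/
def Kd : Set ℂ := {u | 1 / 2 ≤ ‖u‖ ∧ ‖u‖ ≤ 1}

omit hc in
theorem isCompact_Kd : IsCompact Kd := by
  refine (isCompact_closedBall (0 : ℂ) 1).of_isClosed_subset ?_ ?_
  · have h1 : IsClosed {u : ℂ | 1 / 2 ≤ ‖u‖} := isClosed_le (by fun_prop) (by fun_prop)
    have h2 : IsClosed {u : ℂ | ‖u‖ ≤ 1} := isClosed_le (by fun_prop) (by fun_prop)
    exact h1.inter h2
  · intro u hu
    simpa using hu.2

omit hc in
theorem Kd_ne {u : ℂ} (hu : u ∈ Kd) : u ≠ 0 := by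
  intro h
  have := hu.1
  rw [h, norm_zero] at this
  norm_num at this

omit hc in
theorem exists_Kd {u : ℂ} (hu : u ≠ 0) : ∃ m : ℤ, qq ^ m * u ∈ Kd := by
  obtain ⟨m, hm1, hm2⟩ := exists_mem_Ico_zpow (norm_pos_iff.2 hu) (one_lt_two (α := ℝ))
  have hn : ‖qq ^ (m + 1) * u‖ = ‖u‖ / 2 ^ (m + 1) := by
    rw [norm_mul, norm_zpow, norm_qq, one_div, inv_zpow]
    field_simp
  have h2 : (0 : ℝ) < 2 ^ (m + 1) := by positivity
  refine ⟨m + 1, ?_, ?_⟩
  · rw [hn, le_div_iff₀ h2, zpow_add_one₀ (by norm_num)]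
    linarith
  · rw [hn, div_le_one h2]
    exact hm2.le

theorem exists_S : ∃ S : Set Pm, S.Finite ∧ (∀ u ∈ Kd, ∀ v ∈ Kd, Sep c S u v) ∧
    ∀ u ∈ Kd, ∃ a ∈ S, ∃ b ∈ S, Wr c a b u ≠ 0 := by
  obtain ⟨S1, hS1, h1⟩ : ∃ S : Set Pm, S.Finite ∧ ∀ p ∈ Kd ×ˢ Kd, Sep c S p.1 p.2 := by
    refine (isCompact_Kd.prod isCompact_Kd).induction_on
      (p := fun K : Set (ℂ × ℂ) => ∃ S : Set Pm, S.Finite ∧ ∀ p ∈ K, Sep c S p.1 p.2) ?_ ?_ ?_ ?_
    · exact ⟨∅, Set.finite_empty, fun p hp => hp.elim⟩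
    · rintro K K' hK ⟨S, hS, h⟩
      exact ⟨S, hS, fun p hp => h p (hK hp)⟩
    · rintro K K' ⟨S, hS, h⟩ ⟨S', hS', h'⟩
      refine ⟨S ∪ S', hS.union hS', ?_⟩
      rintro p (hp | hp)
      · exact (h p hp).mono Set.subset_union_left
      · exact (h' p hp).mono Set.subset_union_right
    · rintro ⟨u, v⟩ ⟨hu, hv⟩
      obtain ⟨S, hS, h⟩ := sep_local hc (Kd_ne hu) (Kd_ne hv)
      exact ⟨_, mem_nhdsWithin_of_mem_nhds h, S, hS, fun p hp => hp⟩
  obtain ⟨S2, hS2, h2⟩ : ∃ S : Set Pm, S.Finite ∧ ∀ u ∈ Kd, ∃ a ∈ S, ∃ b ∈ S, Wr c a b u ≠ 0 := by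
    refine isCompact_Kd.induction_on
      (p := fun K : Set ℂ => ∃ S : Set Pm, S.Finite ∧ ∀ u ∈ K, ∃ a ∈ S, ∃ b ∈ S, Wr c a b u ≠ 0)
      ?_ ?_ ?_ ?_
    · exact ⟨∅, Set.finite_empty, fun p hp => hp.elim⟩
    · rintro K K' hK ⟨S, hS, h⟩
      exact ⟨S, hS, fun p hp => h p (hK hp)⟩
    · rintro K K' ⟨S, hS, h⟩ ⟨S', hS', h'⟩
      refine ⟨S ∪ S', hS.union hS', ?_⟩
      rintro p (hp | hp)
      · obtain ⟨a, ha, b, hb, hw⟩ := h p hp
        exact ⟨a, Or.inl ha, b, Or.inl hb, hw⟩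
      · obtain ⟨a, ha, b, hb, hw⟩ := h' p hp
        exact ⟨a, Or.inr ha, b, Or.inr hb, hw⟩
    · intro u hu
      obtain ⟨S, hS, h⟩ := wr_local hc (Kd_ne hu)
      exact ⟨_, mem_nhdsWithin_of_mem_nhds h, S, hS, fun p hp => hp⟩
  refine ⟨S1 ∪ S2, hS1.union hS2, ?_, ?_⟩
  · intro u hu v hv
    exact (h1 (u, v) ⟨hu, hv⟩).mono Set.subset_union_left
  · intro u hu
    obtain ⟨a, ha, b, hb, hw⟩ := h2 u hu
    exact ⟨a, Or.inr ha, b, Or.inr hb, hw⟩

end

end Pool.Agent.N152
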