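import Pool.Agent.N152.Cst

/-! The map `(z, t) ↦ z ^ 2 + t ^ 3` from the complement of the cuspidal curve to the punctured
plane is a homology equivalence. -/

set_option autoImplicit false

namespace Pool.Agent.N152

open Pool.Agent.Helper922.HB Pool.Agent.Helper10.Dupin

/-- complement of the cuspidal curve -/
abbrev KK : Type := {p : ℂ × ℂ // p.1 ^ 2 + p.2 ^ 3 ≠ 0}

/-- the fibration -/
def phi : C(KK, Cs) :=
  ⟨fun p => ⟨p.1.1 ^ 2 + p.1.2 ^ 3, p.2⟩, by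
    apply Continuous.subtype_mk
    fun_prop⟩

/-- first open set -/
def AA : Set KK := {p | ‖2 * p.1.2 ^ 3 - p.1.1 ^ 2‖ < 3 * ‖p.1.1 ^ 2‖}

/-- second open set -/
def BB : Set KK := {p | ‖2 * p.1.1 ^ 2 - p.1.2 ^ 3‖ < 3 * ‖p.1.2 ^ 3‖}

theorem isOpen_AA : IsOpen AA := by
  apply isOpen_lt <;> fun_prop

theorem isOpen_BB : IsOpen BB := by
  apply isOpen_lt <;> fun_prop

theorem ne_of_lt3 {x y : ℂ} (h : ‖2 * y - x‖ < 3 * ‖x‖) : x ≠ 0 ∧ x + y ≠ 0 := by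
  constructor
  · rintro rfl
    simp at h
    exact absurd h (not_lt.2 (by positivity))
  · intro h0
    have : y = -x := by linear_combination h0
    rw [this] at h
    have e : (2 * -x - x : ℂ) = -(3 * x) := by ring
    rw [e, norm_neg, norm_mul] at h
    simp at h

theorem cov_AB (p : KK) : p ∈ AA ∨ p ∈ BB := by
  by_contra hcon
  push Not at hcon
  obtain ⟨h1, h2⟩ := hcon
  have h1' : 3 * ‖p.1.1 ^ 2‖ ≤ ‖2 * p.1.2 ^ 3 - p.1.1 ^ 2‖ := not_lt.1 h1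
  have h2' : 3 * ‖p.1.2 ^ 3‖ ≤ ‖2 * p.1.1 ^ 2 - p.1.2 ^ 3‖ := not_lt.1 h2
  apply p.2
  set x := p.1.1 ^ 2
  set y := p.1.2 ^ 3
  have e1 := pow_le_pow_left₀ (by positivity) h1' 2
  have e2 := pow_le_pow_left₀ (by positivity) h2' 2
  rw [mul_pow, ← Complex.normSq_eq_norm_sq, ← Complex.normSq_eq_norm_sq, Complex.normSq_apply,
    Complex.normSq_apply] at e1 e2
  simp only [Complex.sub_re, Complex.sub_im, Complex.mul_re, Complex.mul_im, Complex.re_ofNat,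
    Complex.im_ofNat, zero_mul, sub_zero, add_zero] at e1 e2
  apply Complex.ext
  · simp only [Complex.add_re, Complex.zero_re]
    nlinarith [sq_nonneg (x.re + y.re), sq_nonneg (x.im + y.im)]
  · simp only [Complex.add_im, Complex.zero_im]
    nlinarith [sq_nonneg (x.re + y.re), sq_nonneg (x.im + y.im)]

theorem shrink3 {x y : ℂ} (h : ‖2 * y - x‖ < 3 * ‖x‖) {μ : ℝ} (h0 : 0 ≤ μ) (h1 : μ ≤ 1) :
    ‖2 * ((μ : ℂ) * y) - x‖ < 3 * ‖x‖ := by
  have hx : 0 < ‖x‖ := norm_pos_iff.2 (ne_of_lt3 h).1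
  have e : 2 * ((μ : ℂ) * y) - x = (μ : ℂ) * (2 * y - x) + ((1 - μ : ℝ) : ℂ) * (-x) := by
    push_cast; ring
  rw [e]
  have h2 := norm_add_le ((μ : ℂ) * (2 * y - x)) (((1 - μ : ℝ) : ℂ) * (-x))
  rw [norm_mul, norm_mul, norm_neg, Complex.norm_real, Complex.norm_real, Real.norm_of_nonneg h0,
    Real.norm_of_nonneg (by linarith)] at h2
  refine lt_of_le_of_lt h2 ?_
  rcases eq_or_lt_of_le h0 with h3 | h3
  · rw [← h3]; linarith
  · nlinarith [mul_lt_mul_of_pos_left h h3]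

/-- coordinate `z` -/
def aA : C(AA, Cs) :=
  ⟨fun p => ⟨p.1.1.1, fun h => (ne_of_lt3 p.2).1 (by rw [h]; ring)⟩, by
    apply Continuous.subtype_mk; fun_prop⟩

/-- coordinate `t` -/
def bB : C(BB, Cs) :=
  ⟨fun p => ⟨p.1.1.2, fun h => (ne_of_lt3 p.2).1 (by rw [h]; ring)⟩, by
    apply Continuous.subtype_mk; fun_prop⟩

theorem norm_sq_lt {x : ℂ} (hx : x ≠ 0) : ‖2 * 0 - x‖ < 3 * ‖x‖ := by
  have := norm_pos_iff.2 hx
  rw [mul_zero, zero_sub, norm_neg]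
  linarith

/-- section -/
def sA : C(Cs, AA) :=
  ⟨fun z => ⟨⟨(z.1, 0), by simpa using z.2⟩, by
    have := norm_sq_lt (pow_ne_zero 2 z.2)
    show ‖2 * (0 : ℂ) ^ 3 - z.1 ^ 2‖ < 3 * ‖z.1 ^ 2‖
    simpa using this⟩, by
    apply Continuous.subtype_mk
    apply Continuous.subtype_mk
    fun_prop⟩

/-- section -/
def sB : C(Cs, BB) :=
  ⟨fun z => ⟨⟨(0, z.1), by simpa using z.2⟩, by
    have := norm_sq_lt (pow_ne_zero 3 z.2)
    show ‖2 * (0 : ℂ) ^ 2 - z.1 ^ 3‖ < 3 * ‖z.1 ^ 3‖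
    simpa using this⟩, by
    apply Continuous.subtype_mk
    apply Continuous.subtype_mk
    fun_prop⟩

theorem he_aA : HE aA := by
  have key : ∀ (p : AA) (s : unitInterval),
      ‖2 * (((1 - (s : ℝ) : ℝ) : ℂ) * p.1.1.2) ^ 3 - p.1.1.1 ^ 2‖ < 3 * ‖p.1.1.1 ^ 2‖ := by
    intro p s
    have h := shrink3 p.2 (μ := (1 - (s : ℝ)) ^ 3) (pow_nonneg (by linarith [s.2.2]) 3)
      (pow_le_one₀ (by linarith [s.2.2]) (by linarith [s.2.1]))
    rw [mul_pow]
    exact_mod_cast h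
  refine HE_of_homotopyEquiv aA sA
    ⟨fun q => ⟨⟨(q.1.1.1.1, ((1 - (q.2 : ℝ) : ℝ) : ℂ) * q.1.1.1.2), (ne_of_lt3 (key q.1 q.2)).2⟩,
      key q.1 q.2⟩, ?_⟩ ⟨fun q => q.1, by fun_prop⟩ ?_ ?_ ?_ ?_
  · apply Continuous.subtype_mk
    apply Continuous.subtype_mk
    fun_prop
  · intro p
    apply Subtype.ext
    apply Subtype.ext
    simp
  · intro p
    apply Subtype.ext
    apply Subtype.ext
    simp [sA, aA]
  · intro z; rfl
  · intro z; rfl

theorem he_bB : HE bB := by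
  have key : ∀ (p : BB) (s : unitInterval),
      ‖2 * (((1 - (s : ℝ) : ℝ) : ℂ) * p.1.1.1) ^ 2 - p.1.1.2 ^ 3‖ < 3 * ‖p.1.1.2 ^ 3‖ := by
    intro p s
    have h := shrink3 p.2 (μ := (1 - (s : ℝ)) ^ 2) (pow_nonneg (by linarith [s.2.2]) 2)
      (pow_le_one₀ (by linarith [s.2.2]) (by linarith [s.2.1]))
    rw [mul_pow]
    exact_mod_cast h
  refine HE_of_homotopyEquiv bB sB
    ⟨fun q => ⟨⟨(((1 - (q.2 : ℝ) : ℝ) : ℂ) * q.1.1.1.1, q.1.1.1.2), by
      have := (ne_of_lt3 (key q.1 q.2)).2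
      rwa [add_comm] at this⟩,
      key q.1 q.2⟩, ?_⟩ ⟨fun q => q.1, by fun_prop⟩ ?_ ?_ ?_ ?_
  · apply Continuous.subtype_mk
    apply Continuous.subtype_mk
    fun_prop
  · intro p
    apply Subtype.ext
    apply Subtype.ext
    simp
  · intro p
    apply Subtype.ext
    apply Subtype.ext
    simp [sB, bB]
  · intro z; rfl
  · intro z; rfl

/-! ### the intersection -/

/-- the strip -/
abbrev Sp : Type := {w : ℂ // 1 / 3 < w.re ∧ w.re < 2 / 3}

theorem contr_Sp : Contr Sp := by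
  refine ⟨⟨1 / 2, by norm_num, by norm_num⟩,
    ⟨fun q => ⟨((1 - (q.2 : ℝ) : ℝ) : ℂ) * q.1.1 + ((q.2 : ℝ) : ℂ) * (1 / 2), ?_⟩, ?_⟩, ?_, ?_⟩
  · have h0 := q.2.2.1
    have h1 := q.2.2.2
    obtain ⟨h2, h3⟩ := q.1.2
    have e : (((1 - (q.2 : ℝ) : ℝ) : ℂ) * q.1.1 + ((q.2 : ℝ) : ℂ) * (1 / 2)).re =
        (1 - (q.2 : ℝ)) * q.1.1.re + (q.2 : ℝ) * (1 / 2) := by
      simp
    rw [e]
    constructor
    · rcases eq_or_lt_of_le h0 with h4 | h4
      · rw [← h4]; linarith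
      · nlinarith
    · rcases eq_or_lt_of_le h0 with h4 | h4
      · rw [← h4]; linarith
      · nlinarith
  · apply Continuous.subtype_mk
    fun_prop
  · intro x
    apply Subtype.ext
    simp
  · intro x
    apply Subtype.ext
    simp

theorem Sp_ne (w : Sp) : w.1 ≠ 0 := by
  intro h
  have := w.2.1
  rw [h] at this
  norm_num at this

theorem Sp_ne' (w : Sp) : 1 - w.1 ≠ 0 := by
  intro h
  have h1 : w.1 = 1 := by linear_combination -h
  have := w.2.2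
  rw [h1] at this
  norm_num at this

theorem Sp_slit (w : Sp) : (1 - w.1) / w.1 ∈ Complex.slitPlane := by
  rw [Complex.mem_slitPlane_iff_not_le_zero]
  intro h
  obtain ⟨h1, h2⟩ := Complex.le_def.1 h
  simp only [Complex.zero_re, Complex.zero_im] at h1 h2
  -- then `1 / w = 1 + v` is real and at most one
  have h3 : w.1⁻¹ = 1 + (1 - w.1) / w.1 := by
    have := Sp_ne w
    field_simp
    ring
  have him : (w.1⁻¹).im = 0 := by rw [h3]; simp [h2]
  have hre : (w.1⁻¹).re ≤ 1 := by rw [h3]; simpa using h1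
  have hn : 0 < Complex.normSq w.1 := Complex.normSq_pos.2 (Sp_ne w)
  rw [Complex.inv_im, div_eq_zero_iff] at him
  have hw : w.1.im = 0 := by
    rcases him with h | h
    · linarith
    · exact absurd h hn.ne'
  rw [Complex.inv_re, div_le_one hn, Complex.normSq_apply, hw] at hre
  have := w.2.1
  have := w.2.2
  nlinarith

/-- the cube root -/
noncomputable def rt (v : ℂ) : ℂ := v ^ ((3 : ℕ) : ℂ)⁻¹

theorem rt_pow (v : ℂ) : rt v ^ 3 = v := Complex.cpow_nat_inv_pow v (by norm_num)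

theorem rt_one : rt 1 = 1 := Complex.one_cpow _

theorem rt_cont {X : Type} [TopologicalSpace X] {f : X → ℂ} (hf : Continuous f)
    (hs : ∀ x, f x ∈ Complex.slitPlane) : Continuous fun x => rt (f x) := by
  rw [continuous_iff_continuousAt]
  intro x
  exact (continuousAt_cpow_const (hs x)).comp hf.continuousAt

theorem rt_ne {v : ℂ} (h : v ≠ 0) : rt v ≠ 0 := by
  intro h0
  apply h
  rw [← rt_pow v, h0]
  ring

theorem mem_A_iff {x y : ℂ} (h : x + y ≠ 0) :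
    ‖2 * y - x‖ < 3 * ‖x‖ ↔ 1 / 3 < (x / (x + y)).re := by
  have hn : 0 < Complex.normSq (x + y) := Complex.normSq_pos.2 h
  have e : (x / (x + y)).re = (x.re * (x.re + y.re) + x.im * (x.im + y.im)) /
      Complex.normSq (x + y) := by
    rw [Complex.div_re, Complex.add_re, Complex.add_im]
    field_simp
  rw [e, lt_div_iff₀ hn, ← sq_lt_sq₀ (norm_nonneg _) (by positivity), mul_pow,
    ← Complex.normSq_eq_norm_sq, ← Complex.normSq_eq_norm_sq, Complex.normSq_apply,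
    Complex.normSq_apply, Complex.normSq_apply]
  simp only [Complex.sub_re, Complex.sub_im, Complex.mul_re, Complex.mul_im, Complex.re_ofNat,
    Complex.im_ofNat, zero_mul, sub_zero, add_zero, Complex.add_re, Complex.add_im]
  constructor <;> intro h <;> nlinarith

theorem mem_B_iff {x y : ℂ} (h : x + y ≠ 0) :
    ‖2 * x - y‖ < 3 * ‖y‖ ↔ (x / (x + y)).re < 2 / 3 := by
  have h' : y + x ≠ 0 := by rwa [add_comm]
  rw [mem_A_iff h']
  have e : y / (y + x) = 1 - x / (x + y) := by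
    rw [add_comm y x]
    field_simp
    ring
  rw [e, Complex.sub_re, Complex.one_re]
  constructor <;> intro h <;> linarith

/-- the coordinate in the strip -/
noncomputable def stw (p : ↥(AA ∩ BB)) : Sp :=
  ⟨p.1.1.1 ^ 2 / (p.1.1.1 ^ 2 + p.1.1.2 ^ 3), (mem_A_iff p.1.2).1 p.2.1, (mem_B_iff p.1.2).1 p.2.2⟩

theorem continuous_stw : Continuous stw := by
  apply Continuous.subtype_mk
  apply Continuous.div
  · fun_prop
  · fun_prop
  · intro p; exact p.1.2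

theorem stw_v (p : ↥(AA ∩ BB)) : (1 - (stw p).1) / (stw p).1 = p.1.1.2 ^ 3 / p.1.1.1 ^ 2 := by
  have h1 := (ne_of_lt3 p.2.1).1
  have h2 := p.1.2
  show (1 - p.1.1.1 ^ 2 / (p.1.1.1 ^ 2 + p.1.1.2 ^ 3)) / (p.1.1.1 ^ 2 / (p.1.1.1 ^ 2 + p.1.1.2 ^ 3))
    = _
  have h3 : p.1.1.1 ≠ 0 := fun h => h1 (by rw [h]; ring)
  field_simp
  ring

/-- trivialisation of the intersection -/
noncomputable def eAB : Sp × Cs ≃ₜ ↥(AA ∩ BB) where
  toFun q := ⟨⟨(q.2.1 ^ 3, q.2.1 ^ 2 * rt ((1 - q.1.1) / q.1.1)), by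
      show (q.2.1 ^ 3) ^ 2 + (q.2.1 ^ 2 * rt ((1 - q.1.1) / q.1.1)) ^ 3 ≠ 0
      rw [mul_pow, rt_pow]
      have h1 := Sp_ne q.1
      have h2 := q.2.2
      have e : (q.2.1 ^ 3) ^ 2 + (q.2.1 ^ 2) ^ 3 * ((1 - q.1.1) / q.1.1) = q.2.1 ^ 6 / q.1.1 := by
        field_simp
        ring
      rw [e]
      exact div_ne_zero (pow_ne_zero 6 h2) h1⟩, by
      have h1 := Sp_ne q.1
      have h2 := q.2.2
      have e : (q.2.1 ^ 3) ^ 2 + (q.2.1 ^ 2 * rt ((1 - q.1.1) / q.1.1)) ^ 3 = q.2.1 ^ 6 / q.1.1 := by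
        rw [mul_pow, rt_pow]
        field_simp
        ring
      have hne : (q.2.1 ^ 3) ^ 2 + (q.2.1 ^ 2 * rt ((1 - q.1.1) / q.1.1)) ^ 3 ≠ 0 := by
        rw [e]
        exact div_ne_zero (pow_ne_zero 6 h2) h1
      have e2 : (q.2.1 ^ 3) ^ 2 / ((q.2.1 ^ 3) ^ 2 + (q.2.1 ^ 2 * rt ((1 - q.1.1) / q.1.1)) ^ 3) =
          q.1.1 := by
        rw [e]
        field_simp
      constructor
      · show ‖2 * (q.2.1 ^ 2 * rt ((1 - q.1.1) / q.1.1)) ^ 3 - (q.2.1 ^ 3) ^ 2‖ <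
          3 * ‖(q.2.1 ^ 3) ^ 2‖
        rw [mem_A_iff hne, e2]
        exact q.1.2.1
      · show ‖2 * (q.2.1 ^ 3) ^ 2 - (q.2.1 ^ 2 * rt ((1 - q.1.1) / q.1.1)) ^ 3‖ <
          3 * ‖(q.2.1 ^ 2 * rt ((1 - q.1.1) / q.1.1)) ^ 3‖
        rw [mem_B_iff hne, e2]
        exact q.1.2.2⟩
  invFun p := (stw p, ⟨p.1.1.1 * rt ((1 - (stw p).1) / (stw p).1) / p.1.1.2, by
    have h1 := (ne_of_lt3 p.2.1).1
    have h2 := (ne_of_lt3 p.2.2).1
    refine div_ne_zero (mul_ne_zero (fun h => h1 (by rw [h]; ring)) (rt_ne ?_))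
      (fun h => h2 (by rw [h]; ring))
    rw [stw_v]
    exact div_ne_zero h2 h1⟩)
  left_inv q := by
    have h1 := Sp_ne q.1
    have h2 := q.2.2
    have e : (q.2.1 ^ 3) ^ 2 + (q.2.1 ^ 2 * rt ((1 - q.1.1) / q.1.1)) ^ 3 = q.2.1 ^ 6 / q.1.1 := by
      rw [mul_pow, rt_pow]
      field_simp
      ring
    have e2 : (q.2.1 ^ 3) ^ 2 / ((q.2.1 ^ 3) ^ 2 + (q.2.1 ^ 2 * rt ((1 - q.1.1) / q.1.1)) ^ 3) =
        q.1.1 := by
      rw [e]
      field_simp
    have hv : rt ((1 - q.1.1) / q.1.1) ≠ 0 := rt_ne (div_ne_zero (Sp_ne' _) h1)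
    apply Prod.ext
    · apply Subtype.ext
      exact e2
    · apply Subtype.ext
      show q.2.1 ^ 3 * rt ((1 - (q.2.1 ^ 3) ^ 2 / ((q.2.1 ^ 3) ^ 2 +
        (q.2.1 ^ 2 * rt ((1 - q.1.1) / q.1.1)) ^ 3)) / ((q.2.1 ^ 3) ^ 2 / ((q.2.1 ^ 3) ^ 2 +
        (q.2.1 ^ 2 * rt ((1 - q.1.1) / q.1.1)) ^ 3))) / (q.2.1 ^ 2 * rt ((1 - q.1.1) / q.1.1)) = q.2.1
      rw [e2]
      field_simp
  right_inv p := by
    have h1 := (ne_of_lt3 p.2.1).1
    have h2 := (ne_of_lt3 p.2.2).1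
    have h1' : p.1.1.1 ≠ 0 := fun h => h1 (by rw [h]; ring)
    have h2' : p.1.1.2 ≠ 0 := fun h => h2 (by rw [h]; ring)
    have e := rt_pow ((1 - (stw p).1) / (stw p).1)
    rw [stw_v] at e
    apply Subtype.ext
    apply Subtype.ext
    apply Prod.ext
    · show (p.1.1.1 * rt ((1 - (stw p).1) / (stw p).1) / p.1.1.2) ^ 3 = p.1.1.1
      rw [stw_v, div_pow, mul_pow, e]
      field_simp
    · show (p.1.1.1 * rt ((1 - (stw p).1) / (stw p).1) / p.1.1.2) ^ 2 *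
        rt ((1 - (stw p).1) / (stw p).1) = p.1.1.2
      rw [stw_v]
      have : (p.1.1.1 * rt (p.1.1.2 ^ 3 / p.1.1.1 ^ 2) / p.1.1.2) ^ 2 *
          rt (p.1.1.2 ^ 3 / p.1.1.1 ^ 2) = p.1.1.1 ^ 2 / p.1.1.2 ^ 2 *
          rt (p.1.1.2 ^ 3 / p.1.1.1 ^ 2) ^ 3 := by ring
      rw [this, e]
      field_simp
  continuous_toFun := by
    apply Continuous.subtype_mk
    apply Continuous.subtype_mk
    refine Continuous.prodMk (by fun_prop) (Continuous.mul (by fun_prop) ?_)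
    refine rt_cont ?_ fun q => Sp_slit q.1
    refine Continuous.div (by fun_prop) (by fun_prop) fun q => Sp_ne q.1
  continuous_invFun := by
    refine Continuous.prodMk continuous_stw ?_
    apply Continuous.subtype_mk
    refine Continuous.div (Continuous.mul (by fun_prop) ?_) (by fun_prop) ?_
    · refine rt_cont ?_ fun p => Sp_slit (stw p)
      have h : Continuous fun p => (stw p).1 := continuous_subtype_val.comp continuous_stw
      exact Continuous.div (continuous_const.sub h) h fun p => Sp_ne (stw p)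
    · intro p h
      exact (ne_of_lt3 p.2.2).1 (by rw [h]; ring)

/-- the trivialisation as a map -/
noncomputable def eABm : C(Sp × Cs, ↥(AA ∩ BB)) := ⟨eAB, eAB.continuous⟩

/-- the section of the trivial bundle -/
noncomputable def cc0 : C(Cs, Sp × Cs) :=
  ⟨fun z => (⟨1 / 2, by norm_num, by norm_num⟩, z), Continuous.prodMk continuous_const continuous_id⟩

/-- `ν ↦ (ν ^ 3, ν ^ 2)` -/
noncomputable def cc : C(Cs, ↥(AA ∩ BB)) := eABm.comp cc0

theorem cc_val (z : Cs) : (cc z).1.1 = (z.1 ^ 3, z.1 ^ 2) := by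
  show (z.1 ^ 3, z.1 ^ 2 * rt ((1 - 1 / 2) / (1 / 2))) = _
  have : ((1 - 1 / 2) / (1 / 2) : ℂ) = 1 := by norm_num
  rw [this, rt_one, mul_one]

theorem HE_id {X : Type} [TopologicalSpace X] : HE (ContinuousMap.id X) :=
  HE_of_homeo (Homeomorph.refl X) _ fun _ => rfl

theorem he_cc : HE cc := by
  have h1 : HE eABm := HE_of_homeo eAB _ fun _ => rfl
  have h2 : HE cc0 := by
    apply HE.of_comp_left (HE_snd contr_Sp)
    exact HE_id
  exact HE.comp h1 h2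

theorem aA_cc : (aA.comp (inl AA BB)).comp cc = pw 3 := by
  apply ContinuousMap.ext
  intro z
  apply Subtype.ext
  show (cc z).1.1.1 = z.1 ^ 3
  rw [cc_val]

theorem bB_cc : (bB.comp (inr AA BB)).comp cc = pw 2 := by
  apply ContinuousMap.ext
  intro z
  apply Subtype.ext
  show (cc z).1.1.2 = z.1 ^ 2
  rw [cc_val]

theorem phi_sA : (phi.comp (sub AA)).comp sA = pw 2 := by
  apply ContinuousMap.ext
  intro z
  apply Subtype.ext
  show z.1 ^ 2 + (0 : ℂ) ^ 3 = z.1 ^ 2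
  ring

theorem phi_sB : (phi.comp (sub BB)).comp sB = pw 3 := by
  apply ContinuousMap.ext
  intro z
  apply Subtype.ext
  show (0 : ℂ) ^ 2 + z.1 ^ 3 = z.1 ^ 3
  ring

end Pool.Agent.N152
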