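import Pool.Agent.N152.Tref

/-! The map `(z, t) ↦ z ^ 2 + t ^ 3` is a homology equivalence: Mayer-Vietoris. -/

set_option autoImplicit false

namespace Pool.Agent.N152

open Pool.Agent.Helper922.HB Pool.Agent.Helper10.Dupin

section

variable {X : Type} [TopologicalSpace X] {c : C(Cs, X)}

theorem like_zero (hc : HE c) {z : Sing X 0 →₀ ℤ} (hz : ag z = 0) : z ∈ Bdy X 0 := by
  obtain ⟨y, -, hy⟩ := (hc 0).2 z Submodule.mem_top
  have h1 := ag_bdy hy
  rw [map_sub, ag_push, hz, zero_sub, neg_eq_zero] at h1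
  have h2 := push_mem_Bdy c 0 _ (bdy_of_ag h1)
  have h3 := (Bdy X 0).add_mem hy h2
  rwa [sub_add_cancel] at h3

theorem like_high (hc : HE c) (n : ℕ) : Cyc X (n + 2) ≤ Bdy X (n + 2) := by
  intro z hz
  obtain ⟨y, hy1, hy⟩ := (hc (n + 2)).2 z hz
  have h2 := push_mem_Bdy c (n + 2) _ (cs_high n hy1)
  have h3 := (Bdy X (n + 2)).add_mem hy h2
  rwa [sub_add_cancel] at h3

theorem like_gen (hc : HE c) {g : Sing Cs 1 →₀ ℤ}
    (h1 : ∀ z ∈ Cyc Cs 1, ∃ a : ℤ, z - a • g ∈ Bdy Cs 1) {z : Sing X 1 →₀ ℤ}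
    (hz : z ∈ Cyc X 1) : ∃ a : ℤ, z - a • push c 1 g ∈ Bdy X 1 := by
  obtain ⟨y, hy1, hy⟩ := (hc 1).2 z hz
  obtain ⟨a, ha⟩ := h1 y hy1
  refine ⟨a, ?_⟩
  have h2 := push_mem_Bdy c 1 _ ha
  rw [map_sub, map_smul] at h2
  have h3 := (Bdy X 1).add_mem hy h2
  rwa [sub_add_sub_cancel] at h3

end

theorem he_sA : HE sA := HE.of_comp_left he_aA (by exact HE_id)

theorem he_sB : HE sB := HE.of_comp_left he_bB (by exact HE_id)

theorem cyc1_of {X : Type} [TopologicalSpace X] {x : Sing X 1 →₀ ℤ} (h : bdry X 0 x = 0) :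
    x ∈ Cyc X 1 := h

theorem he_phi : HE phi := by
  obtain ⟨g, hg, hgen, hinj, hpow⟩ := cs_gen
  have p2 := hpow 2 (by norm_num)
  have p3 := hpow 3 (by norm_num)
  -- the relations
  have hcc : push cc 1 g ∈ Cyc _ 1 := push_mem_Cyc _ _ _ hg
  have hsA : push sA 1 g ∈ Cyc _ 1 := push_mem_Cyc _ _ _ hg
  have hsB : push sB 1 g ∈ Cyc _ 1 := push_mem_Cyc _ _ _ hg
  have aAsA : ∀ n (x : Sing Cs n →₀ ℤ), push aA n (push sA n x) = x := by
    intro n x
    rw [push_push]
    exact push_id n x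
  have bBsB : ∀ n (x : Sing Cs n →₀ ℤ), push bB n (push sB n x) = x := by
    intro n x
    rw [push_push]
    exact push_id n x
  have rA : push (inl AA BB) 1 (push cc 1 g) - (3 : ℤ) • push sA 1 g ∈ Bdy AA 1 := by
    apply (he_aA 1).1
    · exact (Cyc _ 1).sub_mem (push_mem_Cyc _ _ _ hcc) ((Cyc _ 1).smul_mem _ hsA)
    · rw [map_sub, map_smul, aAsA, push_push, push_push, aA_cc]
      exact p3
  have rB : push (inr AA BB) 1 (push cc 1 g) - (2 : ℤ) • push sB 1 g ∈ Bdy BB 1 := by
    apply (he_bB 1).1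
    · exact (Cyc _ 1).sub_mem (push_mem_Cyc _ _ _ hcc) ((Cyc _ 1).smul_mem _ hsB)
    · rw [map_sub, map_smul, bBsB, push_push, push_push, bB_cc]
      exact p2
  -- `3 sA g = 2 sB g` in `KK`
  have rAB : (3 : ℤ) • push (sub AA) 1 (push sA 1 g) - (2 : ℤ) • push (sub BB) 1 (push sB 1 g) ∈
      Bdy KK 1 := by
    have h1 := push_mem_Bdy (sub AA) 1 _ rA
    have h2 := push_mem_Bdy (sub BB) 1 _ rB
    rw [map_sub, map_smul, sub_inl_inr] at h1
    rw [map_sub, map_smul] at h2
    have h3 := (Bdy KK 1).sub_mem h2 h1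
    rwa [sub_sub_sub_cancel_left] at h3
  have phA : ∀ n (x : Sing Cs n →₀ ℤ), push phi n (push (sub AA) n (push sA n x)) =
      push (pw 2) n x := by
    intro n x
    rw [push_push, push_push, phi_sA]
  have phB : ∀ n (x : Sing Cs n →₀ ℤ), push phi n (push (sub BB) n (push sB n x)) =
      push (pw 3) n x := by
    intro n x
    rw [push_push, push_push, phi_sB]
  intro n
  match n with
  | 0 =>
    constructor
    · intro z _ hb
      have hz := ag_bdy hb
      rw [ag_push] at hz
      obtain ⟨u, v, rfl⟩ := mv_zero AA BB cov_AB z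
      rw [map_add, ag_push, ag_push] at hz
      let p : ↥(AA ∩ BB) := cc ⟨1, one_ne_zero⟩
      let d : Sing ↥(AA ∩ BB) 0 →₀ ℤ := Finsupp.single (ContinuousMap.const _ p) (ag u)
      have h1 : u - push (inl AA BB) 0 d ∈ Bdy _ 0 := by
        apply like_zero he_sA
        rw [map_sub, ag_push, ag_single, sub_self]
      have h2 : v + push (inr AA BB) 0 d ∈ Bdy _ 0 := by
        apply like_zero he_sB
        rw [map_add, ag_push, ag_single, add_comm]
        exact hz
      have h3 := (Bdy KK 0).add_mem (push_mem_Bdy (sub AA) 0 _ h1) (push_mem_Bdy (sub BB) 0 _ h2)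
      rw [map_sub, map_add, sub_inl_inr] at h3
      convert h3 using 1
      abel
    · intro b _
      let p : KK := (cc ⟨1, one_ne_zero⟩).1
      refine ⟨Finsupp.single (ContinuousMap.const _ p) (ag b), Submodule.mem_top, ?_⟩
      apply bdy_of_ag
      rw [map_sub, ag_push, ag_single, sub_self]
  | 1 =>
    constructor
    · intro z hz hb
      obtain ⟨u, v, d, hd, hs, hu, hv⟩ := mv_split AA BB isOpen_AA isOpen_BB cov_AB 0 z hz
      have hd0 : ag d = 0 := by
        have : push (inl AA BB) 0 d ∈ Bdy _ 0 := ⟨u, hu⟩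
        have h1 := ag_bdy this
        rwa [ag_push] at h1
      obtain ⟨e, he⟩ := like_zero he_cc hd0
      have hu1 : u - push (inl AA BB) 1 e ∈ Cyc _ 1 := by
        apply cyc1_of
        rw [map_sub, bdry_push, he, hu, sub_self]
      have hv1 : v + push (inr AA BB) 1 e ∈ Cyc _ 1 := by
        apply cyc1_of
        rw [map_add, bdry_push, he, hv, neg_add_cancel]
      obtain ⟨m, hm⟩ := like_gen he_sA hgen hu1
      obtain ⟨l, hl⟩ := like_gen he_sB hgen hv1
      have key : z - (m • push (sub AA) 1 (push sA 1 g) + l • push (sub BB) 1 (push sB 1 g)) ∈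
          Bdy KK 1 := by
        have h1 := push_mem_Bdy (sub AA) 1 _ hm
        have h2 := push_mem_Bdy (sub BB) 1 _ hl
        rw [map_sub, map_sub, map_smul, sub_inl_inr] at h1
        rw [map_sub, map_add, map_smul] at h2
        have h3 := (Bdy KK 1).add_mem hs ((Bdy KK 1).add_mem h1 h2)
        convert h3 using 1
        abel
      have h4 := push_mem_Bdy phi 1 _ key
      rw [map_sub, map_add, map_smul, map_smul, phA, phB] at h4
      have h5 : (2 * m + 3 * l) • g ∈ Bdy Cs 1 := by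
        have h6 := (Bdy Cs 1).sub_mem hb h4
        have h7 := (Bdy Cs 1).smul_mem m p2
        have h8 := (Bdy Cs 1).smul_mem l p3
        have h9 := (Bdy Cs 1).sub_mem h6 ((Bdy Cs 1).add_mem h7 h8)
        convert h9 using 1
        push_cast
        module
      have h6 := hinj _ h5
      obtain ⟨k, hk⟩ : ∃ k : ℤ, m = 3 * k := ⟨m + l, by omega⟩
      have hl' : l = -(2 * k) := by omega
      have h7 := (Bdy KK 1).add_mem key ((Bdy KK 1).smul_mem k rAB)
      rw [hk, hl'] at h7
      convert h7 using 1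
      module
    · intro b hb
      obtain ⟨a, ha⟩ := hgen b hb
      refine ⟨a • (push (sub BB) 1 (push sB 1 g) - push (sub AA) 1 (push sA 1 g)),
        (Cyc _ 1).smul_mem _ ((Cyc _ 1).sub_mem (push_mem_Cyc _ _ _ hsB)
          (push_mem_Cyc _ _ _ hsA)), ?_⟩
      rw [map_smul, map_sub, phA, phB]
      have h1 := (Bdy Cs 1).smul_mem a ((Bdy Cs 1).sub_mem p3 p2)
      have h2 := (Bdy Cs 1).sub_mem ha h1
      convert h2 using 1
      push_cast
      module
  | 2 =>
    constructor
    · intro z hz _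
      obtain ⟨u, v, d, hd, hs, hu, hv⟩ := mv_split AA BB isOpen_AA isOpen_BB cov_AB 1 z hz
      obtain ⟨k, hk⟩ := like_gen he_cc hgen hd
      have h1 : (3 * k) • g ∈ Bdy Cs 1 := by
        have h2 : push (inl AA BB) 1 d ∈ Bdy _ 1 := ⟨u, hu⟩
        have h3 := push_mem_Bdy (inl AA BB) 1 _ hk
        rw [map_sub, map_smul] at h3
        have h4 := (Bdy _ 1).sub_mem h2 h3
        have h5 := (Bdy _ 1).sub_mem h4 ((Bdy _ 1).smul_mem k rA)
        have h6 := push_mem_Bdy aA 1 _ h5
        have e : push (inl AA BB) 1 d - (push (inl AA BB) 1 d - k • push (inl AA BB) 1 (push cc 1 g))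
            - k • (push (inl AA BB) 1 (push cc 1 g) - (3 : ℤ) • push sA 1 g) =
            (3 * k) • push sA 1 g := by module
        rw [e, map_smul, aAsA] at h6
        exact h6
      have h2 : k = 0 := by
        have := hinj _ h1
        omega
      rw [h2, zero_smul, sub_zero] at hk
      obtain ⟨e, he⟩ := hk
      have hu1 : u - push (inl AA BB) 2 e ∈ Cyc _ 2 := by
        apply cyc_of_bdry_zero
        rw [map_sub, bdry_push, he, hu, sub_self]
      have hv1 : v + push (inr AA BB) 2 e ∈ Cyc _ 2 := by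
        apply cyc_of_bdry_zero
        rw [map_add, bdry_push, he, hv, neg_add_cancel]
      have h3 := push_mem_Bdy (sub AA) 2 _ (like_high he_sA 0 hu1)
      have h4 := push_mem_Bdy (sub BB) 2 _ (like_high he_sB 0 hv1)
      rw [map_sub, sub_inl_inr] at h3
      rw [map_add] at h4
      have h5 := (Bdy KK 2).add_mem hs ((Bdy KK 2).add_mem h3 h4)
      convert h5 using 1
      abel
    · intro b hb
      refine ⟨0, Submodule.zero_mem _, ?_⟩
      rw [map_zero, sub_zero]
      exact cs_high 0 hb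
  | (n + 3) =>
    constructor
    · intro z hz _
      obtain ⟨u, v, d, hd, hs, hu, hv⟩ := mv_split AA BB isOpen_AA isOpen_BB cov_AB (n + 2) z hz
      obtain ⟨e, he⟩ := like_high he_cc n hd
      have hu1 : u - push (inl AA BB) (n + 3) e ∈ Cyc _ (n + 3) := by
        apply cyc_of_bdry_zero
        rw [map_sub, bdry_push, he, hu, sub_self]
      have hv1 : v + push (inr AA BB) (n + 3) e ∈ Cyc _ (n + 3) := by
        apply cyc_of_bdry_zero
        rw [map_add, bdry_push, he, hv, neg_add_cancel]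
      have h3 := push_mem_Bdy (sub AA) (n + 3) _ (like_high he_sA (n + 1) hu1)
      have h4 := push_mem_Bdy (sub BB) (n + 3) _ (like_high he_sB (n + 1) hv1)
      rw [map_sub, sub_inl_inr] at h3
      rw [map_add] at h4
      have h5 := (Bdy KK (n + 3)).add_mem hs ((Bdy KK (n + 3)).add_mem h3 h4)
      convert h5 using 1
      abel
    · intro b hb
      refine ⟨0, Submodule.zero_mem _, ?_⟩
      rw [map_zero, sub_zero]
      exact cs_high (n + 1) hb

end Pool.Agent.N152
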