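import Pool.Agent.N657.ZS.Stm

/-!
# The total flux through a plane of a finite closed configuration is zero: proof of `S_TELN`
-/

namespace Pool.Agent.N152.ZS

open Pool.Agent.TH964.CF Pool.Agent.N623.NA Pool.Agent.N657.ZS

/-- A telescoping sum. -/
theorem tel_sum {M : Type} [AddCommGroup M] (f : ℤ → M) (n : ℕ) :
    ∑ t ∈ Finset.Icc (-(n : ℤ)) (-1), (f (t + 1) - f t) = f 0 - f (-(n : ℤ)) := by
  induction n with
  | zero => simp
  | succ n ih =>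
    have h1 : Finset.Icc (-((n + 1 : ℕ) : ℤ)) (-1) =
        insert (-((n + 1 : ℕ) : ℤ)) (Finset.Icc (-(n : ℤ)) (-1)) := by
      ext t
      simp only [Finset.mem_Icc, Finset.mem_insert]
      push_cast
      omega
    rw [h1, Finset.sum_insert (by simp only [Finset.mem_Icc]; push_cast; omega), ih]
    have h2 : -((n + 1 : ℕ) : ℤ) + 1 = -(n : ℤ) := by push_cast; ring
    rw [h2]
    abel

theorem tel_zero {M : Type} [AddCommGroup M] (f : ℤ → M) (S : ℤ) (h0 : f 0 = 0)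
    (hS : f (-S) = 0) : ∑ t ∈ Finset.Icc (-S) (-1), (f (t + 1) - f t) = 0 := by
  rcases le_or_gt S 0 with h | h
  · rw [Finset.Icc_eq_empty (by omega), Finset.sum_empty]
  · obtain ⟨n, rfl⟩ := Int.eq_ofNat_of_zero_le h.le
    rw [tel_sum, h0, hS, sub_zero]

/-- The flux is closed. -/
theorem fl_closed {q : ℕ} (θ : Lk ℤ → ZMod q) (z : Fin 4 → ℤ) (i j k : Fin 4) :
    fl θ (z + ev ℤ i) j k - fl θ z j k - (fl θ (z + ev ℤ j) i k - fl θ z i k) +
      (fl θ (z + ev ℤ k) i j - fl θ z i j) = 0 := by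
  unfold fl
  rw [add_right_comm z (ev ℤ j) (ev ℤ i), add_right_comm z (ev ℤ k) (ev ℤ i),
    add_right_comm z (ev ℤ k) (ev ℤ j)]
  ring

theorem fW_of_mem {q : ℕ} {W : Set (Fin 4 → ℤ)} {θ : Lk ℤ → ZMod q} {z : Fin 4 → ℤ}
    (h : z ∈ W) (i j : Fin 4) : fW W θ z i j = fl θ z i j := by
  unfold fW
  rw [if_pos h]

theorem fW_of_notMem {q : ℕ} {W : Set (Fin 4 → ℤ)} {θ : Lk ℤ → ZMod q} {z : Fin 4 → ℤ}
    (h : z ∉ W) (i j : Fin 4) : fW W θ z i j = 0 := by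
  unfold fW
  rw [if_neg h]

theorem ev_le (i k : Fin 4) : 0 ≤ ev ℤ i k ∧ ev ℤ i k ≤ 1 := by
  unfold ev
  by_cases h : k = i
  · subst h; simp
  · simp [h]

/-- Restriction of the closedness to a set. -/
theorem fW_closed {q : ℕ} (θ : Lk ℤ → ZMod q) (A : Set (Fin 4 → ℤ)) (τ : ℤ)
    (hA : ∀ z ∈ A, ∀ z', adj z z' → z' 1 = τ → z' ∉ A →
      ∀ i j : Fin 4, i < j → i ≠ 1 → j ≠ 1 → fl θ z' i j = 0) (z : Fin 4 → ℤ) (hz : z 1 = τ) :
    fW A θ (z + ev ℤ 0) 2 3 - fW A θ z 2 3 - (fW A θ (z + ev ℤ 2) 0 3 - fW A θ z 0 3) +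
      (fW A θ (z + ev ℤ 3) 0 2 - fW A θ z 0 2) = 0 := by
  -- the four base sites
  let B : Set (Fin 4 → ℤ) := {z, z + ev ℤ 0, z + ev ℤ 2, z + ev ℤ 3}
  have hB1 : ∀ w ∈ B, w 1 = τ := by
    rintro w (rfl | rfl | rfl | rfl)
    · exact hz
    · simp [ev, hz]
    · simp [ev, hz]
    · simp [ev, hz]
  have hB2 : ∀ w ∈ B, ∀ k, z k ≤ w k ∧ w k ≤ z k + 1 := by
    rintro w (rfl | rfl | rfl | rfl) k
    · omega
    all_goals
      rw [Pi.add_apply]
    · have := ev_le 0 k; omega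
    · have := ev_le 2 k; omega
    · have := ev_le 3 k; omega
  have hB3 : ∀ w ∈ B, ∀ w' ∈ B, adj w w' := by
    intro w hw w' hw' k
    have h1 := hB2 w hw k
    have h2 := hB2 w' hw' k
    rw [abs_le]
    omega
  by_cases h : ∃ w ∈ B, w ∈ A
  · obtain ⟨w, hw, hwA⟩ := h
    have key : ∀ w' ∈ B, ∀ i j : Fin 4, i < j → i ≠ 1 → j ≠ 1 → fW A θ w' i j = fl θ w' i j := by
      intro w' hw' i j hij hi hj
      by_cases h1 : w' ∈ A
      · exact fW_of_mem h1 i j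
      · rw [fW_of_notMem h1, hA w hwA w' (hB3 w hw w' hw') (hB1 w' hw') h1 i j hij hi hj]
    have m0 : z ∈ B := Or.inl rfl
    have m1 : z + ev ℤ 0 ∈ B := Or.inr (Or.inl rfl)
    have m2 : z + ev ℤ 2 ∈ B := Or.inr (Or.inr (Or.inl rfl))
    have m3 : z + ev ℤ 3 ∈ B := Or.inr (Or.inr (Or.inr rfl))
    rw [key _ m1 2 3 (by decide) (by decide) (by decide),
      key _ m0 2 3 (by decide) (by decide) (by decide),
      key _ m2 0 3 (by decide) (by decide) (by decide),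
      key _ m0 0 3 (by decide) (by decide) (by decide),
      key _ m3 0 2 (by decide) (by decide) (by decide),
      key _ m0 0 2 (by decide) (by decide) (by decide)]
    exact fl_closed θ z 0 2 3
  · push Not at h
    rw [fW_of_notMem (h _ (Or.inl rfl)), fW_of_notMem (h _ (Or.inl rfl)),
      fW_of_notMem (h _ (Or.inl rfl)), fW_of_notMem (h _ (Or.inr (Or.inl rfl))),
      fW_of_notMem (h _ (Or.inr (Or.inr (Or.inl rfl)))),
      fW_of_notMem (h _ (Or.inr (Or.inr (Or.inr rfl))))]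
    simp

theorem vec_add0 (t τ s r : ℤ) : (![t, τ, s, r] : Fin 4 → ℤ) + ev ℤ 0 = ![t + 1, τ, s, r] := by
  funext k
  fin_cases k <;> simp [ev]

theorem vec_add2 (t τ s r : ℤ) : (![t, τ, s, r] : Fin 4 → ℤ) + ev ℤ 2 = ![t, τ, s + 1, r] := by
  funext k
  fin_cases k <;> simp [ev]

theorem vec_add3 (t τ s r : ℤ) : (![t, τ, s, r] : Fin 4 → ℤ) + ev ℤ 3 = ![t, τ, s, r + 1] := by
  funext k
  fin_cases k <;> simp [ev]

theorem main : Pool.Agent.N657.ZS.S_TELN := by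
  intro q S τ θ A hA1 hA2
  let Gf : ℤ → ZMod q := fun r => ∑ t ∈ Finset.Icc (-S) (-1), ∑ s ∈ Finset.Icc (-S) (-1),
    fW A θ ![t, τ, s, r] 0 2
  have h0 : ∀ z : Fin 4 → ℤ, (z 0 = 0 ∨ z 0 = -S ∨ z 2 = 0 ∨ z 2 = -S ∨ z 3 = S) →
      ∀ i j, fW A θ z i j = 0 := by
    intro z hz i j
    refine fW_of_notMem (fun hzA => ?_) i j
    have h1 := hA1 z hzA
    have h2 := abs_lt.1 h1.2.2.2.2.1
    omega
  have hstep : ∀ r, Gf (r + 1) = Gf r := by
    intro r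
    have h1 : ∑ s ∈ Finset.Icc (-S) (-1), ∑ t ∈ Finset.Icc (-S) (-1),
        (fW A θ ![t + 1, τ, s, r] 2 3 - fW A θ ![t, τ, s, r] 2 3) = 0 :=
      Finset.sum_eq_zero fun s _ => tel_zero (fun t => fW A θ ![t, τ, s, r] 2 3) S
        (h0 _ (Or.inl rfl) _ _) (h0 _ (Or.inr (Or.inl rfl)) _ _)
    have h2 : ∑ t ∈ Finset.Icc (-S) (-1), ∑ s ∈ Finset.Icc (-S) (-1),
        (fW A θ ![t, τ, s + 1, r] 0 3 - fW A θ ![t, τ, s, r] 0 3) = 0 :=
      Finset.sum_eq_zero fun t _ => tel_zero (fun s => fW A θ ![t, τ, s, r] 0 3) S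
        (h0 _ (Or.inr (Or.inr (Or.inl rfl))) _ _)
        (h0 _ (Or.inr (Or.inr (Or.inr (Or.inl rfl)))) _ _)
    have h3 : Gf (r + 1) - Gf r = ∑ t ∈ Finset.Icc (-S) (-1), ∑ s ∈ Finset.Icc (-S) (-1),
        (fW A θ ![t, τ, s, r + 1] 0 2 - fW A θ ![t, τ, s, r] 0 2) := by
      simp only [Gf, Finset.sum_sub_distrib]
    rw [Finset.sum_comm] at h1
    have h4 : ∑ t ∈ Finset.Icc (-S) (-1), ∑ s ∈ Finset.Icc (-S) (-1),
        ((fW A θ ![t + 1, τ, s, r] 2 3 - fW A θ ![t, τ, s, r] 2 3) -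
          (fW A θ ![t, τ, s + 1, r] 0 3 - fW A θ ![t, τ, s, r] 0 3) +
          (fW A θ ![t, τ, s, r + 1] 0 2 - fW A θ ![t, τ, s, r] 0 2)) = 0 := by
      refine Finset.sum_eq_zero fun t _ => Finset.sum_eq_zero fun s _ => ?_
      have h5 := fW_closed θ A τ hA2 ![t, τ, s, r] rfl
      rwa [vec_add0, vec_add2, vec_add3] at h5
    simp only [Finset.sum_add_distrib] at h4
    have h5 : ∑ t ∈ Finset.Icc (-S) (-1), ∑ s ∈ Finset.Icc (-S) (-1),
        ((fW A θ ![t + 1, τ, s, r] 2 3 - fW A θ ![t, τ, s, r] 2 3) -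
          (fW A θ ![t, τ, s + 1, r] 0 3 - fW A θ ![t, τ, s, r] 0 3)) = 0 := by
      rw [Finset.sum_congr rfl fun t _ => Finset.sum_sub_distrib _ _, Finset.sum_sub_distrib, h1,
        h2, sub_zero]
    rw [h5, zero_add, ← h3] at h4
    exact sub_eq_zero.1 h4
  have hall : ∀ n : ℕ, Gf n = Gf 0 := by
    intro n
    induction n with
    | zero => rfl
    | succ n ih =>
      rw [← ih, ← hstep n]
      push_cast
      rfl
  change Gf 0 = 0
  rcases le_or_gt S 0 with h | h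
  · change ∑ t ∈ Finset.Icc (-S) (-1), _ = _
    rw [Finset.Icc_eq_empty (by omega), Finset.sum_empty]
  · obtain ⟨n, hn⟩ := Int.eq_ofNat_of_zero_le h.le
    rw [← hall n]
    refine Finset.sum_eq_zero fun t _ => Finset.sum_eq_zero fun s _ => h0 _ ?_ _ _
    right; right; right; right
    rw [hn]
    rfl

end Pool.Agent.N152.ZS
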